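import Mathlib

/-!
Definitions used in the statements about non-bases of almost all matroids.
-/

set_option autoImplicit false

namespace Pool.Agent.Matroid6d

/-- `X` is a non-basis of `M`: it has as many elements as the bases of `M` have, and it is not a
basis. -/
def IsNonbasis {n : ℕ} (M : Matroid (Fin n)) (X : Set (Fin n)) : Prop :=
  X.encard = M.eRank ∧ ¬ M.IsBase X

/-- The family cut out by a collection `𝓕` of subsets of the ground set: all sets `X` with
rank-many elements for which `|X ∩ F| > r(F)` for some `F ∈ 𝓕`. -/
def cutOut {n : ℕ} (M : Matroid (Fin n)) (𝓕 : Finset (Set (Fin n))) : Set (Set (Fin n)) :=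
  {X | X.encard = M.eRank ∧ ∃ F ∈ 𝓕, M.eRk F < (X ∩ F).encard}

/-- `K` is a union of connected components of the graph on the non-bases of `M`, in which `X` and
`Y` are adjacent exactly when they have all but one of their elements in common. -/
def IsComponentUnion {n : ℕ} (M : Matroid (Fin n)) (K : Set (Set (Fin n))) : Prop :=
  (∀ X ∈ K, IsNonbasis M X) ∧
    ∀ X ∈ K, ∀ Y, IsNonbasis M Y → (X ∩ Y).encard + 1 = M.eRank → Y ∈ K

/-- A sparse paving matroid: every dependent set with rank-many elements is a circuit and a closed
set, that is, a circuit-hyperplane. -/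
def SparsePaving {n : ℕ} (M : Matroid (Fin n)) : Prop :=
  ∀ X B : Set (Fin n), M.IsBase B → X.ncard = B.ncard → M.Dep X →
    M.IsCircuit X ∧ M.closure X = X

end Pool.Agent.Matroid6d
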