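import Pool.Agent.Matroid6d.Count
import Pool.Agent.Matroid6d.Defs

/-!
Upper bound for the number of matroids of a given rank, and a lower bound for the number of sparse
paving matroids (Graham and Sloane).
-/

set_option autoImplicit false

namespace Pool.Agent.Matroid6d

open Finset

variable {n : ℕ}

lemma card_rank_le (𝒞 : Set (Matroid (Fin n))) (hE : ∀ M ∈ 𝒞, M.E = Set.univ) (r : ℕ) :
    {M ∈ 𝒞 | ∀ X, Bs M X → X.card = r}.ncard ≤ 2 ^ (n.choose r) := by
  classical
  have h1 : ((powersetCard r (univ : Finset (Fin n))).powerset : Set (Finset (Finset (Fin n)))).ncard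
      = 2 ^ (n.choose r) := by
    rw [Set.ncard_coe_finset, card_powerset, card_powersetCard, card_univ, Fintype.card_fin]
  rw [← h1]
  apply Set.ncard_le_ncard_of_injOn (fun M => univ.filter (fun X => Bs M X))
  · rintro M ⟨hM, hr⟩
    rw [mem_coe, mem_powerset]
    intro X hX
    rw [mem_filter] at hX
    rw [mem_powersetCard]
    exact ⟨subset_univ _, hr X hX.2⟩
  · rintro M ⟨hM, _⟩ N ⟨hN, _⟩ h
    apply ext_bs (hE M hM) (hE N hN)
    intro X
    have := Finset.ext_iff.1 h X
    simpa using this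

/-- The complement of a stable family has the exchange property. -/
lemma exch_of_stable (r : ℕ) (S : Finset (Finset (Fin n))) (hS : Stable S) :
    Exch (fun X => X.card = r ∧ X ∉ S) := by
  classical
  rintro B₁ B₂ ⟨hc₁, h₁⟩ ⟨hc₂, h₂⟩ x hx₁ hx₂
  by_contra hcon
  push Not at hcon
  have hcc : (B₁ \ B₂).card = (B₂ \ B₁).card := card_sdiff_comm' (by omega)
  have hpos : 0 < (B₁ \ B₂).card := card_pos.2 ⟨x, mem_sdiff.2 ⟨hx₁, hx₂⟩⟩
  obtain ⟨y, hy⟩ : (B₂ \ B₁).Nonempty := by rw [← card_pos]; omega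
  rw [mem_sdiff] at hy
  have hmem : ∀ y ∈ B₂, y ∉ B₁ → insert y (B₁.erase x) ∈ S := by
    intro y hy2 hy1
    by_contra h
    exact h (hcon y hy2 hy1 (by rw [card_swap hx₁ hy1, hc₁]))
  have huniq : ∀ y' ∈ B₂, y' ∉ B₁ → y' = y := by
    intro y' hy'2 hy'1
    by_contra hne
    have hyx : y ∉ B₁.erase x := fun h => hy.2 (mem_of_mem_erase h)
    have hne' : insert y (B₁.erase x) ≠ insert y' (B₁.erase x) := by
      intro h
      have : y ∈ insert y' (B₁.erase x) := h ▸ mem_insert_self _ _
      rw [mem_insert] at this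
      rcases this with h | h
      · exact hne h.symm
      · exact hyx h
    have h2 := hS _ (hmem y hy.1 hy.2) _ (hmem y' hy'2 hy'1) hne'
    have hsub : insert y (B₁.erase x) \ insert y' (B₁.erase x) ⊆ {y} := by
      intro z hz
      simp only [mem_sdiff, mem_insert, mem_singleton] at hz ⊢
      rcases hz with ⟨h | h, h'⟩
      · exact h
      · exact absurd (Or.inr h) h'
    have := card_le_card hsub
    rw [card_singleton] at this
    omega
  have hone : B₂ \ B₁ ⊆ {y} := by
    intro z hz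
    rw [mem_sdiff] at hz
    rw [mem_singleton]
    exact huniq z hz.1 hz.2
  have hle1 : (B₂ \ B₁).card ≤ 1 := by
    have := card_le_card hone
    rwa [card_singleton] at this
  have hB12 : B₁ \ B₂ = {x} := by
    symm
    apply eq_of_subset_of_card_le
    · rw [singleton_subset_iff, mem_sdiff]; exact ⟨hx₁, hx₂⟩
    · rw [card_singleton]; omega
  have hB₂ : B₂ = insert y (B₁.erase x) := by
    symm
    apply eq_of_subset_of_card_le
    · intro z hz
      rw [mem_insert] at hz
      rcases hz with rfl | hz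
      · exact hy.1
      · rw [mem_erase] at hz
        by_contra hzB
        have : z ∈ B₁ \ B₂ := mem_sdiff.2 ⟨hz.2, hzB⟩
        rw [hB12, mem_singleton] at this
        exact hz.1 this
    · rw [card_swap hx₁ hy.2]; omega
  exact h₂ (hB₂ ▸ hmem y hy.1 hy.2)

lemma swap_notMem_of_stable {S : Finset (Finset (Fin n))} (hS : Stable S) {X : Finset (Fin n)}
    (hX : X ∈ S) (a : Fin n) {b : Fin n} (hb : b ∉ X) : insert b (X.erase a) ∉ S := by
  classical
  intro h
  have hne : X ≠ insert b (X.erase a) := by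
    intro h'
    exact hb (h' ▸ mem_insert_self _ _)
  have h2 := hS X hX _ h hne
  have hsub : X \ insert b (X.erase a) ⊆ {a} := by
    intro z hz
    rw [mem_sdiff, mem_insert, mem_erase] at hz
    rw [mem_singleton]
    by_contra hza
    exact hz.2 (Or.inr ⟨hza, hz.1⟩)
  have := card_le_card hsub
  rw [card_singleton] at this
  omega

lemma exists_base_of_stable (r : ℕ) (h0 : 0 < r) (hrn : r < n) (S : Finset (Finset (Fin n)))
    (hS : Stable S) : ∃ X : Finset (Fin n), X.card = r ∧ X ∉ S := by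
  classical
  obtain ⟨X, _, hX⟩ := exists_subset_card_eq
    (show r ≤ (univ : Finset (Fin n)).card by rw [card_univ, Fintype.card_fin]; omega)
  by_cases h : X ∈ S
  · obtain ⟨a, ha⟩ : X.Nonempty := by rw [← card_pos]; omega
    obtain ⟨b, hb⟩ : (univ \ X).Nonempty := by
      rw [← card_pos, card_sdiff_of_subset (subset_univ X), card_univ, Fintype.card_fin]; omega
    have hb' : b ∉ X := (mem_sdiff.1 hb).2
    exact ⟨insert b (X.erase a), by rw [card_swap ha hb', hX], swap_notMem_of_stable hS h a hb'⟩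
  · exact ⟨X, hX, h⟩

/-- Stable families give sparse paving matroids. -/
lemma sparsePaving_of_stable (r : ℕ) (h0 : 0 < r) (hrn : r < n) (S : Finset (Finset (Fin n)))
    (hS : Stable S) :
    ∃ M : Matroid (Fin n), M.E = Set.univ ∧ SparsePaving M ∧ M.eRank = r ∧
      ∀ X, Bs M X ↔ (X.card = r ∧ X ∉ S) := by
  classical
  set P : Finset (Fin n) → Prop := fun X => X.card = r ∧ X ∉ S with hP
  have hex : Exch P := exch_of_stable r S hS
  have hne : ∃ X, P X := exists_base_of_stable r h0 hrn S hS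
  refine ⟨mkMat P hex hne, mkMat_E _ _ _, ?_, ?_, fun X => mkMat_bs P hex hne X⟩
  · set M := mkMat P hex hne with hM
    have hbs : ∀ X, Bs M X ↔ (X.card = r ∧ X ∉ S) := fun X => mkMat_bs P hex hne X
    intro X B hB hcard hdep
    obtain ⟨X', rfl⟩ : ∃ X' : Finset (Fin n), (X' : Set (Fin n)) = X :=
      ⟨(Set.toFinite X).toFinset, Set.Finite.coe_toFinset _⟩
    obtain ⟨B', rfl⟩ : ∃ B' : Finset (Fin n), (B' : Set (Fin n)) = B :=
      ⟨(Set.toFinite B).toFinset, Set.Finite.coe_toFinset _⟩
    have hB' := (hbs B').1 hB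
    rw [Set.ncard_coe_finset, Set.ncard_coe_finset, hB'.1] at hcard
    have hnb : ¬ Bs M X' := by
      intro h
      exact hdep.not_indep (Matroid.IsBase.indep h)
    have hXS : X' ∈ S := by
      by_contra h
      exact hnb ((hbs X').2 ⟨hcard, h⟩)
    have hswap : ∀ a ∈ X', ∀ b, b ∉ X' → M.IsBase (insert b ((X' : Set (Fin n)) \ {a})) := by
      intro a ha b hb
      have : Bs M (insert b (X'.erase a)) :=
        (hbs _).2 ⟨by rw [card_swap ha hb, hcard], swap_notMem_of_stable hS hXS a hb⟩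
      unfold Bs at this
      rwa [coe_insert, coe_erase] at this
    obtain ⟨b, hb⟩ : (univ \ X').Nonempty := by
      rw [← card_pos, card_sdiff_of_subset (subset_univ X'), card_univ, Fintype.card_fin]; omega
    have hb' : b ∉ X' := (mem_sdiff.1 hb).2
    have hcirc : M.IsCircuit (X' : Set (Fin n)) := by
      rw [Matroid.isCircuit_iff_dep_forall_sdiff_singleton_indep]
      refine ⟨hdep, fun e he => ?_⟩
      exact (hswap e (by exact_mod_cast he) b hb').indep.subset (Set.subset_insert _ _)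
    refine ⟨hcirc, ?_⟩
    apply Set.Subset.antisymm
    · intro y hy
      by_contra hyX
      obtain ⟨a, ha⟩ : X'.Nonempty := by rw [← card_pos]; omega
      have hbase := hswap a ha y (by exact_mod_cast hyX)
      have hind : M.Indep ((X' : Set (Fin n)) \ {a}) := hbase.indep.subset (Set.subset_insert _ _)
      rw [← hcirc.closure_sdiff_singleton_eq a] at hy
      have hy' : y ∉ (X' : Set (Fin n)) \ {a} := fun h => hyX h.1
      rw [hind.mem_closure_iff_of_notMem hy'] at hy
      exact hy.not_indep hbase.indep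
    · exact M.subset_closure _ (by rw [hM, mkMat_E]; exact Set.subset_univ _)
  · obtain ⟨X, hX⟩ := hne
    have hb : Bs (mkMat P hex ⟨X, hX⟩) X := (mkMat_bs P hex ⟨X, hX⟩ X).2 hX
    have := Matroid.IsBase.encard_eq_eRank hb
    rw [← this, Set.encard_coe_eq_coe_finsetCard, hX.1]

/-- A residue class of the element sum is stable. -/
lemma stable_class (r c : ℕ) :
    Stable ((powersetCard r (univ : Finset (Fin n))).filter
      (fun X => (∑ x ∈ X, (x : ℕ)) % n = c)) := by
  classical
  intro X hX Y hY hne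
  rw [mem_filter, mem_powersetCard] at hX hY
  have hcc : (X \ Y).card = (Y \ X).card := card_sdiff_comm' (by omega)
  by_contra hlt
  push Not at hlt
  have hpos : (X \ Y).card ≠ 0 := by
    intro h
    rw [card_eq_zero, sdiff_eq_empty_iff_subset] at h
    exact hne (eq_of_subset_of_card_le h (by omega))
  have h1 : (X \ Y).card = 1 := by omega
  have h2 : (Y \ X).card = 1 := by omega
  rw [card_eq_one] at h1 h2
  obtain ⟨a, ha⟩ := h1
  obtain ⟨b, hb⟩ := h2
  have hsX : ∑ x ∈ X, (x : ℕ) = ∑ x ∈ X ∩ Y, (x : ℕ) + (a : ℕ) := by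
    rw [← sum_inter_add_sum_sdiff X Y, ha, sum_singleton]
  have hsY : ∑ x ∈ Y, (x : ℕ) = ∑ x ∈ X ∩ Y, (x : ℕ) + (b : ℕ) := by
    rw [← sum_inter_add_sum_sdiff Y X, hb, sum_singleton, inter_comm]
  have hmod : (∑ x ∈ X ∩ Y, (x : ℕ) + (a : ℕ)) ≡ (∑ x ∈ X ∩ Y, (x : ℕ) + (b : ℕ)) [MOD n] := by
    unfold Nat.ModEq
    rw [← hsX, ← hsY, hX.2, hY.2]
  have hab : (a : ℕ) ≡ b [MOD n] := Nat.ModEq.add_left_cancel' _ hmod
  have hab' : (a : ℕ) = b := by
    unfold Nat.ModEq at hab
    rwa [Nat.mod_eq_of_lt a.2, Nat.mod_eq_of_lt b.2] at hab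
  have haX : a ∈ X \ Y := by rw [ha]; exact mem_singleton_self _
  have hbY : b ∈ Y \ X := by rw [hb]; exact mem_singleton_self _
  have : a = b := Fin.ext hab'
  rw [this] at haX
  exact (mem_sdiff.1 haX).2 (mem_sdiff.1 hbY).1

/-- Graham and Sloane: many sparse paving matroids of rank `r`. -/
theorem two_pow_le_card (𝒞 : Set (Matroid (Fin n))) (hE : ∀ M ∈ 𝒞, M.E = Set.univ) (r : ℕ)
    (h0 : 0 < r) (hrn : r < n)
    (hsp : ∀ M : Matroid (Fin n), M.E = Set.univ → M.eRank = r → SparsePaving M → M ∈ 𝒞) :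
    2 ^ (n.choose r / n) ≤ 𝒞.ncard := by
  classical
  have hpig := exists_le_card_fiber_of_mul_le_card_of_maps_to
    (s := powersetCard r (univ : Finset (Fin n))) (t := range n)
    (f := fun X => (∑ x ∈ X, (x : ℕ)) % n) (n := n.choose r / n)
    (fun X _ => mem_range.2 (Nat.mod_lt _ (by omega))) ⟨0, mem_range.2 (by omega)⟩
    (by rw [card_range, card_powersetCard, card_univ, Fintype.card_fin]; exact Nat.mul_div_le _ _)
  obtain ⟨c, _, hc⟩ := hpig
  set A := (powersetCard r (univ : Finset (Fin n))).filter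
    (fun X : Finset (Fin n) => (∑ x ∈ X, (x : ℕ)) % n = c) with hA
  have hAst : Stable A := stable_class r c
  have key : ∀ S : Finset (Finset (Fin n)), S ∈ (A.powerset : Set (Finset (Finset (Fin n)))) →
      ∃ M : Matroid (Fin n), M ∈ 𝒞 ∧ ∀ X, Bs M X ↔ (X.card = r ∧ X ∉ S) := by
    intro S hS
    rw [mem_coe, mem_powerset] at hS
    obtain ⟨M, hME, hMsp, hMr, hMb⟩ := sparsePaving_of_stable r h0 hrn S
      (fun X hX Y hY h => hAst X (hS hX) Y (hS hY) h)
    exact ⟨M, hsp M hME hMr hMsp, hMb⟩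
  have : Nonempty (Matroid (Fin n)) := ⟨Matroid.freeOn Set.univ⟩
  choose! Φ hΦ1 hΦ2 using key
  have hle : (A.powerset : Set (Finset (Finset (Fin n)))).ncard ≤ 𝒞.ncard := by
    apply Set.ncard_le_ncard_of_injOn Φ hΦ1 ?_ (finite_mats 𝒞 hE)
    intro S hS T hT hST
    have h1 := hΦ2 S hS
    have h2 := hΦ2 T hT
    rw [hST] at h1
    rw [mem_coe, mem_powerset] at hS hT
    ext X
    have h3 := (h1 X).symm.trans (h2 X)
    constructor
    · intro h
      have hXr : X.card = r := (mem_powersetCard.1 (mem_filter.1 (hS h)).1).2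
      by_contra h'
      exact (h3.2 ⟨hXr, h'⟩).2 h
    · intro h
      have hXr : X.card = r := (mem_powersetCard.1 (mem_filter.1 (hT h)).1).2
      by_contra h'
      exact (h3.1 ⟨hXr, h'⟩).2 h
  rw [Set.ncard_coe_finset, card_powerset] at hle
  exact (Nat.pow_le_pow_right (by norm_num) hc).trans hle

end Pool.Agent.Matroid6d
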