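import Pool.Agent.Matroid6d.GridKF
import Pool.Agent.Matroid6d.Extreme

/-!
From the statement to the counting lemmas.
-/

set_option autoImplicit false

namespace Pool.Agent.Matroid6d

open Finset

variable {n : ℕ}

lemma eRank_eq {M : Matroid (Fin n)} {X : Finset (Fin n)} (hX : Bs M X) : M.eRank = X.card := by
  rw [← Matroid.IsBase.encard_eq_eRank hX, Set.encard_coe_eq_coe_finsetCard]

/-- The `r`-sets cut out by a list of pairs. -/
def KU {T : ℕ} (r : ℕ) (f : Fin T → Finset (Fin n) × Fin (n + 1)) : Finset (Finset (Fin n)) :=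
  univ.biUnion (fun i => KF r (f i).1 (f i).2)

lemma mem_KU {T : ℕ} {r : ℕ} {f : Fin T → Finset (Fin n) × Fin (n + 1)} {X : Finset (Fin n)} :
    X ∈ KU r f ↔ X.card = r ∧ ∃ i, ((f i).2 : ℕ) < (X ∩ (f i).1).card := by
  unfold KU
  rw [mem_biUnion]
  constructor
  · rintro ⟨i, _, h⟩
    rw [mem_KF] at h
    exact ⟨h.1, i, h.2⟩
  · rintro ⟨h, i, hi⟩
    exact ⟨i, mem_univ _, mem_KF.2 ⟨h, hi⟩⟩

/-- The numerical conditions on a flat of nullity plus corank at least four. -/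
def Heavy (n r : ℕ) (p : Finset (Fin n) × Fin (n + 1)) : Prop :=
  (p.2 : ℕ) < p.1.card ∧ (p.2 : ℕ) < r ∧ 2 * (p.2 : ℕ) + 4 ≤ p.1.card + r ∧
    p.1.card + r ≤ n + (p.2 : ℕ)

/-- The count of the matroids with a heavy flat in a union of components cut out by `T` sets. -/
theorem mid_bound (𝒞 : Set (Matroid (Fin n))) (hE : ∀ M ∈ 𝒞, M.E = Set.univ)
    (hup : ∀ M ∈ 𝒞, ∀ M' : Matroid (Fin n), M'.E = Set.univ →
      (∀ B, M.IsBase B → M'.IsBase B) → M' ∈ 𝒞)
    (T m : ℕ) (hm : 1 ≤ m) (Bad : Set (Matroid (Fin n)))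
    (hBad : ∀ M ∈ Bad, M ∈ 𝒞 ∧ ∃ (r : ℕ) (f : Fin T → Finset (Fin n) × Fin (n + 1)),
      4 * m + 2 ≤ r ∧ r + 4 * m + 2 ≤ n ∧ (∀ X, Bs M X → X.card = r) ∧
      Closed (Bs M) (KU r f) ∧ ∃ i, Heavy n r (f i)) :
    Bad.ncard * m.factorial ≤ (n + 1) * (2 ^ n * (n + 1)) ^ T * 𝒞.ncard := by
  classical
  set I : Finset (ℕ × (Fin T → Finset (Fin n) × Fin (n + 1))) :=
    ((range (n + 1)) ×ˢ univ).filter (fun p => 4 * m + 2 ≤ p.1 ∧ p.1 + 4 * m + 2 ≤ n ∧
      ∃ i, Heavy n p.1 (p.2 i)) with hI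
  set A : ℕ × (Fin T → Finset (Fin n) × Fin (n + 1)) → Set (Matroid (Fin n)) := fun p =>
    {M ∈ 𝒞 | (∀ X, Bs M X → X.card = p.1) ∧ Closed (Bs M) (KU p.1 p.2)} with hA
  have hfin := finite_mats 𝒞 hE
  have hsub : Bad ⊆ ⋃ p ∈ I, A p := by
    intro M hM
    obtain ⟨hMC, r, f, h1, h2, h3, h4, h5⟩ := hBad M hM
    rw [Set.mem_iUnion₂]
    refine ⟨(r, f), ?_, hMC, h3, h4⟩
    rw [hI, mem_filter, mem_product]
    exact ⟨⟨mem_range.2 (by omega), mem_univ _⟩, h1, h2, h5⟩
  have hfinU : (⋃ p ∈ I, A p).Finite := by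
    apply hfin.subset
    intro M hM
    rw [Set.mem_iUnion₂] at hM
    obtain ⟨p, _, hp⟩ := hM
    exact hp.1
  have hcardI : I.card ≤ (n + 1) * (2 ^ n * (n + 1)) ^ T := by
    refine (card_filter_le _ _).trans (le_of_eq ?_)
    rw [card_product, card_range, card_univ, Fintype.card_fun, Fintype.card_prod,
      Fintype.card_finset, Fintype.card_fin, Fintype.card_fin, Fintype.card_fin]
  have hA' : ∀ p ∈ I, (A p).ncard * m.factorial ≤ 𝒞.ncard := by
    rintro ⟨r, f⟩ hp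
    rw [hI, mem_filter] at hp
    obtain ⟨_, h1, h2, i, hi1, hi2, hi3, hi4⟩ := hp
    obtain ⟨P, hP⟩ := grid_KF r (f i).2 m (f i).1 hm hi1 hi2 hi3 hi4 h1 h2
    obtain ⟨𝒮, h𝒮, hcard⟩ := exists_stable_of_grid m _ P hP
    have hKi : KF r (f i).1 (f i).2 ⊆ KU r f := subset_biUnion_of_mem
      (fun i => KF r (f i).1 (f i).2) (mem_univ i)
    have := count_replace 𝒞 hE hup r (KU r f) (fun X hX => (mem_KU.1 hX).1) 𝒮
      (fun S hS => ⟨(h𝒮 S hS).1.trans hKi, (h𝒮 S hS).2⟩)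
    exact (Nat.mul_le_mul_left _ hcard).trans this
  calc Bad.ncard * m.factorial ≤ (⋃ p ∈ I, A p).ncard * m.factorial :=
        Nat.mul_le_mul_right _ (Set.ncard_le_ncard hsub hfinU)
    _ ≤ (∑ p ∈ I, (A p).ncard) * m.factorial :=
        Nat.mul_le_mul_right _ (set_ncard_biUnion_le I A)
    _ = ∑ p ∈ I, (A p).ncard * m.factorial := by rw [sum_mul]
    _ ≤ ∑ _p ∈ I, 𝒞.ncard := sum_le_sum hA'
    _ = I.card * 𝒞.ncard := by rw [sum_const, smul_eq_mul]
    _ ≤ _ := Nat.mul_le_mul_right _ hcardI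

/-- The bridge from the objects of the statement to the counting lemmas. -/
theorem bridge (M : Matroid (Fin n)) (hE : M.E = Set.univ) (r : ℕ)
    (hr : ∀ X, Bs M X → X.card = r) (T : ℕ) (𝓕 : Finset (Set (Fin n))) (hT : 𝓕.card ≤ T)
    (hcomp : IsComponentUnion M (cutOut M 𝓕)) (F : Set (Fin n)) (hF : F ∈ 𝓕) :
    ∃ f : Fin T → Finset (Fin n) × Fin (n + 1),
      Closed (Bs M) (KU r f) ∧
      (∀ X : Finset (Fin n), X ∈ KU r f ↔ (X : Set (Fin n)) ∈ cutOut M 𝓕) ∧
      (M.Dep F → ¬ M.Spanning F → ¬ (F.encard + M.eRank ≤ 2 * M.eRk F + 3) →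
        ∃ i, Heavy n r (f i)) := by
  classical
  obtain ⟨B₀, hB₀⟩ := exists_bs M
  have hrank : M.eRank = r := by rw [eRank_eq hB₀, hr B₀ hB₀]
  -- ranks as natural numbers
  have hrk : ∀ G : Set (Fin n), ∃ ρ : Fin (n + 1), M.eRk G = ((ρ : ℕ) : ℕ∞) := by
    intro G
    have h1 : M.eRk G ≤ r := hrank ▸ M.eRk_le_eRank G
    have h2 : r ≤ n := by
      rw [← hr B₀ hB₀]
      simpa using card_le_univ B₀
    obtain ⟨k, hk⟩ := ENat.ne_top_iff_exists.1 (ne_top_of_le_ne_top (ENat.natCast_ne_top r) h1)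
    rw [← hk] at h1
    have h3 : k ≤ r := by exact_mod_cast h1
    exact ⟨⟨k, by omega⟩, hk.symm⟩
  choose ρ hρ using hrk
  -- a surjection onto the family
  have hne : Nonempty {x // x ∈ 𝓕} := ⟨⟨F, hF⟩⟩
  have hemb : Nonempty ({x // x ∈ 𝓕} ↪ Fin T) := by
    apply Function.Embedding.nonempty_of_card_le
    rw [Fintype.card_coe, Fintype.card_fin]
    exact hT
  obtain ⟨e⟩ := hemb
  have hsurj := Function.invFun_surjective e.injective
  set s : Fin T → {x // x ∈ 𝓕} := Function.invFun e with hs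
  set f : Fin T → Finset (Fin n) × Fin (n + 1) := fun i =>
    ((Set.toFinite (s i : Set (Fin n))).toFinset, ρ (s i)) with hf
  have hmem : ∀ X : Finset (Fin n), X ∈ KU r f ↔ (X : Set (Fin n)) ∈ cutOut M 𝓕 := by
    intro X
    rw [mem_KU]
    unfold cutOut
    rw [Set.mem_ofPred_eq, hrank, Set.encard_coe_eq_coe_finsetCard]
    have hint : ∀ G : Set (Fin n), ((X : Set (Fin n)) ∩ G).encard =
        (((X ∩ (Set.toFinite G).toFinset).card : ℕ) : ℕ∞) := by
      intro G
      rw [← Set.encard_coe_eq_coe_finsetCard, coe_inter, Set.Finite.coe_toFinset]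
    constructor
    · rintro ⟨h1, i, hi⟩
      refine ⟨by exact_mod_cast h1, s i, (s i).2, ?_⟩
      rw [hint, hρ]
      exact_mod_cast hi
    · rintro ⟨h1, G, hG, hi⟩
      refine ⟨by exact_mod_cast h1, ?_⟩
      obtain ⟨i, hi'⟩ := hsurj ⟨G, hG⟩
      refine ⟨i, ?_⟩
      rw [hint, hρ] at hi
      have hsi : (s i : Set (Fin n)) = G := by rw [hi']
      rw [hf]
      simp only [hsi]
      exact_mod_cast hi
  refine ⟨f, ⟨?_, ?_⟩, hmem, ?_⟩
  · intro X hX hb
    exact (hcomp.1 _ ((hmem X).1 hX)).2 hb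
  · intro X hX a ha b hb hnb
    rw [hmem]
    have hXr : X.card = r := (mem_KU.1 hX).1
    refine hcomp.2 _ ((hmem X).1 hX) _ ⟨?_, hnb⟩ ?_
    · rw [Set.encard_coe_eq_coe_finsetCard, card_swap ha hb, hXr, hrank]
    · have h1 : (X : Set (Fin n)) ∩ ((insert b (X.erase a) : Finset (Fin n)) : Set (Fin n)) =
          ((X.erase a : Finset (Fin n)) : Set (Fin n)) := by
        rw [← coe_inter]
        congr 1
        ext z
        simp only [mem_inter, mem_insert, mem_erase]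
        constructor
        · rintro ⟨h1, h2 | h2⟩
          · exact absurd (h2 ▸ h1) hb
          · exact h2
        · rintro ⟨h1, h2⟩
          exact ⟨h2, Or.inr ⟨h1, h2⟩⟩
      rw [h1, Set.encard_coe_eq_coe_finsetCard, hrank, card_erase_of_mem ha, hXr]
      have : 0 < X.card := card_pos.2 ⟨a, ha⟩
      have h2 : r - 1 + 1 = r := by omega
      exact_mod_cast h2
  · intro hdep hsp hbig
    obtain ⟨i, hi⟩ := hsurj ⟨F, hF⟩
    have hsi : (s i : Set (Fin n)) = F := by rw [hi]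
    have hFc : F.encard = (((Set.toFinite F).toFinset.card : ℕ) : ℕ∞) := by
      rw [← Set.encard_coe_eq_coe_finsetCard, Set.Finite.coe_toFinset]
    refine ⟨i, ?_⟩
    have e1 : (f i).1 = (Set.toFinite F).toFinset := by
      rw [hf]; simp only [hsi]
    have e2 : (f i).2 = ρ F := by
      rw [hf]; simp only [hsi]
    unfold Heavy
    rw [e1, e2]
    refine ⟨?_, ?_, ?_, ?_⟩
    · have := hdep.eRk_lt_encard
      rw [hFc, hρ] at this
      exact_mod_cast this
    · by_contra hle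
      push Not at hle
      apply hsp
      rw [Matroid.spanning_iff_eRk_le (by rw [hE]; exact Set.subset_univ _), hrank, hρ]
      exact_mod_cast hle
    · by_contra hlt
      apply hbig
      rw [hFc, hρ, hrank]
      have : (Set.toFinite F).toFinset.card + r ≤ 2 * (ρ F : ℕ) + 3 := by omega
      exact_mod_cast this
    · have h1 : M.eRank ≤ M.eRk F + (Set.univ \ F).encard := by
        have h2 := M.eRk_union_le_eRk_add_encard F (Set.univ \ F)
        have h3 : M.eRk (F ∪ (Set.univ \ F)) = M.eRank := by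
          rw [Set.union_sdiff_self, Set.union_univ, Matroid.eRk_univ_eq]
        rw [h3] at h2
        exact h2
      have h2 : (Set.univ \ F).encard =
          (((univ \ (Set.toFinite F).toFinset).card : ℕ) : ℕ∞) := by
        rw [← Set.encard_coe_eq_coe_finsetCard, coe_sdiff, Set.Finite.coe_toFinset, coe_univ]
      rw [h2, hrank, hρ, card_sdiff_of_subset (subset_univ _), card_univ, Fintype.card_fin] at h1
      have h3 : r ≤ (ρ F : ℕ) + (n - (Set.toFinite F).toFinset.card) := by exact_mod_cast h1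
      have h4 : (Set.toFinite F).toFinset.card ≤ n := by
        simpa using card_le_univ (Set.toFinite F).toFinset
      omega

end Pool.Agent.Matroid6d
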