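import Mathlib

/-!
Chains: sequences in which every term after the first is related to an earlier term.
-/

set_option autoImplicit false

namespace Pool.Agent.Matroid6d

open Finset

variable {α : Type*}

/-- Every term after the first is related to an earlier one. -/
def Chain (R : α → α → Prop) {T : ℕ} (f : Fin T → α) : Prop :=
  ∀ i : Fin T, 0 < (i : ℕ) → ∃ j : Fin T, j < i ∧ R (f j) (f i)

/-- The finite set of all chains of length `T`. -/
noncomputable def chains [Fintype α] (R : α → α → Prop) (T : ℕ) : Finset (Fin T → α) := by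
  classical
  exact univ.filter (fun f => Chain R f)

lemma mem_chains [Fintype α] {R : α → α → Prop} {T : ℕ} {f : Fin T → α} :
    f ∈ chains R T ↔ Chain R f := by
  classical
  unfold chains
  rw [mem_filter]
  exact ⟨fun h => h.2, fun h => ⟨mem_univ _, h⟩⟩

lemma chain_init (R : α → α → Prop) {T : ℕ} (f : Fin (T + 1) → α) (hf : Chain R f) :
    Chain R (Fin.init f : Fin T → α) := by
  intro i hi
  obtain ⟨j, hj, h⟩ := hf i.castSucc (by simpa using hi)
  have hj' : (j : ℕ) < i := by simpa [Fin.lt_def] using hj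
  refine ⟨⟨j, by omega⟩, by rw [Fin.lt_def]; exact hj', ?_⟩
  exact h

lemma card_chain_le [Fintype α] (R : α → α → Prop) (D : ℕ)
    (hD : ∀ x, ∃ s : Finset α, s.card ≤ D ∧ ∀ y, R x y → y ∈ s) (T : ℕ) :
    (chains R (T + 1)).card ≤ Fintype.card α * ((T + 1) * D) ^ T := by
  classical
  choose B hB1 hB2 using hD
  induction T with
  | zero =>
    refine (card_le_univ _).trans (le_of_eq ?_)
    rw [Fintype.card_fun, Fintype.card_fin]
    simp
  | succ T ih =>
    have h1 : (chains R (T + 1 + 1)).card ≤ ((T + 1) * D) *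
        ((chains R (T + 1 + 1)).image (fun f => (Fin.init f : Fin (T + 1) → α))).card := by
      apply card_le_mul_card_image
      intro g _
      have h2 : ((chains R (T + 1 + 1)).filter
          (fun f => (Fin.init f : Fin (T + 1) → α) = g)).card ≤
          ((univ : Finset (Fin (T + 1))).biUnion (fun j => B (g j))).card := by
        apply card_le_card_of_injOn (fun f => f (Fin.last (T + 1)))
        · intro f hf
          rw [mem_coe, mem_filter, mem_chains] at hf
          obtain ⟨hc, hg⟩ := hf
          rw [mem_coe, mem_biUnion]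
          obtain ⟨j, hj, h⟩ := hc (Fin.last (T + 1)) (by simp)
          have hj' : (j : ℕ) < T + 1 := by simpa [Fin.lt_def] using hj
          refine ⟨⟨j, hj'⟩, mem_univ _, ?_⟩
          apply hB2
          rw [← hg]
          exact h
        · intro f hf f' hf' h
          rw [mem_coe, mem_filter] at hf hf'
          have e : (Fin.init f : Fin (T + 1) → α) = Fin.init f' := by rw [hf.2, hf'.2]
          rw [← Fin.snoc_init_self f, ← Fin.snoc_init_self f', e]
          simp only at h
          rw [h]
      refine h2.trans (card_biUnion_le.trans ?_)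
      calc ∑ j : Fin (T + 1), (B (g j)).card
          ≤ ∑ _j : Fin (T + 1), D := sum_le_sum (fun j _ => hB1 _)
        _ = (T + 1) * D := by rw [sum_const, card_univ, Fintype.card_fin, smul_eq_mul]
    have h3 : (chains R (T + 1 + 1)).image (fun f => (Fin.init f : Fin (T + 1) → α)) ⊆
        chains R (T + 1) := by
      intro g hg
      rw [mem_image] at hg
      obtain ⟨f, hf, rfl⟩ := hg
      rw [mem_chains] at hf ⊢
      exact chain_init R f hf
    have h4 := (card_le_card h3).trans ih
    calc (chains R (T + 1 + 1)).card ≤ ((T + 1) * D) *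
          ((chains R (T + 1 + 1)).image (fun f => (Fin.init f : Fin (T + 1) → α))).card := h1
      _ ≤ ((T + 1) * D) * (Fintype.card α * ((T + 1) * D) ^ T) := Nat.mul_le_mul_left _ h4
      _ = Fintype.card α * ((T + 1) * D) ^ (T + 1) := by ring
      _ ≤ Fintype.card α * ((T + 1 + 1) * D) ^ (T + 1) := by
          apply Nat.mul_le_mul_left
          apply Nat.pow_le_pow_left
          exact Nat.mul_le_mul_right _ (by omega)

lemma chain_snoc (R : α → α → Prop) {T : ℕ} (f : Fin T → α) (hf : Chain R f) (q : α)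
    (h : ∃ j, R (f j) q) : Chain R (Fin.snoc f q : Fin (T + 1) → α) := by
  intro i
  refine Fin.lastCases ?_ (fun i => ?_) i
  · intro _
    obtain ⟨j, hj⟩ := h
    refine ⟨j.castSucc, Fin.castSucc_lt_last j, ?_⟩
    rw [Fin.snoc_castSucc, Fin.snoc_last]
    exact hj
  · intro hi
    obtain ⟨j, hj, h⟩ := hf i (by simpa using hi)
    refine ⟨j.castSucc, by simpa using hj, ?_⟩
    rw [Fin.snoc_castSucc, Fin.snoc_castSucc]
    exact h

/-- In a finite set `H`, the elements reachable from `p₀` are the range of a chain. -/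
lemma exists_chain_aux [DecidableEq α] (R : α → α → Prop) (hR : ∀ x, R x x) (H : Finset α)
    (p₀ : α) (hp : p₀ ∈ H) (k : ℕ) :
    ∃ f : Fin (k + 1) → α, Chain R f ∧ (∀ i, f i ∈ H) ∧ (∃ i, f i = p₀) ∧
      ((∀ i, ∀ q ∈ H, R (f i) q → ∃ j, f j = q) ∨ k + 1 ≤ (univ.image f).card) := by
  induction k with
  | zero =>
    refine ⟨fun _ => p₀, ?_, fun _ => hp, ⟨0, rfl⟩, Or.inr ?_⟩
    · intro i hi
      have := i.2
      omega
    · rw [Nat.zero_add, Nat.one_le_iff_ne_zero, ← Nat.pos_iff_ne_zero, card_pos]
      exact ⟨p₀, mem_image.2 ⟨0, mem_univ _, rfl⟩⟩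
  | succ k ih =>
    obtain ⟨f, hc, hH, ⟨i₀, hi₀⟩, hor⟩ := ih
    by_cases hcl : ∀ i, ∀ q ∈ H, R (f i) q → ∃ j, f j = q
    · refine ⟨Fin.snoc f (f 0), chain_snoc R f hc _ ⟨0, hR _⟩, ?_,
        ⟨i₀.castSucc, by simpa using hi₀⟩, Or.inl ?_⟩
      · intro i
        refine Fin.lastCases ?_ (fun i => ?_) i
        · rw [Fin.snoc_last]; exact hH _
        · rw [Fin.snoc_castSucc]; exact hH _
      · intro i q hq
        refine Fin.lastCases ?_ (fun i => ?_) i
        · rw [Fin.snoc_last]
          intro h
          obtain ⟨j, hj⟩ := hcl _ q hq h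
          exact ⟨j.castSucc, by rw [Fin.snoc_castSucc]; exact hj⟩
        · rw [Fin.snoc_castSucc]
          intro h
          obtain ⟨j, hj⟩ := hcl _ q hq h
          exact ⟨j.castSucc, by rw [Fin.snoc_castSucc]; exact hj⟩
    · have hcard : k + 1 ≤ (univ.image f).card := hor.resolve_left hcl
      push Not at hcl
      obtain ⟨i, q, hq, hRq, hnew⟩ := hcl
      refine ⟨Fin.snoc f q, chain_snoc R f hc _ ⟨i, hRq⟩, ?_,
        ⟨i₀.castSucc, by simpa using hi₀⟩, Or.inr ?_⟩
      · intro i
        refine Fin.lastCases ?_ (fun i => ?_) i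
        · rw [Fin.snoc_last]; exact hq
        · rw [Fin.snoc_castSucc]; exact hH _
      · have hq' : q ∉ univ.image f := by
          rw [mem_image]
          rintro ⟨j, _, hj⟩
          exact hnew j hj
        have hsub : insert q (univ.image f) ⊆ univ.image (Fin.snoc f q : Fin (k + 1 + 1) → α) := by
          intro x hx
          rw [mem_insert, mem_image] at hx
          rw [mem_image]
          rcases hx with rfl | ⟨j, _, rfl⟩
          · exact ⟨Fin.last _, mem_univ _, by rw [Fin.snoc_last]⟩
          · exact ⟨j.castSucc, mem_univ _, by rw [Fin.snoc_castSucc]⟩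
        have := card_le_card hsub
        rw [card_insert_of_notMem hq'] at this
        omega

lemma exists_chain [DecidableEq α] (R : α → α → Prop) (hR : ∀ x, R x x) (H : Finset α)
    (p₀ : α) (hp : p₀ ∈ H) (T : ℕ) (hT : H.card ≤ T + 1) :
    ∃ f : Fin (T + 1) → α, Chain R f ∧ (∀ i, f i ∈ H) ∧ (∃ i, f i = p₀) ∧
      (∀ i, ∀ q ∈ H, R (f i) q → ∃ j, f j = q) := by
  obtain ⟨f, hc, hH, h0, hor⟩ := exists_chain_aux R hR H p₀ hp T
  refine ⟨f, hc, hH, h0, ?_⟩
  rcases hor with h | h
  · exact h
  · intro i q hq _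
    have hsub : univ.image f ⊆ H := by
      intro x hx
      rw [mem_image] at hx
      obtain ⟨j, _, rfl⟩ := hx
      exact hH j
    have heq : univ.image f = H := eq_of_subset_of_card_le hsub (by omega)
    rw [← heq, mem_image] at hq
    obtain ⟨j, _, hj⟩ := hq
    exact ⟨j, hj⟩

end Pool.Agent.Matroid6d
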