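import Pool.Agent.Matroid6d.GridKF

/-!
A lower bound for the number of `r`-sets meeting `F` in more than `ρ` elements.
-/

set_option autoImplicit false

namespace Pool.Agent.Matroid6d

open Finset

variable {n : ℕ}

/-- Three disjoint injective lists of `m` elements each. -/
lemma three_lists (m : ℕ) (W : Finset (Fin n)) (hW : 3 * m ≤ W.card) :
    ∃ a b c : Fin m → Fin n, Function.Injective a ∧ Function.Injective b ∧
      Function.Injective c ∧ (∀ i, a i ∈ W) ∧ (∀ i, b i ∈ W) ∧ (∀ i, c i ∈ W) ∧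
      (∀ i j, a i ≠ b j) ∧ (∀ i j, a i ≠ c j) ∧ (∀ i j, b i ≠ c j) := by
  classical
  obtain ⟨W₁, hW₁, hc₁⟩ := exists_subset_card_eq (show m ≤ W.card by omega)
  have hc : 2 * m ≤ (W \ W₁).card := by
    rw [card_sdiff_of_subset hW₁]; omega
  obtain ⟨b, c, hb, hc', hbW, hcW, hbc⟩ := two_lists m (W \ W₁) hc
  refine ⟨W₁.orderEmbOfFin hc₁, b, c, (W₁.orderEmbOfFin hc₁).injective, hb, hc',
    fun i => hW₁ (orderEmbOfFin_mem _ _ _), fun i => (mem_sdiff.1 (hbW i)).1,
    fun i => (mem_sdiff.1 (hcW i)).1, ?_, ?_, hbc⟩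
  · intro i j h
    exact (mem_sdiff.1 (hbW j)).2 (h ▸ orderEmbOfFin_mem W₁ hc₁ i)
  · intro i j h
    exact (mem_sdiff.1 (hcW j)).2 (h ▸ orderEmbOfFin_mem W₁ hc₁ i)

/-- The lower bound from three lists with pairwise disjoint ranges: the sets
`X₀ ∆ {a i, b j, c k}` are pairwise distinct. -/
lemma cube_card (m : ℕ) (K : Finset (Finset (Fin n))) (X₀ : Finset (Fin n))
    (a b c : Fin m → Fin n) (ha : Function.Injective a) (hb : Function.Injective b)
    (hc : Function.Injective c) (hab : ∀ i j, a i ≠ b j) (hac : ∀ i j, a i ≠ c j)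
    (hbc : ∀ i j, b i ≠ c j)
    (hK : ∀ i j k, symmDiff X₀ {a i, b j, c k} ∈ K) : m ^ 3 ≤ K.card := by
  classical
  have h : (univ : Finset (Fin m × Fin m × Fin m)).card ≤ K.card := by
    apply card_le_card_of_injOn (fun p => symmDiff X₀ {a p.1, b p.2.1, c p.2.2})
    · intro p _
      exact hK _ _ _
    · rintro ⟨i, j, k⟩ _ ⟨i', j', k'⟩ _ h
      have h' : ({a i, b j, c k} : Finset (Fin n)) = {a i', b j', c k'} :=
        symmDiff_right_injective X₀ h
      have h1 : a i ∈ ({a i', b j', c k'} : Finset (Fin n)) := by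
        rw [← h']; simp
      have h2 : b j ∈ ({a i', b j', c k'} : Finset (Fin n)) := by
        rw [← h']; simp
      have h3 : c k ∈ ({a i', b j', c k'} : Finset (Fin n)) := by
        rw [← h']; simp
      simp only [mem_insert, mem_singleton] at h1 h2 h3
      have e1 : i = i' := by
        rcases h1 with h1 | h1 | h1
        · exact ha h1
        · exact absurd h1 (hab _ _)
        · exact absurd h1 (hac _ _)
      have e2 : j = j' := by
        rcases h2 with h2 | h2 | h2
        · exact absurd h2.symm (hab _ _)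
        · exact hb h2
        · exact absurd h2 (hbc _ _)
      have e3 : k = k' := by
        rcases h3 with h3 | h3 | h3
        · exact absurd h3.symm (hac _ _)
        · exact absurd h3.symm (hbc _ _)
        · exact hc h3
      rw [e1, e2, e3]
  simp only [card_univ, Fintype.card_prod, Fintype.card_fin] at h
  calc m ^ 3 = m * (m * m) := by ring
    _ ≤ K.card := h

/-- Membership in `KF` of a symmetric difference with a small set. -/
lemma symmDiff_mem_KF {r ρ : ℕ} {F W V S : Finset (Fin n)} (hW : W ⊆ F)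
    (hS : (W ∪ V).card + S.card = r + 2 * ((W ∪ V) ∩ S).card)
    (hρ : ρ + (W ∩ S).card < W.card) :
    symmDiff (W ∪ V) S ∈ KF r F ρ := by
  classical
  rw [mem_KF]
  constructor
  · have h1 : (symmDiff (W ∪ V) S).card = ((W ∪ V) \ S).card + (S \ (W ∪ V)).card := by
      unfold symmDiff
      rw [sup_eq_union, card_union_of_disjoint]
      rw [disjoint_left]
      intro x hx hx'
      exact (mem_sdiff.1 hx).2 (mem_sdiff.1 hx').1
    have h2 := card_sdiff_add_card_inter (W ∪ V) S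
    have h3 := card_sdiff_add_card_inter S (W ∪ V)
    rw [inter_comm] at h3
    omega
  · have hsub : W \ S ⊆ symmDiff (W ∪ V) S ∩ F := by
      intro x hx
      rw [mem_sdiff] at hx
      rw [mem_inter, mem_symmDiff]
      exact ⟨Or.inl ⟨mem_union_left _ hx.1, hx.2⟩, hW hx.1⟩
    have h1 := card_le_card hsub
    have h2 := card_sdiff_add_card_inter W S
    omega

lemma inter_triple3 {U : Finset (Fin n)} {a b c : Fin n} (ha : a ∈ U) (hb : b ∈ U)
    (hc : c ∈ U) : U ∩ {a, b, c} = {a, b, c} := by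
  rw [inter_eq_right]
  intro x hx
  simp only [mem_insert, mem_singleton] at hx
  rcases hx with rfl | rfl | rfl <;> assumption

lemma inter_triple2 {U : Finset (Fin n)} {a b c : Fin n} (ha : a ∈ U) (hb : b ∈ U)
    (hc : c ∉ U) : U ∩ {a, b, c} = {a, b} := by
  ext x
  simp only [mem_inter, mem_insert, mem_singleton]
  constructor
  · rintro ⟨h, rfl | rfl | rfl⟩
    · exact Or.inl rfl
    · exact Or.inr rfl
    · exact absurd h hc
  · rintro (rfl | rfl)
    · exact ⟨ha, Or.inl rfl⟩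
    · exact ⟨hb, Or.inr (Or.inl rfl)⟩

lemma inter_triple1 {U : Finset (Fin n)} {a b c : Fin n} (ha : a ∈ U) (hb : b ∉ U)
    (hc : c ∉ U) : U ∩ {a, b, c} = {a} := by
  ext x
  simp only [mem_inter, mem_insert, mem_singleton]
  constructor
  · rintro ⟨h, rfl | rfl | rfl⟩
    · rfl
    · exact absurd h hb
    · exact absurd h hc
  · rintro rfl
    exact ⟨ha, Or.inl rfl⟩

lemma inter_triple0 {U : Finset (Fin n)} {a b c : Fin n} (ha : a ∉ U) (hb : b ∉ U)
    (hc : c ∉ U) : U ∩ {a, b, c} = ∅ := by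
  ext x
  simp only [mem_inter, mem_insert, mem_singleton, notMem_empty, iff_false]
  rintro ⟨h, rfl | rfl | rfl⟩
  · exact ha h
  · exact hb h
  · exact hc h

lemma card_triple {a b c : Fin n} (hab : a ≠ b) (hac : a ≠ c) (hbc : b ≠ c) :
    ({a, b, c} : Finset (Fin n)).card = 3 := card_eq_three.2 ⟨a, b, c, hab, hac, hbc, rfl⟩

theorem cube_KF (r ρ m : ℕ) (F : Finset (Fin n)) (h1 : ρ < F.card) (h2 : ρ < r)
    (h3 : 2 * ρ + 5 ≤ F.card + r) (h4 : F.card + r ≤ n + ρ) (h5 : 6 * m + 4 ≤ r)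
    (h6 : r + 6 * m + 4 ≤ n) : m ^ 3 ≤ (KF r F ρ).card := by
  classical
  have hFn : F.card ≤ n := by simpa using card_le_univ F
  have hFc : (univ \ F).card = n - F.card := by
    rw [card_sdiff_of_subset (subset_univ F), card_univ, Fintype.card_fin]
  by_cases c1 : ρ + 4 ≤ F.card ∧ 3 * m ≤ ρ + 4
  · obtain ⟨W, hWF, hWc⟩ := exists_subset_card_eq c1.1
    obtain ⟨V, hVF, hVc⟩ := exists_subset_card_eq (show r - ρ - 1 ≤ (univ \ F).card by omega)
    obtain ⟨a, b, c, ha, hb, hc, haW, hbW, hcW, hab, hac, hbc⟩ := three_lists m W (by omega)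
    obtain ⟨hcard, _⟩ := card_parts hWF hVF
    refine cube_card m _ (W ∪ V) a b c ha hb hc hab hac hbc (fun i j k => ?_)
    apply symmDiff_mem_KF hWF
    · rw [inter_triple3 (mem_union_left _ (haW i)) (mem_union_left _ (hbW j))
        (mem_union_left _ (hcW k)), card_triple (hab i j) (hac i k) (hbc j k), hcard]
      omega
    · rw [inter_triple3 (haW i) (hbW j) (hcW k), card_triple (hab i j) (hac i k) (hbc j k)]
      omega
  by_cases c2 : ρ + 4 ≤ r ∧ 3 * m + F.card + r ≤ n + ρ + 4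
  · obtain ⟨W, hWF, hWc⟩ := exists_subset_card_eq (show ρ + 1 ≤ F.card by omega)
    obtain ⟨V, hVF, hVc⟩ := exists_subset_card_eq (show r - ρ - 4 ≤ (univ \ F).card by omega)
    obtain ⟨a, b, c, ha, hb, hc, haW, hbW, hcW, hab, hac, hbc⟩ :=
      three_lists m ((univ \ F) \ V) (by rw [card_sdiff_of_subset hVF, hFc, hVc]; omega)
    obtain ⟨hcard, _⟩ := card_parts hWF hVF
    have hnot : ∀ x, x ∈ (univ \ F) \ V → x ∉ W ∪ V := by
      intro x hx
      rw [mem_sdiff, mem_sdiff] at hx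
      rw [mem_union]
      rintro (h | h)
      · exact hx.1.2 (hWF h)
      · exact hx.2 h
    have hnot' : ∀ x, x ∈ (univ \ F) \ V → x ∉ W := fun x hx h =>
      hnot x hx (mem_union_left _ h)
    refine cube_card m _ (W ∪ V) a b c ha hb hc hab hac hbc (fun i j k => ?_)
    apply symmDiff_mem_KF hWF
    · rw [inter_triple0 (hnot _ (haW i)) (hnot _ (hbW j)) (hnot _ (hcW k)),
        card_triple (hab i j) (hac i k) (hbc j k), hcard, card_empty]
      omega
    · rw [inter_triple0 (hnot' _ (haW i)) (hnot' _ (hbW j)) (hnot' _ (hcW k)), card_empty]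
      omega
  by_cases c3 : ρ + 3 ≤ F.card ∧ ρ + 2 ≤ r ∧ 2 * m ≤ ρ + 3 ∧ m + F.card + r ≤ n + ρ + 2
  · obtain ⟨W, hWF, hWc⟩ := exists_subset_card_eq c3.1
    obtain ⟨V, hVF, hVc⟩ := exists_subset_card_eq (show r - ρ - 2 ≤ (univ \ F).card by omega)
    obtain ⟨a, b, ha, hb, haW, hbW, hab⟩ := two_lists m W (by omega)
    obtain ⟨c, hc, hcW⟩ := one_list m ((univ \ F) \ V) (by
      rw [card_sdiff_of_subset hVF, hFc, hVc]; omega)
    obtain ⟨hcard, _⟩ := card_parts hWF hVF
    have hnot : ∀ x, x ∈ (univ \ F) \ V → x ∉ W ∪ V := by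
      intro x hx
      rw [mem_sdiff, mem_sdiff] at hx
      rw [mem_union]
      rintro (h | h)
      · exact hx.1.2 (hWF h)
      · exact hx.2 h
    have hnot' : ∀ x, x ∈ (univ \ F) \ V → x ∉ W := fun x hx h =>
      hnot x hx (mem_union_left _ h)
    have hac : ∀ i j, a i ≠ c j := fun i j h => hnot' _ (hcW j) (h ▸ haW i)
    have hbc : ∀ i j, b i ≠ c j := fun i j h => hnot' _ (hcW j) (h ▸ hbW i)
    refine cube_card m _ (W ∪ V) a b c ha hb hc hab hac hbc (fun i j k => ?_)
    apply symmDiff_mem_KF hWF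
    · rw [inter_triple2 (mem_union_left _ (haW i)) (mem_union_left _ (hbW j)) (hnot _ (hcW k)),
        card_triple (hab i j) (hac i k) (hbc j k), hcard, card_pair (hab i j)]
      omega
    · rw [inter_triple2 (haW i) (hbW j) (hnot' _ (hcW k)), card_pair (hab i j)]
      omega
  by_cases c4 : ρ + 2 ≤ F.card ∧ ρ + 3 ≤ r ∧ m ≤ ρ + 2 ∧ 2 * m + F.card + r ≤ n + ρ + 3
  · obtain ⟨W, hWF, hWc⟩ := exists_subset_card_eq c4.1
    obtain ⟨V, hVF, hVc⟩ := exists_subset_card_eq (show r - ρ - 3 ≤ (univ \ F).card by omega)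
    obtain ⟨a, ha, haW⟩ := one_list m W (by omega)
    obtain ⟨b, c, hb, hc, hbW, hcW, hbc⟩ := two_lists m ((univ \ F) \ V) (by
      rw [card_sdiff_of_subset hVF, hFc, hVc]; omega)
    obtain ⟨hcard, _⟩ := card_parts hWF hVF
    have hnot : ∀ x, x ∈ (univ \ F) \ V → x ∉ W ∪ V := by
      intro x hx
      rw [mem_sdiff, mem_sdiff] at hx
      rw [mem_union]
      rintro (h | h)
      · exact hx.1.2 (hWF h)
      · exact hx.2 h
    have hnot' : ∀ x, x ∈ (univ \ F) \ V → x ∉ W := fun x hx h =>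
      hnot x hx (mem_union_left _ h)
    have hac : ∀ i j, a i ≠ c j := fun i j h => hnot' _ (hcW j) (h ▸ haW i)
    have hab : ∀ i j, a i ≠ b j := fun i j h => hnot' _ (hbW j) (h ▸ haW i)
    refine cube_card m _ (W ∪ V) a b c ha hb hc hab hac hbc (fun i j k => ?_)
    apply symmDiff_mem_KF hWF
    · rw [inter_triple1 (mem_union_left _ (haW i)) (hnot _ (hbW j)) (hnot _ (hcW k)),
        card_triple (hab i j) (hac i k) (hbc j k), hcard, card_singleton]
      omega
    · rw [inter_triple1 (haW i) (hnot' _ (hbW j)) (hnot' _ (hcW k)), card_singleton]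
      omega
  · have c5 : ρ + 2 + m ≤ F.card ∧ ρ + 1 + 2 * m ≤ r := by omega
    obtain ⟨W, hWF, hWc⟩ := exists_subset_card_eq (show ρ + 2 ≤ F.card by omega)
    obtain ⟨V, hVF, hVc⟩ := exists_subset_card_eq (show r - ρ - 1 ≤ (univ \ F).card by omega)
    obtain ⟨a, b, ha, hb, haV, hbV, hab⟩ := two_lists m V (by omega)
    obtain ⟨c, hc, hcF⟩ := one_list m (F \ W) (by
      rw [card_sdiff_of_subset hWF, hWc]; omega)
    obtain ⟨hcard, _⟩ := card_parts hWF hVF
    have hVn : ∀ x, x ∈ V → x ∉ F := fun x hx => (mem_sdiff.1 (hVF hx)).2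
    have hVW : ∀ x, x ∈ V → x ∉ W := fun x hx h => hVn x hx (hWF h)
    have hnot : ∀ x, x ∈ F \ W → x ∉ W ∪ V := by
      intro x hx
      rw [mem_sdiff] at hx
      rw [mem_union]
      rintro (h | h)
      · exact hx.2 h
      · exact hVn x h hx.1
    have hac : ∀ i j, a i ≠ c j := fun i j h =>
      hVn _ (haV i) (h ▸ (mem_sdiff.1 (hcF j)).1)
    have hbc : ∀ i j, b i ≠ c j := fun i j h =>
      hVn _ (hbV i) (h ▸ (mem_sdiff.1 (hcF j)).1)
    refine cube_card m _ (W ∪ V) a b c ha hb hc hab hac hbc (fun i j k => ?_)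
    apply symmDiff_mem_KF hWF
    · rw [inter_triple2 (mem_union_right _ (haV i)) (mem_union_right _ (hbV j)) (hnot _ (hcF k)),
        card_triple (hab i j) (hac i k) (hbc j k), hcard, card_pair (hab i j)]
      omega
    · rw [inter_triple0 (hVW _ (haV i)) (hVW _ (hbV j)) (mem_sdiff.1 (hcF k)).2, card_empty]
      omega

end Pool.Agent.Matroid6d
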