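import Pool.Agent.Matroid6d.Extreme

/-!
Every family of `r`-sets has many stable subfamilies (residue classes of the element sum).
-/

set_option autoImplicit false

namespace Pool.Agent.Matroid6d

open Finset

variable {n : ℕ}

/-- A family `K` of `r`-sets has at least `2 ^ (|K| / n)` stable subfamilies. -/
theorem exists_stable_pow (hn : 0 < n) (r : ℕ) (K : Finset (Finset (Fin n)))
    (hK : ∀ X ∈ K, X.card = r) :
    ∃ 𝒮 : Finset (Finset (Finset (Fin n))), (∀ S ∈ 𝒮, S ⊆ K ∧ Stable S) ∧
      2 ^ (K.card / n) ≤ 𝒮.card := by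
  classical
  have hpig := exists_le_card_fiber_of_mul_le_card_of_maps_to
    (s := K) (t := range n)
    (f := fun X => (∑ x ∈ X, (x : ℕ)) % n) (n := K.card / n)
    (fun X _ => mem_range.2 (Nat.mod_lt _ hn)) ⟨0, mem_range.2 hn⟩
    (by rw [card_range]; exact Nat.mul_div_le _ _)
  obtain ⟨c, _, hc⟩ := hpig
  refine ⟨(K.filter (fun X : Finset (Fin n) => (∑ x ∈ X, (x : ℕ)) % n = c)).powerset, ?_, ?_⟩
  · intro S hS
    rw [mem_powerset] at hS
    refine ⟨hS.trans (filter_subset _ _), ?_⟩
    intro X hX Y hY hne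
    refine stable_class r c X ?_ Y ?_ hne
    · have := mem_filter.1 (hS hX)
      exact mem_filter.2 ⟨mem_powersetCard.2 ⟨subset_univ _, hK X this.1⟩, this.2⟩
    · have := mem_filter.1 (hS hY)
      exact mem_filter.2 ⟨mem_powersetCard.2 ⟨subset_univ _, hK Y this.1⟩, this.2⟩
  · rw [card_powerset]
    exact Nat.pow_le_pow_right (by norm_num) hc

end Pool.Agent.Matroid6d
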