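import Pool.Agent.Matroid6d.Bridge
import Pool.Agent.Matroid6d.Cube
import Pool.Agent.Matroid6d.Chain
import Pool.Agent.Matroid6d.Residue

/-!
Counting with connected families of flats.
-/

set_option autoImplicit false

namespace Pool.Agent.Matroid6d

open Finset

variable {n : ℕ}

/-- The general union bound. -/
theorem union_bound {ι : Type} (𝒞 : Set (Matroid (Fin n))) (hE : ∀ M ∈ 𝒞, M.E = Set.univ)
    (hup : ∀ M ∈ 𝒞, ∀ M' : Matroid (Fin n), M'.E = Set.univ →
      (∀ B, M.IsBase B → M'.IsBase B) → M' ∈ 𝒞)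
    (I : Finset ι) (rk : ι → ℕ) (K : ι → Finset (Finset (Fin n))) (N : ℕ)
    (hK : ∀ i ∈ I, (∀ X ∈ K i, X.card = rk i) ∧
      ∃ 𝒮 : Finset (Finset (Finset (Fin n))), (∀ S ∈ 𝒮, S ⊆ K i ∧ Stable S) ∧ N ≤ 𝒮.card)
    (Bad : Set (Matroid (Fin n)))
    (hBad : ∀ M ∈ Bad, M ∈ 𝒞 ∧ ∃ i ∈ I, (∀ X, Bs M X → X.card = rk i) ∧ Closed (Bs M) (K i)) :
    Bad.ncard * N ≤ I.card * 𝒞.ncard := by
  classical
  set A : ι → Set (Matroid (Fin n)) := fun i =>
    {M ∈ 𝒞 | (∀ X, Bs M X → X.card = rk i) ∧ Closed (Bs M) (K i)} with hA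
  have hfin := finite_mats 𝒞 hE
  have hsub : Bad ⊆ ⋃ i ∈ I, A i := by
    intro M hM
    obtain ⟨hMC, i, hi, h1, h2⟩ := hBad M hM
    rw [Set.mem_iUnion₂]
    exact ⟨i, hi, hMC, h1, h2⟩
  have hfinU : (⋃ i ∈ I, A i).Finite := by
    apply hfin.subset
    intro M hM
    rw [Set.mem_iUnion₂] at hM
    obtain ⟨p, _, hp⟩ := hM
    exact hp.1
  have hA' : ∀ i ∈ I, (A i).ncard * N ≤ 𝒞.ncard := by
    intro i hi
    obtain ⟨h1, 𝒮, h𝒮, hcard⟩ := hK i hi
    exact (Nat.mul_le_mul_left _ hcard).trans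
      (count_replace 𝒞 hE hup (rk i) (K i) h1 𝒮 h𝒮)
  calc Bad.ncard * N ≤ (⋃ i ∈ I, A i).ncard * N :=
        Nat.mul_le_mul_right _ (Set.ncard_le_ncard hsub hfinU)
    _ ≤ (∑ i ∈ I, (A i).ncard) * N :=
        Nat.mul_le_mul_right _ (set_ncard_biUnion_le I A)
    _ = ∑ i ∈ I, (A i).ncard * N := by rw [sum_mul]
    _ ≤ ∑ _i ∈ I, 𝒞.ncard := sum_le_sum hA'
    _ = I.card * 𝒞.ncard := by rw [sum_const, smul_eq_mul]

/-- The numerical conditions on a set of nullity plus corank at least `s`. -/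
def HeavyS (n r s : ℕ) (p : Finset (Fin n) × Fin (n + 1)) : Prop :=
  (p.2 : ℕ) < p.1.card ∧ (p.2 : ℕ) < r ∧ 2 * (p.2 : ℕ) + s ≤ p.1.card + r ∧
    p.1.card + r ≤ n + (p.2 : ℕ)

/-- From a family of sets to a list of pairs. -/
theorem bridgeS (M : Matroid (Fin n)) (hE : M.E = Set.univ) (r : ℕ)
    (hr : ∀ X, Bs M X → X.card = r) (T : ℕ) (𝓕 : Finset (Set (Fin n))) (hT : 𝓕.card ≤ T)
    (hcomp : IsComponentUnion M (cutOut M 𝓕)) (hne : 𝓕.Nonempty) :
    ∃ f : Fin T → Finset (Fin n) × Fin (n + 1),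
      Closed (Bs M) (KU r f) ∧
      (∀ X : Finset (Fin n), X ∈ KU r f ↔ (X : Set (Fin n)) ∈ cutOut M 𝓕) ∧
      (∀ i, ∃ G ∈ 𝓕, G.encard = ((f i).1.card : ℕ∞) ∧ M.eRk G = (((f i).2 : ℕ) : ℕ∞)) ∧
      (∀ G ∈ 𝓕, ∀ s : ℕ, M.Dep G → ¬ M.Spanning G →
        ¬ (G.encard + M.eRank ≤ 2 * M.eRk G + s) → ∃ i, HeavyS n r (s + 1) (f i)) := by
  classical
  obtain ⟨F, hF⟩ := hne
  obtain ⟨B₀, hB₀⟩ := exists_bs M
  have hrank : M.eRank = r := by rw [eRank_eq hB₀, hr B₀ hB₀]
  -- ranks as natural numbers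
  have hrk : ∀ G : Set (Fin n), ∃ ρ : Fin (n + 1), M.eRk G = ((ρ : ℕ) : ℕ∞) := by
    intro G
    have h1 : M.eRk G ≤ r := hrank ▸ M.eRk_le_eRank G
    have h2 : r ≤ n := by
      rw [← hr B₀ hB₀]
      simpa using card_le_univ B₀
    obtain ⟨k, hk⟩ := ENat.ne_top_iff_exists.1 (ne_top_of_le_ne_top (ENat.natCast_ne_top r) h1)
    rw [← hk] at h1
    have h3 : k ≤ r := by exact_mod_cast h1
    exact ⟨⟨k, by omega⟩, hk.symm⟩
  choose ρ hρ using hrk
  -- a surjection onto the family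
  have hne : Nonempty {x // x ∈ 𝓕} := ⟨⟨F, hF⟩⟩
  have hemb : Nonempty ({x // x ∈ 𝓕} ↪ Fin T) := by
    apply Function.Embedding.nonempty_of_card_le
    rw [Fintype.card_coe, Fintype.card_fin]
    exact hT
  obtain ⟨e⟩ := hemb
  have hsurj := Function.invFun_surjective e.injective
  set s : Fin T → {x // x ∈ 𝓕} := Function.invFun e with hs
  set f : Fin T → Finset (Fin n) × Fin (n + 1) := fun i =>
    ((Set.toFinite (s i : Set (Fin n))).toFinset, ρ (s i)) with hf
  have hGc : ∀ G : Set (Fin n), G.encard = (((Set.toFinite G).toFinset.card : ℕ) : ℕ∞) := by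
    intro G
    rw [← Set.encard_coe_eq_coe_finsetCard, Set.Finite.coe_toFinset]
  have hmem : ∀ X : Finset (Fin n), X ∈ KU r f ↔ (X : Set (Fin n)) ∈ cutOut M 𝓕 := by
    intro X
    rw [mem_KU]
    unfold cutOut
    rw [Set.mem_ofPred_eq, hrank, Set.encard_coe_eq_coe_finsetCard]
    have hint : ∀ G : Set (Fin n), ((X : Set (Fin n)) ∩ G).encard =
        (((X ∩ (Set.toFinite G).toFinset).card : ℕ) : ℕ∞) := by
      intro G
      rw [← Set.encard_coe_eq_coe_finsetCard, coe_inter, Set.Finite.coe_toFinset]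
    constructor
    · rintro ⟨h1, i, hi⟩
      refine ⟨by exact_mod_cast h1, s i, (s i).2, ?_⟩
      rw [hint, hρ]
      exact_mod_cast hi
    · rintro ⟨h1, G, hG, hi⟩
      refine ⟨by exact_mod_cast h1, ?_⟩
      obtain ⟨i, hi'⟩ := hsurj ⟨G, hG⟩
      refine ⟨i, ?_⟩
      rw [hint, hρ] at hi
      have hsi : (s i : Set (Fin n)) = G := by rw [hi']
      rw [hf]
      simp only [hsi]
      exact_mod_cast hi
  refine ⟨f, ⟨?_, ?_⟩, hmem, ?_, ?_⟩
  · intro X hX hb
    exact (hcomp.1 _ ((hmem X).1 hX)).2 hb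
  · intro X hX a ha b hb hnb
    rw [hmem]
    have hXr : X.card = r := (mem_KU.1 hX).1
    refine hcomp.2 _ ((hmem X).1 hX) _ ⟨?_, hnb⟩ ?_
    · rw [Set.encard_coe_eq_coe_finsetCard, card_swap ha hb, hXr, hrank]
    · have h1 : (X : Set (Fin n)) ∩ ((insert b (X.erase a) : Finset (Fin n)) : Set (Fin n)) =
          ((X.erase a : Finset (Fin n)) : Set (Fin n)) := by
        rw [← coe_inter]
        congr 1
        ext z
        simp only [mem_inter, mem_insert, mem_erase]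
        constructor
        · rintro ⟨h1, h2 | h2⟩
          · exact absurd (h2 ▸ h1) hb
          · exact h2
        · rintro ⟨h1, h2⟩
          exact ⟨h2, Or.inr ⟨h1, h2⟩⟩
      rw [h1, Set.encard_coe_eq_coe_finsetCard, hrank, card_erase_of_mem ha, hXr]
      have : 0 < X.card := card_pos.2 ⟨a, ha⟩
      have h2 : r - 1 + 1 = r := by omega
      exact_mod_cast h2
  · intro i
    exact ⟨s i, (s i).2, hGc _, hρ _⟩
  · intro G hG t hdep hsp hbig
    obtain ⟨i, hi⟩ := hsurj ⟨G, hG⟩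
    have hsi : (s i : Set (Fin n)) = G := by rw [hi]
    have hFc := hGc G
    refine ⟨i, ?_⟩
    have e1 : (f i).1 = (Set.toFinite G).toFinset := by
      rw [hf]; simp only [hsi]
    have e2 : (f i).2 = ρ G := by
      rw [hf]; simp only [hsi]
    unfold HeavyS
    rw [e1, e2]
    refine ⟨?_, ?_, ?_, ?_⟩
    · have := hdep.eRk_lt_encard
      rw [hFc, hρ] at this
      exact_mod_cast this
    · by_contra hle
      push Not at hle
      apply hsp
      rw [Matroid.spanning_iff_eRk_le (by rw [hE]; exact Set.subset_univ _), hrank, hρ]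
      exact_mod_cast hle
    · by_contra hlt
      apply hbig
      rw [hFc, hρ, hrank]
      have : (Set.toFinite G).toFinset.card + r ≤ 2 * (ρ G : ℕ) + t := by omega
      exact_mod_cast this
    · have h1 : M.eRank ≤ M.eRk G + (Set.univ \ G).encard := by
        have h2 := M.eRk_union_le_eRk_add_encard G (Set.univ \ G)
        have h3 : M.eRk (G ∪ (Set.univ \ G)) = M.eRank := by
          rw [Set.union_sdiff_self, Set.union_univ, Matroid.eRk_univ_eq]
        rw [h3] at h2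
        exact h2
      have h2 : (Set.univ \ G).encard =
          (((univ \ (Set.toFinite G).toFinset).card : ℕ) : ℕ∞) := by
        rw [← Set.encard_coe_eq_coe_finsetCard, coe_sdiff, Set.Finite.coe_toFinset, coe_univ]
      rw [h2, hrank, hρ, card_sdiff_of_subset (subset_univ _), card_univ, Fintype.card_fin] at h1
      have h3 : r ≤ (ρ G : ℕ) + (n - (Set.toFinite G).toFinset.card) := by exact_mod_cast h1
      have h4 : (Set.toFinite G).toFinset.card ≤ n := by
        simpa using card_le_univ (Set.toFinite G).toFinset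
      omega

/-- Two pairs are close when their sets differ in at most six elements. -/
def Close (p q : Finset (Fin n) × Fin (n + 1)) : Prop := (symmDiff p.1 q.1).card ≤ 6

lemma close_refl (p : Finset (Fin n) × Fin (n + 1)) : Close p p := by
  unfold Close
  rw [symmDiff_self, bot_eq_empty, card_empty]
  omega

lemma card_symmDiff' (X Y : Finset (Fin n)) :
    (symmDiff X Y).card = (X \ Y).card + (Y \ X).card := by
  unfold symmDiff
  rw [sup_eq_union, card_union_of_disjoint]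
  rw [disjoint_left]
  intro x hx hx'
  exact (mem_sdiff.1 hx).2 (mem_sdiff.1 hx').1

lemma card_symmDiff_tri (X Y Z : Finset (Fin n)) :
    (symmDiff X Z).card ≤ (symmDiff X Y).card + (symmDiff Y Z).card := by
  have h : symmDiff X Z ⊆ symmDiff X Y ∪ symmDiff Y Z := by
    intro x hx
    rw [mem_union, mem_symmDiff, mem_symmDiff]
    rw [mem_symmDiff] at hx
    by_cases hy : x ∈ Y
    · rcases hx with ⟨h1, h2⟩ | ⟨h1, h2⟩
      · exact Or.inr (Or.inl ⟨hy, h2⟩)
      · exact Or.inl (Or.inr ⟨hy, h2⟩)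
    · rcases hx with ⟨h1, h2⟩ | ⟨h1, h2⟩
      · exact Or.inl (Or.inl ⟨h1, hy⟩)
      · exact Or.inr (Or.inr ⟨h1, hy⟩)
  exact (card_le_card h).trans (card_union_le _ _)

lemma near {r ρ : ℕ} {F X : Finset (Fin n)} (hX : X ∈ KF r F ρ) (h : F.card + r ≤ 2 * ρ + 4) :
    (symmDiff X F).card ≤ 2 := by
  rw [mem_KF] at hX
  rw [card_symmDiff']
  have h1 := card_sdiff_add_card_inter X F
  have h2 := card_sdiff_add_card_inter F X
  rw [inter_comm] at h2
  omega

lemma close_of {r : ℕ} {p q : Finset (Fin n) × Fin (n + 1)} {X Y : Finset (Fin n)}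
    (hX : X ∈ KF r p.1 p.2) (hY : Y ∈ KF r q.1 q.2) (hp : p.1.card + r ≤ 2 * (p.2 : ℕ) + 4)
    (hq : q.1.card + r ≤ 2 * (q.2 : ℕ) + 4) (hXY : (symmDiff X Y).card ≤ 2) : Close p q := by
  unfold Close
  have h1 := near hX hp
  have h2 := near hY hq
  rw [symmDiff_comm] at h1
  have h3 := card_symmDiff_tri p.1 X q.1
  have h4 := card_symmDiff_tri X Y q.1
  omega

/-- The number of sets of at most six elements. -/
lemma small_sets : ((univ : Finset (Finset (Fin n))).filter (fun S => S.card ≤ 6)).card ≤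
    (n + 1) ^ 6 := by
  classical
  have h1 : (univ : Finset (Finset (Fin n))).filter (fun S => S.card ≤ 6) ⊆
      (range 7).biUnion (fun k => powersetCard k univ) := by
    intro S hS
    rw [mem_filter] at hS
    rw [mem_biUnion]
    exact ⟨S.card, mem_range.2 (by omega), mem_powersetCard.2 ⟨subset_univ _, rfl⟩⟩
  refine (card_le_card h1).trans (card_biUnion_le.trans ?_)
  calc ∑ k ∈ range 7, (powersetCard k (univ : Finset (Fin n))).card
      ≤ ∑ k ∈ range 7, n ^ k := by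
        apply sum_le_sum
        intro k _
        rw [card_powersetCard, card_univ, Fintype.card_fin]
        exact Nat.choose_le_pow n k
    _ ≤ (n + 1) ^ 6 := by
        simp only [sum_range_succ, range_zero, sum_empty]
        have h : (n + 1) ^ 6 = 1 + 6 * n + 15 * n ^ 2 + 20 * n ^ 3 + 15 * n ^ 4 + 6 * n ^ 5 +
          n ^ 6 := by ring
        rw [h]
        have e1 : n ^ 0 = 1 := pow_zero n
        have e2 : n ^ 1 = n := pow_one n
        omega

lemma close_ball (x : Finset (Fin n) × Fin (n + 1)) :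
    ∃ s : Finset (Finset (Fin n) × Fin (n + 1)), s.card ≤ (n + 1) ^ 7 ∧
      ∀ y, Close x y → y ∈ s := by
  classical
  refine ⟨(((univ : Finset (Finset (Fin n))).filter (fun S => S.card ≤ 6)).image
    (fun S => symmDiff x.1 S)) ×ˢ univ, ?_, ?_⟩
  · rw [card_product, card_univ, Fintype.card_fin, pow_succ (n + 1) 6]
    exact Nat.mul_le_mul_right _ (card_image_le.trans small_sets)
  · intro y hy
    rw [mem_product, mem_image]
    refine ⟨⟨symmDiff x.1 y.1, ?_, ?_⟩, mem_univ _⟩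
    · rw [mem_filter]; exact ⟨mem_univ _, hy⟩
    · rw [symmDiff_symmDiff_cancel_left]

/-- The cluster of a heavy set is the range of a chain. -/
theorem bridge_chain (M : Matroid (Fin n)) (hE : M.E = Set.univ) (r : ℕ)
    (hr : ∀ X, Bs M X → X.card = r) (T : ℕ) (𝓕 : Finset (Set (Fin n))) (hT : 𝓕.card ≤ T + 1)
    (hcomp : IsComponentUnion M (cutOut M 𝓕)) (F : Set (Fin n)) (hF : F ∈ 𝓕) (hdep : M.Dep F)
    (hsp : ¬ M.Spanning F) (hbig : ¬ (F.encard + M.eRank ≤ 2 * M.eRk F + 3))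
    (hall : ∀ G ∈ 𝓕, M.Dep G → ¬ M.Spanning G → G.encard + M.eRank ≤ 2 * M.eRk G + 4) :
    ∃ f : Fin (T + 1) → Finset (Fin n) × Fin (n + 1), Chain Close f ∧
      Closed (Bs M) (KU r f) ∧ ∃ i, HeavyS n r 4 (f i) := by
  classical
  obtain ⟨f₀, hcl, _, hfG, hheavy⟩ := bridgeS M hE r hr (T + 1) 𝓕 hT hcomp ⟨F, hF⟩
  obtain ⟨B₀, hB₀⟩ := exists_bs M
  have hrank : M.eRank = r := by rw [eRank_eq hB₀, hr B₀ hB₀]
  obtain ⟨i₀, hi₀⟩ := hheavy F hF 3 hdep hsp hbig
  set H : Finset (Finset (Fin n) × Fin (n + 1)) :=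
    (univ.image f₀).filter (fun p => (p.2 : ℕ) < p.1.card ∧ (p.2 : ℕ) < r) with hH
  have hHs : ∀ p ∈ H, p.1.card + r ≤ 2 * (p.2 : ℕ) + 4 := by
    intro p hp
    rw [hH, mem_filter, mem_image] at hp
    obtain ⟨⟨i, _, rfl⟩, h1, h2⟩ := hp
    obtain ⟨G, hG, hGc, hGr⟩ := hfG i
    have hGdep : M.Dep G := by
      rw [← Matroid.eRk_lt_encard_iff_dep (by rw [hE]; exact Set.subset_univ _), hGc, hGr]
      exact_mod_cast h1
    have hGsp : ¬ M.Spanning G := by
      rw [Matroid.spanning_iff_eRk_le (by rw [hE]; exact Set.subset_univ _), hrank, hGr]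
      intro h
      have : r ≤ ((f₀ i).2 : ℕ) := by exact_mod_cast h
      omega
    have := hall G hG hGdep hGsp
    rw [hGc, hGr, hrank] at this
    exact_mod_cast this
  have hp₀ : f₀ i₀ ∈ H := by
    rw [hH, mem_filter]
    exact ⟨mem_image_of_mem _ (mem_univ _), hi₀.1, hi₀.2.1⟩
  have hHcard : H.card ≤ T + 1 := by
    refine (card_filter_le _ _).trans (card_image_le.trans ?_)
    rw [card_univ, Fintype.card_fin]
  obtain ⟨f, hch, hfH, ⟨i₁, hi₁⟩, hfcl⟩ := exists_chain Close close_refl H (f₀ i₀) hp₀ T hHcard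
  have hsubK : ∀ X, X ∈ KU r f → X ∈ KU r f₀ := by
    intro X hX
    rw [mem_KU] at hX ⊢
    obtain ⟨h1, i, hi⟩ := hX
    have := hfH i
    rw [hH, mem_filter, mem_image] at this
    obtain ⟨⟨j, _, hj⟩, _⟩ := this
    exact ⟨h1, j, by rw [hj]; exact hi⟩
  refine ⟨f, hch, ⟨fun X hX => hcl.1 X (hsubK X hX), ?_⟩, i₁, by rw [hi₁]; exact hi₀⟩
  intro X hX a ha b hb hnb
  have hY := hcl.2 X (hsubK X hX) a ha b hb hnb
  rw [mem_KU] at hX hY
  obtain ⟨hXr, i, hi⟩ := hX
  obtain ⟨hYr, k, hk⟩ := hY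
  have hq : f₀ k ∈ H := by
    rw [hH, mem_filter]
    refine ⟨mem_image_of_mem _ (mem_univ _), ?_, ?_⟩
    · exact lt_of_lt_of_le hk (card_le_card inter_subset_right)
    · rw [← hYr]
      exact lt_of_lt_of_le hk (card_le_card inter_subset_left)
  have hXY : (symmDiff X (insert b (X.erase a))).card ≤ 2 := by
    rw [card_symmDiff']
    have h1 : X \ insert b (X.erase a) ⊆ {a} := by
      intro z hz
      rw [mem_sdiff, mem_insert, mem_erase] at hz
      rw [mem_singleton]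
      by_contra hza
      exact hz.2 (Or.inr ⟨hza, hz.1⟩)
    have h2 : insert b (X.erase a) \ X ⊆ {b} := by
      intro z hz
      rw [mem_sdiff, mem_insert, mem_erase] at hz
      rw [mem_singleton]
      rcases hz.1 with h | h
      · exact h
      · exact absurd h.2 hz.2
    have h3 := card_le_card h1
    have h4 := card_le_card h2
    rw [card_singleton] at h3 h4
    omega
  have hclose : Close (f i) (f₀ k) :=
    close_of (mem_KF.2 ⟨hXr, hi⟩) (mem_KF.2 ⟨hYr, hk⟩) (hHs _ (hfH i)) (hHs _ hq) hXY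
  obtain ⟨j, hj⟩ := hfcl i _ hq hclose
  rw [mem_KU]
  exact ⟨hYr, j, by rw [hj]; exact hk⟩

end Pool.Agent.Matroid6d
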