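import Mathlib

/-!
Numerical inequalities.
-/

set_option autoImplicit false
set_option exponentiation.threshold 2000

namespace Pool.Agent.Matroid6d

open Finset

lemma sq_le_two_pow {L : ℕ} (hL : 4 ≤ L) : L ^ 2 ≤ 2 ^ L := by
  induction L, hL using Nat.le_induction with
  | base => norm_num
  | succ L hL ih => rw [pow_succ 2 L]; nlinarith

lemma succ_le_two_pow_div {n : ℕ} (hn : 200 ≤ n) : n + 1 ≤ 2 ^ (n / 20) := by
  have h : ∀ k : ℕ, 8 ≤ k → 20 * (k + 1) ≤ 2 ^ k := by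
    intro k hk
    induction k, hk using Nat.le_induction with
    | base => norm_num
    | succ k hk ih => rw [pow_succ 2 k]; omega
  have := h (n / 20) (by omega)
  omega

lemma choose_small {n r : ℕ} (h : 8 * r ≤ n) : (n.choose r) ^ 5 ≤ 2 ^ (3 * n) := by
  have h1 : n.choose r * 7 ^ (n - r) ≤ 8 ^ n := by
    have h2 := add_pow (1 : ℕ) 7 n
    simp only [Nat.cast_id] at h2
    have h3 : (1 : ℕ) ^ r * 7 ^ (n - r) * n.choose r ≤
        ∑ m ∈ range (n + 1), (1 : ℕ) ^ m * 7 ^ (n - m) * n.choose m :=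
      single_le_sum (f := fun m => (1 : ℕ) ^ m * 7 ^ (n - m) * n.choose m)
        (fun _ _ => Nat.zero_le _) (mem_range.2 (by omega))
    rw [← h2] at h3
    norm_num at h3
    linarith
  have h4 : (n.choose r) ^ 40 * (7 ^ (n - r)) ^ 40 ≤ (8 ^ n) ^ 40 := by
    rw [← mul_pow]
    exact Nat.pow_le_pow_left h1 40
  have h5 : (2 ^ 96) ^ n ≤ (7 ^ (n - r)) ^ 40 := by
    calc (2 ^ 96) ^ n ≤ (7 ^ 35) ^ n := Nat.pow_le_pow_left (by norm_num) n
      _ = 7 ^ (35 * n) := by rw [← pow_mul]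
      _ ≤ 7 ^ ((n - r) * 40) := Nat.pow_le_pow_right (by norm_num) (by omega)
      _ = (7 ^ (n - r)) ^ 40 := by rw [pow_mul]
  have h6 : ((8 : ℕ) ^ n) ^ 40 = 2 ^ (24 * n) * (2 ^ 96) ^ n := by
    rw [← pow_mul, show (8 : ℕ) = 2 ^ 3 by norm_num, ← pow_mul, ← pow_mul, ← pow_add]
    congr 1
    ring
  have h7 : (n.choose r) ^ 40 ≤ 2 ^ (24 * n) := by
    have h8 : (n.choose r) ^ 40 * (2 ^ 96) ^ n ≤ 2 ^ (24 * n) * (2 ^ 96) ^ n :=
      calc (n.choose r) ^ 40 * (2 ^ 96) ^ n ≤ (n.choose r) ^ 40 * (7 ^ (n - r)) ^ 40 :=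
            Nat.mul_le_mul_left _ h5
        _ ≤ (8 ^ n) ^ 40 := h4
        _ = _ := h6
    exact Nat.le_of_mul_le_mul_right h8 (by positivity)
  have h9 : ((n.choose r) ^ 5) ^ 8 ≤ (2 ^ (3 * n)) ^ 8 := by
    rw [← pow_mul, ← pow_mul, show 5 * 8 = 40 by norm_num, show 3 * n * 8 = 24 * n by ring]
    exact h7
  exact (Nat.pow_le_pow_iff_left (by norm_num)).1 h9

lemma extreme_ineq {n r : ℕ} (hn : 200 ≤ n) (hr : 8 * r ≤ n) :
    n + 1 + n + n.choose r ≤ n.choose (n / 2) / n := by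
  obtain ⟨q, hq⟩ : ∃ q, q = 3 * n / 5 + 1 := ⟨_, rfl⟩
  have hC : n.choose r ≤ 2 ^ q := by
    by_contra hlt
    push Not at hlt
    have h1 : (2 ^ q) ^ 5 < (n.choose r) ^ 5 := Nat.pow_lt_pow_left hlt (by norm_num)
    have h2 := choose_small hr
    have h3 : 2 ^ (3 * n) ≤ (2 ^ q) ^ 5 := by
      rw [← pow_mul]
      exact Nat.pow_le_pow_right (by norm_num) (by omega)
    omega
  have hN : 2 ^ n ≤ (n + 1) * n.choose (n / 2) := by
    rw [← Nat.sum_range_choose n]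
    calc ∑ m ∈ range (n + 1), n.choose m ≤ ∑ _m ∈ range (n + 1), n.choose (n / 2) :=
          sum_le_sum (fun m _ => Nat.choose_le_middle m n)
      _ = (n + 1) * n.choose (n / 2) := by rw [sum_const, card_range, smul_eq_mul]
  have h1 := succ_le_two_pow_div hn
  have hkey : (n + 1) * (n * (n + 1 + n + 2 ^ q)) ≤ 2 ^ n := by
    have h2 : n + 1 + n + 2 ^ q ≤ 2 ^ (q + 1) := by
      have : 2 * 2 ^ (n / 20) ≤ 2 ^ q := by
        rw [← pow_succ']
        exact Nat.pow_le_pow_right (by norm_num) (by omega)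
      rw [pow_succ]
      omega
    calc (n + 1) * (n * (n + 1 + n + 2 ^ q))
        ≤ 2 ^ (n / 20) * (2 ^ (n / 20) * 2 ^ (q + 1)) :=
          Nat.mul_le_mul h1 (Nat.mul_le_mul (by omega) h2)
      _ = 2 ^ (n / 20 + (n / 20 + (q + 1))) := by rw [← pow_add, ← pow_add]
      _ ≤ 2 ^ n := Nat.pow_le_pow_right (by norm_num) (by omega)
  have hfin : n * (n + 1 + n + n.choose r) ≤ n.choose (n / 2) := by
    have h3 : (n + 1) * (n * (n + 1 + n + n.choose r)) ≤ (n + 1) * n.choose (n / 2) :=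
      calc (n + 1) * (n * (n + 1 + n + n.choose r))
          ≤ (n + 1) * (n * (n + 1 + n + 2 ^ q)) :=
            Nat.mul_le_mul_left _ (Nat.mul_le_mul_left _ (Nat.add_le_add_left hC _))
        _ ≤ 2 ^ n := hkey
        _ ≤ _ := hN
    exact Nat.le_of_mul_le_mul_left h3 (by omega)
  rw [Nat.le_div_iff_mul_le (by omega), mul_comm]
  exact hfin

lemma main_ineq {n T : ℕ} (hn : 2 ^ 1000 ≤ n) (hT : T ≤ Nat.log 2 n / 100) :
    2 ^ (n + 1) * ((n + 1) * (2 ^ n * (n + 1)) ^ T) ≤ (n / 40).factorial := by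
  obtain ⟨L, hL⟩ : ∃ L, L = Nat.log 2 n := ⟨_, rfl⟩
  rw [← hL] at hT
  have hn0 : n ≠ 0 := by
    rintro rfl
    have : 0 < 2 ^ 1000 := by positivity
    omega
  have hL1 : 2 ^ L ≤ n := hL ▸ Nat.pow_log_le_self 2 hn0
  have hL2 : n < 2 ^ (L + 1) := hL ▸ Nat.lt_pow_succ_log_self (by norm_num) n
  have hL3 : 1000 ≤ L := by
    rw [hL]
    exact (Nat.le_log_iff_pow_le (by norm_num) hn0).2 hn
  obtain ⟨k, hk⟩ : ∃ k, k = n / 80 := ⟨_, rfl⟩
  have hf1 : (k + 1) ^ k ≤ (n / 40).factorial := by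
    calc (k + 1) ^ k ≤ k.factorial * (k + 1) ^ k := Nat.le_mul_of_pos_left _ (Nat.factorial_pos k)
      _ ≤ (k + k).factorial := Nat.factorial_mul_pow_le_factorial
      _ ≤ (n / 40).factorial := Nat.factorial_le (by omega)
  have hk1 : 2 ^ (L - 7) ≤ k + 1 := by
    have h1 : 2 ^ (L - 7) * 2 ^ 7 = 2 ^ L := by rw [← pow_add]; congr 1; omega
    have h2 : n < 80 * (k + 1) := by omega
    norm_num at h1
    omega
  have hf2 : 2 ^ ((L - 7) * k) ≤ (n / 40).factorial := by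
    rw [pow_mul]
    exact (Nat.pow_le_pow_left hk1 k).trans hf1
  have hn1 : n + 1 ≤ 2 ^ (L + 1) := hL2
  have hlhs : 2 ^ (n + 1) * ((n + 1) * (2 ^ n * (n + 1)) ^ T) ≤
      2 ^ (n + 1 + ((L + 1) + (n + (L + 1)) * T)) := by
    rw [pow_add 2 (n + 1), pow_add 2 (L + 1), pow_mul]
    refine Nat.mul_le_mul_left _ (Nat.mul_le_mul hn1 (Nat.pow_le_pow_left ?_ T))
    rw [pow_add 2 n]
    exact Nat.mul_le_mul_left _ hn1
  refine hlhs.trans (le_trans (Nat.pow_le_pow_right (by norm_num) ?_) hf2)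
  -- the exponents
  obtain ⟨L', hL'⟩ : ∃ L', L = L' + 7 := ⟨L - 7, by omega⟩
  have hLL : L ^ 2 ≤ n := (sq_le_two_pow (by omega)).trans hL1
  have hT' : 100 * T ≤ L := by omega
  have hk' : n ≤ 80 * k + 79 := by omega
  rw [show L - 7 = L' by omega]
  have e1 : 8000 * (n + 1 + ((L + 1) + (n + (L + 1)) * T)) ≤
      8000 * n + 16000 + 8000 * L + 80 * ((n + (L + 1)) * L) := by
    have : 8000 * ((n + (L + 1)) * T) ≤ 80 * ((n + (L + 1)) * L) := by
      calc 8000 * ((n + (L + 1)) * T) = 80 * ((n + (L + 1)) * (100 * T)) := by ring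
        _ ≤ 80 * ((n + (L + 1)) * L) :=
          Nat.mul_le_mul_left _ (Nat.mul_le_mul_left _ hT')
    omega
  have e2 : 100 * (L' * n) ≤ 8000 * (L' * k) + 7900 * L' := by
    calc 100 * (L' * n) ≤ 100 * (L' * (80 * k + 79)) :=
          Nat.mul_le_mul_left _ (Nat.mul_le_mul_left _ hk')
      _ = 8000 * (L' * k) + 7900 * L' := by ring
  have e3 : 8000 * n + 16000 + 8000 * L + 80 * ((n + (L + 1)) * L) + 7900 * L' ≤
      100 * (L' * n) := by
    have hL'3 : 993 ≤ L' := by omega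
    rw [hL'] at hLL ⊢
    have h5 := Nat.mul_le_mul_right n hL'3
    nlinarith
  have e4 : 8000 * (n + 1 + ((L + 1) + (n + (L + 1)) * T)) ≤ 8000 * (L' * k) := by omega
  exact Nat.le_of_mul_le_mul_left e4 (by norm_num)

end Pool.Agent.Matroid6d
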