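import Pool.Agent.Matroid6d.WMat
import Pool.Agent.Matroid6d.Numeric

/-!
Matroids of extreme rank are rare.
-/

set_option autoImplicit false

namespace Pool.Agent.Matroid6d

open Finset

/-- Non-extreme rank. -/
def MidR {n : ℕ} (M : Matroid (Fin n)) : Prop :=
  (n : ℕ∞) ≤ 8 * M.eRank ∧ 8 * M.eRank ≤ 7 * n

lemma midR_iff {n : ℕ} {M : Matroid (Fin n)} : MidR M ↔ n ≤ 8 * rk M ∧ 8 * rk M ≤ 7 * n := by
  unfold MidR
  rw [eRank_rk]
  constructor
  · rintro ⟨h1, h2⟩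
    exact ⟨by exact_mod_cast h1, by exact_mod_cast h2⟩
  · rintro ⟨h1, h2⟩
    exact ⟨by exact_mod_cast h1, by exact_mod_cast h2⟩

/-- The members of extreme rank. -/
lemma extR2 {n : ℕ} (hn : 200 ≤ n) (𝒞 : Set (Matroid (Fin n)))
    (hE : ∀ M ∈ 𝒞, M.E = Set.univ)
    (hsp : ∀ M : Matroid (Fin n), M.E = Set.univ → M.eRank = (n / 2 : ℕ) → SparsePaving M →
      M ∈ 𝒞) :
    2 ^ (n + 1) * {M ∈ 𝒞 | ¬ MidR M}.ncard ≤ 𝒞.ncard := by
  classical
  set B := {M ∈ 𝒞 | ¬ MidR M} with hB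
  set I := (range (n + 1)).filter (fun r => 8 * r ≤ n ∨ 8 * (n - r) ≤ n) with hI
  have hfin := finite_mats 𝒞 hE
  have hsub : B ⊆ ⋃ r ∈ I, {M ∈ 𝒞 | ∀ X, Bs M X → X.card = r} := by
    rintro M ⟨hMC, hr⟩
    rw [Set.mem_iUnion₂]
    have hle := rk_le M
    refine ⟨rk M, ?_, hMC, fun X hX => card_of_bs hX⟩
    rw [hI, mem_filter]
    refine ⟨mem_range.2 (by omega), ?_⟩
    by_contra hcon
    apply hr
    rw [midR_iff]
    omega
  have hfinU : (⋃ r ∈ I, {M ∈ 𝒞 | ∀ X, Bs M X → X.card = r}).Finite := by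
    apply hfin.subset
    intro M hM
    rw [Set.mem_iUnion₂] at hM
    obtain ⟨p, _, hp⟩ := hM
    exact hp.1
  have h1 : B.ncard ≤ ∑ r ∈ I, 2 ^ (n.choose r) :=
    calc B.ncard ≤ (⋃ r ∈ I, {M ∈ 𝒞 | ∀ X, Bs M X → X.card = r}).ncard :=
          Set.ncard_le_ncard hsub hfinU
      _ ≤ ∑ r ∈ I, {M ∈ 𝒞 | ∀ X, Bs M X → X.card = r}.ncard := set_ncard_biUnion_le I _
      _ ≤ _ := sum_le_sum (fun r _ => card_rank_le 𝒞 hE r)
  have h2 : ∀ r ∈ I, n + 1 + n + n.choose r ≤ n.choose (n / 2) / n := by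
    intro r hr
    rw [hI, mem_filter, mem_range] at hr
    rcases hr.2 with h | h
    · exact extreme_ineq hn h
    · have := extreme_ineq hn h
      rwa [Nat.choose_symm (by omega)] at this
  have h3 : 2 ^ n * (2 ^ (n + 1) * B.ncard) ≤ 2 ^ n * 2 ^ (n.choose (n / 2) / n) := by
    calc 2 ^ n * (2 ^ (n + 1) * B.ncard)
        ≤ 2 ^ n * (2 ^ (n + 1) * ∑ r ∈ I, 2 ^ (n.choose r)) :=
          Nat.mul_le_mul_left _ (Nat.mul_le_mul_left _ h1)
      _ = ∑ r ∈ I, 2 ^ (n + 1 + n + n.choose r) := by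
          rw [mul_sum, mul_sum]
          refine sum_congr rfl (fun r _ => ?_)
          rw [← pow_add, ← pow_add]
          congr 1
          ring
      _ ≤ ∑ _r ∈ I, 2 ^ (n.choose (n / 2) / n) :=
          sum_le_sum (fun r hr => Nat.pow_le_pow_right (by norm_num) (h2 r hr))
      _ = I.card * 2 ^ (n.choose (n / 2) / n) := by rw [sum_const, smul_eq_mul]
      _ ≤ 2 ^ n * 2 ^ (n.choose (n / 2) / n) := by
          apply Nat.mul_le_mul_right
          calc I.card ≤ (range (n + 1)).card := card_filter_le _ _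
            _ = n + 1 := card_range _
            _ ≤ 2 ^ n := Nat.lt_two_pow_self
  have h4 : 2 ^ (n.choose (n / 2) / n) ≤ 𝒞.ncard :=
    two_pow_le_card 𝒞 hE (n / 2) (by omega) (by omega) hsp
  exact (Nat.le_of_mul_le_mul_left h3 (by positivity)).trans h4

end Pool.Agent.Matroid6d
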