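import Pool.Agent.Matroid6d.Sum2
import Pool.Agent.Matroid6d.ExtR2

/-!
From matroids to families with the exchange property: circuits, cocircuits, and the final union
bound.
-/

set_option autoImplicit false

namespace Pool.Agent.Matroid6d

open Finset

variable {n : ℕ} {M : Matroid (Fin n)} {Y : Finset (Fin n)}

lemma isCircuit_Cs (hE : M.E = Set.univ) (hY : Y.card = rk M) (hnb : ¬ Bs M Y)
    (hne : (Cs (Bs M) Y).Nonempty) : M.IsCircuit (Cs (Bs M) Y : Set (Fin n)) := by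
  rw [Matroid.isCircuit_iff_dep_forall_sdiff_singleton_indep]
  constructor
  · rw [Matroid.dep_iff]
    refine ⟨?_, by rw [hE]; exact Set.subset_univ _⟩
    intro hind
    obtain ⟨B, hB, hsub⟩ := hind.exists_isBase_superset
    obtain ⟨B', rfl⟩ : ∃ B' : Finset (Fin n), (B' : Set (Fin n)) = B :=
      ⟨(Set.toFinite B).toFinset, Set.Finite.coe_toFinset _⟩
    exact not_of_Cs_subset (exch_bs M) (fun X hX => card_of_bs hX) hY hnb hne
      (by exact_mod_cast hsub) hB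
  · intro e he
    obtain ⟨_, y, _, hb⟩ := mem_Cs.1 (show e ∈ Cs (Bs M) Y by exact_mod_cast he)
    unfold Bs at hb
    apply hb.indep.subset
    intro z hz
    have hzC : z ∈ Cs (Bs M) Y := by exact_mod_cast hz.1
    have hze : z ≠ e := hz.2
    rw [coe_insert, coe_erase]
    exact Or.inr ⟨by exact_mod_cast Cs_subset hzC, hze⟩

lemma bs_dual (hE : M.E = Set.univ) : Bs M✶ = Pd (Bs M) := by
  funext X
  apply propext
  unfold Pd Bs
  rw [Matroid.dual_isBase_iff (by rw [hE]; exact Set.subset_univ _), hE, coe_compl,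
    Set.compl_eq_univ_sdiff]

lemma rk_dual (hE : M.E = Set.univ) : rk M✶ = n - rk M := by
  obtain ⟨B, hB⟩ := exists_bs M✶
  have h1 := card_of_bs hB
  rw [bs_dual hE] at hB
  have h2 := card_of_bs (M := M) (X := Bᶜ) hB
  rw [card_compl'] at h2
  have := card_le_n B
  omega

lemma isCocircuit_Ds (hE : M.E = Set.univ) (hY : Y.card = rk M) (hnb : ¬ Bs M Y)
    (hne : (Cs (Bs M) Y).Nonempty) : M.IsCocircuit (Ds (Bs M) Y : Set (Fin n)) := by
  have h1 : Cs (Bs M✶) Yᶜ = Ds (Bs M) Y := by rw [bs_dual hE, Cs_Pd]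
  rw [← h1]
  apply isCircuit_Cs (M := M✶) (by rw [Matroid.dual_ground, hE])
  · rw [rk_dual hE, card_compl', hY]
  · rw [bs_dual hE]
    unfold Pd
    rwa [compl_compl]
  · rw [h1]
    exact Ds_nonempty_iff.2 hne

open Classical in
/-- The finite sets belonging to a family of sets. -/
noncomputable def Kf (K : Set (Set (Fin n))) : Finset (Finset (Fin n)) :=
  univ.filter (fun X => (X : Set (Fin n)) ∈ K)

lemma mem_Kf {K : Set (Set (Fin n))} {X : Finset (Fin n)} :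
    X ∈ Kf K ↔ (X : Set (Fin n)) ∈ K := by
  classical
  simp only [Kf, mem_filter, mem_univ, true_and]

lemma card_Kf (K : Set (Set (Fin n))) : K.ncard = (Kf K).card :=
  ncard_eq_of_iff (fun X => X ∈ K) _ (fun _ => mem_Kf.symm)

lemma closed_Kf {K : Set (Set (Fin n))} (h : IsComponentUnion M K) : Closed (Bs M) (Kf K) := by
  have hr : ∀ X ∈ Kf K, X.card = rk M ∧ ¬ Bs M X := by
    intro X hX
    have := isNonbasis_iff.1 (h.1 _ (mem_Kf.1 hX))
    exact mem_Nb.1 this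
  constructor
  · intro X hX hb
    exact (hr X hX).2 hb
  · intro X hX a ha b hb hnb
    have hXr := (hr X hX).1
    rw [mem_Kf]
    refine h.2 _ (mem_Kf.1 hX) _ (isNonbasis_iff.2 (mem_Nb.2 ⟨by rw [card_swap ha hb, hXr],
      hnb⟩)) ?_
    have h1 : (X : Set (Fin n)) ∩ ((insert b (X.erase a) : Finset (Fin n)) : Set (Fin n)) =
        ((X.erase a : Finset (Fin n)) : Set (Fin n)) := by
      rw [← coe_inter]
      congr 1
      ext z
      simp only [mem_inter, mem_insert, mem_erase]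
      constructor
      · rintro ⟨h1, h2 | h2⟩
        · exact absurd (h2 ▸ h1) hb
        · exact h2
      · rintro ⟨h1, h2⟩
        exact ⟨h2, Or.inr ⟨h1, h2⟩⟩
    rw [h1, Set.encard_coe_eq_coe_finsetCard, eRank_rk, card_erase_of_mem ha, hXr]
    have : 0 < X.card := card_pos.2 ⟨a, ha⟩
    have h2 : rk M - 1 + 1 = rk M := by omega
    exact_mod_cast h2

/-- The assumptions on a union of components. -/
lemma ctx_Kf (hE : M.E = Set.univ) (hmid : MidR M) {K : Set (Set (Fin n))}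
    (hK : IsComponentUnion M K) (hCH : ∀ X ∈ K, ¬ IsCH M X) (g : ℕ)
    (hg1 : ∀ C : Set (Fin n), M.IsCircuit C → (∃ X ∈ K, C ⊆ X) → (g : ℕ∞) ≤ C.encard)
    (hg2 : ∀ D : Set (Fin n), M.IsCocircuit D → (∃ X ∈ K, Disjoint D X) → (g : ℕ∞) ≤ D.encard) :
    Ctx n (rk M) g (Bs M) (Kf K) := by
  have hNb : ∀ X ∈ Kf K, X ∈ Nb (Bs M) (rk M) := fun X hX =>
    isNonbasis_iff.1 (hK.1 _ (mem_Kf.1 hX))
  obtain ⟨m1, m2⟩ := midR_iff.1 hmid
  refine ⟨exch_bs M, fun X hX => card_of_bs hX, exists_bs M, closed_Kf hK,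
    fun X hX => (mem_Nb.1 (hNb X hX)).1, ?_, ?_, m1, m2⟩
  · intro X hX
    rw [mem_Us_iff, ← isCH_iff hE]
    exact ⟨hNb X hX, hCH _ (mem_Kf.1 hX)⟩
  · intro Y hY hne
    obtain ⟨h1, h2⟩ := mem_Nb.1 (hNb Y hY)
    have a1 := hg1 _ (isCircuit_Cs hE h1 h2 hne) ⟨_, mem_Kf.1 hY, by exact_mod_cast Cs_subset⟩
    have a2 := hg2 _ (isCocircuit_Ds hE h1 h2 hne) ⟨_, mem_Kf.1 hY, by
      rw [disjoint_coe]
      exact disjoint_Ds.symm⟩
    rw [Set.encard_coe_eq_coe_finsetCard] at a1 a2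
    exact ⟨by exact_mod_cast a1, by exact_mod_cast a2⟩

/-- The light descriptors come from circuits and cocircuits. -/
lemma card_Lset_le (hE : M.E = Set.univ) {K : Set (Set (Fin n))}
    (hK : IsComponentUnion M K) :
    (Lset (Bs M) (rk M) (Kf K)).card ≤
      {C : Set (Fin n) | M.IsCircuit C ∧ C.encard + 1 = M.eRank ∧ ∃ X ∈ K, C ⊆ X}.ncard +
      {D : Set (Fin n) | M.IsCocircuit D ∧ D.encard + M.eRank + 1 = n ∧
        ∃ X ∈ K, Disjoint D X}.ncard := by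
  classical
  set A : Finset (Finset (Fin n)) := univ.filter (fun C => M.IsCircuit (C : Set (Fin n)) ∧
    (C : Set (Fin n)).encard + 1 = M.eRank ∧ ∃ X ∈ K, (C : Set (Fin n)) ⊆ X) with hA
  set B : Finset (Finset (Fin n)) := univ.filter (fun D => M.IsCocircuit (D : Set (Fin n)) ∧
    (D : Set (Fin n)).encard + M.eRank + 1 = n ∧ ∃ X ∈ K, Disjoint (D : Set (Fin n)) X) with hB
  have hAc := ncard_eq_of_iff (fun C : Set (Fin n) => M.IsCircuit C ∧ C.encard + 1 = M.eRank ∧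
    ∃ X ∈ K, C ⊆ X) A (fun C => by simp only [hA, mem_filter, mem_univ, true_and])
  have hBc := ncard_eq_of_iff (fun D : Set (Fin n) => M.IsCocircuit D ∧
    D.encard + M.eRank + 1 = n ∧ ∃ X ∈ K, Disjoint D X) B
    (fun D => by simp only [hB, mem_filter, mem_univ, true_and])
  rw [hAc, hBc]
  have hNb : ∀ X ∈ Kf K, X ∈ Nb (Bs M) (rk M) := fun X hX =>
    isNonbasis_iff.1 (hK.1 _ (mem_Kf.1 hX))
  have hsub : Lset (Bs M) (rk M) (Kf K) ⊆ A.image Sum.inl ∪ B.image Sum.inr := by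
    intro d hd
    obtain ⟨hp, hdf⟩ := mem_Lset.1 hd
    rw [mem_union, mem_image, mem_image]
    rcases d with C | D
    · left
      obtain ⟨Y, hY, hne, rfl⟩ := hp
      obtain ⟨h1, h2⟩ := mem_Nb.1 (hNb Y hY)
      change rk M - (Cs (Bs M) Y).card = 1 at hdf
      refine ⟨Cs (Bs M) Y, ?_, rfl⟩
      rw [hA, mem_filter]
      refine ⟨mem_univ _, isCircuit_Cs hE h1 h2 hne, ?_, _, mem_Kf.1 hY,
        by exact_mod_cast Cs_subset⟩
      rw [Set.encard_coe_eq_coe_finsetCard, eRank_rk]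
      have : (Cs (Bs M) Y).card + 1 = rk M := by omega
      exact_mod_cast this
    · right
      obtain ⟨Y, hY, hne, rfl⟩ := hp
      obtain ⟨h1, h2⟩ := mem_Nb.1 (hNb Y hY)
      change n - rk M - (Ds (Bs M) Y).card = 1 at hdf
      refine ⟨Ds (Bs M) Y, ?_, rfl⟩
      rw [hB, mem_filter]
      refine ⟨mem_univ _, isCocircuit_Ds hE h1 h2 hne, ?_, _, mem_Kf.1 hY, ?_⟩
      · rw [Set.encard_coe_eq_coe_finsetCard, eRank_rk]
        have : (Ds (Bs M) Y).card + rk M + 1 = n := by omega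
        exact_mod_cast this
      · rw [disjoint_coe]
        exact disjoint_Ds.symm
  calc (Lset (Bs M) (rk M) (Kf K)).card ≤ (A.image Sum.inl ∪ B.image Sum.inr).card :=
        card_le_card hsub
    _ ≤ (A.image Sum.inl).card + (B.image Sum.inr).card := card_union_le _ _
    _ ≤ A.card + B.card := Nat.add_le_add card_image_le card_image_le

/-- The union bound over the families. -/
theorem final_bound (𝒞 : Set (Matroid (Fin n))) (hE : ∀ M ∈ 𝒞, M.E = Set.univ)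
    (hup : ∀ M ∈ 𝒞, ∀ M' : Matroid (Fin n), M'.E = Set.univ →
      (∀ B, M.IsBase B → M'.IsBase B) → M' ∈ 𝒞)
    (𝒦 : ℕ → Finset (Finset (Finset (Fin n)))) (h𝒦 : ∀ r, ∀ K ∈ 𝒦 r, ∀ X ∈ K, X.card = r)
    (hsum : ∀ r, n ≤ 8 * r → 8 * r ≤ 7 * n → ∑ K ∈ 𝒦 r, ((Nst K : ℝ))⁻¹ ≤ 8 * (1 / 4) ^ n)
    (hn : 16 * (n + 1) ≤ 2 ^ n) (Bad : Set (Matroid (Fin n)))
    (hBad : ∀ M ∈ Bad, M ∈ 𝒞 ∧ MidR M ∧ ∃ K ∈ 𝒦 (rk M), Closed (Bs M) K) :
    2 ^ (n + 1) * Bad.ncard ≤ 𝒞.ncard := by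
  classical
  have hfin := finite_mats 𝒞 hE
  set R := (range (n + 1)).filter (fun r => n ≤ 8 * r ∧ 8 * r ≤ 7 * n) with hR
  set I : Finset (Σ _ : ℕ, Finset (Finset (Fin n))) := R.sigma 𝒦 with hI
  set A : (Σ _ : ℕ, Finset (Finset (Fin n))) → Set (Matroid (Fin n)) := fun p =>
    {M ∈ 𝒞 | (∀ X, Bs M X → X.card = p.1) ∧ Closed (Bs M) p.2} with hA
  have hsub : Bad ⊆ ⋃ p ∈ I, A p := by
    intro M hM
    obtain ⟨hMC, hmid, K, hK, hcl⟩ := hBad M hM
    obtain ⟨m1, m2⟩ := midR_iff.1 hmid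
    rw [Set.mem_iUnion₂]
    refine ⟨⟨rk M, K⟩, ?_, hMC, fun X hX => card_of_bs hX, hcl⟩
    rw [hI, mem_sigma, hR, mem_filter, mem_range]
    exact ⟨⟨Nat.lt_succ_of_le (rk_le M), m1, m2⟩, hK⟩
  have hfinU : (⋃ p ∈ I, A p).Finite := by
    apply hfin.subset
    intro M hM
    rw [Set.mem_iUnion₂] at hM
    obtain ⟨p, _, hp⟩ := hM
    exact hp.1
  have h1 : (Bad.ncard : ℝ) ≤ ∑ p ∈ I, ((A p).ncard : ℝ) := by
    have := (Set.ncard_le_ncard hsub hfinU).trans (set_ncard_biUnion_le I A)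
    exact_mod_cast this
  have h2 : ∀ p ∈ I, ((A p).ncard : ℝ) ≤ (𝒞.ncard : ℝ) * ((Nst p.2 : ℝ))⁻¹ := by
    rintro ⟨r, K⟩ hp
    rw [hI, mem_sigma] at hp
    have h3 := count_replace 𝒞 hE hup r K (h𝒦 r K hp.2) (K.powerset.filter Stable)
      (fun S hS => ⟨mem_powerset.1 (mem_filter.1 hS).1, (mem_filter.1 hS).2⟩)
    have h4 : (K.powerset.filter Stable).card = Nst K := by
      unfold Nst
      congr!
    rw [h4] at h3
    have h5 : 0 < Nst K := by
      rw [← h4]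
      apply card_pos.2
      refine ⟨∅, mem_filter.2 ⟨empty_mem_powerset _, ?_⟩⟩
      intro X hX
      exact absurd hX (notMem_empty _)
    have h6 : (0 : ℝ) < Nst K := by exact_mod_cast h5
    rw [← div_eq_mul_inv, le_div_iff₀ h6]
    exact_mod_cast h3
  have h3 : (Bad.ncard : ℝ) ≤ 𝒞.ncard * ((n + 1) * (8 * (1 / 4) ^ n)) := by
    calc (Bad.ncard : ℝ) ≤ ∑ p ∈ I, ((A p).ncard : ℝ) := h1
      _ ≤ ∑ p ∈ I, (𝒞.ncard : ℝ) * ((Nst p.2 : ℝ))⁻¹ := sum_le_sum h2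
      _ = 𝒞.ncard * ∑ r ∈ R, ∑ K ∈ 𝒦 r, ((Nst K : ℝ))⁻¹ := by
          rw [← mul_sum, hI, sum_sigma]
      _ ≤ 𝒞.ncard * ∑ _r ∈ R, 8 * (1 / 4 : ℝ) ^ n := by
          apply mul_le_mul_of_nonneg_left _ (by positivity)
          apply sum_le_sum
          intro r hr
          rw [hR, mem_filter] at hr
          exact hsum r hr.2.1 hr.2.2
      _ ≤ _ := by
          apply mul_le_mul_of_nonneg_left _ (by positivity)
          rw [sum_const, nsmul_eq_mul]
          apply mul_le_mul_of_nonneg_right _ (by positivity)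
          have : R.card ≤ n + 1 := by
            rw [hR]
            exact (card_filter_le _ _).trans (by rw [card_range])
          exact_mod_cast this
  have h4 : (2 : ℝ) ^ (n + 1) * Bad.ncard ≤ 𝒞.ncard := by
    have h5 : (2 : ℝ) ^ (n + 1) * ((n + 1) * (8 * (1 / 4) ^ n)) ≤ 1 := by
      have h6 : (16 : ℝ) * (n + 1) ≤ 2 ^ n := by exact_mod_cast hn
      have h7 : (1 / 4 : ℝ) ^ n = ((2 : ℝ) ^ n)⁻¹ * ((2 : ℝ) ^ n)⁻¹ := by
        rw [← mul_inv, ← mul_pow, ← inv_pow]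
        norm_num
      have h8 : (0 : ℝ) < 2 ^ n := by positivity
      rw [h7, pow_succ]
      calc (2 : ℝ) ^ n * 2 * ((n + 1) * (8 * (((2 : ℝ) ^ n)⁻¹ * ((2 : ℝ) ^ n)⁻¹)))
          = (16 * (n + 1)) * ((2 : ℝ) ^ n)⁻¹ := by
            field_simp
            ring
        _ ≤ 2 ^ n * ((2 : ℝ) ^ n)⁻¹ := mul_le_mul_of_nonneg_right h6 (by positivity)
        _ = 1 := mul_inv_cancel₀ h8.ne'
    calc (2 : ℝ) ^ (n + 1) * Bad.ncard
        ≤ 2 ^ (n + 1) * (𝒞.ncard * ((n + 1) * (8 * (1 / 4) ^ n))) :=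
          mul_le_mul_of_nonneg_left h3 (by positivity)
      _ = 𝒞.ncard * (2 ^ (n + 1) * ((n + 1) * (8 * (1 / 4) ^ n))) := by ring
      _ ≤ 𝒞.ncard * 1 := mul_le_mul_of_nonneg_left h5 (by positivity)
      _ = 𝒞.ncard := mul_one _
  exact_mod_cast h4

end Pool.Agent.Matroid6d
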