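import Pool.Agent.Matroid6d.CubeD

/-!
Connected families of sets of bounded nullity plus corank.
-/

set_option autoImplicit false

namespace Pool.Agent.Matroid6d

open Finset

variable {n : ℕ}

/-- Two pairs are `c`-close when their sets differ in at most `c` elements. -/
def CloseC (c : ℕ) (p q : Finset (Fin n) × Fin (n + 1)) : Prop := (symmDiff p.1 q.1).card ≤ c

lemma closeC_refl (c : ℕ) (p : Finset (Fin n) × Fin (n + 1)) : CloseC c p p := by
  unfold CloseC
  rw [symmDiff_self, bot_eq_empty, card_empty]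
  omega

lemma nearC {r ρ s : ℕ} {F X : Finset (Fin n)} (hX : X ∈ KF r F ρ)
    (h : F.card + r ≤ 2 * ρ + s) : (symmDiff X F).card + 2 ≤ s := by
  rw [mem_KF] at hX
  rw [card_symmDiff']
  have h1 := card_sdiff_add_card_inter X F
  have h2 := card_sdiff_add_card_inter F X
  rw [inter_comm] at h2
  omega

lemma closeC_of {r s : ℕ} {p q : Finset (Fin n) × Fin (n + 1)} {X Y : Finset (Fin n)}
    (hX : X ∈ KF r p.1 p.2) (hY : Y ∈ KF r q.1 q.2) (hp : p.1.card + r ≤ 2 * (p.2 : ℕ) + s)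
    (hq : q.1.card + r ≤ 2 * (q.2 : ℕ) + s) (hXY : (symmDiff X Y).card ≤ 2) :
    CloseC (2 * s) p q := by
  unfold CloseC
  have h1 := nearC hX hp
  have h2 := nearC hY hq
  rw [symmDiff_comm] at h1
  have h3 := card_symmDiff_tri p.1 X q.1
  have h4 := card_symmDiff_tri X Y q.1
  omega

lemma sum_pow_le (n c : ℕ) : ∑ k ∈ range (c + 1), n ^ k ≤ (n + 1) ^ c := by
  induction c with
  | zero => simp
  | succ c ih =>
    rw [sum_range_succ, pow_succ (n + 1)]
    have h1 : n ^ (c + 1) ≤ n * (n + 1) ^ c := by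
      rw [pow_succ, mul_comm]
      exact Nat.mul_le_mul_left _ (Nat.pow_le_pow_left (by omega) c)
    calc ∑ k ∈ range (c + 1), n ^ k + n ^ (c + 1) ≤ (n + 1) ^ c + n * (n + 1) ^ c :=
          Nat.add_le_add ih h1
      _ = (n + 1) ^ c * (n + 1) := by ring

lemma small_setsC (c : ℕ) :
    ((univ : Finset (Finset (Fin n))).filter (fun S => S.card ≤ c)).card ≤ (n + 1) ^ c := by
  classical
  have h1 : (univ : Finset (Finset (Fin n))).filter (fun S => S.card ≤ c) ⊆
      (range (c + 1)).biUnion (fun k => powersetCard k univ) := by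
    intro S hS
    rw [mem_filter] at hS
    rw [mem_biUnion]
    exact ⟨S.card, mem_range.2 (by omega), mem_powersetCard.2 ⟨subset_univ _, rfl⟩⟩
  refine (card_le_card h1).trans (card_biUnion_le.trans ?_)
  refine le_trans (sum_le_sum (fun k _ => ?_)) (sum_pow_le n c)
  rw [card_powersetCard, card_univ, Fintype.card_fin]
  exact Nat.choose_le_pow n k

lemma closeC_ball (c : ℕ) (x : Finset (Fin n) × Fin (n + 1)) :
    ∃ s : Finset (Finset (Fin n) × Fin (n + 1)), s.card ≤ (n + 1) ^ (c + 1) ∧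
      ∀ y, CloseC c x y → y ∈ s := by
  classical
  refine ⟨(((univ : Finset (Finset (Fin n))).filter (fun S => S.card ≤ c)).image
    (fun S => symmDiff x.1 S)) ×ˢ univ, ?_, ?_⟩
  · rw [card_product, card_univ, Fintype.card_fin, pow_succ (n + 1) c]
    exact Nat.mul_le_mul_right _ (card_image_le.trans (small_setsC c))
  · intro y hy
    rw [mem_product, mem_image]
    refine ⟨⟨symmDiff x.1 y.1, ?_, ?_⟩, mem_univ _⟩
    · rw [mem_filter]; exact ⟨mem_univ _, hy⟩
    · rw [symmDiff_symmDiff_cancel_left]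

/-- The cluster of a set is the range of a chain. -/
theorem bridge_chainC (M : Matroid (Fin n)) (hE : M.E = Set.univ) (r : ℕ)
    (hr : ∀ X, Bs M X → X.card = r) (T s : ℕ) (𝓕 : Finset (Set (Fin n))) (hT : 𝓕.card ≤ T + 1)
    (hcomp : IsComponentUnion M (cutOut M 𝓕)) (F : Set (Fin n)) (hF : F ∈ 𝓕) (hdep : M.Dep F)
    (hsp : ¬ M.Spanning F) (hbig : ¬ (F.encard + M.eRank ≤ 2 * M.eRk F + s))
    (hall : ∀ G ∈ 𝓕, M.Dep G → ¬ M.Spanning G →
      G.encard + M.eRank ≤ 2 * M.eRk G + ((s + 1 : ℕ) : ℕ∞)) :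
    ∃ f : Fin (T + 1) → Finset (Fin n) × Fin (n + 1), Chain (CloseC (2 * (s + 1))) f ∧
      Closed (Bs M) (KU r f) ∧ ∃ i, HeavyS n r (s + 1) (f i) := by
  classical
  obtain ⟨f₀, hcl, _, hfG, hheavy⟩ := bridgeS M hE r hr (T + 1) 𝓕 hT hcomp ⟨F, hF⟩
  obtain ⟨B₀, hB₀⟩ := exists_bs M
  have hrank : M.eRank = r := by rw [eRank_eq hB₀, hr B₀ hB₀]
  obtain ⟨i₀, hi₀⟩ := hheavy F hF s hdep hsp hbig
  set H : Finset (Finset (Fin n) × Fin (n + 1)) :=
    (univ.image f₀).filter (fun p => (p.2 : ℕ) < p.1.card ∧ (p.2 : ℕ) < r) with hH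
  have hHs : ∀ p ∈ H, p.1.card + r ≤ 2 * (p.2 : ℕ) + (s + 1) := by
    intro p hp
    rw [hH, mem_filter, mem_image] at hp
    obtain ⟨⟨i, _, rfl⟩, h1, h2⟩ := hp
    obtain ⟨G, hG, hGc, hGr⟩ := hfG i
    have hGdep : M.Dep G := by
      rw [← Matroid.eRk_lt_encard_iff_dep (by rw [hE]; exact Set.subset_univ _), hGc, hGr]
      exact_mod_cast h1
    have hGsp : ¬ M.Spanning G := by
      rw [Matroid.spanning_iff_eRk_le (by rw [hE]; exact Set.subset_univ _), hrank, hGr]
      intro h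
      have : r ≤ ((f₀ i).2 : ℕ) := by exact_mod_cast h
      omega
    have := hall G hG hGdep hGsp
    rw [hGc, hGr, hrank] at this
    exact_mod_cast this
  have hp₀ : f₀ i₀ ∈ H := by
    rw [hH, mem_filter]
    exact ⟨mem_image_of_mem _ (mem_univ _), hi₀.1, hi₀.2.1⟩
  have hHcard : H.card ≤ T + 1 := by
    refine (card_filter_le _ _).trans (card_image_le.trans ?_)
    rw [card_univ, Fintype.card_fin]
  obtain ⟨f, hch, hfH, ⟨i₁, hi₁⟩, hfcl⟩ :=
    exists_chain (CloseC (2 * (s + 1))) (closeC_refl _) H (f₀ i₀) hp₀ T hHcard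
  have hsubK : ∀ X, X ∈ KU r f → X ∈ KU r f₀ := by
    intro X hX
    rw [mem_KU] at hX ⊢
    obtain ⟨h1, i, hi⟩ := hX
    have := hfH i
    rw [hH, mem_filter, mem_image] at this
    obtain ⟨⟨j, _, hj⟩, _⟩ := this
    exact ⟨h1, j, by rw [hj]; exact hi⟩
  refine ⟨f, hch, ⟨fun X hX => hcl.1 X (hsubK X hX), ?_⟩, i₁, by rw [hi₁]; exact hi₀⟩
  intro X hX a ha b hb hnb
  have hY := hcl.2 X (hsubK X hX) a ha b hb hnb
  rw [mem_KU] at hX hY
  obtain ⟨hXr, i, hi⟩ := hX
  obtain ⟨hYr, k, hk⟩ := hY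
  have hq : f₀ k ∈ H := by
    rw [hH, mem_filter]
    refine ⟨mem_image_of_mem _ (mem_univ _), ?_, ?_⟩
    · exact lt_of_lt_of_le hk (card_le_card inter_subset_right)
    · rw [← hYr]
      exact lt_of_lt_of_le hk (card_le_card inter_subset_left)
  have hXY : (symmDiff X (insert b (X.erase a))).card ≤ 2 := by
    rw [card_symmDiff']
    have h1 : X \ insert b (X.erase a) ⊆ {a} := by
      intro z hz
      rw [mem_sdiff, mem_insert, mem_erase] at hz
      rw [mem_singleton]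
      by_contra hza
      exact hz.2 (Or.inr ⟨hza, hz.1⟩)
    have h2 : insert b (X.erase a) \ X ⊆ {b} := by
      intro z hz
      rw [mem_sdiff, mem_insert, mem_erase] at hz
      rw [mem_singleton]
      rcases hz.1 with h | h
      · exact h
      · exact absurd h.2 hz.2
    have h3 := card_le_card h1
    have h4 := card_le_card h2
    rw [card_singleton] at h3 h4
    omega
  have hclose : CloseC (2 * (s + 1)) (f i) (f₀ k) :=
    closeC_of (mem_KF.2 ⟨hXr, hi⟩) (mem_KF.2 ⟨hYr, hk⟩) (hHs _ (hfH i)) (hHs _ hq) hXY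
  obtain ⟨j, hj⟩ := hfcl i _ hq hclose
  rw [mem_KU]
  exact ⟨hYr, j, by rw [hj]; exact hk⟩

end Pool.Agent.Matroid6d
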