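import Pool.Agent.Matroid6d.Level

/-!
The encoding of a union of components without circuit-hyperplanes, and the sum over all codes.
-/

set_option autoImplicit false

namespace Pool.Agent.Matroid6d

open Finset

variable {n : ℕ}

open Classical in
/-- The number of stable subfamilies. -/
noncomputable def Nst (K : Finset (Finset (Fin n))) : ℕ := (K.powerset.filter Stable).card

lemma le_Nst {K : Finset (Finset (Fin n))} {𝒮 : Finset (Finset (Finset (Fin n)))}
    (h : ∀ S ∈ 𝒮, S ⊆ K ∧ Stable S) : 𝒮.card ≤ Nst K := by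
  classical
  apply card_le_card
  intro S hS
  rw [mem_filter, mem_powerset]
  exact h S hS

open Classical in
/-- The small cocircuits of a family of descriptors. -/
noncomputable def smallR (q : ℕ) (T : Finset (Desc n)) : Finset (Finset (Fin n)) :=
  univ.filter (fun D => Sum.inr D ∈ T ∧ D.card ≤ q)

open Classical in
/-- The small circuits of a family of descriptors. -/
noncomputable def smallL (q : ℕ) (T : Finset (Desc n)) : Finset (Finset (Fin n)) :=
  univ.filter (fun C => Sum.inl C ∈ T ∧ C.card ≤ q)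

lemma mem_smallR {q : ℕ} {T : Finset (Desc n)} {D : Finset (Fin n)} :
    D ∈ smallR q T ↔ Sum.inr D ∈ T ∧ D.card ≤ q := by
  classical
  simp only [smallR, mem_filter, mem_univ, true_and]

lemma mem_smallL {q : ℕ} {T : Finset (Desc n)} {C : Finset (Fin n)} :
    C ∈ smallL q T ↔ Sum.inl C ∈ T ∧ C.card ≤ q := by
  classical
  simp only [smallL, mem_filter, mem_univ, true_and]

lemma miss_smallR (r q : ℕ) (T : Finset (Desc n)) :
    (miss r (smallR q T)).card ≤ (decode r T).card := by
  apply card_le_card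
  intro Z hZ
  rw [mem_miss] at hZ
  obtain ⟨h1, D, hD, h2⟩ := hZ
  rw [mem_smallR] at hD
  exact mem_decode.2 ⟨h1, Sum.inr D, hD.1, h2⟩

lemma miss_smallL (r q : ℕ) (hrn : r ≤ n) (T : Finset (Desc n)) :
    (miss (n - r) (smallL q T)).card ≤ (decode r T).card := by
  classical
  apply card_le_card_of_injOn (fun Z => Zᶜ)
  · intro Z hZ
    rw [mem_coe, mem_miss] at hZ
    obtain ⟨h1, C, hC, h2⟩ := hZ
    rw [mem_smallL] at hC
    rw [mem_coe, mem_decode]
    refine ⟨by rw [card_compl', h1]; omega, Sum.inl C, hC.1, ?_⟩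
    show C ⊆ Zᶜ
    intro a ha
    rw [mem_compl]
    intro haZ
    exact disjoint_left.1 h2 haZ ha
  · intro Z _ Z' _ h
    exact compl_injective h

lemma region_empty (m A : ℕ) : region m A (∅ : Finset (Finset (Fin n))) = ∅ := by
  rw [eq_empty_iff_forall_notMem]
  intro Z hZ
  unfold region at hZ
  rw [mem_biUnion] at hZ
  obtain ⟨a, _, h⟩ := hZ
  rw [mem_miss] at h
  obtain ⟨_, D, hD, _⟩ := h
  exact absurd hD (notMem_empty D)

lemma smallR_empty (q : ℕ) : smallR q (∅ : Finset (Desc n)) = ∅ := by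
  rw [eq_empty_iff_forall_notMem]
  intro D hD
  rw [mem_smallR] at hD
  exact absurd hD.1 (notMem_empty _)

lemma smallL_empty (q : ℕ) : smallL q (∅ : Finset (Desc n)) = ∅ := by
  rw [eq_empty_iff_forall_notMem]
  intro D hD
  rw [mem_smallL] at hD
  exact absurd hD.1 (notMem_empty _)

lemma sum_region_empty (m A Δ : ℕ) :
    ∑ X ∈ nsSub Δ (region m A (∅ : Finset (Finset (Fin n)))), wX m X = 1 := by
  rw [region_empty, nsSub_empty, sum_singleton]
  unfold wX
  rw [prod_empty]

/-- The cells of present descriptors cover every set at most twice. -/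
lemma sum_cell_K {P : Finset (Fin n) → Prop} {K : Finset (Finset (Fin n))} {r g : ℕ}
    (h : Ctx n r g P K) (T : Finset (Desc n)) (hT : ∀ d ∈ T, Present P K d) :
    ∑ d ∈ T, (cell P r d).card ≤ 2 * K.card := by
  classical
  have h1 := sum_card_bipartiteAbove_eq_sum_card_bipartiteBelow
    (s := T) (t := K) (fun d X => X ∈ cell P r d)
  have h2 : ∑ d ∈ T, (cell P r d).card =
      ∑ d ∈ T, (bipartiteAbove (fun d X => X ∈ cell P r d) K d).card := by
    refine sum_congr rfl (fun d hd => ?_)
    congr 1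
    ext X
    rw [mem_bipartiteAbove]
    exact ⟨fun h' => ⟨cell_subset_K h.hP h.hr h.hK h.hKr (hT d hd) h', h'⟩, fun h' => h'.2⟩
  rw [h2, h1]
  calc ∑ X ∈ K, (bipartiteBelow (fun d X => X ∈ cell P r d) T X).card
      ≤ ∑ _X ∈ K, 2 := by
        refine sum_le_sum (fun X _ => ?_)
        have : bipartiteBelow (fun d X => X ∈ cell P r d) T X ⊆
            {Sum.inl (Cs P X), Sum.inr (Ds P X)} := by
          intro d hd
          rw [mem_bipartiteBelow] at hd
          rw [mem_insert, mem_singleton]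
          exact eq_of_mem_cell hd.2
        exact (card_le_card this).trans card_le_two
    _ = 2 * K.card := by rw [sum_const, smul_eq_mul, mul_comm]

open Classical in
/-- The descriptors of defect one. -/
noncomputable def Lset (P : Finset (Fin n) → Prop) (r : ℕ) (K : Finset (Finset (Fin n))) :
    Finset (Desc n) := univ.filter (fun d => IsL P r K d)

lemma mem_Lset {P : Finset (Fin n) → Prop} {r : ℕ} {K : Finset (Finset (Fin n))} {d : Desc n} :
    d ∈ Lset P r K ↔ IsL P r K d := by
  classical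
  simp only [Lset, mem_filter, mem_univ, true_and]

/-- The parameter `Δ`. -/
def dl (L : ℕ) : ℕ := 16384 * ((L / 16 + 1) ^ 2 * L)

/-- The parameter `q`. -/
def ql (L : ℕ) : ℕ := 16384 * L + 2

/-- The encoding. -/
theorem encode2 {P : Finset (Fin n) → Prop} {K : Finset (Finset (Fin n))} {r g : ℕ} (L m : ℕ)
    (h : Ctx n r g P K) (hg : 2 ^ 18 + 1 ≤ g) (hn : 64 ≤ n) (hq : 32 * ql L < n)
    (hm1 : 2 * m ≤ r) (hm2 : 2 * m + r ≤ n) (hm : 2 ^ (8 * n) ≤ m.factorial)
    (hbad : 32 * n ^ 2 * (Lset P r K).card < K.card) :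
    ∃ (R S : Finset (Desc n)) (Λ T : Finset (Desc n)) (XL XR : Finset (Finset (Fin n))),
      K = decode r (R ∪ S ∪ T ∪ Λ ∪ XL.image Sum.inl ∪ XR.image Sum.inr) ∧
      S ⊆ nb4 r R ∧
      XL ∈ nsSub (dl L) (region r (L / 16 + 1) (smallR (ql L) T)) ∧
      XR ∈ nsSub (dl L) (region (n - r) (L / 16 + 1) (smallL (ql L) T)) ∧
      (T = ∅ ∨ n ^ 2 ≤ (decode r T).card) ∧
      1 ≤ R.card + Λ.card + T.card ∧
      ((Nst K : ℝ))⁻¹ ≤ Real.exp (-(Real.log 2 * (4 * n * (R.card + Λ.card + T.card)))) *
        (∏ s ∈ S, ((1 : ℝ) / 2) ^ (8 * (df r s * L))) *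
        (Real.exp (-(Real.log 2 * ((decode r T).card / (16 * n)))) * (wX r XL * wX (n - r) XR)) := by
  classical
  have hrn : r ≤ n := by omega
  set AH := (univ : Finset (Desc n)).filter (fun d => IsH P r K L d) with hAH
  set T := (univ : Finset (Desc n)).filter (fun d => IsT P r K d) with hT
  set Λ := Lset P r K with hΛ
  set XL := (univ : Finset (Finset (Fin n))).filter (fun C => IsX P r K L (Sum.inl C)) with hXL
  set XR := (univ : Finset (Finset (Fin n))).filter (fun D => IsX P r K L (Sum.inr D)) with hXR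
  have mAH : ∀ d, d ∈ AH ↔ IsH P r K L d := by intro d; rw [hAH, mem_filter]; simp
  have mT : ∀ d, d ∈ T ↔ IsT P r K d := by intro d; rw [hT, mem_filter]; simp
  have mΛ : ∀ d, d ∈ Λ ↔ IsL P r K d := fun d => mem_Lset
  have mXL : ∀ C, C ∈ XL ↔ IsX P r K L (Sum.inl C) := by intro C; rw [hXL, mem_filter]; simp
  have mXR : ∀ D, D ∈ XR ↔ IsX P r K L (Sum.inr D) := by intro D; rw [hXR, mem_filter]; simp
  obtain ⟨R, hRA, hR, hcov⟩ := exists_roots (df r) (Conf r) (fun a b => conf_symm) AH
  -- decoding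
  have hdec : K = decode r (R ∪ (AH \ R) ∪ T ∪ Λ ∪ XL.image Sum.inl ∪ XR.image Sum.inr) := by
    rw [union_sdiff_of_subset hRA]
    ext X
    rw [mem_decode]
    constructor
    · intro hX
      refine ⟨h.hKr X hX, ?_⟩
      obtain ⟨Y, hY, hne, hCX, hDX, hor⟩ := exists_pair_K h.hP h.hr h.hne h.hK h.hKr h.hU hX
      obtain ⟨d, hd, hty⟩ := h.classify (L := L) hg hn hY hne hor
      have hcv : covers X d := by
        rcases hd with rfl | rfl
        · exact hCX
        · exact hDX
      refine ⟨d, ?_, hcv⟩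
      simp only [mem_union, mAH, mT, mΛ, mem_image]
      rcases hty with h1 | h1 | h1 | h1
      · tauto
      · tauto
      · tauto
      · rcases d with C | D
        · exact Or.inl (Or.inr ⟨C, (mXL C).2 h1, rfl⟩)
        · exact Or.inr ⟨D, (mXR D).2 h1, rfl⟩
    · rintro ⟨hXr, d, hd, hcv⟩
      have hp : Present P K d := by
        simp only [mem_union, mAH, mT, mΛ, mem_image] at hd
        rcases hd with (((h1 | h1) | h1) | ⟨C, hC, rfl⟩) | ⟨D, hD, rfl⟩
        · exact h1.1
        · exact h1.1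
        · exact h1.1
        · exact ((mXL C).1 hC).1
        · exact ((mXR D).1 hD).1
      exact mem_of_present h.hP h.hr h.hK h.hKr hp hXr hcv
  have hXLr : XL ⊆ region r (L / 16 + 1) (smallR (ql L) T) := by
    intro C hC
    rw [mXL] at hC
    obtain ⟨_, h2, h3, _, _, h6⟩ := hC
    change 2 ≤ r - C.card at h2
    change r - C.card ≤ _ at h3
    unfold region
    rw [mem_biUnion]
    refine ⟨r - C.card, mem_Icc.2 ⟨h2, h3⟩, ?_⟩
    rw [mem_miss]
    refine ⟨by omega, ?_⟩
    rcases h.partner_isT hg hn (16384 * L + 2) hq h6 with ⟨C', e, D, g1, g2, g3⟩ | ⟨D', e, _⟩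
    · rw [Sum.inl.injEq] at e
      subst e
      exact ⟨D, mem_smallR.2 ⟨(mT _).2 g3, g1⟩, g2⟩
    · exact absurd e (by simp)
  have hXRr : XR ⊆ region (n - r) (L / 16 + 1) (smallL (ql L) T) := by
    intro D hD
    rw [mXR] at hD
    obtain ⟨_, h2, h3, _, _, h6⟩ := hD
    change 2 ≤ n - r - D.card at h2
    change n - r - D.card ≤ _ at h3
    unfold region
    rw [mem_biUnion]
    refine ⟨n - r - D.card, mem_Icc.2 ⟨h2, h3⟩, ?_⟩
    rw [mem_miss]
    refine ⟨by omega, ?_⟩
    rcases h.partner_isT hg hn (16384 * L + 2) hq h6 with ⟨C', e, _⟩ | ⟨D', e, C, g1, g2, g3⟩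
    · exact absurd e (by simp)
    · rw [Sum.inr.injEq] at e
      subst e
      exact ⟨C, mem_smallL.2 ⟨(mT _).2 g3, g1⟩, g2⟩
  have hXLn : NS (dl L) XL := by
    intro C hC
    have hC' := (mXL C).1 hC
    refine (card_le_card ?_).trans hC'.2.2.2.2.1
    intro u hu
    rw [mem_Ngb] at hu
    obtain ⟨Y, hY, hne, hYu⟩ := ((mXL u).1 hu.1).1
    show u ∈ nbrs P r C
    exact mem_nbrs.2 ⟨hu.2.1, hu.2.2, Y, h.hKr Y hY, h.hK.1 Y hY, hne, hYu⟩
  have hXRn : NS (dl L) XR := by
    intro D hD
    have hD' := (mXR D).1 hD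
    refine (card_le_card ?_).trans hD'.2.2.2.2.1
    intro u hu
    rw [mem_Ngb] at hu
    obtain ⟨Y, hY, hne, hYu⟩ := ((mXR u).1 hu.1).1
    show u ∈ nbrs (Pd P) (n - r) D
    refine mem_nbrs.2 ⟨hu.2.1, hu.2.2, Yᶜ, by rw [card_compl', h.hKr Y hY], ?_, ?_, ?_⟩
    · unfold Pd
      rw [compl_compl]
      exact h.hK.1 Y hY
    · rw [Cs_Pd]
      exact Ds_nonempty_iff.2 hne
    · rw [Cs_Pd, hYu]
  have hTd : T = ∅ ∨ n ^ 2 ≤ (decode r T).card := by
    rcases T.eq_empty_or_nonempty with h0 | ⟨d, hd⟩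
    · exact Or.inl h0
    · right
      have h1 := ((mT d).1 hd).2
      have h2 : cell P r d ⊆ decode r T := by
        intro X hX
        rw [mem_decode]
        rcases d with C | D
        · rw [mem_cell_inl] at hX
          exact ⟨hX.1.1, _, hd, show C ⊆ X from hX.2 ▸ Cs_subset⟩
        · rw [mem_cell_inr] at hX
          exact ⟨hX.1.1, _, hd, show Disjoint X D from hX.2 ▸ disjoint_Ds⟩
      have := card_le_card h2
      omega
  have hKpos : 0 < K.card := by omega
  refine ⟨R, AH \ R, Λ, T, XL, XR, hdec, ?_, mem_nsSub.2 ⟨hXLr, hXLn⟩,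
    mem_nsSub.2 ⟨hXRr, hXRn⟩, hTd, ?_, ?_⟩
  · -- the neighbours of the roots
    intro s hs
    rw [mem_sdiff] at hs
    obtain ⟨t, ht, h1, h2⟩ := hcov s hs.1 hs.2
    refine mem_nb4.2 ⟨((mAH s).1 hs.1).2.1, t, ht, ?_⟩
    unfold Conf at h1
    omega
  · -- something is present
    by_contra hcon
    have e1 : R = ∅ := card_eq_zero.1 (by omega)
    have e2 : Λ = ∅ := card_eq_zero.1 (by omega)
    have e3 : T = ∅ := card_eq_zero.1 (by omega)
    have e4 : AH = ∅ := by
      rw [eq_empty_iff_forall_notMem]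
      intro s hs
      obtain ⟨t, ht, _⟩ := hcov s hs (by rw [e1]; exact notMem_empty s)
      rw [e1] at ht
      exact absurd ht (notMem_empty t)
    have e5 : XL = ∅ := by
      rw [e3, smallR_empty, region_empty, subset_empty] at hXLr
      exact hXLr
    have e6 : XR = ∅ := by
      rw [e3, smallL_empty, region_empty, subset_empty] at hXRr
      exact hXRr
    obtain ⟨X, hX⟩ := card_pos.1 hKpos
    rw [hdec, e1, e2, e3, e4, e5, e6, mem_decode] at hX
    obtain ⟨_, d, hd, _⟩ := hX
    simp at hd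
  · -- the weight
    set θ := Real.log 2 with hθ
    have hθ0 : 0 < θ := Real.log_pos (by norm_num)
    have hexp2 : ∀ k : ℕ, (2 : ℝ) ^ k = Real.exp (θ * k) := by
      intro k
      rw [mul_comm, Real.exp_nat_mul, hθ, Real.exp_log (by norm_num)]
    have hhalf : ∀ k : ℕ, ((1 : ℝ) / 2) ^ k = Real.exp (-(θ * k)) := by
      intro k
      rw [Real.exp_neg, ← hexp2, one_div, inv_pow]
    have hn0 : (0 : ℝ) < n := by
      have : 0 < n := by omega
      exact_mod_cast this
    -- lower bounds for the number of stable subfamilies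
    obtain ⟨S₀, hS₀, hst, hc⟩ := exists_stable_sub (n := n) (by omega) r K h.hKr
    have b1 : 2 ^ S₀.card ≤ Nst K := by
      rw [← card_powerset]
      apply le_Nst
      intro S hS
      rw [mem_powerset] at hS
      exact ⟨hS.trans hS₀, fun X hX Y hY hne => hst X (hS hX) Y (hS hY) hne⟩
    obtain ⟨𝒮, h𝒮, hc𝒮⟩ := roots_family m hm1 hm2 R
      (fun s hs => ((mAH s).1 (hRA hs)).2.1) hR
    have b2 : m.factorial ^ R.card ≤ Nst K := by
      refine hc𝒮.trans (le_Nst (fun S hS => ⟨(h𝒮 S hS).1.trans ?_, (h𝒮 S hS).2⟩))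
      intro X hX
      rw [mem_decode] at hX
      obtain ⟨hXr, d, hd, hcv⟩ := hX
      exact mem_of_present h.hP h.hr h.hK h.hKr ((mAH d).1 (hRA hd)).1 hXr hcv
    have b3 : 2 ^ (8 * n * R.card) ≤ Nst K := by
      refine le_trans ?_ b2
      rw [pow_mul]
      exact Nat.pow_le_pow_left hm _
    have b4 : Real.exp (θ * (K.card / (2 * n) + 4 * n * R.card)) ≤ Nst K := by
      have c1 : Real.exp (θ * S₀.card) ≤ Nst K := by
        rw [← hexp2]
        exact_mod_cast b1
      have c2 : Real.exp (θ * (8 * n * R.card : ℕ)) ≤ Nst K := by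
        rw [← hexp2]
        exact_mod_cast b3
      have c3 : Real.exp (θ * (K.card / (2 * n) + 4 * n * R.card)) ^ 2 ≤ (Nst K : ℝ) ^ 2 := by
        calc Real.exp (θ * (K.card / (2 * n) + 4 * n * R.card)) ^ 2
            = Real.exp (θ * (K.card / n)) * Real.exp (θ * (8 * n * R.card : ℕ)) := by
              rw [← Real.exp_nat_mul, ← Real.exp_add]
              congr 1
              push_cast
              field_simp
              ring
          _ ≤ Nst K * Nst K := by
              apply mul_le_mul (le_trans (Real.exp_le_exp.2 ?_) c1) c2 (Real.exp_pos _).le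
                (by positivity)
              apply mul_le_mul_of_nonneg_left _ hθ0.le
              rw [div_le_iff₀ hn0]
              have : (K.card : ℝ) ≤ n * S₀.card := by exact_mod_cast hc
              linarith
          _ = (Nst K : ℝ) ^ 2 := by ring
      exact (pow_le_pow_iff_left₀ (Real.exp_pos _).le (by positivity) (by norm_num)).1 c3
    -- the budget
    have s1 := sum_cell_K h (AH \ R) (fun d hd => ((mAH d).1 (mem_sdiff.1 hd).1).1)
    have s1' : 128 * (n * L) * ∑ s ∈ AH \ R, df r s ≤ 2 * K.card := by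
      refine le_trans ?_ s1
      rw [mul_sum]
      apply sum_le_sum
      intro s hs
      have := ((mAH s).1 (mem_sdiff.1 hs).1).2.2
      calc 128 * (n * L) * df r s = 128 * (df r s * (n * L)) := by ring
        _ ≤ _ := this
    have s2 := sum_cell_K h T (fun d hd => ((mT d).1 hd).1)
    have s2' : T.card * (64 * n ^ 2) ≤ 2 * K.card := by
      refine le_trans ?_ s2
      rw [← smul_eq_mul]
      exact card_nsmul_le_sum T _ _ (fun d hd => ((mT d).1 hd).2)
    have s3 : Λ.card * (32 * n ^ 2) ≤ K.card := by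
      have e : Λ.card * (32 * n ^ 2) = 32 * n ^ 2 * Λ.card := by ring
      rw [e]
      exact hbad.le
    have s4 := sum_cell_K h (XL.image Sum.inl ∪ XR.image Sum.inr) (by
      intro d hd
      rw [mem_union, mem_image, mem_image] at hd
      rcases hd with ⟨C, hC, rfl⟩ | ⟨D, hD, rfl⟩
      · exact ((mXL C).1 hC).1
      · exact ((mXR D).1 hD).1)
    have hdisX : Disjoint (XL.image (Sum.inl : _ → Desc n)) (XR.image Sum.inr) := by
      rw [disjoint_left]
      intro d hd hd'
      rw [mem_image] at hd hd'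
      obtain ⟨C, _, rfl⟩ := hd
      obtain ⟨D, _, h'⟩ := hd'
      exact absurd h' (by simp)
    rw [sum_union hdisX, sum_image (fun _ _ _ _ h' => Sum.inl_injective h'),
      sum_image (fun _ _ _ _ h' => Sum.inr_injective h')] at s4
    have s4' : 2048 * n * (∑ C ∈ XL, (r - C.card) + ∑ D ∈ XR, (n - r - D.card)) ≤
        2 * K.card := by
      refine le_trans ?_ s4
      rw [mul_add, mul_sum, mul_sum]
      apply add_le_add
      · apply sum_le_sum
        intro C hC
        have := ((mXL C).1 hC).2.2.2.1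
        change 2048 * (n * (r - C.card)) ≤ _ at this
        calc 2048 * n * (r - C.card) = 2048 * (n * (r - C.card)) := by ring
          _ ≤ _ := this
      · apply sum_le_sum
        intro D hD
        have := ((mXR D).1 hD).2.2.2.1
        change 2048 * (n * (n - r - D.card)) ≤ _ at this
        calc 2048 * n * (n - r - D.card) = 2048 * (n * (n - r - D.card)) := by ring
          _ ≤ _ := this
    have s5 : (decode r T).card ≤ K.card := by
      apply card_le_card
      intro X hX
      rw [mem_decode] at hX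
      obtain ⟨hXr, d, hd, hcv⟩ := hX
      exact mem_of_present h.hP h.hr h.hK h.hKr ((mT d).1 hd).1 hXr hcv
    -- real forms
    set k : ℝ := (K.card : ℝ) with hk
    set a₁ : ℝ := ((∑ s ∈ AH \ R, df r s : ℕ) : ℝ) with ha₁
    set a₄ : ℝ := ((∑ C ∈ XL, (r - C.card) : ℕ) : ℝ) with ha₄
    set a₅ : ℝ := ((∑ D ∈ XR, (n - r - D.card) : ℕ) : ℝ) with ha₅
    have r1 : 8 * L * a₁ ≤ k / (8 * n) := by
      rw [le_div_iff₀ (by positivity)]
      have : 128 * (n * L) * a₁ ≤ 2 * k := by rw [ha₁, hk]; exact_mod_cast s1'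
      linarith
    have r2 : 4 * n * (T.card : ℝ) ≤ k / (8 * n) := by
      rw [le_div_iff₀ (by positivity)]
      have : (T.card : ℝ) * (64 * (n : ℝ) ^ 2) ≤ 2 * k := by rw [hk]; exact_mod_cast s2'
      linarith
    have r3 : 4 * n * (Λ.card : ℝ) ≤ k / (8 * n) := by
      rw [le_div_iff₀ (by positivity)]
      have : (Λ.card : ℝ) * (32 * (n : ℝ) ^ 2) ≤ k := by rw [hk]; exact_mod_cast s3
      linarith
    have r4 : 64 * (a₄ + a₅) ≤ k / (16 * n) := by
      rw [le_div_iff₀ (by positivity)]
      have : 2048 * n * (a₄ + a₅) ≤ 2 * k := by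
        rw [ha₄, ha₅, hk]
        exact_mod_cast s4'
      linarith
    have r5 : ((decode r T).card : ℝ) / (16 * n) ≤ k / (16 * n) := by
      apply div_le_div_of_nonneg_right _ (by positivity)
      rw [hk]
      exact_mod_cast s5
    have r6 : k / (2 * n) = k / (8 * n) + k / (8 * n) + k / (8 * n) + k / (16 * n) +
        k / (16 * n) := by
      field_simp
      ring
    -- the weights as exponentials
    have w1 : ∏ s ∈ AH \ R, ((1 : ℝ) / 2) ^ (8 * (df r s * L)) =
        Real.exp (-(θ * (8 * L * a₁))) := by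
      rw [prod_pow_eq_pow_sum, hhalf, ← mul_sum, ← sum_mul, ha₁]
      congr 2
      push_cast
      ring
    have w2 : wX r XL = Real.exp (-(θ * (64 * a₄))) := by
      unfold wX
      rw [prod_pow_eq_pow_sum, hhalf, ← mul_sum, ha₄]
      congr 2
      push_cast
      ring
    have w3 : wX (n - r) XR = Real.exp (-(θ * (64 * a₅))) := by
      unfold wX
      rw [prod_pow_eq_pow_sum, hhalf, ← mul_sum, ha₅]
      congr 2
      push_cast
      ring
    rw [w1, w2, w3, ← Real.exp_add, ← Real.exp_add, ← Real.exp_add, ← Real.exp_add]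
    calc ((Nst K : ℝ))⁻¹ ≤ (Real.exp (θ * (k / (2 * n) + 4 * n * R.card)))⁻¹ :=
          inv_anti₀ (Real.exp_pos _) b4
      _ = Real.exp (-(θ * (k / (2 * n) + 4 * n * R.card))) := (Real.exp_neg _).symm
      _ ≤ _ := by
          apply Real.exp_le_exp.2
          have t : 4 * n * ((R.card : ℝ) + Λ.card + T.card) + 8 * L * a₁ +
              ((decode r T).card / (16 * n) + (64 * a₄ + 64 * a₅)) ≤
              k / (2 * n) + 4 * n * R.card := by
            rw [r6]
            linarith
          have := mul_le_mul_of_nonneg_left t hθ0.le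
          linarith

end Pool.Agent.Matroid6d
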