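import Pool.Agent.Matroid6d.Replace

/-!
Matroids on `Fin n` from families with the exchange property, and the counting form of the
replacement lemma.
-/

set_option autoImplicit false

namespace Pool.Agent.Matroid6d

open Finset

variable {n : ℕ}

/-- `Bs M X`: the finite set `X` is a basis of `M`. -/
def Bs (M : Matroid (Fin n)) (X : Finset (Fin n)) : Prop := M.IsBase (X : Set (Fin n))

lemma exch_bs (M : Matroid (Fin n)) : Exch (Bs M) := by
  intro X Y hX hY a ha haY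
  obtain ⟨b, hb, hb'⟩ := M.isBase_exchange X Y hX hY a ⟨by exact_mod_cast ha, by exact_mod_cast haY⟩
  refine ⟨b, by exact_mod_cast hb.1, by exact_mod_cast hb.2, ?_⟩
  unfold Bs
  rw [coe_insert, coe_erase]
  exact hb'

lemma card_bs {M : Matroid (Fin n)} {X Y : Finset (Fin n)} (hX : Bs M X) (hY : Bs M Y) :
    X.card = Y.card := by
  have h := hX.encard_eq_encard_of_isBase hY
  rw [Set.encard_coe_eq_coe_finsetCard, Set.encard_coe_eq_coe_finsetCard] at h
  exact_mod_cast h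

lemma exists_bs (M : Matroid (Fin n)) : ∃ X, Bs M X := by
  classical
  obtain ⟨B, hB⟩ := M.exists_isBase
  refine ⟨(Set.toFinite B).toFinset, ?_⟩
  unfold Bs
  rwa [Set.Finite.coe_toFinset]

/-- The matroid on the ground set `Fin n` with a given family of bases. -/
noncomputable def mkMat (P : Finset (Fin n) → Prop) (hP : Exch P) (hne : ∃ X, P X) :
    Matroid (Fin n) :=
  Matroid.ofIsBaseOfFinite (E := Set.univ) Set.finite_univ
    (fun B => ∃ X : Finset (Fin n), (X : Set (Fin n)) = B ∧ P X)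
    (by obtain ⟨X, hX⟩ := hne; exact ⟨X, X, rfl, hX⟩)
    (by
      rintro B₁ B₂ ⟨X₁, rfl, h₁⟩ ⟨X₂, rfl, h₂⟩ a ha
      obtain ⟨b, hb2, hb1, hb⟩ := hP X₁ X₂ h₁ h₂ a (by exact_mod_cast ha.1) (by exact_mod_cast ha.2)
      refine ⟨b, ⟨by exact_mod_cast hb2, by exact_mod_cast hb1⟩, insert b (X₁.erase a), ?_, hb⟩
      rw [coe_insert, coe_erase])
    (fun B _ => Set.subset_univ B)

lemma mkMat_E (P : Finset (Fin n) → Prop) (hP : Exch P) (hne : ∃ X, P X) :
    (mkMat P hP hne).E = Set.univ := rfl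

lemma mkMat_bs (P : Finset (Fin n) → Prop) (hP : Exch P) (hne : ∃ X, P X) (X : Finset (Fin n)) :
    Bs (mkMat P hP hne) X ↔ P X := by
  change (∃ Y : Finset (Fin n), (Y : Set (Fin n)) = (X : Set (Fin n)) ∧ P Y) ↔ P X
  constructor
  · rintro ⟨Y, hY, h⟩
    rw [Finset.coe_inj] at hY
    exact hY ▸ h
  · intro h
    exact ⟨X, rfl, h⟩

lemma ext_bs {M N : Matroid (Fin n)} (hM : M.E = Set.univ) (hN : N.E = Set.univ)
    (h : ∀ X, Bs M X ↔ Bs N X) : M = N := by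
  apply Matroid.ext_isBase (by rw [hM, hN])
  intro B _
  have := h (Set.toFinite B).toFinset
  unfold Bs at this
  rwa [Set.Finite.coe_toFinset] at this

/-- The matroids with ground set all of `Fin n` form a finite set. -/
lemma finite_mats (𝒞 : Set (Matroid (Fin n))) (hE : ∀ M ∈ 𝒞, M.E = Set.univ) : 𝒞.Finite := by
  classical
  apply Set.Finite.of_finite_image (f := fun M => {X : Finset (Fin n) | Bs M X}) (Set.toFinite _)
  intro M hM N hN h
  apply ext_bs (hE M hM) (hE N hN)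
  intro X
  exact Set.ext_iff.1 h X

/-- The counting form of the replacement lemma. -/
theorem count_replace (𝒞 : Set (Matroid (Fin n))) (hE : ∀ M ∈ 𝒞, M.E = Set.univ)
    (hup : ∀ M ∈ 𝒞, ∀ M' : Matroid (Fin n), M'.E = Set.univ →
      (∀ B, M.IsBase B → M'.IsBase B) → M' ∈ 𝒞)
    (r : ℕ) (K : Finset (Finset (Fin n))) (hKr : ∀ X ∈ K, X.card = r)
    (𝒮 : Finset (Finset (Finset (Fin n)))) (h𝒮 : ∀ S ∈ 𝒮, S ⊆ K ∧ Stable S) :
    {M ∈ 𝒞 | (∀ X, Bs M X → X.card = r) ∧ Closed (Bs M) K}.ncard * 𝒮.card ≤ 𝒞.ncard := by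
  classical
  set A : Set (Matroid (Fin n)) := {M ∈ 𝒞 | (∀ X, Bs M X → X.card = r) ∧ Closed (Bs M) K} with hA
  have key : ∀ p : Matroid (Fin n) × Finset (Finset (Fin n)), p ∈ A ×ˢ (𝒮 : Set _) →
      ∃ M' : Matroid (Fin n), M' ∈ 𝒞 ∧ ∀ X, Bs M' X ↔ (Bs p.1 X ∨ (X ∈ K ∧ X ∉ p.2)) := by
    rintro ⟨M, S⟩ ⟨hM, hS⟩
    obtain ⟨hMC, hMr, hMK⟩ := hM
    obtain ⟨hSK, hSst⟩ := h𝒮 S (by exact_mod_cast hS)
    have hex := replace (Bs M) (exch_bs M) r hMr K S hMK hKr hSK hSst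
    obtain ⟨B₀, hB₀⟩ := exists_bs M
    refine ⟨mkMat _ hex ⟨B₀, Or.inl hB₀⟩, ?_, fun X => mkMat_bs _ _ _ X⟩
    apply hup M hMC _ (mkMat_E _ _ _)
    intro B hB
    have h1 : Bs M (Set.toFinite B).toFinset := by
      unfold Bs
      rwa [Set.Finite.coe_toFinset]
    have h2 := (mkMat_bs _ hex ⟨B₀, Or.inl hB₀⟩ (Set.toFinite B).toFinset).2 (Or.inl h1)
    unfold Bs at h2
    rwa [Set.Finite.coe_toFinset] at h2
  have : Nonempty (Matroid (Fin n)) := ⟨Matroid.freeOn Set.univ⟩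
  choose! Φ hΦ1 hΦ2 using key
  have hfin := finite_mats 𝒞 hE
  have hle : (A ×ˢ (𝒮 : Set (Finset (Finset (Fin n))))).ncard ≤ 𝒞.ncard := by
    apply Set.ncard_le_ncard_of_injOn Φ hΦ1 ?_ hfin
    rintro ⟨M, S⟩ hp ⟨N, T⟩ hq hpq
    have h1 := hΦ2 _ hp
    have h2 := hΦ2 _ hq
    rw [hpq] at h1
    obtain ⟨⟨hMC, hMr, hMK⟩, hS⟩ := hp
    obtain ⟨⟨hNC, hNr, hNK⟩, hT⟩ := hq
    obtain ⟨hSK, _⟩ := h𝒮 S (by exact_mod_cast hS)
    obtain ⟨hTK, _⟩ := h𝒮 T (by exact_mod_cast hT)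
    have h3 : ∀ X, (Bs M X ∨ (X ∈ K ∧ X ∉ S)) ↔ (Bs N X ∨ (X ∈ K ∧ X ∉ T)) :=
      fun X => (h1 X).symm.trans (h2 X)
    have hMN : M = N := by
      apply ext_bs (hE M hMC) (hE N hNC)
      intro X
      by_cases hX : X ∈ K
      · exact ⟨fun h => absurd h (hMK.1 X hX), fun h => absurd h (hNK.1 X hX)⟩
      · have := h3 X
        simpa [hX] using this
    have hST : S = T := by
      ext X
      by_cases hX : X ∈ K
      · have := h3 X
        have hM0 := hMK.1 X hX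
        have hN0 := hNK.1 X hX
        simp only [hM0, hN0, hX, false_or, true_and] at this
        tauto
      · exact ⟨fun h => absurd (hSK h) hX, fun h => absurd (hTK h) hX⟩
    rw [hMN, hST]
  rwa [Set.ncard_prod, Set.ncard_coe_finset] at hle

end Pool.Agent.Matroid6d
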