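import Mathlib

/-!
Greedy lower bound for the number of conflict-free sets.
-/

set_option autoImplicit false

namespace Pool.Agent.Matroid6d

open Finset

variable {V : Type} [Fintype V] [DecidableEq V]

/-- Conflict-free sets. -/
def Free (C : V → Finset V) (S : Finset V) : Prop := ∀ u ∈ S, ∀ v ∈ S, u ≠ v → v ∉ C u

/-- The conflict-free sets with `k` elements. -/
noncomputable def freeSets (C : V → Finset V) (k : ℕ) : Finset (Finset V) := by
  classical
  exact univ.filter (fun S => S.card = k ∧ Free C S)

lemma mem_freeSets {C : V → Finset V} {k : ℕ} {S : Finset V} :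
    S ∈ freeSets C k ↔ S.card = k ∧ Free C S := by
  classical
  unfold freeSets
  rw [mem_filter]
  exact ⟨fun h => h.2, fun h => ⟨mem_univ _, h⟩⟩

/-- Extending a conflict-free set. -/
lemma freeSets_step (C : V → Finset V) (D : ℕ) (hD : ∀ v, (C v).card ≤ D)
    (hself : ∀ v, v ∈ C v) (hsymm : ∀ u v, v ∈ C u → u ∈ C v) (k : ℕ) :
    (freeSets C k).card * (Fintype.card V - k * D) ≤ (k + 1) * (freeSets C (k + 1)).card := by
  classical
  have h1 : (freeSets C k).card * (Fintype.card V - k * D) ≤
      ((freeSets C k).sigma (fun S => univ \ S.biUnion C)).card := by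
    rw [card_sigma]
    calc (freeSets C k).card * (Fintype.card V - k * D)
        = ∑ _S ∈ freeSets C k, (Fintype.card V - k * D) := by rw [sum_const, smul_eq_mul]
      _ ≤ ∑ S ∈ freeSets C k, (univ \ S.biUnion C).card := by
          apply sum_le_sum
          intro S hS
          rw [mem_freeSets] at hS
          rw [card_sdiff_of_subset (subset_univ _), card_univ]
          have : (S.biUnion C).card ≤ k * D := by
            refine card_biUnion_le.trans ?_
            calc ∑ u ∈ S, (C u).card ≤ ∑ _u ∈ S, D := sum_le_sum (fun u _ => hD u)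
              _ = k * D := by rw [sum_const, smul_eq_mul, hS.1]
          omega
  have h2 : ((freeSets C k).sigma (fun S => univ \ S.biUnion C)).card ≤
      ((freeSets C (k + 1)).sigma (fun S => S)).card := by
    apply card_le_card_of_injOn
      (fun p : (_ : Finset V) × V => (⟨insert p.2 p.1, p.2⟩ : (_ : Finset V) × V))
    · rintro ⟨S, x⟩ hp
      rw [mem_coe, mem_sigma] at hp
      obtain ⟨hS, hx⟩ := hp
      simp only at hS hx
      rw [mem_freeSets] at hS
      rw [mem_sdiff, mem_biUnion] at hx
      have hx' : ∀ u ∈ S, x ∉ C u := fun u hu h => hx.2 ⟨u, hu, h⟩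
      have hxS : x ∉ S := fun h => hx' x h (hself x)
      rw [mem_coe, mem_sigma]
      refine ⟨?_, mem_insert_self _ _⟩
      rw [mem_freeSets]
      refine ⟨by simp only; rw [card_insert_of_notMem hxS, hS.1], ?_⟩
      intro u hu v hv huv
      rw [mem_insert] at hu hv
      rcases hu with rfl | hu
      · rcases hv with rfl | hv
        · exact absurd rfl huv
        · exact fun h => hx' v hv (hsymm _ _ h)
      · rcases hv with rfl | hv
        · exact hx' u hu
        · exact hS.2 u hu v hv huv
    · rintro ⟨S, x⟩ hp ⟨S', x'⟩ hp' h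
      rw [mem_coe, mem_sigma] at hp hp'
      obtain ⟨hS, hx⟩ := hp
      obtain ⟨hS', hx'⟩ := hp'
      simp only at hS hx hS' hx'
      rw [mem_sdiff, mem_biUnion] at hx hx'
      have hxS : x ∉ S := fun h => hx.2 ⟨x, h, hself x⟩
      have hxS' : x' ∉ S' := fun h => hx'.2 ⟨x', h, hself x'⟩
      simp only [Sigma.mk.injEq, heq_eq_eq] at h
      obtain ⟨h1, h2⟩ := h
      subst h2
      have : S = S' := by
        rw [← erase_insert hxS, h1, erase_insert hxS']
      rw [this]
  have h3 : ((freeSets C (k + 1)).sigma (fun S => S)).card =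
      (k + 1) * (freeSets C (k + 1)).card := by
    rw [card_sigma]
    calc ∑ S ∈ freeSets C (k + 1), S.card = ∑ _S ∈ freeSets C (k + 1), (k + 1) := by
          apply sum_congr rfl
          intro S hS
          rw [mem_freeSets] at hS
          exact hS.1
      _ = (k + 1) * (freeSets C (k + 1)).card := by rw [sum_const, smul_eq_mul, mul_comm]
  exact h1.trans (h2.trans (le_of_eq h3))

/-- Greedy lower bound. -/
theorem greedy (C : V → Finset V) (D : ℕ) (hD : ∀ v, (C v).card ≤ D)
    (hself : ∀ v, v ∈ C v) (hsymm : ∀ u v, v ∈ C u → u ∈ C v) (k : ℕ)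
    (hk : 2 * (k * D) ≤ Fintype.card V) : D ^ k ≤ (freeSets C k).card := by
  classical
  have key : ∀ j, j ≤ k → (k * D) ^ j ≤ j.factorial * (freeSets C j).card := by
    intro j
    induction j with
    | zero =>
      intro _
      have : (∅ : Finset V) ∈ freeSets C 0 := by
        rw [mem_freeSets]
        exact ⟨card_empty, fun u hu => absurd hu (notMem_empty u)⟩
      have := card_pos.2 ⟨_, this⟩
      simp only [pow_zero, Nat.factorial_zero, one_mul]
      omega
    | succ j ih =>
      intro hj
      have h1 := ih (by omega)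
      have h2 := freeSets_step C D hD hself hsymm j
      have h3 : k * D ≤ Fintype.card V - j * D := by
        have : j * D ≤ k * D := Nat.mul_le_mul_right _ (by omega)
        omega
      calc (k * D) ^ (j + 1) = (k * D) ^ j * (k * D) := pow_succ _ _
        _ ≤ (j.factorial * (freeSets C j).card) * (Fintype.card V - j * D) :=
            Nat.mul_le_mul h1 h3
        _ = j.factorial * ((freeSets C j).card * (Fintype.card V - j * D)) := by ring
        _ ≤ j.factorial * ((j + 1) * (freeSets C (j + 1)).card) := Nat.mul_le_mul_left _ h2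
        _ = (j + 1).factorial * (freeSets C (j + 1)).card := by
            rw [Nat.factorial_succ]; ring
  have h1 := key k le_rfl
  have h2 : k.factorial ≤ k ^ k := Nat.factorial_le_pow k
  have h3 : k.factorial * D ^ k ≤ k.factorial * (freeSets C k).card := by
    calc k.factorial * D ^ k ≤ k ^ k * D ^ k := Nat.mul_le_mul_right _ h2
      _ = (k * D) ^ k := by rw [mul_pow]
      _ ≤ _ := h1
  exact Nat.le_of_mul_le_mul_left h3 (Nat.factorial_pos k)

end Pool.Agent.Matroid6d
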