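import Pool.Agent.Matroid6d.Bridge2
import Pool.Agent.Matroid6d.Greedy

/-!
Hamming cubes of `r`-sets inside the family of all `r`-sets meeting `F` in more than `ρ` elements.
-/

set_option autoImplicit false

namespace Pool.Agent.Matroid6d

open Finset

variable {n : ℕ}

section cube

variable {ι : Type} [Fintype ι] [DecidableEq ι] {m : ℕ}

/-- The transversal of a choice function. -/
def Tr (x : ι → Fin m → Fin n) (g : ι → Fin m) : Finset (Fin n) := univ.image (fun i => x i (g i))

lemma mem_Tr {x : ι → Fin m → Fin n} {g : ι → Fin m} {z : Fin n} :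
    z ∈ Tr x g ↔ ∃ i, x i (g i) = z := by
  unfold Tr
  rw [mem_image]
  exact ⟨fun ⟨i, _, h⟩ => ⟨i, h⟩, fun ⟨i, h⟩ => ⟨i, mem_univ _, h⟩⟩

/-- The choice functions that differ from `g` in at most one place. -/
def conf (g : ι → Fin m) : Finset (ι → Fin m) :=
  univ.image (fun p : ι × Fin m => Function.update g p.1 p.2)

lemma card_conf (g : ι → Fin m) : (conf g).card ≤ Fintype.card ι * m := by
  unfold conf
  refine card_image_le.trans (le_of_eq ?_)
  rw [card_univ, Fintype.card_prod, Fintype.card_fin]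

lemma conf_self (i₀ : ι) (g : ι → Fin m) : g ∈ conf g := by
  unfold conf
  rw [mem_image]
  exact ⟨(i₀, g i₀), mem_univ _, Function.update_eq_self _ _⟩

lemma conf_symm (g h : ι → Fin m) (hh : h ∈ conf g) : g ∈ conf h := by
  unfold conf at hh ⊢
  rw [mem_image] at hh ⊢
  obtain ⟨⟨i, v⟩, _, rfl⟩ := hh
  refine ⟨(i, g i), mem_univ _, ?_⟩
  simp only [Function.update_idem, Function.update_eq_self]

lemma two_of_not_conf (i₀ : ι) {g h : ι → Fin m} (hh : h ∉ conf g) :
    ∃ i j, i ≠ j ∧ g i ≠ h i ∧ g j ≠ h j := by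
  have h1 : ∃ i, g i ≠ h i := by
    by_contra hcon
    push Not at hcon
    apply hh
    rw [show h = g from funext fun i => (hcon i).symm]
    exact conf_self i₀ g
  obtain ⟨i, hi⟩ := h1
  by_contra hcon
  push Not at hcon
  apply hh
  unfold conf
  rw [mem_image]
  refine ⟨(i, h i), mem_univ _, ?_⟩
  funext j
  by_cases hij : j = i
  · subst hij
    simp
  · simp only [Function.update_of_ne hij]
    exact hcon i j (fun h => hij h.symm) hi

lemma two_le_Tr (x : ι → Fin m → Fin n)
    (hx : ∀ i v j w, x i v = x j w → i = j ∧ v = w) {g h : ι → Fin m} {i j : ι} (hij : i ≠ j)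
    (hi : g i ≠ h i) (hj : g j ≠ h j) : 2 ≤ (Tr x g \ Tr x h).card := by
  have hmem : ∀ l, g l ≠ h l → x l (g l) ∈ Tr x g \ Tr x h := by
    intro l hl
    rw [mem_sdiff, mem_Tr, mem_Tr]
    refine ⟨⟨l, rfl⟩, ?_⟩
    rintro ⟨l', hl'⟩
    obtain ⟨rfl, h2⟩ := hx _ _ _ _ hl'
    exact hl h2.symm
  exact two_le_card_of_mem (hmem i hi) (hmem j hj) (fun h => hij (hx _ _ _ _ h).1)

/-- Many stable families from a Hamming cube. -/
theorem exists_stable_of_cube (i₀ : ι) (r : ℕ) (K : Finset (Finset (Fin n)))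
    (hKr : ∀ X ∈ K, X.card = r) (X₀ : Finset (Fin n)) (x : ι → Fin m → Fin n)
    (hx : ∀ i v j w, x i v = x j w → i = j ∧ v = w)
    (hK : ∀ g : ι → Fin m, symmDiff X₀ (Tr x g) ∈ K) (k : ℕ)
    (hk : 2 * (k * (Fintype.card ι * m)) ≤ m ^ Fintype.card ι) :
    ∃ 𝒮 : Finset (Finset (Finset (Fin n))), (∀ S ∈ 𝒮, S ⊆ K ∧ Stable S) ∧
      (Fintype.card ι * m) ^ k ≤ 𝒮.card := by
  classical
  have hcV : Fintype.card (ι → Fin m) = m ^ Fintype.card ι := by
    rw [Fintype.card_fun, Fintype.card_fin]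
  have hg := greedy (V := ι → Fin m) conf (Fintype.card ι * m) card_conf (conf_self i₀)
    conf_symm k (by rw [hcV]; exact hk)
  have hdiff : ∀ g h : ι → Fin m, h ∉ conf g →
      2 ≤ (symmDiff X₀ (Tr x g) \ symmDiff X₀ (Tr x h)).card := by
    intro g h hgh
    obtain ⟨i, j, hij, hi, hj⟩ := two_of_not_conf i₀ hgh
    have h1 := two_le_Tr x hx hij hi hj
    have h2 := two_le_Tr x hx hij (fun e => hi e.symm) (fun e => hj e.symm)
    have h3 : symmDiff (symmDiff X₀ (Tr x g)) (symmDiff X₀ (Tr x h)) =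
        symmDiff (Tr x g) (Tr x h) := by
      rw [symmDiff_comm X₀ (Tr x g), symmDiff_assoc, symmDiff_symmDiff_cancel_left]
    have h4 := card_symmDiff' (symmDiff X₀ (Tr x g)) (symmDiff X₀ (Tr x h))
    rw [h3, card_symmDiff'] at h4
    have h5 := card_sdiff_comm' (X := symmDiff X₀ (Tr x g)) (Y := symmDiff X₀ (Tr x h))
      (by rw [hKr _ (hK g), hKr _ (hK h)])
    omega
  have hinj : ∀ g h : ι → Fin m, symmDiff X₀ (Tr x g) = symmDiff X₀ (Tr x h) → g = h := by
    intro g h hgh
    have h1 : Tr x g = Tr x h := symmDiff_right_injective X₀ hgh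
    funext i
    have h2 : x i (g i) ∈ Tr x h := by rw [← h1, mem_Tr]; exact ⟨i, rfl⟩
    rw [mem_Tr] at h2
    obtain ⟨j, hj⟩ := h2
    obtain ⟨rfl, h3⟩ := hx _ _ _ _ hj
    exact h3.symm
  refine ⟨(freeSets (V := ι → Fin m) conf k).image
    (fun S => S.image (fun g => symmDiff X₀ (Tr x g))), ?_, ?_⟩
  · intro S hS
    rw [mem_image] at hS
    obtain ⟨G, hG, rfl⟩ := hS
    rw [mem_freeSets] at hG
    constructor
    · intro X hX
      rw [mem_image] at hX
      obtain ⟨g, _, rfl⟩ := hX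
      exact hK g
    · intro X hX Y hY hne
      rw [mem_image] at hX hY
      obtain ⟨g, hgG, rfl⟩ := hX
      obtain ⟨h, hhG, rfl⟩ := hY
      have hgh : g ≠ h := by
        rintro rfl
        exact hne rfl
      exact hdiff g h (hG.2 g hgG h hhG hgh)
  · rw [card_image_of_injective]
    · exact hg
    · exact image_injective (fun g h hgh => hinj g h hgh)

lemma card_Tr (x : ι → Fin m → Fin n) (hx : ∀ i v j w, x i v = x j w → i = j ∧ v = w)
    (g : ι → Fin m) : (Tr x g).card = Fintype.card ι := by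
  unfold Tr
  rw [card_image_of_injective _ (fun i j h => (hx _ _ _ _ h).1), card_univ]

end cube

/-- Disjoint lists in two disjoint sets. -/
lemma lists (m p q : ℕ) (R O : Finset (Fin n)) (hRO : Disjoint R O) (hR : p * m ≤ R.card)
    (hO : q * m ≤ O.card) :
    ∃ x : Fin p ⊕ Fin q → Fin m → Fin n, (∀ i v j w, x i v = x j w → i = j ∧ v = w) ∧
      (∀ i v, x (Sum.inl i) v ∈ R) ∧ (∀ i v, x (Sum.inr i) v ∈ O) := by
  classical
  have e1 : Nonempty (Fin p × Fin m ↪ {z // z ∈ R}) := by
    apply Function.Embedding.nonempty_of_card_le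
    rw [Fintype.card_prod, Fintype.card_fin, Fintype.card_fin, Fintype.card_coe]
    exact hR
  have e2 : Nonempty (Fin q × Fin m ↪ {z // z ∈ O}) := by
    apply Function.Embedding.nonempty_of_card_le
    rw [Fintype.card_prod, Fintype.card_fin, Fintype.card_fin, Fintype.card_coe]
    exact hO
  obtain ⟨e1⟩ := e1
  obtain ⟨e2⟩ := e2
  refine ⟨fun i v => Sum.elim (fun i => (e1 (i, v) : Fin n)) (fun j => (e2 (j, v) : Fin n)) i,
    ?_, fun i v => (e1 (i, v)).2, fun i v => (e2 (i, v)).2⟩
  intro i v j w h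
  rcases i with i | i <;> rcases j with j | j
  · simp only [Sum.elim_inl] at h
    have := e1.injective (Subtype.ext h)
    rw [Prod.mk.injEq] at this
    exact ⟨by rw [this.1], this.2⟩
  · simp only [Sum.elim_inl, Sum.elim_inr] at h
    exact absurd (h ▸ (e2 (j, w)).2) (disjoint_left.1 hRO (e1 (i, v)).2)
  · simp only [Sum.elim_inl, Sum.elim_inr] at h
    exact absurd (h ▸ (e2 (i, v)).2) (disjoint_left.1 hRO (e1 (j, w)).2)
  · simp only [Sum.elim_inr] at h
    have := e2.injective (Subtype.ext h)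
    rw [Prod.mk.injEq] at this
    exact ⟨by rw [this.1], this.2⟩

/-- The part of a transversal in a set containing the first lists and disjoint from the others. -/
lemma card_inter_Tr {m p q : ℕ} (x : Fin p ⊕ Fin q → Fin m → Fin n)
    (hx : ∀ i v j w, x i v = x j w → i = j ∧ v = w) (g : Fin p ⊕ Fin q → Fin m)
    (U : Finset (Fin n)) (h1 : ∀ i v, x (Sum.inl i) v ∈ U) (h2 : ∀ i v, x (Sum.inr i) v ∉ U) :
    (U ∩ Tr x g).card = p := by
  classical
  have : U ∩ Tr x g = univ.image (fun i : Fin p => x (Sum.inl i) (g (Sum.inl i))) := by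
    ext z
    rw [mem_inter, mem_Tr, mem_image]
    constructor
    · rintro ⟨hz, i, rfl⟩
      rcases i with i | i
      · exact ⟨i, mem_univ _, rfl⟩
      · exact absurd hz (h2 _ _)
    · rintro ⟨i, _, rfl⟩
      exact ⟨h1 _ _, Sum.inl i, rfl⟩
  rw [this, card_image_of_injective, card_univ, Fintype.card_fin]
  intro i j h
  have := (hx _ _ _ _ h).1
  exact Sum.inl_injective this

lemma card_inter_Tr_zero {m p q : ℕ} (x : Fin p ⊕ Fin q → Fin m → Fin n)
    (g : Fin p ⊕ Fin q → Fin m)
    (U : Finset (Fin n)) (h1 : ∀ i v, x (Sum.inl i) v ∉ U) (h2 : ∀ i v, x (Sum.inr i) v ∉ U) :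
    (U ∩ Tr x g).card = 0 := by
  classical
  rw [card_eq_zero]
  apply eq_empty_of_forall_notMem
  intro z hz
  rw [mem_inter, mem_Tr] at hz
  obtain ⟨hz, i, rfl⟩ := hz
  rcases i with i | i
  · exact h1 _ _ hz
  · exact h2 _ _ hz

/-- Many stable families in `KF r F ρ` when nullity plus corank is at least `d + 2`. -/
theorem stable_KF (r ρ m d k : ℕ) (F : Finset (Fin n)) (hd : 1 ≤ d) (h1 : ρ < F.card)
    (h2 : ρ < r) (h3 : 2 * ρ + d + 2 ≤ F.card + r) (h4 : F.card + r ≤ n + ρ)
    (h5 : 2 * (d * m) + d + 1 ≤ r) (h6 : r + 2 * (d * m) + d + 1 ≤ n)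
    (hk : 2 * (k * (d * m)) ≤ m ^ d) :
    ∃ 𝒮 : Finset (Finset (Finset (Fin n))), (∀ S ∈ 𝒮, S ⊆ KF r F ρ ∧ Stable S) ∧
      (d * m) ^ k ≤ 𝒮.card := by
  classical
  have hFn : F.card ≤ n := by simpa using card_le_univ F
  have hFc : (univ \ F).card = n - F.card := by
    rw [card_sdiff_of_subset (subset_univ F), card_univ, Fintype.card_fin]
  -- the general construction
  have main : ∀ (p q : ℕ) (W V R : Finset (Fin n)), p + q = d → W ⊆ F → V ⊆ univ \ F →
      R ⊆ W ∪ V → p * m ≤ R.card → q * m ≤ ((univ \ F) \ V).card →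
      W.card + V.card = r + p - q → q ≤ r + p → (R = W ∧ ρ + p < W.card ∨ R = V ∧ ρ < W.card) →
      ∃ 𝒮 : Finset (Finset (Finset (Fin n))), (∀ S ∈ 𝒮, S ⊆ KF r F ρ ∧ Stable S) ∧
        (d * m) ^ k ≤ 𝒮.card := by
    intro p q W V R hpq hWF hVF hRWV hR hO hcard hqr hor
    have hnot : ∀ z, z ∈ (univ \ F) \ V → z ∉ W ∪ V := by
      intro z hz
      rw [mem_sdiff, mem_sdiff] at hz
      rw [mem_union]
      rintro (h | h)
      · exact hz.1.2 (hWF h)
      · exact hz.2 h
    have hdisj : Disjoint R ((univ \ F) \ V) := by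
      rw [disjoint_left]
      intro z hz hz'
      exact hnot z hz' (hRWV hz)
    obtain ⟨x, hx, hx1, hx2⟩ := lists m p q R ((univ \ F) \ V) hdisj hR hO
    have hι : Fintype.card (Fin p ⊕ Fin q) = d := by
      rw [Fintype.card_sum, Fintype.card_fin, Fintype.card_fin, hpq]
    have hi₀ : Nonempty (Fin p ⊕ Fin q) := by
      rw [← Fintype.card_pos_iff, hι]; omega
    obtain ⟨i₀⟩ := hi₀
    obtain ⟨hWV, _⟩ := card_parts hWF hVF
    have := exists_stable_of_cube i₀ r (KF r F ρ) (fun X hX => (mem_KF.1 hX).1) (W ∪ V) x hx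
      (fun g => by
        have hc1 : ((W ∪ V) ∩ Tr x g).card = p :=
          card_inter_Tr x hx g (W ∪ V) (fun i v => hRWV (hx1 i v)) (fun i v => hnot _ (hx2 i v))
        apply symmDiff_mem_KF hWF
        · rw [card_Tr x hx g, hι, hc1, hWV]
          omega
        · rcases hor with ⟨rfl, h⟩ | ⟨rfl, h⟩
          · rw [card_inter_Tr x hx g R (fun i v => hx1 i v)
              (fun i v h => hnot _ (hx2 i v) (mem_union_left _ h))]
            exact h
          · have h0 : (W ∩ Tr x g).card = 0 := card_inter_Tr_zero x g W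
              (fun i v h => (mem_sdiff.1 (hVF (hx1 i v))).2 (hWF h))
              (fun i v h => hnot _ (hx2 i v) (mem_union_left _ h))
            rw [h0]
            omega) k (by rw [hι]; exact hk)
    rw [hι] at this
    exact this
  have hmul : ∀ p, p ≤ d → p * m ≤ d * m := fun p hp => Nat.mul_le_mul_right m hp
  by_cases c1 : d * m ≤ ρ + 1
  · -- remove `p` elements of `W`, add `q` elements outside `F`
    obtain ⟨p, hp⟩ : ∃ p, p = min (F.card - ρ - 1) d := ⟨_, rfl⟩
    have hp1 : p ≤ d := by omega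
    have hp2 : p ≤ F.card - ρ - 1 := by omega
    obtain ⟨W, hWF, hWc⟩ := exists_subset_card_eq (show ρ + 1 + p ≤ F.card by omega)
    obtain ⟨V, hVF, hVc⟩ := exists_subset_card_eq
      (show r - ρ - 1 - (d - p) ≤ (univ \ F).card by omega)
    refine main p (d - p) W V W (by omega) hWF hVF subset_union_left ?_ ?_ ?_ (by omega)
      (Or.inl ⟨rfl, by omega⟩)
    · have := hmul p hp1
      omega
    · rw [card_sdiff_of_subset hVF, hFc, hVc]
      have := hmul (d - p) (by omega)
      by_cases hpd : p = d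
      · rw [hpd, Nat.sub_self, Nat.zero_mul]
        omega
      · omega
    · omega
  · by_cases c2 : d * m + F.card + r ≤ n + ρ + 1 + d
    · -- add `d` elements outside `F`
      obtain ⟨W, hWF, hWc⟩ := exists_subset_card_eq (show ρ + 1 ≤ F.card by omega)
      obtain ⟨V, hVF, hVc⟩ := exists_subset_card_eq
        (show r - ρ - 1 - d ≤ (univ \ F).card by omega)
      refine main 0 d W V W (by omega) hWF hVF subset_union_left (by omega) ?_ (by omega)
        (by omega) (Or.inl ⟨rfl, by omega⟩)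
      rw [card_sdiff_of_subset hVF, hFc, hVc]
      omega
    · -- remove `d` elements outside `F`
      obtain ⟨W, hWF, hWc⟩ := exists_subset_card_eq (show ρ + 1 + d ≤ F.card by omega)
      obtain ⟨V, hVF, hVc⟩ := exists_subset_card_eq
        (show r - ρ - 1 ≤ (univ \ F).card by omega)
      refine main d 0 W V V (by omega) hWF hVF subset_union_right (by omega) ?_ (by omega)
        (by omega) (Or.inr ⟨rfl, by omega⟩)
      rw [Nat.zero_mul]
      omega

end Pool.Agent.Matroid6d
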