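import Pool.Agent.Matroid6d.WSum
import Pool.Agent.Matroid6d.Extreme

/-!
Weighted sums over matroids.
-/

set_option autoImplicit false

namespace Pool.Agent.Matroid6d

open Finset

variable {n : ℕ}

/-- `X` is a circuit-hyperplane of `M`: a closed circuit with rank-many elements. -/
def IsCH {n : ℕ} (M : Matroid (Fin n)) (X : Set (Fin n)) : Prop :=
  X.encard = M.eRank ∧ M.IsCircuit X ∧ M.closure X = X

/-- The number of circuit-hyperplanes. -/
noncomputable def numCH {n : ℕ} (M : Matroid (Fin n)) : ℕ := {X | IsCH M X}.ncard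

/-- The number of non-bases that are not circuit-hyperplanes. -/
noncomputable def numOther {n : ℕ} (M : Matroid (Fin n)) : ℕ :=
  {X | IsNonbasis M X ∧ ¬ IsCH M X}.ncard

/-- The finite set of all matroids with ground set all of `Fin n`. -/
noncomputable def allMat (n : ℕ) : Finset (Matroid (Fin n)) :=
  (finite_mats {M : Matroid (Fin n) | M.E = Set.univ} (fun _ h => h)).toFinset

lemma mem_allMat {M : Matroid (Fin n)} : M ∈ allMat n ↔ M.E = Set.univ := by
  unfold allMat
  rw [Set.Finite.mem_toFinset]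
  rfl

open Classical in
/-- The total weight of the members of `𝒜` with ground set all of `Fin n`, when every
circuit-hyperplane has weight `κ` and every other non-basis has weight `x`. -/
noncomputable def wt {n : ℕ} (x κ : ℝ) (𝒜 : Set (Matroid (Fin n))) : ℝ :=
  ∑ M ∈ (allMat n).filter (fun M => M ∈ 𝒜), x ^ numOther M * κ ^ numCH M

lemma wt_eq (x κ : ℝ) (𝒜 : Set (Matroid (Fin n))) [DecidablePred (fun M => M ∈ 𝒜)] :
    wt x κ 𝒜 = ∑ M ∈ (allMat n).filter (fun M => M ∈ 𝒜), x ^ numOther M * κ ^ numCH M := by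
  unfold wt
  congr!

/-- The rank as a natural number. -/
noncomputable def rk (M : Matroid (Fin n)) : ℕ := M.eRank.toNat

lemma card_of_bs {M : Matroid (Fin n)} {X : Finset (Fin n)} (hX : Bs M X) : X.card = rk M := by
  unfold rk
  rw [← Matroid.IsBase.encard_eq_eRank hX, Set.encard_coe_eq_coe_finsetCard]
  rfl

lemma eRank_rk (M : Matroid (Fin n)) : M.eRank = (rk M : ℕ∞) := by
  obtain ⟨B, hB⟩ := exists_bs M
  rw [← card_of_bs hB, ← Matroid.IsBase.encard_eq_eRank hB, Set.encard_coe_eq_coe_finsetCard]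

lemma rk_le (M : Matroid (Fin n)) : rk M ≤ n := by
  obtain ⟨B, hB⟩ := exists_bs M
  rw [← card_of_bs hB]
  simpa using card_le_univ B

lemma bs_of_indep {M : Matroid (Fin n)} {X : Finset (Fin n)} (h : M.Indep (X : Set (Fin n)))
    (hX : X.card = rk M) : Bs M X := by
  obtain ⟨B, hB, hXB⟩ := h.exists_isBase_superset
  obtain ⟨B', rfl⟩ : ∃ B' : Finset (Fin n), (B' : Set (Fin n)) = B :=
    ⟨(Set.toFinite B).toFinset, Set.Finite.coe_toFinset _⟩
  have h1 : X ⊆ B' := by exact_mod_cast hXB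
  have h2 := card_of_bs (M := M) (X := B') hB
  have h3 : X = B' := eq_of_subset_of_card_le h1 (by omega)
  rw [h3]
  exact hB

lemma isNonbasis_iff {M : Matroid (Fin n)} {X : Finset (Fin n)} :
    IsNonbasis M (X : Set (Fin n)) ↔ X ∈ Nb (Bs M) (rk M) := by
  unfold IsNonbasis
  rw [mem_Nb, eRank_rk, Set.encard_coe_eq_coe_finsetCard]
  constructor
  · rintro ⟨h1, h2⟩
    exact ⟨by exact_mod_cast h1, h2⟩
  · rintro ⟨h1, h2⟩
    exact ⟨by exact_mod_cast h1, h2⟩

lemma isCH_iff {M : Matroid (Fin n)} (hE : M.E = Set.univ) {X : Finset (Fin n)} :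
    IsCH M (X : Set (Fin n)) ↔ X ∈ Ws (Bs M) (rk M) := by
  classical
  unfold IsCH
  rw [mem_Ws, eRank_rk, Set.encard_coe_eq_coe_finsetCard]
  constructor
  · rintro ⟨h1, hc, hcl⟩
    have h1' : X.card = rk M := by exact_mod_cast h1
    refine ⟨⟨h1', fun h => hc.dep.not_indep (Matroid.IsBase.indep h)⟩, ?_⟩
    intro x hx y hy
    apply bs_of_indep ?_ (by rw [card_swap hx hy, h1'])
    rw [coe_insert, coe_erase]
    have hind : M.Indep ((X : Set (Fin n)) \ {x}) :=
      hc.sdiff_singleton_indep (by exact_mod_cast hx)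
    have hy' : y ∉ (X : Set (Fin n)) \ {x} := fun h => hy (by exact_mod_cast h.1)
    by_contra hdep
    have h2 : M.Dep (insert y ((X : Set (Fin n)) \ {x})) := by
      rw [Matroid.dep_iff]
      exact ⟨hdep, by rw [hE]; exact Set.subset_univ _⟩
    rw [← hind.mem_closure_iff_of_notMem hy', hc.closure_sdiff_singleton_eq, hcl] at h2
    exact hy (by exact_mod_cast h2)
  · rintro ⟨⟨h1, hnb⟩, hsw⟩
    refine ⟨by exact_mod_cast h1, ?_⟩
    obtain ⟨B, hB⟩ := exists_bs M
    have hBr := card_of_bs hB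
    have hBX : ¬ B ⊆ X := by
      intro h
      exact hnb ((eq_of_subset_of_card_le h (by omega)) ▸ hB)
    have hXB : ¬ X ⊆ B := by
      intro h
      exact hnb ((eq_of_subset_of_card_le h (by omega)) ▸ hB)
    obtain ⟨y₀, _, hy₀⟩ := not_subset.1 hBX
    obtain ⟨x₀, hx₀, _⟩ := not_subset.1 hXB
    have hswap : ∀ a ∈ X, ∀ b, b ∉ X → M.IsBase (insert b ((X : Set (Fin n)) \ {a})) := by
      intro a ha b hb
      have := hsw a ha b hb
      unfold Bs at this
      rwa [coe_insert, coe_erase] at this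
    have hcirc : M.IsCircuit (X : Set (Fin n)) := by
      rw [Matroid.isCircuit_iff_dep_forall_sdiff_singleton_indep]
      refine ⟨?_, fun e he => ?_⟩
      · rw [Matroid.dep_iff]
        exact ⟨fun h => hnb (bs_of_indep h h1), by rw [hE]; exact Set.subset_univ _⟩
      · exact (hswap e (by exact_mod_cast he) y₀ hy₀).indep.subset (Set.subset_insert _ _)
    refine ⟨hcirc, ?_⟩
    apply Set.Subset.antisymm
    · intro y hy
      by_contra hyX
      have hbase := hswap x₀ hx₀ y (by exact_mod_cast hyX)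
      have hind : M.Indep ((X : Set (Fin n)) \ {x₀}) := hbase.indep.subset (Set.subset_insert _ _)
      rw [← hcirc.closure_sdiff_singleton_eq x₀] at hy
      have hy' : y ∉ (X : Set (Fin n)) \ {x₀} := fun h => hyX h.1
      rw [hind.mem_closure_iff_of_notMem hy'] at hy
      exact hy.not_indep hbase.indep
    · exact M.subset_closure _ (by rw [hE]; exact Set.subset_univ _)

lemma ncard_eq_of_iff (Q : Set (Fin n) → Prop) (T : Finset (Finset (Fin n)))
    (h : ∀ X : Finset (Fin n), Q (X : Set (Fin n)) ↔ X ∈ T) : {X | Q X}.ncard = T.card := by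
  have h1 : {X | Q X} = (fun X : Finset (Fin n) => (X : Set (Fin n))) '' (T : Set (Finset (Fin n))) := by
    ext X
    constructor
    · intro hX
      refine ⟨(Set.toFinite X).toFinset, ?_, Set.Finite.coe_toFinset _⟩
      rw [mem_coe, ← h, Set.Finite.coe_toFinset]
      exact hX
    · rintro ⟨Y, hY, rfl⟩
      exact (h Y).2 (by exact_mod_cast hY)
  rw [h1, Set.ncard_image_of_injective _ Finset.coe_injective, Set.ncard_coe_finset]

lemma mem_Us_iff {P : Finset (Fin n) → Prop} {r : ℕ} {X : Finset (Fin n)} :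
    X ∈ Us P r ↔ X ∈ Nb P r ∧ X ∉ Ws P r := by
  rw [mem_Us, mem_Nb, mem_Ws]
  constructor
  · rintro ⟨h1, x, hx, y, hy, h⟩
    exact ⟨h1, fun h2 => h (h2.2 x hx y hy)⟩
  · rintro ⟨h1, h2⟩
    refine ⟨h1, ?_⟩
    by_contra hcon
    push Not at hcon
    exact h2 ⟨h1, hcon⟩

lemma numCH_eq {M : Matroid (Fin n)} (hE : M.E = Set.univ) :
    numCH M = (Ws (Bs M) (rk M)).card :=
  ncard_eq_of_iff _ _ (fun _ => isCH_iff hE)

lemma numOther_eq {M : Matroid (Fin n)} (hE : M.E = Set.univ) :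
    numOther M = (Us (Bs M) (rk M)).card :=
  ncard_eq_of_iff (fun X => IsNonbasis M X ∧ ¬ IsCH M X) _
    (fun X => by rw [mem_Us_iff, isNonbasis_iff, isCH_iff hE])

lemma nonempty_of_not_sparse {M : Matroid (Fin n)} (hE : M.E = Set.univ)
    (h : ¬ SparsePaving M) : (Us (Bs M) (rk M)).Nonempty := by
  unfold SparsePaving at h
  push Not at h
  obtain ⟨X, B, hB, hcard, hdep, hn⟩ := h
  obtain ⟨X', rfl⟩ : ∃ X' : Finset (Fin n), (X' : Set (Fin n)) = X :=
    ⟨(Set.toFinite X).toFinset, Set.Finite.coe_toFinset _⟩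
  obtain ⟨B', rfl⟩ : ∃ B' : Finset (Fin n), (B' : Set (Fin n)) = B :=
    ⟨(Set.toFinite B).toFinset, Set.Finite.coe_toFinset _⟩
  rw [Set.ncard_coe_finset, Set.ncard_coe_finset, card_of_bs (M := M) (X := B') hB] at hcard
  refine ⟨X', mem_Us_iff.2 ⟨mem_Nb.2 ⟨hcard, fun h => hdep.not_indep (Matroid.IsBase.indep h)⟩, ?_⟩⟩
  rw [← isCH_iff hE]
  rintro ⟨_, h1, h2⟩
  exact hn h1 h2

lemma numOther_eq_zero {M : Matroid (Fin n)} (hE : M.E = Set.univ) (h : SparsePaving M) :
    numOther M = 0 := by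
  rw [numOther_eq hE, card_eq_zero, eq_empty_iff_forall_notMem]
  intro X hX
  obtain ⟨h1, h2⟩ := mem_Us_iff.1 hX
  obtain ⟨B, hB⟩ := exists_bs M
  rw [mem_Nb] at h1
  have h3 := h X B hB (by
    rw [Set.ncard_coe_finset, Set.ncard_coe_finset, h1.1, card_of_bs hB]) (by
    rw [Matroid.dep_iff]
    exact ⟨fun h => h1.2 (bs_of_indep h h1.1), by rw [hE]; exact Set.subset_univ _⟩)
  apply h2
  rw [← isCH_iff hE]
  refine ⟨?_, h3⟩
  rw [eRank_rk, Set.encard_coe_eq_coe_finsetCard, h1.1]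

/-- Adjacent sets differ by an exchange. -/
lemma exists_swap {X Y : Finset (Fin n)} (hc : X.card = Y.card) (hne : X ≠ Y)
    (h : (X \ Y).card < 2) : ∃ x ∈ X, ∃ y, y ∉ X ∧ Y = insert y (X.erase x) := by
  have hcc := card_sdiff_comm' hc
  have hpos : (X \ Y).card ≠ 0 := by
    intro h0
    rw [card_eq_zero, sdiff_eq_empty_iff_subset] at h0
    exact hne (eq_of_subset_of_card_le h0 (by omega))
  have h1 : (X \ Y).card = 1 := by omega
  have h2 : (Y \ X).card = 1 := by omega
  rw [card_eq_one] at h1 h2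
  obtain ⟨x, hx⟩ := h1
  obtain ⟨y, hy⟩ := h2
  have hx' : x ∈ X \ Y := by rw [hx]; exact mem_singleton_self _
  have hy' : y ∈ Y \ X := by rw [hy]; exact mem_singleton_self _
  rw [mem_sdiff] at hx' hy'
  refine ⟨x, hx'.1, y, hy'.2, ?_⟩
  apply eq_of_subset_of_card_le
  · intro z hz
    rw [mem_insert, mem_erase]
    by_cases hzX : z ∈ X
    · exact Or.inr ⟨fun h' => hx'.2 (h' ▸ hz), hzX⟩
    · left
      have : z ∈ Y \ X := mem_sdiff.2 ⟨hz, hzX⟩
      rw [hy, mem_singleton] at this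
      exact this
  · rw [card_swap hx'.1 hy'.2]; omega

lemma two_le_of_Ws {P : Finset (Fin n) → Prop} {r : ℕ} {X Y : Finset (Fin n)}
    (hX : X ∈ Ws P r) (hY : Y ∈ Nb P r) (hne : X ≠ Y) : 2 ≤ (X \ Y).card := by
  by_contra hlt
  push Not at hlt
  rw [mem_Ws] at hX
  rw [mem_Nb] at hY
  obtain ⟨x, hx, y, hy, rfl⟩ := exists_swap (by rw [hX.1.1, hY.1]) hne hlt
  exact hY.2 (hX.2 x hx y hy)

open Classical in
/-- The stable families of sets of size `r`. -/
noncomputable def stab (n r : ℕ) : Finset (Finset (Finset (Fin n))) :=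
  ((powersetCard r univ).powerset).filter Stable

lemma mem_stab {r : ℕ} {S : Finset (Finset (Fin n))} :
    S ∈ stab n r ↔ (∀ X ∈ S, X.card = r) ∧ Stable S := by
  classical
  simp only [stab, mem_filter, mem_powerset]
  constructor
  · rintro ⟨h1, h2⟩
    exact ⟨fun X hX => (mem_powersetCard.1 (h1 hX)).2, h2⟩
  · rintro ⟨h1, h2⟩
    exact ⟨fun X hX => mem_powersetCard.2 ⟨subset_univ _, h1 X hX⟩, h2⟩

lemma union_mem_stab {P : Finset (Fin n) → Prop} {r : ℕ} {S₀ : Finset (Finset (Fin n))}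
    (hS₀ : S₀ ⊆ Us P r) (hst : Stable S₀) : Ws P r ∪ S₀ ∈ stab n r := by
  have hN : ∀ X ∈ Ws P r ∪ S₀, X ∈ Nb P r := by
    intro X hX
    rw [mem_union] at hX
    rcases hX with h | h
    · exact mem_Nb.2 (mem_Ws.1 h).1
    · exact (mem_Us_iff.1 (hS₀ h)).1
  rw [mem_stab]
  refine ⟨fun X hX => (mem_Nb.1 (hN X hX)).1, ?_⟩
  intro X hX Y hY hne
  have hXN := hN X hX
  have hYN := hN Y hY
  rw [mem_union] at hX hY
  rcases hX with hX | hX
  · exact two_le_of_Ws hX hYN hne
  · rcases hY with hY | hY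
    · rw [card_sdiff_comm' (by rw [(mem_Nb.1 hXN).1, (mem_Nb.1 hYN).1])]
      exact two_le_of_Ws hY hXN (Ne.symm hne)
    · exact hst X hX Y hY hne

/-- Every family of sets of size `r` has a stable subfamily of proportion `1 / n`. -/
lemma exists_stable_sub (hn : 0 < n) (r : ℕ) (U : Finset (Finset (Fin n)))
    (hU : ∀ X ∈ U, X.card = r) :
    ∃ S₀ ⊆ U, Stable S₀ ∧ U.card ≤ n * S₀.card := by
  classical
  set f : ℕ → Finset (Finset (Fin n)) :=
    fun c => U.filter (fun X : Finset (Fin n) => (∑ x ∈ X, (x : ℕ)) % n = c) with hf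
  obtain ⟨c, hc, hmax⟩ := exists_max_image (range n) (fun c => (f c).card)
    ⟨0, mem_range.2 hn⟩
  refine ⟨f c, filter_subset _ _, ?_, ?_⟩
  · intro X hX Y hY hne
    rw [hf, mem_filter] at hX hY
    exact stable_class r c X (mem_filter.2 ⟨mem_powersetCard.2 ⟨subset_univ _, hU X hX.1⟩, hX.2⟩)
      Y (mem_filter.2 ⟨mem_powersetCard.2 ⟨subset_univ _, hU Y hY.1⟩, hY.2⟩) hne
  · have h1 : U.card = ∑ c ∈ range n, (f c).card :=
      card_eq_sum_card_fiberwise (fun X _ => mem_range.2 (Nat.mod_lt _ hn))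
    rw [h1]
    calc ∑ c ∈ range n, (f c).card ≤ ∑ _c ∈ range n, (f c).card := sum_le_sum hmax
      _ = n * (f c).card := by rw [sum_const, card_range, smul_eq_mul]

/-- The weighted number of stable families. -/
noncomputable def Zs (n r : ℕ) (κ : ℝ) : ℝ := ∑ S ∈ stab n r, κ ^ S.card

open Classical in
/-- The stable families are counted by sparse paving matroids. -/
lemma Zs_le (r : ℕ) (hr0 : 0 < r) (hrn : r < n) (κ : ℝ) (hκ : 0 ≤ κ) :
    Zs n r κ ≤ ∑ M ∈ (allMat n).filter (fun M => rk M = r ∧ SparsePaving M), κ ^ numCH M := by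
  have key : ∀ S ∈ stab n r, ∃ M : Matroid (Fin n), (M.E = Set.univ ∧ rk M = r ∧ SparsePaving M) ∧
      Ws (Bs M) r = S := by
    intro S hS
    obtain ⟨hSr, hSt⟩ := mem_stab.1 hS
    obtain ⟨M, hME, hMsp, hMr, hMb⟩ := sparsePaving_of_stable r hr0 hrn S hSt
    have hrk : rk M = r := by
      unfold rk
      rw [hMr]
      rfl
    refine ⟨M, ⟨hME, hrk, hMsp⟩, ?_⟩
    ext X
    rw [mem_Ws]
    constructor
    · rintro ⟨⟨h1, h2⟩, _⟩
      by_contra h
      exact h2 ((hMb X).2 ⟨h1, h⟩)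
    · intro h
      refine ⟨⟨hSr X h, fun h' => ((hMb X).1 h').2 h⟩, ?_⟩
      intro x hx y hy
      exact (hMb _).2 ⟨by rw [card_swap hx hy, hSr X h], swap_notMem_of_stable hSt h x hy⟩
  have : Nonempty (Matroid (Fin n)) := ⟨Matroid.freeOn Set.univ⟩
  choose! φ hφ1 hφ2 using key
  have hinj : Set.InjOn φ (stab n r : Set (Finset (Finset (Fin n)))) := by
    intro S hS T hT h
    rw [← hφ2 S hS, ← hφ2 T hT, h]
  unfold Zs
  calc ∑ S ∈ stab n r, κ ^ S.card = ∑ S ∈ stab n r, κ ^ numCH (φ S) := by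
        refine sum_congr rfl (fun S hS => ?_)
        rw [numCH_eq (hφ1 S hS).1, (hφ1 S hS).2.1, hφ2 S hS]
    _ = ∑ M ∈ (stab n r).image φ, κ ^ numCH M :=
        (sum_image (f := fun M : Matroid (Fin n) => κ ^ numCH M) hinj).symm
    _ ≤ _ := by
        apply sum_le_sum_of_subset_of_nonneg
        · intro M hM
          rw [mem_image] at hM
          obtain ⟨S, hS, rfl⟩ := hM
          exact mem_filter.2 ⟨mem_allMat.2 (hφ1 S hS).1, (hφ1 S hS).2⟩
        · intro _ _ _
          positivity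

lemma bs_iff_notMem {M : Matroid (Fin n)} {X : Finset (Fin n)} :
    Bs M X ↔ X.card = rk M ∧ X ∉ Nb (Bs M) (rk M) := by
  rw [mem_Nb]
  constructor
  · intro h
    exact ⟨card_of_bs h, fun h' => h'.2 h⟩
  · rintro ⟨h1, h2⟩
    by_contra h
    exact h2 ⟨h1, h⟩

lemma disjoint_Ws_Us {P : Finset (Fin n) → Prop} {r : ℕ} : Disjoint (Ws P r) (Us P r) := by
  rw [disjoint_left]
  intro X h h'
  exact (mem_Us_iff.1 h').2 h

open Classical in
/-- The matroids with a given set of non-isolated non-bases. -/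
lemma fixedU (r : ℕ) (U : Finset (Finset (Fin n))) (κ : ℝ) (hκ : 0 ≤ κ)
    (S₀ : Finset (Finset (Fin n))) (hS₀ : S₀ ⊆ U) (hst : Stable S₀) :
    (∑ M ∈ (allMat n).filter (fun M => rk M = r ∧ Us (Bs M) r = U), κ ^ numCH M) *
      κ ^ S₀.card ≤ Zs n r κ := by
  set A := (allMat n).filter (fun M => rk M = r ∧ Us (Bs M) r = U) with hA
  set φ : Matroid (Fin n) → Finset (Finset (Fin n)) := fun M => Ws (Bs M) r ∪ S₀ with hφ
  have hmem : ∀ M ∈ A, M.E = Set.univ ∧ rk M = r ∧ Us (Bs M) r = U := by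
    intro M hM
    rw [hA, mem_filter, mem_allMat] at hM
    exact hM
  have hdis : ∀ M ∈ A, Disjoint (Ws (Bs M) r) S₀ := by
    intro M hM
    exact disjoint_of_subset_right ((hmem M hM).2.2 ▸ hS₀) disjoint_Ws_Us
  have hinj : Set.InjOn φ (A : Set (Matroid (Fin n))) := by
    intro M hM N hN h
    obtain ⟨hME, hMr, hMU⟩ := hmem M hM
    obtain ⟨hNE, hNr, hNU⟩ := hmem N hN
    have hW : Ws (Bs M) r = Ws (Bs N) r := by
      have h1 := hdis M hM
      have h2 := hdis N hN
      rw [disjoint_left] at h1 h2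
      have h3 : ∀ X, X ∈ Ws (Bs M) r ∪ S₀ ↔ X ∈ Ws (Bs N) r ∪ S₀ := Finset.ext_iff.1 h
      ext X
      have h4 := h3 X
      rw [mem_union, mem_union] at h4
      constructor
      · intro hX
        rcases h4.1 (Or.inl hX) with h5 | h5
        · exact h5
        · exact absurd h5 (h1 hX)
      · intro hX
        rcases h4.2 (Or.inl hX) with h5 | h5
        · exact h5
        · exact absurd h5 (h2 hX)
    have hNb : ∀ X, X ∈ Nb (Bs M) r ↔ X ∈ Nb (Bs N) r := by
      intro X
      have h1 := mem_Us_iff (P := Bs M) (r := r) (X := X)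
      have h2 := mem_Us_iff (P := Bs N) (r := r) (X := X)
      have h3 : X ∈ Ws (Bs M) r → X ∈ Nb (Bs M) r := fun h => mem_Nb.2 (mem_Ws.1 h).1
      have h4 : X ∈ Ws (Bs N) r → X ∈ Nb (Bs N) r := fun h => mem_Nb.2 (mem_Ws.1 h).1
      rw [hMU] at h1
      rw [hNU] at h2
      rw [hW] at h1 h3
      by_cases h5 : X ∈ Ws (Bs N) r
      · exact ⟨fun _ => h4 h5, fun _ => h3 h5⟩
      · constructor
        · intro h6
          exact (h2.1 (h1.2 ⟨h6, h5⟩)).1
        · intro h6
          exact (h1.1 (h2.2 ⟨h6, h5⟩)).1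
    apply ext_bs hME hNE
    intro X
    rw [bs_iff_notMem, bs_iff_notMem, hMr, hNr, hNb X]
  rw [sum_mul]
  unfold Zs
  calc ∑ M ∈ A, κ ^ numCH M * κ ^ S₀.card = ∑ M ∈ A, κ ^ (φ M).card := by
        refine sum_congr rfl (fun M hM => ?_)
        rw [← pow_add, hφ]
        simp only
        rw [card_union_of_disjoint (hdis M hM), numCH_eq (hmem M hM).1, (hmem M hM).2.1]
    _ = ∑ S ∈ A.image φ, κ ^ S.card :=
        (sum_image (f := fun S : Finset (Finset (Fin n)) => κ ^ S.card) hinj).symm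
    _ ≤ _ := by
        apply sum_le_sum_of_subset_of_nonneg
        · intro S hS
          rw [mem_image] at hS
          obtain ⟨M, hM, rfl⟩ := hS
          exact union_mem_stab ((hmem M hM).2.2 ▸ hS₀) hst
        · intro _ _ _
          positivity

lemma Zs_nonneg (n r : ℕ) {κ : ℝ} (hκ : 0 ≤ κ) : 0 ≤ Zs n r κ := by
  unfold Zs
  exact sum_nonneg (fun _ _ => by positivity)

/-- Lower bound for the weighted number of stable families. -/
lemma Zs_ge (hn : 0 < n) (r : ℕ) (κ : ℝ) (hκ : 0 ≤ κ) :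
    (1 + κ) ^ (n.choose r / n) ≤ Zs n r κ := by
  classical
  obtain ⟨S₀, hS₀, hst, hc⟩ := exists_stable_sub hn r (powersetCard r univ)
    (fun X hX => (mem_powersetCard.1 hX).2)
  rw [card_powersetCard, card_univ, Fintype.card_fin] at hc
  have h1 : n.choose r / n ≤ S₀.card := by
    apply Nat.div_le_of_le_mul
    exact hc
  calc (1 + κ) ^ (n.choose r / n) ≤ (1 + κ) ^ S₀.card := pow_le_pow_right₀ (by linarith) h1
    _ = ∑ S ∈ S₀.powerset, κ ^ S.card := (sum_powerset_pow S₀ κ).symm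
    _ ≤ Zs n r κ := by
        unfold Zs
        apply sum_le_sum_of_subset_of_nonneg
        · intro S hS
          rw [mem_powerset] at hS
          rw [mem_stab]
          exact ⟨fun X hX => (mem_powersetCard.1 (hS₀ (hS hX))).2,
            fun X hX Y hY h => hst X (hS hX) Y (hS hY) h⟩
        · intro _ _ _
          positivity

end Pool.Agent.Matroid6d
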