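import Pool.Agent.Matroid6d.Dual
import Pool.Agent.Matroid6d.WMat

/-!
Second-order lower bounds for the number of non-bases with a given circuit, and the circuits that
differ from a given one in one element.
-/

set_option autoImplicit false

namespace Pool.Agent.Matroid6d

open Finset

variable {n : ℕ} {P : Finset (Fin n) → Prop} {K : Finset (Finset (Fin n))}
  {X Y : Finset (Fin n)} {x y : Fin n} {r : ℕ}

lemma card_offDiag_le_two {s : Finset (Fin n)} (h : s.card ≤ 2) : s.offDiag.card ≤ 2 := by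
  rw [offDiag_card]
  interval_cases s.card <;> omega

/-- The second-order lower bound. -/
theorem deg2 (hP : Exch P) (hYr : Y.card = r) (hY : ¬ P Y) (q : ℕ)
    (hq : ∀ x ∈ Y, x ∉ Cs P Y → ∀ y ∈ Ds P Y, q ≤ (Ds P (insert y (Y.erase x))).card) :
    (r - (Cs P Y).card) * (r - (Cs P Y).card - 1) * (Ds P Y).card * (q - 1) ≤
      4 * (cell P r (Sum.inl (Cs P Y))).card := by
  classical
  set A := Y \ Cs P Y with hA
  have hAc : A.card = r - (Cs P Y).card := by
    rw [hA, card_sdiff_of_subset Cs_subset, hYr]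
  set Q := (A.offDiag ×ˢ Ds P Y).sigma
    (fun p => (Ds P (insert p.2 (Y.erase p.1.1))).erase p.1.1) with hQ
  have mQ : ∀ p, p ∈ Q ↔ ((p.1.1.1 ∈ Y ∧ p.1.1.1 ∉ Cs P Y) ∧ (p.1.1.2 ∈ Y ∧ p.1.1.2 ∉ Cs P Y) ∧
      p.1.1.1 ≠ p.1.1.2) ∧ p.1.2 ∈ Ds P Y ∧ p.2 ≠ p.1.1.1 ∧
      p.2 ∈ Ds P (insert p.1.2 (Y.erase p.1.1.1)) := by
    intro p
    rw [hQ, mem_sigma, mem_product, mem_offDiag, mem_erase, hA, mem_sdiff, mem_sdiff]
    tauto
  -- the number of quadruples
  have h1 : (r - (Cs P Y).card) * (r - (Cs P Y).card - 1) * (Ds P Y).card * (q - 1) ≤ Q.card := by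
    rw [hQ, card_sigma, ← hAc]
    calc A.card * (A.card - 1) * (Ds P Y).card * (q - 1)
        = ∑ _p ∈ A.offDiag ×ˢ Ds P Y, (q - 1) := by
          have h0 : A.card * (A.card - 1) = A.card * A.card - A.card := by
            rw [Nat.mul_sub, mul_one]
          rw [sum_const, card_product, offDiag_card, smul_eq_mul, h0]
      _ ≤ _ := by
          apply sum_le_sum
          rintro ⟨⟨x₁, x₂⟩, y⟩ hp
          rw [mem_product, mem_offDiag, hA, mem_sdiff] at hp
          have := hq x₁ hp.1.1.1 hp.1.1.2 y hp.2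
          have h2 := pred_card_le_card_erase (s := Ds P (insert y (Y.erase x₁))) (a := x₁)
          simp only
          omega
  set f : (Σ _ : (Fin n × Fin n) × Fin n, Fin n) → Finset (Fin n) :=
    fun p => insert p.2 ((insert p.1.2 (Y.erase p.1.1.1)).erase p.1.1.2) with hf
  have h2 : Q.card ≤ 4 * (Q.image f).card := by
    apply card_le_mul_card_image
    intro W hW
    have key : ∀ p ∈ Q, f p = W → p.1.1.1 ∈ Y \ W ∧ p.1.1.2 ∈ Y \ W ∧ p.1.1.1 ≠ p.1.1.2 ∧
        p.1.2 ∈ W \ Y ∧ p.2 ∈ W \ Y ∧ p.1.2 ≠ p.2 ∧ (∀ w ∈ Y \ W, w = p.1.1.1 ∨ w = p.1.1.2) ∧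
        (∀ w ∈ W \ Y, w = p.1.2 ∨ w = p.2) := by
      rintro ⟨⟨⟨x₁, x₂⟩, y⟩, z⟩ hp hfp
      rw [mQ] at hp
      simp only at hp
      obtain ⟨⟨⟨a1, a2⟩, ⟨a3, a4⟩, a5⟩, a6, a7, a8⟩ := hp
      have hyY := (mem_Ds.1 a6).1
      have hzZ := (mem_Ds.1 a8).1
      rw [mem_insert, mem_erase, not_or, not_and] at hzZ
      have hzY : z ∉ Y := fun h => hzZ.2 a7 h
      rw [← hfp, hf]
      simp only
      have mW : ∀ w, w ∈ insert z ((insert y (Y.erase x₁)).erase x₂) ↔
          w = z ∨ (w ≠ x₂ ∧ (w = y ∨ (w ≠ x₁ ∧ w ∈ Y))) := by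
        intro w
        rw [mem_insert, mem_erase, mem_insert, mem_erase]
      have e1 : y ≠ x₁ := fun h => hyY (h ▸ a1)
      have e2 : y ≠ x₂ := fun h => hyY (h ▸ a3)
      have e3 : z ≠ x₂ := fun h => hzY (h ▸ a3)
      refine ⟨mem_sdiff.2 ⟨a1, ?_⟩, mem_sdiff.2 ⟨a3, ?_⟩, a5, mem_sdiff.2 ⟨?_, hyY⟩,
        mem_sdiff.2 ⟨?_, hzY⟩, fun h => hzZ.1 h.symm, ?_, ?_⟩
      · rw [mW]
        rintro (h | ⟨_, h | h⟩)
        · exact a7 h.symm
        · exact e1 h.symm
        · exact h.1 rfl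
      · rw [mW]
        rintro (h | ⟨h, _⟩)
        · exact e3 h.symm
        · exact h rfl
      · rw [mW]
        exact Or.inr ⟨e2, Or.inl rfl⟩
      · rw [mW]
        exact Or.inl rfl
      · intro w hw
        rw [mem_sdiff, mW] at hw
        by_contra hcon
        push Not at hcon
        exact hw.2 (Or.inr ⟨hcon.2, Or.inr ⟨hcon.1, hw.1⟩⟩)
      · intro w hw
        rw [mem_sdiff, mW] at hw
        rcases hw.1 with h | ⟨_, h | h⟩
        · exact Or.inr h
        · exact Or.inl h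
        · exact absurd h.2 hw.2
    rw [mem_image] at hW
    obtain ⟨p₀, hp₀, hfp₀⟩ := hW
    obtain ⟨_, _, _, _, _, _, b7, b8⟩ := key p₀ hp₀ hfp₀
    have c1 : (Y \ W).card ≤ 2 := by
      refine (card_le_card (t := {p₀.1.1.1, p₀.1.1.2}) ?_).trans card_le_two
      intro w hw
      rw [mem_insert, mem_singleton]
      exact b7 w hw
    have c2 : (W \ Y).card ≤ 2 := by
      refine (card_le_card (t := {p₀.1.2, p₀.2}) ?_).trans card_le_two
      intro w hw
      rw [mem_insert, mem_singleton]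
      exact b8 w hw
    calc (Q.filter (fun p => f p = W)).card
        ≤ ((Y \ W).offDiag ×ˢ (W \ Y).offDiag).card := by
          apply card_le_card_of_injOn
            (fun p : (Σ _ : (Fin n × Fin n) × Fin n, Fin n) => (p.1.1, (p.1.2, p.2)))
          · intro p hp
            rw [mem_coe, mem_filter] at hp
            obtain ⟨b1, b2, b3, b4, b5, b6, _, _⟩ := key p hp.1 hp.2
            rw [mem_coe, mem_product, mem_offDiag, mem_offDiag]
            exact ⟨⟨b1, b2, b3⟩, b4, b5, b6⟩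
          · rintro ⟨⟨⟨x₁, x₂⟩, y⟩, z⟩ _ ⟨⟨⟨x₁', x₂'⟩, y'⟩, z'⟩ _ h
            simp only [Prod.mk.injEq] at h
            obtain ⟨⟨rfl, rfl⟩, rfl, rfl⟩ := h
            rfl
      _ ≤ 2 * 2 := by
          rw [card_product]
          exact Nat.mul_le_mul (card_offDiag_le_two c1) (card_offDiag_le_two c2)
      _ = 4 := rfl
  have h3 : (Q.image f).card ≤ (cell P r (Sum.inl (Cs P Y))).card := by
    apply card_le_card
    intro W hW
    rw [mem_image] at hW
    obtain ⟨⟨⟨⟨x₁, x₂⟩, y⟩, z⟩, hp, rfl⟩ := hW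
    rw [mQ] at hp
    simp only at hp
    obtain ⟨⟨⟨a1, a2⟩, ⟨a3, a4⟩, a5⟩, a6, a7, a8⟩ := hp
    have hyY := (mem_Ds.1 a6).1
    have s1 := Cs_swap hP hY a1 a2 a6
    have m2 : x₂ ∈ insert y (Y.erase x₁) := mem_insert_of_mem (mem_erase.2 ⟨fun h => a5 h.symm, a3⟩)
    have m3 : x₂ ∉ Cs P (insert y (Y.erase x₁)) := by rw [s1.2]; exact a4
    have s2 := Cs_swap hP s1.1 m2 m3 a8
    rw [hf]
    refine mem_cell_inl.2 ⟨⟨?_, s2.1⟩, by rw [s2.2, s1.2]⟩
    simp only
    rw [card_swap m2 (mem_Ds.1 a8).1, card_swap a1 hyY, hYr]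
  omega

/-- `C` is the circuit of a non-basis. -/
def CircP (P : Finset (Fin n) → Prop) (r : ℕ) (C : Finset (Fin n)) : Prop :=
  ∃ Z : Finset (Fin n), Z.card = r ∧ ¬ P Z ∧ (Cs P Z).Nonempty ∧ Cs P Z = C

/-- A circuit that differs from `Cs P Y` in one element arises from an element outside `Y` and
outside `Ds P Y`. -/
lemma nbr_form (hP : Exch P) (hr : ∀ X, P X → X.card = r) (hYr : Y.card = r) (hY : ¬ P Y)
    (hne : (Cs P Y).Nonempty) {x₀ : Fin n} (hx₀ : x₀ ∈ Y) (hx₀' : x₀ ∉ Cs P Y)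
    {c z : Fin n} (hz : z ∉ Cs P Y)
    (hC : CircP P r (insert z ((Cs P Y).erase c))) : z ∉ Y ∧ z ∉ Ds P Y := by
  obtain ⟨Z, hZr, hZ, hZne, hZC⟩ := hC
  have hneq : Cs P Y ≠ insert z ((Cs P Y).erase c) := by
    intro h
    exact hz (h ▸ mem_insert_self _ _)
  constructor
  · intro hzY
    apply hneq
    rw [← hZC]
    refine circ_unique hP hr hZr hZ hZne hYr hY hne ?_
    rw [hZC]
    intro w hw
    rw [mem_insert] at hw
    rcases hw with rfl | hw
    · exact hzY
    · exact Cs_subset (mem_of_mem_erase hw)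
  · intro hzD
    have s1 := Cs_swap hP hY hx₀ hx₀' hzD
    apply hneq
    rw [← hZC]
    refine s1.2.symm.trans ?_
    refine circ_unique hP hr hZr hZ hZne
      (by rw [card_swap hx₀ (mem_Ds.1 hzD).1, hYr]) s1.1 (by rw [s1.2]; exact hne) ?_
    rw [hZC]
    intro w hw
    rw [mem_insert] at hw ⊢
    rcases hw with rfl | hw
    · exact Or.inl rfl
    · exact Or.inr (mem_erase.2 ⟨fun h => hx₀' (h ▸ mem_of_mem_erase hw),
        Cs_subset (mem_of_mem_erase hw)⟩)

open Classical in
/-- The circuits with as many elements as `C` that differ from it in one element. -/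
noncomputable def nbrs (P : Finset (Fin n) → Prop) (r : ℕ) (C : Finset (Fin n)) :
    Finset (Finset (Fin n)) :=
  univ.filter (fun C' => C.card = C'.card ∧ (C \ C').card = 1 ∧ CircP P r C')

lemma mem_nbrs {C C' : Finset (Fin n)} :
    C' ∈ nbrs P r C ↔ C.card = C'.card ∧ (C \ C').card = 1 ∧ CircP P r C' := by
  classical
  simp only [nbrs, mem_filter, mem_univ, true_and]

/-- Few circuits differ from a given one in one element. -/
theorem nbr_count (hP : Exch P) (hr : ∀ X, P X → X.card = r) (hYr : Y.card = r) (hY : ¬ P Y)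
    (hne : (Cs P Y).Nonempty) (hlt : (Cs P Y).card < r) (hb : n - r - (Ds P Y).card ≠ 1) :
    (nbrs P r (Cs P Y)).card * ((Cs P Y).card - 1) ≤
      2 * (n - r - (Ds P Y).card) * (cell P r (Sum.inr (Ds P Y))).card := by
  classical
  set C := Cs P Y with hCdef
  set D := Ds P Y with hDdef
  obtain ⟨x₀, hx₀, hx₀'⟩ := exists_mem_notMem_of_card_lt_card (hYr ▸ hlt)
  set J := univ \ (Y ∪ D) with hJ
  have hJc : J.card = n - r - D.card := by
    rw [hJ, card_sdiff_of_subset (subset_univ _), card_univ, Fintype.card_fin,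
      card_union_of_disjoint disjoint_Ds, hYr, Nat.sub_sub]
  -- the form of a neighbour
  have form : ∀ C' ∈ nbrs P r C, ∃ c ∈ C, ∃ z ∈ J, z ∉ C ∧ C' = insert z (C.erase c) := by
    intro C' hC'
    rw [mem_nbrs] at hC'
    obtain ⟨h1, h2, h3⟩ := hC'
    have h4 : C ≠ C' := by
      intro h
      rw [← h, sdiff_self, bot_eq_empty, card_empty] at h2
      exact absurd h2 (by norm_num)
    obtain ⟨c, hc, z, hz, rfl⟩ := exists_swap h1 h4 (by omega)
    have := nbr_form hP hr hYr hY hne hx₀ hx₀' hz h3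
    refine ⟨c, hc, z, ?_, hz, rfl⟩
    rw [hJ, mem_sdiff, mem_union, not_or]
    exact ⟨mem_univ _, this⟩
  by_cases hb0 : n - r - D.card = 0
  · have : nbrs P r C = ∅ := by
      rw [eq_empty_iff_forall_notMem]
      intro C' hC'
      obtain ⟨c, _, z, hz, _⟩ := form C' hC'
      have : 0 < J.card := card_pos.2 ⟨z, hz⟩
      omega
    rw [this, card_empty, zero_mul]
    exact Nat.zero_le _
  have hJ2 : 2 ≤ J.card := by omega
  -- the neighbours through a given element
  have key : ∀ z ∈ J, ((nbrs P r C).filter (fun C' => z ∈ C')).card * (C.card - 1) ≤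
      2 * (cell P r (Sum.inr D)).card := by
    intro z hz
    have hzJ := hz
    rw [hJ, mem_sdiff, mem_union, not_or] at hz
    obtain ⟨_, hzY, hzD⟩ := hz
    have hzC : z ∉ C := fun h => hzY (Cs_subset h)
    obtain ⟨z₂, hz₂, hzz⟩ : ∃ z₂ ∈ J, z₂ ≠ z := by
      by_contra hcon
      push Not at hcon
      have : J.card ≤ 1 := card_le_one.2 (fun a ha b hb => (hcon a ha).trans (hcon b hb).symm)
      omega
    rw [hJ, mem_sdiff, mem_union, not_or] at hz₂
    obtain ⟨_, hz₂Y, hz₂D⟩ := hz₂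
    set N := (nbrs P r C).filter (fun C' => z ∈ C') with hN
    have form' : ∀ C' ∈ N, ∃ c ∈ C, C' = insert z (C.erase c) ∧
        (Y \ C) ∪ C' = insert z (Y.erase c) := by
      intro C' hC'
      rw [hN, mem_filter] at hC'
      obtain ⟨c, hc, z', hz', hz'C, rfl⟩ := form C' hC'.1
      have hzz' : z = z' := by
        have := hC'.2
        rw [mem_insert] at this
        rcases this with h | h
        · exact h
        · exact absurd (mem_of_mem_erase h) hzC
      subst hzz'
      refine ⟨c, hc, rfl, ?_⟩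
      ext w
      simp only [mem_union, mem_sdiff, mem_insert, mem_erase]
      constructor
      · rintro (⟨h1, h2⟩ | h | ⟨h1, h2⟩)
        · exact Or.inr ⟨fun h => h2 (h ▸ hc), h1⟩
        · exact Or.inl h
        · exact Or.inr ⟨h1, Cs_subset h2⟩
      · rintro (h | ⟨h1, h2⟩)
        · exact Or.inr (Or.inl h)
        · by_cases hwC : w ∈ C
          · exact Or.inr (Or.inr ⟨h1, hwC⟩)
          · exact Or.inl ⟨h2, hwC⟩
    set Q := N.sigma (fun C' => C'.erase z) with hQ
    have h1 : N.card * (C.card - 1) = Q.card := by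
      rw [hQ, card_sigma]
      symm
      calc ∑ C' ∈ N, (C'.erase z).card = ∑ _C' ∈ N, (C.card - 1) := by
            refine sum_congr rfl (fun C' hC' => ?_)
            have h2 := hC'
            rw [hN, mem_filter, mem_nbrs] at h2
            rw [card_erase_of_mem h2.2, h2.1.1]
        _ = N.card * (C.card - 1) := by rw [sum_const, smul_eq_mul]
    set f : (Σ _ : Finset (Fin n), Fin n) → Finset (Fin n) :=
      fun p => insert z₂ (((Y \ C) ∪ p.1).erase p.2) with hf
    -- the removed elements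
    have rem : ∀ p ∈ Q, ∃ c ∈ C, p.1 = insert z (C.erase c) ∧ p.2 ∈ C ∧ p.2 ≠ c ∧
        f p = insert z₂ ((insert z (Y.erase c)).erase p.2) ∧
        ∀ w, w ∈ Y \ f p ↔ w = c ∨ w = p.2 := by
      rintro ⟨C', u⟩ hp
      rw [hQ, mem_sigma] at hp
      simp only at hp
      obtain ⟨c, hc, h2, h3⟩ := form' C' hp.1
      have h4 := hp.2
      rw [h2, mem_erase, mem_insert, mem_erase] at h4
      obtain ⟨h5, h6 | ⟨h6, h7⟩⟩ := h4
      · exact absurd h6 h5
      have hfp : f ⟨C', u⟩ = insert z₂ ((insert z (Y.erase c)).erase u) := by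
        rw [hf]
        simp only
        rw [h3]
      refine ⟨c, hc, h2, h7, h6, hfp, ?_⟩
      intro w
      rw [hfp]
      simp only [mem_sdiff, mem_insert, mem_erase, not_or, not_and]
      constructor
      · rintro ⟨h8, h9, h10⟩
        by_cases hwu : w = u
        · exact Or.inr hwu
        · left
          by_contra hwc
          exact (h10 hwu).2 hwc h8
      · rintro (h | h)
        · rw [h]
          have hcY : c ∈ Y := Cs_subset hc
          exact ⟨hcY, fun h' => hz₂Y (h' ▸ hcY), fun _ => ⟨fun h' => hzY (h' ▸ hcY),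
            fun h' => absurd rfl h'⟩⟩
        · rw [h]
          have huY : u ∈ Y := Cs_subset h7
          exact ⟨huY, fun h' => hz₂Y (h' ▸ huY), fun h' => absurd rfl h'⟩
    have h2 : Q.card ≤ 2 * (Q.image f).card := by
      apply card_le_mul_card_image
      intro W hW
      rw [mem_image] at hW
      obtain ⟨p₀, hp₀, hfp₀⟩ := hW
      have c1 : (Y \ W).card ≤ 2 := by
        obtain ⟨c, _, _, _, _, _, h⟩ := rem p₀ hp₀
        refine (card_le_card (t := {c, p₀.2}) ?_).trans card_le_two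
        intro w hw
        rw [mem_insert, mem_singleton]
        rw [← hfp₀] at hw
        exact (h w).1 hw
      refine le_trans ?_ c1
      apply card_le_card_of_injOn (fun p : (Σ _ : Finset (Fin n), Fin n) => p.2)
      · intro p hp
        rw [mem_coe, mem_filter] at hp
        obtain ⟨c, _, _, _, _, _, h⟩ := rem p hp.1
        rw [mem_coe, ← hp.2]
        exact (h _).2 (Or.inr rfl)
      · rintro ⟨C₁, u₁⟩ hp₁ ⟨C₂, u₂⟩ hp₂ h
        rw [mem_coe, mem_filter] at hp₁ hp₂
        simp only at h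
        subst h
        obtain ⟨c, hc, e1, _, e3, _, h⟩ := rem _ hp₁.1
        obtain ⟨c', hc', e1', _, e3', _, h'⟩ := rem _ hp₂.1
        rw [hp₁.2] at h
        rw [hp₂.2] at h'
        simp only at e1 e1' e3 e3' h h'
        have hcc : c = c' := by
          rcases (h' c).1 ((h c).2 (Or.inl rfl)) with h8 | h8
          · exact h8
          · exact absurd h8.symm e3
        subst hcc
        rw [e1, e1']
    have h3 : (Q.image f).card ≤ (cell P r (Sum.inr D)).card := by
      apply card_le_card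
      intro W hW
      rw [mem_image] at hW
      obtain ⟨p, hp, rfl⟩ := hW
      have hp' := hp
      rw [hQ, mem_sigma] at hp'
      have hC' := hp'.1
      rw [hN, mem_filter, mem_nbrs] at hC'
      obtain ⟨Z, hZr, hZ, hZne, hZC⟩ := hC'.1.2.2
      obtain ⟨c, hc, e1, e2, e3, e4, _⟩ := rem p hp
      have hcY : c ∈ Y := Cs_subset hc
      have s1 := Ds_swap hP hY hc hzY hzD
      have s2 := (Ds_swap_aux hP hY hc hzY hzD).2
      have hXr : (insert z (Y.erase c)).card = r := by rw [card_swap hcY hzY, hYr]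
      have hCs : Cs P (insert z (Y.erase c)) = p.1 := by
        rw [← hZC]
        refine circ_unique hP hr hZr hZ hZne hXr s1.1 ⟨z, s2⟩ ?_
        rw [hZC, e1]
        intro w hw
        rw [mem_insert, mem_erase] at hw ⊢
        rcases hw with h | ⟨h, h'⟩
        · exact Or.inl h
        · exact Or.inr ⟨h, Cs_subset h'⟩
      have hu : p.2 ∈ Cs P (insert z (Y.erase c)) := by
        rw [hCs, e1]
        exact mem_insert_of_mem (mem_erase.2 ⟨e3, e2⟩)
      have n1 : z₂ ∉ insert z (Y.erase c) := by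
        rw [mem_insert]
        rintro (h | h)
        · exact hzz h
        · exact hz₂Y (mem_of_mem_erase h)
      have n2 : z₂ ∉ Ds P (insert z (Y.erase c)) := by
        rw [s1.2]
        exact hz₂D
      have s3 := Ds_swap hP s1.1 hu n1 n2
      rw [e4]
      refine mem_cell_inr.2 ⟨⟨?_, s3.1⟩, by rw [s3.2, s1.2]⟩
      rw [card_swap (Cs_subset hu) n1, hXr]
    omega
  have h1 : (nbrs P r C).card ≤ ∑ z ∈ J, ((nbrs P r C).filter (fun C' => z ∈ C')).card := by
    have : nbrs P r C ⊆ J.biUnion (fun z => (nbrs P r C).filter (fun C' => z ∈ C')) := by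
      intro C' hC'
      obtain ⟨c, _, z, hz, _, h⟩ := form C' hC'
      rw [mem_biUnion]
      exact ⟨z, hz, mem_filter.2 ⟨hC', by rw [h]; exact mem_insert_self _ _⟩⟩
    exact (card_le_card this).trans card_biUnion_le
  calc (nbrs P r C).card * (C.card - 1)
      ≤ (∑ z ∈ J, ((nbrs P r C).filter (fun C' => z ∈ C')).card) * (C.card - 1) :=
        Nat.mul_le_mul_right _ h1
    _ = ∑ z ∈ J, ((nbrs P r C).filter (fun C' => z ∈ C')).card * (C.card - 1) := by rw [sum_mul]
    _ ≤ ∑ _z ∈ J, 2 * (cell P r (Sum.inr D)).card := sum_le_sum key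
    _ = 2 * (n - r - D.card) * (cell P r (Sum.inr D)).card := by
        rw [sum_const, smul_eq_mul, hJc]
        ring

end Pool.Agent.Matroid6d
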