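import Pool.Agent.Matroid6d.Local

/-!
Encoding the non-bases that are not isolated by circuits and cocircuits.
-/

set_option autoImplicit false

namespace Pool.Agent.Matroid6d

open Finset

variable {n : ℕ}

/-- A descriptor: a set to be contained in the non-basis, or a set to be avoided by it. -/
abbrev Desc (n : ℕ) := Finset (Fin n) ⊕ Finset (Fin n)

open Classical in
/-- The non-bases of size `r`. -/
noncomputable def Nb (P : Finset (Fin n) → Prop) (r : ℕ) : Finset (Finset (Fin n)) :=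
  (powersetCard r univ).filter (fun X => ¬ P X)

open Classical in
/-- The non-bases of size `r` that have a neighbouring non-basis. -/
noncomputable def Us (P : Finset (Fin n) → Prop) (r : ℕ) : Finset (Finset (Fin n)) :=
  (Nb P r).filter (fun X => ∃ x ∈ X, ∃ y, y ∉ X ∧ ¬ P (insert y (X.erase x)))

open Classical in
/-- The isolated non-bases of size `r`. -/
noncomputable def Ws (P : Finset (Fin n) → Prop) (r : ℕ) : Finset (Finset (Fin n)) :=
  (Nb P r).filter (fun X => ∀ x ∈ X, ∀ y, y ∉ X → P (insert y (X.erase x)))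

/-- The descriptor `d` covers `X`. -/
def covers (X : Finset (Fin n)) : Desc n → Prop
  | Sum.inl C => C ⊆ X
  | Sum.inr D => Disjoint X D

open Classical in
/-- The non-bases with a given circuit, or a given cocircuit. -/
noncomputable def cell (P : Finset (Fin n) → Prop) (r : ℕ) : Desc n → Finset (Finset (Fin n))
  | Sum.inl C => (Nb P r).filter (fun X => Cs P X = C)
  | Sum.inr D => (Nb P r).filter (fun X => Ds P X = D)

/-- Circuits with fewer than `r` elements, and the dual notion. -/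
def proper (r : ℕ) : Desc n → Prop
  | Sum.inl C => C.Nonempty ∧ C.card < r
  | Sum.inr D => D.Nonempty ∧ D.card + r < n

/-- Descriptors close to the middle. -/
def light (r K : ℕ) : Desc n → Prop
  | Sum.inl C => r ≤ C.card + 2 * K
  | Sum.inr D => n ≤ r + D.card + 2 * K

/-- Small cocircuits. -/
def tiny (K : ℕ) : Desc n → Prop
  | Sum.inl _ => False
  | Sum.inr D => D.card < 2 * K

/-- Disjointness of a circuit and a cocircuit, as a symmetric relation. -/
def rel : Desc n → Desc n → Prop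
  | Sum.inl C, Sum.inr D => Disjoint C D
  | Sum.inr D, Sum.inl C => Disjoint C D
  | Sum.inl _, Sum.inl _ => False
  | Sum.inr _, Sum.inr _ => False

/-- The two sets cover all but `4 K` elements. -/
def near (K : ℕ) : Desc n → Desc n → Prop
  | Sum.inl C, Sum.inr D => n ≤ C.card + D.card + 4 * K
  | Sum.inr D, Sum.inl C => n ≤ C.card + D.card + 4 * K
  | Sum.inl _, Sum.inl _ => False
  | Sum.inr _, Sum.inr _ => False

variable {P : Finset (Fin n) → Prop} {X : Finset (Fin n)} {r : ℕ}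

lemma mem_Nb : X ∈ Nb P r ↔ X.card = r ∧ ¬ P X := by
  classical
  unfold Nb
  simp only [mem_filter, mem_powersetCard, subset_univ, true_and]

lemma mem_Us : X ∈ Us P r ↔ (X.card = r ∧ ¬ P X) ∧
    ∃ x ∈ X, ∃ y, y ∉ X ∧ ¬ P (insert y (X.erase x)) := by
  classical
  unfold Us
  simp only [mem_filter, mem_Nb]

lemma mem_Ws : X ∈ Ws P r ↔ (X.card = r ∧ ¬ P X) ∧
    ∀ x ∈ X, ∀ y, y ∉ X → P (insert y (X.erase x)) := by
  classical
  unfold Ws
  simp only [mem_filter, mem_Nb]

lemma mem_cell_inl {C : Finset (Fin n)} :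
    X ∈ cell P r (Sum.inl C) ↔ (X.card = r ∧ ¬ P X) ∧ Cs P X = C := by
  classical
  simp only [cell, mem_filter, mem_Nb]

lemma mem_cell_inr {D : Finset (Fin n)} :
    X ∈ cell P r (Sum.inr D) ↔ (X.card = r ∧ ¬ P X) ∧ Ds P X = D := by
  classical
  simp only [cell, mem_filter, mem_Nb]

lemma exists_notMem_union {X D : Finset (Fin n)} (h : D.card + X.card < n) :
    ∃ y, y ∉ X ∧ y ∉ D := by
  have h1 : (X ∪ D).card < (univ : Finset (Fin n)).card := by
    rw [card_univ, Fintype.card_fin]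
    have := card_union_le X D
    omega
  obtain ⟨y, _, hy⟩ := exists_mem_notMem_of_card_lt_card h1
  rw [mem_union, not_or] at hy
  exact ⟨y, hy⟩

lemma cell_subset {d : Desc n} (hd : proper r d) : cell P r d ⊆ Us P r := by
  intro X hX
  rcases d with C | D
  · rw [mem_cell_inl] at hX
    obtain ⟨hX, rfl⟩ := hX
    obtain ⟨⟨x₀, hx₀⟩, hlt⟩ := hd
    obtain ⟨_, y, hy, _⟩ := mem_Cs.1 hx₀
    obtain ⟨x, hx, hxC⟩ := exists_mem_notMem_of_card_lt_card (hX.1 ▸ hlt)
    exact mem_Us.2 ⟨hX, x, hx, y, hy, fun h => hxC (mem_Cs.2 ⟨hx, y, hy, h⟩)⟩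
  · rw [mem_cell_inr] at hX
    obtain ⟨hX, rfl⟩ := hX
    obtain ⟨⟨y₀, hy₀⟩, hlt⟩ := hd
    obtain ⟨_, x, hx, _⟩ := mem_Ds.1 hy₀
    obtain ⟨y, hy, hyD⟩ := exists_notMem_union (X := X) (D := Ds P X) (by rw [hX.1]; exact hlt)
    exact mem_Us.2 ⟨hX, x, hx, y, hy, fun h => hyD (mem_Ds.2 ⟨hy, x, hx, h⟩)⟩

/-- What a used descriptor covers is a non-isolated non-basis. -/
lemma mem_of_covers (hP : Exch P) (hr : ∀ X, P X → X.card = r) {d : Desc n} (hd : proper r d)
    (hc : (cell P r d).Nonempty) (hX : X.card = r) (hcov : covers X d) : X ∈ Us P r := by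
  obtain ⟨Y, hY⟩ := hc
  rcases d with C | D
  · rw [mem_cell_inl] at hY
    obtain ⟨⟨hYr, hYP⟩, rfl⟩ := hY
    obtain ⟨hne, hlt⟩ := hd
    have hno : ∀ Z, Cs P Y ⊆ Z → ¬ P Z := fun Z hZ => not_of_Cs_subset hP hr hYr hYP hne hZ
    change Cs P Y ⊆ X at hcov
    obtain ⟨x₀, hx₀⟩ := hne
    obtain ⟨_, y₀, hy₀, _⟩ := mem_Cs.1 hx₀
    have hlt' : Y.card < n := by
      have hYu : Y ≠ univ := by
        rintro rfl
        exact hy₀ (mem_univ y₀)
      have := card_lt_card (ssubset_univ_iff.2 hYu)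
      rwa [card_univ, Fintype.card_fin] at this
    obtain ⟨y, hy, _⟩ := exists_notMem_union (X := X) (D := ∅) (by rw [card_empty]; omega)
    obtain ⟨x, hx, hxC⟩ := exists_mem_notMem_of_card_lt_card (hX ▸ hlt)
    refine mem_Us.2 ⟨⟨hX, hno X hcov⟩, x, hx, y, hy, hno _ ?_⟩
    intro z hz
    exact mem_insert_of_mem (mem_erase.2 ⟨fun h => hxC (h ▸ hz), hcov hz⟩)
  · rw [mem_cell_inr] at hY
    obtain ⟨⟨hYr, hYP⟩, rfl⟩ := hY
    obtain ⟨hne, hlt⟩ := hd
    have hno : ∀ Z, Disjoint Z (Ds P Y) → ¬ P Z :=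
      fun Z hZ => not_of_disjoint_Ds hP hYP (Ds_nonempty_iff.1 hne) hZ
    change Disjoint X (Ds P Y) at hcov
    obtain ⟨y₀, hy₀⟩ := hne
    obtain ⟨_, x₀, hx₀, _⟩ := mem_Ds.1 hy₀
    have hpos : 0 < Y.card := card_pos.2 ⟨x₀, hx₀⟩
    obtain ⟨x, hx⟩ : X.Nonempty := by rw [← card_pos]; omega
    obtain ⟨y, hy, hyD⟩ := exists_notMem_union (X := X) (D := Ds P Y) (by rw [hX]; exact hlt)
    refine mem_Us.2 ⟨⟨hX, hno X hcov⟩, x, hx, y, hy, hno _ ?_⟩
    rw [disjoint_left] at hcov ⊢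
    intro z hz
    rw [mem_insert] at hz
    rcases hz with rfl | hz
    · exact hyD
    · exact hcov (mem_of_mem_erase hz)

lemma card_image_swap (X S T : Finset (Fin n)) (hS : S ⊆ X) (hT : Disjoint X T) :
    S.card * T.card + 1 ≤
      (insert X ((S ×ˢ T).image (fun p => insert p.2 (X.erase p.1)))).card := by
  rw [card_insert_of_notMem, card_image_of_injOn, card_product]
  · rintro ⟨a, b⟩ hp ⟨c, d⟩ hq h
    rw [mem_coe, mem_product] at hp hq
    have haX := hS hp.1
    have hcX := hS hq.1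
    have hbX : b ∉ X := fun h => disjoint_left.1 hT h hp.2
    have hdX : d ∉ X := fun h => disjoint_left.1 hT h hq.2
    simp only at h
    have h1 : b = d := by
      have : b ∈ insert d (X.erase c) := h ▸ mem_insert_self _ _
      rw [mem_insert] at this
      rcases this with h | h
      · exact h
      · exact absurd (mem_of_mem_erase h) hbX
    have h2 : a = c := by
      by_contra hne
      have : a ∈ insert d (X.erase c) := mem_insert_of_mem (mem_erase.2 ⟨hne, haX⟩)
      rw [← h] at this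
      exact notMem_swap haX hbX this
    rw [h1, h2]
  · intro h
    rw [mem_image] at h
    obtain ⟨⟨a, b⟩, hp, h⟩ := h
    rw [mem_product] at hp
    have hbX : b ∉ X := fun h => disjoint_left.1 hT h hp.2
    apply hbX
    simp only at h
    rw [← h]
    exact mem_insert_self _ _

lemma deg_inl (hP : Exch P) (hX : X.card = r) (hnP : ¬ P X) :
    (r - (Cs P X).card) * (Ds P X).card + 1 ≤ (cell P r (Sum.inl (Cs P X))).card := by
  have h1 := card_image_swap X (X \ Cs P X) (Ds P X) sdiff_subset disjoint_Ds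
  rw [card_sdiff_of_subset Cs_subset, hX] at h1
  refine h1.trans (card_le_card ?_)
  intro Z hZ
  rw [mem_insert, mem_image] at hZ
  rcases hZ with rfl | ⟨⟨x, y⟩, hp, rfl⟩
  · exact mem_cell_inl.2 ⟨⟨hX, hnP⟩, rfl⟩
  · rw [mem_product, mem_sdiff] at hp
    obtain ⟨⟨hx, hxC⟩, hy⟩ := hp
    have h2 := Cs_swap hP hnP hx hxC hy
    exact mem_cell_inl.2 ⟨⟨by rw [card_swap hx (mem_Ds.1 hy).1, hX], h2.1⟩, h2.2⟩

lemma deg_inr (hP : Exch P) (hX : X.card = r) (hnP : ¬ P X) :
    (Cs P X).card * (n - r - (Ds P X).card) + 1 ≤ (cell P r (Sum.inr (Ds P X))).card := by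
  have h1 := card_image_swap X (Cs P X) ((univ \ X) \ Ds P X) Cs_subset
    (disjoint_left.2 (fun a ha h => (mem_sdiff.1 (mem_sdiff.1 h).1).2 ha))
  rw [card_sdiff_of_subset (fun y hy => mem_sdiff.2 ⟨mem_univ _, (mem_Ds.1 hy).1⟩),
    card_sdiff_of_subset (subset_univ _), card_univ, Fintype.card_fin, hX] at h1
  refine h1.trans (card_le_card ?_)
  intro Z hZ
  rw [mem_insert, mem_image] at hZ
  rcases hZ with rfl | ⟨⟨x, y⟩, hp, rfl⟩
  · exact mem_cell_inr.2 ⟨⟨hX, hnP⟩, rfl⟩
  · rw [mem_product, mem_sdiff, mem_sdiff] at hp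
    obtain ⟨hx, ⟨_, hy⟩, hyD⟩ := hp
    have h2 := Ds_swap hP hnP hx hy hyD
    exact mem_cell_inr.2 ⟨⟨by rw [card_swap (mem_Cs.1 hx).1 hy, hX], h2.1⟩, h2.2⟩

/-- Every non-isolated non-basis lies between a circuit and a hyperplane, not both of the middle
size. -/
lemma exists_pair (hP : Exch P) (hr : ∀ X, P X → X.card = r) (hne : ∃ B, P B)
    (hX : X ∈ Us P r) :
    ∃ Y, Y.card = r ∧ ¬ P Y ∧ (Cs P Y).Nonempty ∧ Cs P Y ⊆ X ∧ Disjoint X (Ds P Y) ∧
      ((Cs P Y).card < r ∨ (Ds P Y).card + r < n) := by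
  rw [mem_Us] at hX
  obtain ⟨⟨hXr, hXP⟩, x, hx, y, hy, hxy⟩ := hX
  by_cases hC : (Cs P X).Nonempty
  · refine ⟨X, hXr, hXP, hC, Cs_subset, disjoint_Ds, ?_⟩
    by_contra hcon
    push Not at hcon
    apply hxy
    apply swap_basis hP hXP
    · rw [eq_of_subset_of_card_le Cs_subset (by omega : X.card ≤ (Cs P X).card)]
      exact hx
    · by_contra hyD
      have h1 : (X ∪ Ds P X).card = X.card + (Ds P X).card :=
        card_union_of_disjoint disjoint_Ds
      have h2 : insert y (X ∪ Ds P X) ⊆ univ := subset_univ _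
      have h3 := card_le_card h2
      rw [card_insert_of_notMem (by rw [mem_union, not_or]; exact ⟨hy, hyD⟩), card_univ,
        Fintype.card_fin] at h3
      omega
  · rw [not_nonempty_iff_eq_empty] at hC
    obtain ⟨Y, h1, h2, h3, h4, h5, h6⟩ := deep hP hr hne hXr hXP hC
    exact ⟨Y, h1, h2, h3, h4, h5, Or.inl h6⟩

lemma arith_cases (a b c d m K u v r n : ℕ) (ha : r = c + a) (hb : n = r + d + b) (hc : 0 < c)
    (hm : 4 * K ≤ m) (hmr : m ≤ r) (hmr' : m + r ≤ n) (d1 : a * d + 1 ≤ u)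
    (d2 : c * b + 1 ≤ v) (hor : 0 < a ∨ 0 < b) :
    (0 < a ∧ ((r ≤ c + 2 * K ∧ m ≤ u + 2 * K) ∨ K * m ≤ u)) ∨
      (0 < b ∧ ((n ≤ r + d + 2 * K ∧ m ≤ v + 2 * K) ∨ K * m ≤ v ∨ (d < 2 * K ∧ m ≤ 2 * v))) := by
  by_cases ha2 : 2 * K < a
  · by_cases hb2 : 2 * b ≤ d + b
    · left
      refine ⟨by omega, Or.inr ?_⟩
      have h1 : m ≤ 2 * d := by omega
      have h2 : 2 * K * m ≤ a * (2 * d) := Nat.mul_le_mul ha2.le h1
      have h3 : a * (2 * d) = 2 * (a * d) := by ring
      have h4 : 2 * K * m = 2 * (K * m) := by ring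
      omega
    · by_cases ha3 : 2 * a ≤ c + a
      · right
        refine ⟨by omega, Or.inr (Or.inl ?_)⟩
        have h1 : m ≤ 2 * c := by omega
        have h2 : 4 * K ≤ 2 * b := by omega
        have h3 : 4 * K * m ≤ 2 * b * (2 * c) := Nat.mul_le_mul h2 h1
        have h4 : 2 * b * (2 * c) = 4 * (c * b) := by ring
        have h5 : 4 * K * m = 4 * (K * m) := by ring
        omega
      · by_cases hd2 : 2 * K ≤ d
        · left
          refine ⟨by omega, Or.inr ?_⟩
          have h1 : m ≤ 2 * a := by omega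
          have h2 : 2 * K * m ≤ d * (2 * a) := Nat.mul_le_mul hd2 h1
          have h3 : d * (2 * a) = 2 * (a * d) := by ring
          have h4 : 2 * K * m = 2 * (K * m) := by ring
          omega
        · right
          refine ⟨by omega, Or.inr (Or.inr ⟨by omega, ?_⟩)⟩
          have h1 : 1 * b ≤ c * b := Nat.mul_le_mul_right _ hc
          omega
  · by_cases hb2 : 2 * K < b
    · right
      refine ⟨by omega, Or.inr (Or.inl ?_)⟩
      have h1 : m ≤ 2 * c := by omega
      have h2 : m * (2 * K) ≤ 2 * c * b := Nat.mul_le_mul h1 hb2.le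
      have h3 : m * (2 * K) = 2 * (K * m) := by ring
      have h4 : 2 * c * b = 2 * (c * b) := by ring
      omega
    · by_cases ha0 : a = 0
      · right
        refine ⟨by omega, Or.inl ⟨by omega, ?_⟩⟩
        have h1 : c * 1 ≤ c * b := Nat.mul_le_mul_left _ (by omega)
        omega
      · left
        refine ⟨by omega, Or.inl ⟨by omega, ?_⟩⟩
        have h1 : 1 * d ≤ a * d := Nat.mul_le_mul_right _ (by omega)
        omega

/-- Every non-isolated non-basis is covered by a descriptor of one of three kinds. -/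
lemma exists_desc (hP : Exch P) (hr : ∀ X, P X → X.card = r) (hne : ∃ B, P B)
    (K m : ℕ) (hm : 4 * K ≤ m) (hmr : m ≤ r) (hmr' : m + r ≤ n)
    (hX : X ∈ Us P r) :
    ∃ d : Desc n, covers X d ∧ proper r d ∧
      ((light r K d ∧ m ≤ (cell P r d).card + 2 * K) ∨ K * m ≤ (cell P r d).card ∨
        (tiny K d ∧ m ≤ 2 * (cell P r d).card)) := by
  obtain ⟨Y, hYr, hYP, hC, hCX, hDX, hor⟩ := exists_pair hP hr hne hX
  have hD := Ds_nonempty_iff.2 hC
  have d1 := deg_inl hP hYr hYP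
  have d2 := deg_inr hP hYr hYP
  have hc1 : 0 < (Cs P Y).card := card_pos.2 hC
  have hcr : (Cs P Y).card ≤ r := hYr ▸ card_le_card Cs_subset
  have hdr : (Ds P Y).card + r ≤ n := by
    have h1 : (Y ∪ Ds P Y).card = Y.card + (Ds P Y).card := card_union_of_disjoint disjoint_Ds
    have h2 := card_le_univ (Y ∪ Ds P Y)
    rw [Fintype.card_fin] at h2
    omega
  have key := arith_cases (r - (Cs P Y).card) (n - r - (Ds P Y).card) (Cs P Y).card
    (Ds P Y).card m K _ _ r n (by omega) (by omega) hc1 hm hmr hmr' d1 d2 (by omega)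
  rcases key with ⟨h1, h2⟩ | ⟨h1, h2⟩
  · refine ⟨Sum.inl (Cs P Y), hCX, ⟨hC, by omega⟩, ?_⟩
    rcases h2 with h | h
    · exact Or.inl h
    · exact Or.inr (Or.inl h)
  · exact ⟨Sum.inr (Ds P Y), hDX, ⟨hD, by omega⟩, h2⟩

end Pool.Agent.Matroid6d
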