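import Pool.Agent.Matroid6d.Encode
import Pool.Agent.Matroid6d.Count

/-!
Duality for families with the exchange property, and the descriptors present in a union of
components of the graph on the non-bases.
-/

set_option autoImplicit false

namespace Pool.Agent.Matroid6d

open Finset

variable {n : ℕ}

/-- The complementary family. -/
def Pd (P : Finset (Fin n) → Prop) : Finset (Fin n) → Prop := fun X => P Xᶜ

/-- The family of complements. -/
def Kc (K : Finset (Finset (Fin n))) : Finset (Finset (Fin n)) := K.image (fun X => Xᶜ)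

variable {P : Finset (Fin n) → Prop} {K : Finset (Finset (Fin n))} {X Y : Finset (Fin n)}
  {x y : Fin n} {r : ℕ}

lemma mem_Kc : X ∈ Kc K ↔ Xᶜ ∈ K := by
  unfold Kc
  rw [mem_image]
  constructor
  · rintro ⟨Y, hY, rfl⟩
    rwa [compl_compl]
  · intro h
    exact ⟨Xᶜ, h, compl_compl X⟩

lemma Pd_Pd : Pd (Pd P) = P := by
  funext X
  unfold Pd
  rw [compl_compl]

lemma Kc_Kc : Kc (Kc K) = K := by
  ext X
  rw [mem_Kc, mem_Kc, compl_compl]

lemma card_Kc : (Kc K).card = K.card :=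
  card_image_of_injective _ compl_injective

lemma card_compl' (X : Finset (Fin n)) : Xᶜ.card = n - X.card := by
  rw [card_compl, Fintype.card_fin]

lemma card_le_n (X : Finset (Fin n)) : X.card ≤ n := by
  simpa using card_le_univ X

lemma compl_swap (hx : x ∈ X) (hy : y ∉ X) :
    (insert y (X.erase x))ᶜ = insert x (Xᶜ.erase y) := by
  ext z
  simp only [mem_compl, mem_insert, mem_erase, not_or, not_and]
  constructor
  · rintro ⟨h1, h2⟩
    by_cases hz : z = x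
    · exact Or.inl hz
    · exact Or.inr ⟨h1, fun h => h2 hz h⟩
  · rintro (h | ⟨h1, h2⟩)
    · subst h
      exact ⟨fun h => hy (h ▸ hx), fun h _ => h rfl⟩
    · exact ⟨h1, fun _ h => h2 h⟩

lemma exch_Pd (hP : Exch P) (hne : ∃ B, P B) : Exch (Pd P) := by
  have h : Bs (mkMat P hP hne)✶ = Pd P := by
    funext X
    apply propext
    unfold Pd
    rw [← mkMat_bs P hP hne Xᶜ]
    unfold Bs
    rw [Matroid.dual_isBase_iff (by rw [mkMat_E]; exact Set.subset_univ _), mkMat_E, coe_compl,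
      Set.compl_eq_univ_sdiff]
  rw [← h]
  exact exch_bs _

lemma rank_Pd (hr : ∀ X, P X → X.card = r) : ∀ X, Pd P X → X.card = n - r := by
  intro X hX
  have h1 := hr _ hX
  have h2 := card_le_n X
  rw [card_compl'] at h1
  omega

lemma ne_Pd (hne : ∃ B, P B) : ∃ B, Pd P B := by
  obtain ⟨B, hB⟩ := hne
  refine ⟨Bᶜ, ?_⟩
  unfold Pd
  rwa [compl_compl]

lemma Cs_Pd (P : Finset (Fin n) → Prop) (X : Finset (Fin n)) : Cs (Pd P) Xᶜ = Ds P X := by
  ext z
  rw [mem_Cs, mem_Ds, mem_compl]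
  constructor
  · rintro ⟨hz, w, hw, h⟩
    rw [mem_compl, not_not] at hw
    refine ⟨hz, w, hw, ?_⟩
    unfold Pd at h
    rw [compl_swap (mem_compl.2 hz) (by rw [mem_compl, not_not]; exact hw), compl_compl] at h
    exact h
  · rintro ⟨hz, w, hw, h⟩
    refine ⟨hz, w, by rw [mem_compl, not_not]; exact hw, ?_⟩
    unfold Pd
    rw [compl_swap (mem_compl.2 hz) (by rw [mem_compl, not_not]; exact hw), compl_compl]
    exact h

lemma Ds_Pd (P : Finset (Fin n) → Prop) (X : Finset (Fin n)) : Ds (Pd P) Xᶜ = Cs P X := by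
  have h := Cs_Pd (Pd P) Xᶜ
  rw [compl_compl, Pd_Pd] at h
  exact h.symm

lemma Cs_Pd' (P : Finset (Fin n) → Prop) (X : Finset (Fin n)) : Cs (Pd P) X = Ds P Xᶜ := by
  have h := Cs_Pd P Xᶜ
  rwa [compl_compl] at h

lemma Ds_Pd' (P : Finset (Fin n) → Prop) (X : Finset (Fin n)) : Ds (Pd P) X = Cs P Xᶜ := by
  have h := Ds_Pd P Xᶜ
  rwa [compl_compl] at h

lemma closed_Pd (hK : Closed P K) : Closed (Pd P) (Kc K) := by
  constructor
  · intro X hX h
    exact hK.1 _ (mem_Kc.1 hX) h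
  · intro X hX a ha b hb h
    rw [mem_Kc] at hX ⊢
    unfold Pd at h
    rw [compl_swap ha hb] at h ⊢
    exact hK.2 _ hX b (mem_compl.2 hb) a (by rw [mem_compl, not_not]; exact ha) h

lemma Us_Pd (hX : X ∈ Us P r) : Xᶜ ∈ Us (Pd P) (n - r) := by
  rw [mem_Us] at hX ⊢
  obtain ⟨⟨h1, h2⟩, x, hx, y, hy, h3⟩ := hX
  refine ⟨⟨by rw [card_compl', h1], ?_⟩, y, mem_compl.2 hy, x, ?_, ?_⟩
  · unfold Pd
    rwa [compl_compl]
  · rw [mem_compl, not_not]
    exact hx
  · unfold Pd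
    rw [compl_swap (mem_compl.2 hy) (by rw [mem_compl, not_not]; exact hx), compl_compl]
    exact h3

/-- The defect of a descriptor. -/
def df (r : ℕ) : Desc n → ℕ
  | Sum.inl C => r - C.card
  | Sum.inr D => n - r - D.card

/-- The descriptors of the members of `K`. -/
def Present (P : Finset (Fin n) → Prop) (K : Finset (Finset (Fin n))) : Desc n → Prop
  | Sum.inl C => ∃ Y ∈ K, (Cs P Y).Nonempty ∧ Cs P Y = C
  | Sum.inr D => ∃ Y ∈ K, (Cs P Y).Nonempty ∧ Ds P Y = D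

lemma present_swap (d : Desc n) : Present (Pd P) (Kc K) d.swap ↔ Present P K d := by
  rcases d with C | D
  · constructor
    · rintro ⟨Y, hY, h1, h2⟩
      rw [Cs_Pd'] at h1
      rw [Ds_Pd'] at h2
      exact ⟨Yᶜ, mem_Kc.1 hY, Ds_nonempty_iff.1 h1, h2⟩
    · rintro ⟨Y, hY, h1, h2⟩
      refine ⟨Yᶜ, mem_Kc.2 (by rwa [compl_compl]), ?_, ?_⟩
      · rw [Cs_Pd]
        exact Ds_nonempty_iff.2 h1
      · rw [Ds_Pd]
        exact h2
  · constructor
    · rintro ⟨Y, hY, h1, h2⟩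
      rw [Cs_Pd'] at h1 h2
      exact ⟨Yᶜ, mem_Kc.1 hY, Ds_nonempty_iff.1 h1, h2⟩
    · rintro ⟨Y, hY, h1, h2⟩
      refine ⟨Yᶜ, mem_Kc.2 (by rwa [compl_compl]), ?_, ?_⟩
      · rw [Cs_Pd]
        exact Ds_nonempty_iff.2 h1
      · rw [Cs_Pd]
        exact h2

lemma df_swap (hrn : r ≤ n) (d : Desc n) : df (n - r) d.swap = df r d := by
  rcases d with C | D
  · show n - (n - r) - C.card = r - C.card
    omega
  · rfl

lemma mem_cell_swap (hrn : r ≤ n) (d : Desc n) :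
    X ∈ cell (Pd P) (n - r) d.swap ↔ Xᶜ ∈ cell P r d := by
  have hX := card_le_n X
  have hX' := card_compl' X
  rcases d with C | D
  · show X ∈ cell (Pd P) (n - r) (Sum.inr C) ↔ _
    rw [mem_cell_inr, mem_cell_inl, Ds_Pd']
    unfold Pd
    constructor
    · rintro ⟨⟨h1, h2⟩, h3⟩
      exact ⟨⟨by omega, h2⟩, h3⟩
    · rintro ⟨⟨h1, h2⟩, h3⟩
      exact ⟨⟨by omega, h2⟩, h3⟩
  · show X ∈ cell (Pd P) (n - r) (Sum.inl D) ↔ _
    rw [mem_cell_inr, mem_cell_inl, Cs_Pd']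
    unfold Pd
    constructor
    · rintro ⟨⟨h1, h2⟩, h3⟩
      exact ⟨⟨by omega, h2⟩, h3⟩
    · rintro ⟨⟨h1, h2⟩, h3⟩
      exact ⟨⟨by omega, h2⟩, h3⟩

lemma card_cell_swap (hrn : r ≤ n) (d : Desc n) :
    (cell (Pd P) (n - r) d.swap).card = (cell P r d).card := by
  rw [← card_Kc (K := cell P r d)]
  congr 1
  ext X
  rw [mem_cell_swap hrn, mem_Kc]

/-- Walking inside a family of non-bases. -/
lemma walk2 (hK : Closed P K) (W : Finset (Fin n) → Prop) (hWP : ∀ X, W X → ¬ P X)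
    (Y : Finset (Fin n)) (hW : ∀ X, W X → ∀ a ∈ X, a ∉ Y → ∀ b ∈ Y, b ∉ X →
      W (insert b (X.erase a))) :
    ∀ (k : ℕ) (X : Finset (Fin n)), W X → X.card = Y.card → X ∈ K → (X \ Y).card = k →
      Y ∈ K := by
  intro k
  induction k with
  | zero =>
    intro X _ hXr hXK h0
    have h1 : X ⊆ Y := by
      rw [card_eq_zero, sdiff_eq_empty_iff_subset] at h0
      exact h0
    have : X = Y := eq_of_subset_of_card_le h1 (by omega)
    rw [← this]; exact hXK
  | succ k ih =>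
    intro X hXW hXr hXK hk
    have hne : (X \ Y).Nonempty := by rw [← card_pos]; omega
    obtain ⟨a, ha⟩ := hne
    have hne2 : (Y \ X).Nonempty := by
      rw [← card_pos, ← card_sdiff_comm' (X := X) (Y := Y) hXr]; omega
    obtain ⟨b, hb⟩ := hne2
    rw [mem_sdiff] at ha hb
    have hW' := hW X hXW a ha.1 ha.2 b hb.1 hb.2
    have hmem : insert b (X.erase a) ∈ K := hK.2 X hXK a ha.1 b hb.2 (hWP _ hW')
    refine ih (insert b (X.erase a)) hW' (by rw [card_swap ha.1 hb.2, hXr]) hmem ?_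
    have heq : insert b (X.erase a) \ Y = (X \ Y).erase a := by
      ext z
      simp only [mem_sdiff, mem_insert, mem_erase]
      constructor
      · rintro ⟨rfl | ⟨h1, h2⟩, h3⟩
        · exact absurd hb.1 h3
        · exact ⟨h1, h2, h3⟩
      · rintro ⟨h1, h2, h3⟩
        exact ⟨Or.inr ⟨h1, h2⟩, h3⟩
    rw [heq, card_erase_of_mem (mem_sdiff.2 ha), hk]
    rfl

/-- What a present descriptor covers belongs to `K`. -/
lemma mem_of_present (hP : Exch P) (hr : ∀ X, P X → X.card = r) (hK : Closed P K)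
    (hKr : ∀ X ∈ K, X.card = r) {d : Desc n} (hd : Present P K d) (hX : X.card = r)
    (hcov : covers X d) : X ∈ K := by
  rcases d with C | D
  · obtain ⟨Y, hY, hne, rfl⟩ := hd
    refine walk2 hK (fun Z => Cs P Y ⊆ Z)
      (fun Z hZ => not_of_Cs_subset hP hr (hKr Y hY) (hK.1 Y hY) hne hZ) X ?_ _ Y Cs_subset
      (by rw [hKr Y hY, hX]) hY rfl
    intro Z hZ a _ haX b _ _ w hw
    exact mem_insert_of_mem (mem_erase.2 ⟨fun h => haX (h ▸ hcov hw), hZ hw⟩)
  · obtain ⟨Y, hY, hne, rfl⟩ := hd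
    refine walk2 hK (fun Z => Disjoint Z (Ds P Y))
      (fun Z hZ => not_of_disjoint_Ds hP (hK.1 Y hY) hne hZ) X ?_ _ Y disjoint_Ds
      (by rw [hKr Y hY, hX]) hY rfl
    intro Z hZ a _ _ b hbX _
    change Disjoint X (Ds P Y) at hcov
    rw [disjoint_left] at hZ hcov ⊢
    intro w hw
    rw [mem_insert] at hw
    rcases hw with rfl | hw
    · exact hcov hbX
    · exact hZ (mem_of_mem_erase hw)

lemma cell_subset_K (hP : Exch P) (hr : ∀ X, P X → X.card = r) (hK : Closed P K)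
    (hKr : ∀ X ∈ K, X.card = r) {d : Desc n} (hd : Present P K d) : cell P r d ⊆ K := by
  intro X hX
  rcases d with C | D
  · rw [mem_cell_inl] at hX
    exact mem_of_present hP hr hK hKr hd hX.1.1 (show C ⊆ X from hX.2 ▸ Cs_subset)
  · rw [mem_cell_inr] at hX
    exact mem_of_present hP hr hK hKr hd hX.1.1 (show Disjoint X D from hX.2 ▸ disjoint_Ds)

/-- Every member of `K` is covered by the descriptors of a suitable member of `K`. -/
lemma exists_pair_K (hP : Exch P) (hr : ∀ X, P X → X.card = r) (hne : ∃ B, P B)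
    (hK : Closed P K) (hKr : ∀ X ∈ K, X.card = r) (hU : K ⊆ Us P r) (hX : X ∈ K) :
    ∃ Y ∈ K, (Cs P Y).Nonempty ∧ Cs P Y ⊆ X ∧ Disjoint X (Ds P Y) ∧
      ((Cs P Y).card < r ∨ (Ds P Y).card + r < n) := by
  obtain ⟨Y, h1, h2, h3, h4, h5, h6⟩ := exists_pair hP hr hne (hU hX)
  refine ⟨Y, ?_, h3, h4, h5, h6⟩
  refine walk2 hK (fun Z => Cs P Y ⊆ Z)
    (fun Z hZ => not_of_Cs_subset hP hr h1 h2 h3 hZ) Y ?_ _ X h4
    (by rw [hKr X hX, h1]) hX rfl
  intro Z hZ a _ haY b _ _ w hw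
  exact mem_insert_of_mem (mem_erase.2 ⟨fun h => haY (h ▸ Cs_subset hw), hZ hw⟩)

/-- Two circuits in one set of nullity one are equal. -/
lemma circ_unique (hP : Exch P) (hr : ∀ X, P X → X.card = r) {Z : Finset (Fin n)}
    (hYr : Y.card = r) (hY : ¬ P Y) (hYne : (Cs P Y).Nonempty)
    (hZr : Z.card = r) (hZ : ¬ P Z) (hZne : (Cs P Z).Nonempty) (h : Cs P Y ⊆ Z) :
    Cs P Z = Cs P Y := by
  have h1 : Cs P Z ⊆ Cs P Y := by
    intro x hx
    by_contra hxY
    obtain ⟨_, y, _, hb⟩ := mem_Cs.1 hx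
    refine not_of_Cs_subset hP hr hYr hY hYne ?_ hb
    intro w hw
    exact mem_insert_of_mem (mem_erase.2 ⟨fun h' => hxY (h' ▸ hw), h hw⟩)
  refine Subset.antisymm h1 ?_
  intro x hx
  by_contra hxZ
  obtain ⟨_, y, _, hb⟩ := mem_Cs.1 hx
  refine not_of_Cs_subset hP hr hZr hZ hZne ?_ hb
  intro w hw
  exact mem_insert_of_mem (mem_erase.2 ⟨fun h' => hxZ (h' ▸ hw), Cs_subset (h1 hw)⟩)

end Pool.Agent.Matroid6d
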