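import Pool.Agent.Matroid6d.Desc

/-!
The encoding of the non-isolated non-bases by four families of descriptors.
-/

set_option autoImplicit false

namespace Pool.Agent.Matroid6d

open Finset

variable {n : ℕ}

open Classical in
/-- The sets of size `r` covered by a family of descriptors. -/
noncomputable def decode (r : ℕ) (T : Finset (Desc n)) : Finset (Finset (Fin n)) :=
  (powersetCard r univ).filter (fun X => ∃ d ∈ T, covers X d)

open Classical in
/-- The descriptors related and near to a member of `R`. -/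
noncomputable def nbh (K : ℕ) (R : Finset (Desc n)) : Finset (Desc n) :=
  univ.filter (fun s => ∃ q ∈ R, rel q s ∧ near K q s)

open Classical in
/-- The small cocircuits. -/
noncomputable def tinies (n K : ℕ) : Finset (Desc n) := univ.filter (fun d => tiny K d)

variable {P : Finset (Fin n) → Prop} {X : Finset (Fin n)} {r : ℕ}

lemma mem_decode {T : Finset (Desc n)} :
    X ∈ decode r T ↔ X.card = r ∧ ∃ d ∈ T, covers X d := by
  classical
  simp only [decode, mem_filter, mem_powersetCard, subset_univ, true_and]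

lemma mem_nbh {K : ℕ} {R : Finset (Desc n)} {s : Desc n} :
    s ∈ nbh K R ↔ ∃ q ∈ R, rel q s ∧ near K q s := by
  classical
  simp only [nbh, mem_filter, mem_univ, true_and]

lemma mem_tinies {K : ℕ} {d : Desc n} : d ∈ tinies n K ↔ tiny K d := by
  classical
  simp only [tinies, mem_filter, mem_univ, true_and]

lemma eq_of_mem_cell {d : Desc n} (h : X ∈ cell P r d) :
    d = Sum.inl (Cs P X) ∨ d = Sum.inr (Ds P X) := by
  rcases d with C | D
  · rw [mem_cell_inl] at h
    exact Or.inl (by rw [h.2])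
  · rw [mem_cell_inr] at h
    exact Or.inr (by rw [h.2])

lemma sum_cell_le (T : Finset (Desc n)) (hT : ∀ d ∈ T, proper r d) (k : ℕ)
    (hk : ∀ X ∈ Us P r, ∀ S ⊆ T, (∀ d ∈ S, X ∈ cell P r d) → S.card ≤ k) :
    ∑ d ∈ T, (cell P r d).card ≤ k * (Us P r).card := by
  classical
  have h1 := sum_card_bipartiteAbove_eq_sum_card_bipartiteBelow
    (s := T) (t := Us P r) (fun d X => X ∈ cell P r d)
  have h2 : ∑ d ∈ T, (cell P r d).card =
      ∑ d ∈ T, (bipartiteAbove (fun d X => X ∈ cell P r d) (Us P r) d).card := by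
    refine sum_congr rfl (fun d hd => ?_)
    congr 1
    ext X
    rw [mem_bipartiteAbove]
    exact ⟨fun h => ⟨cell_subset (hT d hd) h, h⟩, fun h => h.2⟩
  rw [h2, h1]
  calc ∑ X ∈ Us P r, (bipartiteBelow (fun d X => X ∈ cell P r d) T X).card
      ≤ ∑ _X ∈ Us P r, k := by
        refine sum_le_sum (fun X hX => hk X hX _ (filter_subset _ _) ?_)
        intro d hd
        exact ((mem_bipartiteBelow _).1 hd).2
    _ = k * (Us P r).card := by rw [sum_const, smul_eq_mul, mul_comm]

lemma sum_cell_le_two (T : Finset (Desc n)) (hT : ∀ d ∈ T, proper r d) :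
    ∑ d ∈ T, (cell P r d).card ≤ 2 * (Us P r).card := by
  classical
  apply sum_cell_le T hT 2
  intro X _ S _ hS
  have : S ⊆ {Sum.inl (Cs P X), Sum.inr (Ds P X)} := by
    intro d hd
    rw [mem_insert, mem_singleton]
    exact eq_of_mem_cell (hS d hd)
  exact (card_le_card this).trans card_le_two

lemma sum_cell_le_one (T : Finset (Desc n)) (hT : ∀ d ∈ T, proper r d)
    (hind : ∀ a ∈ T, ∀ b ∈ T, ¬ rel a b) :
    ∑ d ∈ T, (cell P r d).card ≤ 1 * (Us P r).card := by
  classical
  apply sum_cell_le T hT 1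
  intro X _ S hST hS
  rw [card_le_one]
  intro a ha b hb
  have hdis : Disjoint (Cs P X) (Ds P X) := disjoint_of_subset_left Cs_subset disjoint_Ds
  rcases eq_of_mem_cell (hS a ha) with h1 | h1 <;> rcases eq_of_mem_cell (hS b hb) with h2 | h2
  · rw [h1, h2]
  · exfalso
    have := hind a (hST ha) b (hST hb)
    rw [h1, h2] at this
    exact this hdis
  · exfalso
    have := hind b (hST hb) a (hST ha)
    rw [h1, h2] at this
    exact this hdis
  · rw [h1, h2]

lemma exists_max_card {α : Type} (A : Finset α) (Q : Finset α → Prop) (h0 : Q ∅) :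
    ∃ R, R ⊆ A ∧ Q R ∧ ∀ R', R' ⊆ A → Q R' → R'.card ≤ R.card := by
  classical
  obtain ⟨R, hR, hmax⟩ := exists_max_image (A.powerset.filter Q) card
    ⟨∅, mem_filter.2 ⟨mem_powerset.2 (empty_subset _), h0⟩⟩
  rw [mem_filter, mem_powerset] at hR
  exact ⟨R, hR.1, hR.2, fun R' h1 h2 => hmax R' (mem_filter.2 ⟨mem_powerset.2 h1, h2⟩)⟩

lemma exists_maximal_indep {α : Type} (A : Finset α) (ρ : α → α → Prop)
    (hsymm : ∀ a b, ρ a b → ρ b a) (hirr : ∀ a, ¬ ρ a a) :
    ∃ R ⊆ A, (∀ a ∈ R, ∀ b ∈ R, ¬ ρ a b) ∧ ∀ s ∈ A, s ∉ R → ∃ q ∈ R, ρ q s := by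
  classical
  obtain ⟨R, hRA, hR, hmax⟩ := exists_max_card A (fun R => ∀ a ∈ R, ∀ b ∈ R, ¬ ρ a b)
    (fun a ha => absurd ha (notMem_empty a))
  refine ⟨R, hRA, hR, ?_⟩
  intro s hs hsR
  by_contra hcon
  push Not at hcon
  have h1 := hmax (insert s R) (insert_subset hs hRA) (by
    intro a ha b hb
    rw [mem_insert] at ha hb
    rcases ha with rfl | ha <;> rcases hb with rfl | hb
    · exact hirr _
    · exact fun h => hcon b hb (hsymm _ _ h)
    · exact hcon a ha
    · exact hR a ha b hb)
  rw [card_insert_of_notMem hsR] at h1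
  omega

lemma rel_symm (a b : Desc n) (h : rel a b) : rel b a := by
  rcases a with a | a <;> rcases b with b | b <;> exact h

lemma rel_irrefl (a : Desc n) : ¬ rel a a := by
  rcases a with a | a <;> exact id

/-- The number of sets with at most `k` elements. -/
lemma card_small_sets (n k : ℕ) :
    ((univ : Finset (Finset (Fin n))).filter (fun F => F.card ≤ k)).card ≤ (n + 1) ^ k := by
  classical
  have h1 : (univ : Finset (Fin k → Option (Fin n))).card = (n + 1) ^ k := by
    rw [card_univ, Fintype.card_fun, Fintype.card_option, Fintype.card_fin, Fintype.card_fin]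
  rw [← h1]
  apply card_le_card_of_surjOn (fun f => univ.filter (fun x => ∃ i, f i = some x))
  intro F hF
  rw [mem_coe, mem_filter] at hF
  refine ⟨fun i => F.toList[(i : ℕ)]?, mem_coe.2 (mem_univ _), ?_⟩
  ext x
  simp only [mem_filter, mem_univ, true_and]
  constructor
  · rintro ⟨i, hi⟩
    rw [← mem_toList]
    exact List.mem_of_getElem? hi
  · intro hx
    rw [← mem_toList, List.mem_iff_getElem?] at hx
    obtain ⟨i, hi⟩ := hx
    have hlt : i < k := by
      obtain ⟨h, _⟩ := List.getElem?_eq_some_iff.1 hi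
      rw [length_toList] at h
      omega
    exact ⟨⟨i, hlt⟩, hi⟩

lemma card_tinies (n K : ℕ) : (tinies n K).card ≤ (n + 1) ^ (2 * K) := by
  classical
  refine le_trans ?_ (card_small_sets n (2 * K))
  apply card_le_card_of_injOn (fun d : Desc n => Sum.elim (fun _ => ∅) id d)
  · intro d hd
    rw [mem_coe, mem_tinies] at hd
    rw [mem_coe, mem_filter]
    rcases d with C | D
    · exact absurd hd id
    · exact ⟨mem_univ _, (show D.card < 2 * K from hd).le⟩
  · intro d hd e he h
    rw [mem_coe, mem_tinies] at hd he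
    rcases d with C | D
    · exact absurd hd id
    · rcases e with C' | D'
      · exact absurd he id
      · simp only [Sum.elim_inr, id] at h
        rw [h]

lemma card_nbr (K : ℕ) (q : Desc n) (T : Finset (Desc n))
    (hT : ∀ s ∈ T, rel q s ∧ near K q s) : T.card ≤ (n + 1) ^ (4 * K) := by
  classical
  refine le_trans ?_ (card_small_sets n (4 * K))
  -- the complement of the union of the two sets
  apply card_le_card_of_injOn (fun s : Desc n => univ \ (Sum.elim id id q ∪ Sum.elim id id s))
  · intro s hs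
    obtain ⟨h1, h2⟩ := hT s hs
    rw [mem_coe, mem_filter]
    refine ⟨mem_univ _, ?_⟩
    simp only
    rw [card_sdiff_of_subset (subset_univ _), card_univ, Fintype.card_fin]
    rcases q with C | D <;> rcases s with C' | D'
    · exact absurd h1 id
    · have h3 : (C ∪ D').card = C.card + D'.card := card_union_of_disjoint h1
      have h4 : n ≤ C.card + D'.card + 4 * K := h2
      simp only [Sum.elim_inl, Sum.elim_inr, id]
      omega
    · have h3 : (D ∪ C').card = D.card + C'.card := card_union_of_disjoint (Disjoint.symm h1)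
      have h4 : n ≤ C'.card + D.card + 4 * K := h2
      simp only [Sum.elim_inl, Sum.elim_inr, id]
      omega
    · exact absurd h1 id
  · -- injectivity
    have aux : ∀ A B B' : Finset (Fin n), Disjoint A B → Disjoint A B' →
        univ \ (A ∪ B) = univ \ (A ∪ B') → B = B' := by
      intro A B B' h1 h2 h
      have h3 : ∀ x, x ∈ A ∪ B ↔ x ∈ A ∪ B' := by
        intro x
        have := Finset.ext_iff.1 h x
        simp only [mem_sdiff, mem_univ, true_and] at this
        tauto
      ext x
      have h4 := h3 x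
      rw [mem_union, mem_union] at h4
      rw [disjoint_left] at h1 h2
      constructor
      · intro hx
        rcases h4.1 (Or.inr hx) with h5 | h5
        · exact absurd hx (h1 h5)
        · exact h5
      · intro hx
        rcases h4.2 (Or.inr hx) with h5 | h5
        · exact absurd hx (h2 h5)
        · exact h5
    intro s hs t ht h
    obtain ⟨h1, _⟩ := hT s hs
    obtain ⟨h2, _⟩ := hT t ht
    rcases q with C | D <;> rcases s with C' | D'
    · exact absurd h1 id
    · rcases t with C'' | D''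
      · exact absurd h2 id
      · rw [aux C D' D'' h1 h2 h]
    · rcases t with C'' | D''
      · rw [aux D C' C'' (Disjoint.symm h1) (Disjoint.symm h2) h]
      · exact absurd h2 id
    · exact absurd h1 id

lemma card_nbh (K : ℕ) (R : Finset (Desc n)) :
    (nbh K R).card ≤ R.card * (n + 1) ^ (4 * K) := by
  classical
  have h1 : nbh K R ⊆ R.biUnion (fun q => univ.filter (fun s => rel q s ∧ near K q s)) := by
    intro s hs
    obtain ⟨q, hq, h⟩ := mem_nbh.1 hs
    exact mem_biUnion.2 ⟨q, hq, mem_filter.2 ⟨mem_univ _, h⟩⟩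
  refine (card_le_card h1).trans (card_biUnion_le_card_mul _ _ _ ?_)
  intro q _
  exact card_nbr K q _ (fun s hs => (mem_filter.1 hs).2)

/-- The encoding. -/
theorem encode (hP : Exch P) (hr : ∀ X, P X → X.card = r) (hne : ∃ B, P B)
    (K m : ℕ) (hK : 1 ≤ K) (hm : 4 * K ≤ m) (hmr : m ≤ r) (hmr' : m + r ≤ n) :
    ∃ R S T₁ T₂ : Finset (Desc n), Us P r = decode r (R ∪ S ∪ T₁ ∪ T₂) ∧
      S ⊆ nbh K R ∧ T₂ ⊆ tinies n K ∧
      R.card * (m - 2 * K) ≤ (Us P r).card ∧ S.card * (m - 2 * K) ≤ 2 * (Us P r).card ∧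
      T₁.card * (K * m) ≤ 2 * (Us P r).card ∧ T₂.card * m ≤ 4 * (Us P r).card ∧
      ((Us P r).Nonempty → m ≤ 2 * (Us P r).card) := by
  classical
  set A := (univ : Finset (Desc n)).filter
    (fun d => proper r d ∧ light r K d ∧ m ≤ (cell P r d).card + 2 * K) with hA
  set T₁ := (univ : Finset (Desc n)).filter
    (fun d => proper r d ∧ K * m ≤ (cell P r d).card) with hT₁
  set T₂ := (univ : Finset (Desc n)).filter
    (fun d => proper r d ∧ tiny K d ∧ m ≤ 2 * (cell P r d).card) with hT₂
  have mA : ∀ d, d ∈ A ↔ proper r d ∧ light r K d ∧ m ≤ (cell P r d).card + 2 * K := by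
    intro d; rw [hA, mem_filter]; simp
  have mT₁ : ∀ d, d ∈ T₁ ↔ proper r d ∧ K * m ≤ (cell P r d).card := by
    intro d; rw [hT₁, mem_filter]; simp
  have mT₂ : ∀ d, d ∈ T₂ ↔ proper r d ∧ tiny K d ∧ m ≤ 2 * (cell P r d).card := by
    intro d; rw [hT₂, mem_filter]; simp
  obtain ⟨R, hRA, hind, hmax⟩ := exists_maximal_indep A rel rel_symm rel_irrefl
  have hm0 : 0 < m := by omega
  have hKm : 0 < K * m := Nat.mul_pos (by omega) hm0
  have hsub : ∀ d, proper r d → (cell P r d).card ≤ (Us P r).card := fun d hd =>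
    card_le_card (cell_subset hd)
  refine ⟨R, A \ R, T₁, T₂, ?_, ?_, ?_, ?_, ?_, ?_, ?_, ?_⟩
  · -- decoding
    ext X
    rw [mem_decode]
    constructor
    · intro hX
      refine ⟨(mem_Us.1 hX).1.1, ?_⟩
      obtain ⟨d, hcov, hd, h⟩ := exists_desc hP hr hne K m hm hmr hmr' hX
      refine ⟨d, ?_, hcov⟩
      rw [union_assoc, union_assoc, ← union_assoc R, union_sdiff_of_subset hRA, mem_union,
        mem_union, mA, mT₁, mT₂]
      rcases h with h | h | h
      · exact Or.inl ⟨hd, h⟩
      · exact Or.inr (Or.inl ⟨hd, h⟩)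
      · exact Or.inr (Or.inr ⟨hd, h⟩)
    · rintro ⟨hX, d, hd, hcov⟩
      rw [union_assoc, union_assoc, ← union_assoc R, union_sdiff_of_subset hRA, mem_union,
        mem_union, mA, mT₁, mT₂] at hd
      have h1 : proper r d ∧ 0 < (cell P r d).card := by
        rcases hd with h | h | h
        · exact ⟨h.1, by omega⟩
        · exact ⟨h.1, by omega⟩
        · exact ⟨h.1, by omega⟩
      exact mem_of_covers hP hr h1.1 (card_pos.1 h1.2) hX hcov
  · -- the neighbours
    intro s hs
    rw [mem_sdiff] at hs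
    obtain ⟨q, hq, hqs⟩ := hmax s hs.1 hs.2
    refine mem_nbh.2 ⟨q, hq, hqs, ?_⟩
    have h1 := (mA q).1 (hRA hq)
    have h2 := (mA s).1 hs.1
    rcases q with C | D <;> rcases s with C' | D'
    · exact absurd hqs id
    · have h3 : r ≤ C.card + 2 * K := h1.2.1
      have h4 : n ≤ r + D'.card + 2 * K := h2.2.1
      change n ≤ C.card + D'.card + 4 * K
      omega
    · have h3 : n ≤ r + D.card + 2 * K := h1.2.1
      have h4 : r ≤ C'.card + 2 * K := h2.2.1
      change n ≤ C'.card + D.card + 4 * K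
      omega
    · exact absurd hqs id
  · intro d hd
    exact mem_tinies.2 ((mT₂ d).1 hd).2.1
  · have h1 := sum_cell_le_one (P := P) (r := r) R (fun d hd => ((mA d).1 (hRA hd)).1) hind
    rw [one_mul] at h1
    refine le_trans ?_ h1
    rw [← smul_eq_mul]
    exact card_nsmul_le_sum R _ _ (fun d hd => by have := ((mA d).1 (hRA hd)).2.2; omega)
  · refine le_trans ?_ (sum_cell_le_two (P := P) (r := r) (A \ R)
      (fun d hd => ((mA d).1 (mem_sdiff.1 hd).1).1))
    rw [← smul_eq_mul]
    exact card_nsmul_le_sum (A \ R) _ _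
      (fun d hd => by have := ((mA d).1 (mem_sdiff.1 hd).1).2.2; omega)
  · refine le_trans ?_ (sum_cell_le_two (P := P) (r := r) T₁ (fun d hd => ((mT₁ d).1 hd).1))
    rw [← smul_eq_mul]
    exact card_nsmul_le_sum T₁ _ _ (fun d hd => ((mT₁ d).1 hd).2)
  · have h1 := sum_cell_le_two (P := P) (r := r) T₂ (fun d hd => ((mT₂ d).1 hd).1)
    have h2 : T₂.card * m ≤ 2 * ∑ d ∈ T₂, (cell P r d).card := by
      rw [mul_sum, ← smul_eq_mul]
      exact card_nsmul_le_sum T₂ _ _ (fun d hd => ((mT₂ d).1 hd).2.2)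
    omega
  · rintro ⟨X, hX⟩
    obtain ⟨d, _, hd, h⟩ := exists_desc hP hr hne K m hm hmr hmr' hX
    have h1 := hsub d hd
    rcases h with h | h | h
    · omega
    · have : 1 * m ≤ K * m := Nat.mul_le_mul_right _ hK
      omega
    · omega

end Pool.Agent.Matroid6d
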