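import Pool.Agent.Matroid6d.Roots

/-!
Nearly stable families of sets of equal size: a weighted form of the Kleitman-Winston method.
-/

set_option autoImplicit false

namespace Pool.Agent.Matroid6d

open Finset

variable {n : ℕ}

/-- Adjacency in the Johnson graphs. -/
def Adj (v u : Finset (Fin n)) : Prop := v.card = u.card ∧ (v \ u).card = 1

open Classical in
/-- The neighbours of `v` in `A`. -/
noncomputable def Ngb (A : Finset (Finset (Fin n))) (v : Finset (Fin n)) :
    Finset (Finset (Fin n)) := A.filter (fun u => Adj v u)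

open Classical in
/-- The members of `A` that are neither `v` nor adjacent to `v`. -/
noncomputable def Rest (A : Finset (Finset (Fin n))) (v : Finset (Fin n)) :
    Finset (Finset (Fin n)) := (A.erase v).filter (fun u => ¬ Adj v u)

/-- Nearly stable families. -/
def NS (Δ : ℕ) (X : Finset (Finset (Fin n))) : Prop := ∀ v ∈ X, (Ngb X v).card ≤ Δ

lemma mem_Ngb {A : Finset (Finset (Fin n))} {u v : Finset (Fin n)} :
    u ∈ Ngb A v ↔ u ∈ A ∧ Adj v u := by
  classical
  simp only [Ngb, mem_filter]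

lemma mem_Rest {A : Finset (Finset (Fin n))} {u v : Finset (Fin n)} :
    u ∈ Rest A v ↔ (u ≠ v ∧ u ∈ A) ∧ ¬ Adj v u := by
  classical
  simp only [Rest, mem_filter, mem_erase]

lemma not_adj_self (v : Finset (Fin n)) : ¬ Adj v v := by
  rintro ⟨_, h⟩
  rw [sdiff_self, bot_eq_empty, card_empty] at h
  exact absurd h (by norm_num)

lemma NS_mono {Δ : ℕ} {X Y : Finset (Finset (Fin n))} (h : NS Δ X) (hYX : Y ⊆ X) : NS Δ Y := by
  intro v hv
  refine (card_le_card ?_).trans (h v (hYX hv))
  intro u hu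
  rw [mem_Ngb] at hu ⊢
  exact ⟨hYX hu.1, hu.2⟩

open Classical in
/-- The nearly stable subfamilies. -/
noncomputable def nsSub (Δ : ℕ) (A : Finset (Finset (Fin n))) :
    Finset (Finset (Finset (Fin n))) := A.powerset.filter (NS Δ)

lemma mem_nsSub {Δ : ℕ} {A X : Finset (Finset (Fin n))} :
    X ∈ nsSub Δ A ↔ X ⊆ A ∧ NS Δ X := by
  classical
  simp only [nsSub, mem_filter, mem_powerset]

/-- The weighted number of nearly stable subfamilies. -/
noncomputable def Zn (lam : ℝ) (Δ : ℕ) (A : Finset (Finset (Fin n))) : ℝ :=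
  ∑ X ∈ nsSub Δ A, lam ^ X.card

lemma card_decomp (A : Finset (Finset (Fin n))) {v : Finset (Fin n)} (hv : v ∈ A) :
    A.card = 1 + (Ngb A v).card + (Rest A v).card := by
  classical
  have h1 : (Ngb (A.erase v) v).card + (Rest A v).card = (A.erase v).card :=
    card_filter_add_card_filter_not _
  have h2 : Ngb (A.erase v) v = Ngb A v := by
    ext u
    rw [mem_Ngb, mem_Ngb, mem_erase]
    constructor
    · rintro ⟨⟨_, h⟩, h'⟩
      exact ⟨h, h'⟩
    · rintro ⟨h, h'⟩
      exact ⟨⟨fun h'' => not_adj_self v (h'' ▸ h'), h⟩, h'⟩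
  rw [h2, card_erase_of_mem hv] at h1
  have : 0 < A.card := card_pos.2 ⟨v, hv⟩
  omega

lemma sum_pow_le' (N k : ℕ) : ∑ i ∈ range (k + 1), N ^ i ≤ (N + 1) ^ k := by
  induction k with
  | zero => simp
  | succ k ih =>
    rw [sum_range_succ, pow_succ (N + 1)]
    have h1 : N ^ (k + 1) ≤ N * (N + 1) ^ k := by
      rw [pow_succ, mul_comm]
      exact Nat.mul_le_mul_left _ (Nat.pow_le_pow_left (by omega) k)
    calc ∑ i ∈ range (k + 1), N ^ i + N ^ (k + 1) ≤ (N + 1) ^ k + N * (N + 1) ^ k :=
          Nat.add_le_add ih h1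
      _ = (N + 1) ^ k * (N + 1) := by ring

lemma card_small_subsets {α : Type} [DecidableEq α] (s : Finset α) (k : ℕ) :
    (s.powerset.filter (fun t => t.card ≤ k)).card ≤ (s.card + 1) ^ k := by
  have h1 : s.powerset.filter (fun t => t.card ≤ k) ⊆
      (range (k + 1)).biUnion (fun i => powersetCard i s) := by
    intro t ht
    rw [mem_filter, mem_powerset] at ht
    rw [mem_biUnion]
    exact ⟨t.card, mem_range.2 (by omega), mem_powersetCard.2 ⟨ht.1, rfl⟩⟩
  refine (card_le_card h1).trans (card_biUnion_le.trans ?_)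
  refine le_trans (sum_le_sum (fun i _ => ?_)) (sum_pow_le' s.card k)
  rw [card_powersetCard]
  exact Nat.choose_le_pow _ i

/-- The recursion. -/
lemma Zn_rec (lam : ℝ) (h0 : 0 ≤ lam) (h1 : lam ≤ 1) (Δ N : ℕ) (A : Finset (Finset (Fin n)))
    {v : Finset (Fin n)} (hv : v ∈ A) (hN : (Ngb A v).card ≤ N) :
    Zn lam Δ A ≤ Zn lam Δ (A.erase v) + ((N : ℝ) + 1) ^ Δ * Zn lam Δ (Rest A v) := by
  classical
  unfold Zn
  rw [← sum_filter_add_sum_filter_not (nsSub Δ A) (fun X => v ∉ X)]
  apply add_le_add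
  · apply sum_le_sum_of_subset_of_nonneg
    · intro X hX
      rw [mem_filter, mem_nsSub] at hX
      rw [mem_nsSub]
      exact ⟨fun u hu => mem_erase.2 ⟨fun h => hX.2 (h ▸ hu), hX.1.1 hu⟩, hX.1.2⟩
    · intro _ _ _
      positivity
  · set S₂ := (nsSub Δ A).filter (fun X => ¬ v ∉ X) with hS₂
    set 𝒴 := (Ngb A v).powerset.filter (fun t => t.card ≤ Δ) with h𝒴
    have hc𝒴 : (𝒴.card : ℝ) ≤ ((N : ℝ) + 1) ^ Δ := by
      have h3 : 𝒴.card ≤ (N + 1) ^ Δ :=
        (card_small_subsets _ Δ).trans (Nat.pow_le_pow_left (by omega) Δ)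
      exact_mod_cast h3
    set φ : Finset (Finset (Fin n)) → Finset (Finset (Fin n)) × Finset (Finset (Fin n)) :=
      fun X => (Ngb X v, Rest X v) with hφ
    have hmem : ∀ X ∈ S₂, v ∈ X ∧ X ⊆ A ∧ NS Δ X := by
      intro X hX
      rw [hS₂, mem_filter, mem_nsSub, not_not] at hX
      exact ⟨hX.2, hX.1⟩
    have hinj : Set.InjOn φ (S₂ : Set (Finset (Finset (Fin n)))) := by
      intro X hX Y hY h
      obtain ⟨hX1, _, _⟩ := hmem X hX
      obtain ⟨hY1, _, _⟩ := hmem Y hY
      rw [hφ, Prod.mk.injEq] at h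
      have e1 := Finset.ext_iff.1 h.1
      have e2 := Finset.ext_iff.1 h.2
      ext u
      have e3 := e1 u
      have e4 := e2 u
      rw [mem_Ngb, mem_Ngb] at e3
      rw [mem_Rest, mem_Rest] at e4
      by_cases huv : u = v
      · subst huv
        exact ⟨fun _ => hY1, fun _ => hX1⟩
      · by_cases had : Adj v u
        · tauto
        · tauto
    calc ∑ X ∈ S₂, lam ^ X.card ≤ ∑ X ∈ S₂, lam ^ (φ X).2.card := by
          apply sum_le_sum
          intro X hX
          have h3 := card_decomp X (hmem X hX).1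
          apply pow_le_pow_of_le_one h0 h1
          rw [hφ]
          simp only
          omega
      _ = ∑ p ∈ S₂.image φ, lam ^ p.2.card :=
          (sum_image (f := fun p : Finset (Finset (Fin n)) × Finset (Finset (Fin n)) =>
            lam ^ p.2.card) hinj).symm
      _ ≤ ∑ p ∈ 𝒴 ×ˢ nsSub Δ (Rest A v), lam ^ p.2.card := by
          apply sum_le_sum_of_subset_of_nonneg
          · intro p hp
            rw [mem_image] at hp
            obtain ⟨X, hX, rfl⟩ := hp
            obtain ⟨g1, g2, g3⟩ := hmem X hX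
            rw [mem_product, h𝒴, mem_filter, mem_powerset, mem_nsSub]
            refine ⟨⟨?_, g3 v g1⟩, ?_, ?_⟩
            · intro u hu
              have hu' : u ∈ Ngb X v := hu
              rw [mem_Ngb] at hu' ⊢
              exact ⟨g2 hu'.1, hu'.2⟩
            · intro u hu
              have hu' : u ∈ Rest X v := hu
              rw [mem_Rest] at hu' ⊢
              exact ⟨⟨hu'.1.1, g2 hu'.1.2⟩, hu'.2⟩
            · refine NS_mono g3 (Y := Rest X v) ?_
              intro u hu
              exact (mem_Rest.1 hu).1.2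
          · intro _ _ _
            positivity
      _ = 𝒴.card * ∑ X ∈ nsSub Δ (Rest A v), lam ^ X.card := by
          rw [sum_product]
          simp only [sum_const, nsmul_eq_mul]
      _ ≤ ((N : ℝ) + 1) ^ Δ * ∑ X ∈ nsSub Δ (Rest A v), lam ^ X.card := by
          apply mul_le_mul_of_nonneg_right hc𝒴
          exact sum_nonneg (fun _ _ => by positivity)

lemma Zn_nonneg {lam : ℝ} (h0 : 0 ≤ lam) (Δ : ℕ) (A : Finset (Finset (Fin n))) :
    0 ≤ Zn lam Δ A := sum_nonneg (fun _ _ => by positivity)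

lemma Zn_le_exp {lam : ℝ} (h0 : 0 ≤ lam) (Δ : ℕ) (A : Finset (Finset (Fin n))) :
    Zn lam Δ A ≤ Real.exp (A.card * lam) := by
  classical
  calc Zn lam Δ A ≤ ∑ X ∈ A.powerset, lam ^ X.card := by
        apply sum_le_sum_of_subset_of_nonneg
        · intro X hX
          exact mem_powerset.2 (mem_nsSub.1 hX).1
        · intro _ _ _
          positivity
    _ = (1 + lam) ^ A.card := sum_powerset_pow A lam
    _ ≤ _ := one_add_pow_le_exp h0 _

/-- The abstract form of the bound. -/
theorem kw (V : Finset (Finset (Fin n))) (lam κ y β : ℝ) (Δ N : ℕ) (h0 : 0 ≤ lam)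
    (h1 : lam ≤ 1) (hκ : 2 ≤ κ) (hy : 1 ≤ y) (hβ : 1 ≤ β) (hn : 2 ≤ n)
    (hN : ∀ v ∈ V, (Ngb V v).card ≤ N) (hV : (V.card : ℝ) ≤ κ * (n : ℝ) ^ 2 / 2)
    (hξ : ((N : ℝ) + 1) ^ Δ * (n : ℝ) ^ 2 ≤ Real.exp β)
    (hdeg : ∀ A ⊆ V, 2 * y < A.card → ∃ v ∈ A, (A.card : ℝ) ≤ κ * ((Ngb A v).card + 1)) :
    ∀ (k : ℕ) (A : Finset (Finset (Fin n))), A ⊆ V → A.card ≤ k →
      Zn lam Δ A ≤ Real.exp (2 * lam * y + β * κ * Real.log (max 1 (A.card / y))) := by
  have hn0 : (2 : ℝ) ≤ n := by exact_mod_cast hn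
  have hlog : ∀ x : ℝ, 0 ≤ Real.log (max 1 x) := fun x => Real.log_nonneg (le_max_left _ _)
  have hβκ : 0 ≤ β * κ := by positivity
  have small : ∀ A : Finset (Finset (Fin n)), (A.card : ℝ) ≤ 2 * y →
      Zn lam Δ A ≤ Real.exp (2 * lam * y + β * κ * Real.log (max 1 (A.card / y))) := by
    intro A hA
    refine (Zn_le_exp h0 Δ A).trans (Real.exp_le_exp.2 ?_)
    have h2 := mul_nonneg hβκ (hlog (A.card / y))
    have h3 := mul_le_mul_of_nonneg_right hA h0
    linarith
  intro k
  induction k with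
  | zero =>
    intro A _ hA
    apply small
    have : A.card = 0 := by omega
    rw [this]
    push_cast
    linarith
  | succ k ih =>
    intro A hAV hAk
    by_cases hs : (A.card : ℝ) ≤ 2 * y
    · exact small A hs
    push Not at hs
    obtain ⟨v, hv, hvd⟩ := hdeg A hAV hs
    have hdec := card_decomp A hv
    have hrec := Zn_rec lam h0 h1 Δ N A hv (by
      refine (card_le_card ?_).trans (hN v (hAV hv))
      intro u hu
      rw [mem_Ngb] at hu ⊢
      exact ⟨hAV hu.1, hu.2⟩)
    have hcE := card_erase_of_mem hv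
    have hposA : 0 < A.card := card_pos.2 ⟨v, hv⟩
    have ih1 := ih (A.erase v) ((erase_subset _ _).trans hAV) (by omega)
    have ih2 := ih (Rest A v) (fun u hu => hAV (mem_Rest.1 hu).1.2) (by omega)
    set s : ℝ := (A.card : ℝ) with hsdef
    have hs0 : 0 < s := by linarith
    have hy0 : 0 < y := by linarith
    have hκ0 : 0 < κ := by linarith
    have hsy : 2 ≤ s / y := by
      rw [le_div_iff₀ hy0]
      linarith
    have hmax : max 1 (s / y) = s / y := max_eq_right (by linarith)
    set ℓ := Real.log (s / y) with hℓ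
    -- the first term
    have c1 : ((A.erase v).card : ℝ) = s - 1 := by
      rw [hcE, Nat.cast_sub hposA, Nat.cast_one]
    have hs1 : 1 < s := by linarith
    have l1 : Real.log (max 1 ((A.erase v).card / y)) ≤ ℓ - 1 / s := by
      rw [c1]
      have e1 : (1 : ℝ) ≤ (s - 1) / y := by
        rw [le_div_iff₀ hy0]
        linarith
      rw [max_eq_right e1]
      have e2 : (s - 1) / y = s / y * (1 - 1 / s) := by
        field_simp
      have e3 : 0 < 1 - 1 / s := by
        have : 1 / s < 1 := by rw [div_lt_one hs0]; exact hs1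
        linarith
      rw [e2, Real.log_mul (by positivity) e3.ne']
      have := Real.log_le_sub_one_of_pos e3
      linarith
    -- the second term
    have c2 : ((Rest A v).card : ℝ) ≤ s * (1 - 1 / κ) := by
      have e1 : s = 1 + (Ngb A v).card + (Rest A v).card := by
        rw [hsdef]
        exact_mod_cast hdec
      have e2 : s / κ ≤ (Ngb A v).card + 1 := by
        rw [div_le_iff₀ hκ0]
        linarith
      have e3 : s * (1 - 1 / κ) = s - s / κ := by ring
      rw [e3]
      linarith
    have l2 : Real.log (max 1 ((Rest A v).card / y)) ≤ ℓ - 1 / κ := by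
      have e1 : 1 / κ ≤ 1 / 2 := one_div_le_one_div_of_le (by norm_num) hκ
      have e2 : (0 : ℝ) < 1 - 1 / κ := by linarith
      have e3 : max 1 ((Rest A v).card / y) ≤ s / y * (1 - 1 / κ) := by
        apply max_le
        · nlinarith
        · calc ((Rest A v).card : ℝ) / y ≤ s * (1 - 1 / κ) / y :=
                div_le_div_of_nonneg_right c2 hy0.le
            _ = s / y * (1 - 1 / κ) := by ring
      have e4 : Real.log (max 1 ((Rest A v).card / y)) ≤ Real.log (s / y * (1 - 1 / κ)) :=
        Real.log_le_log (lt_of_lt_of_le one_pos (le_max_left _ _)) e3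
      rw [Real.log_mul (by positivity) e2.ne'] at e4
      have := Real.log_le_sub_one_of_pos e2
      linarith
    -- the two exponential factors
    have hsV : s ≤ κ * (n : ℝ) ^ 2 / 2 := by
      refine le_trans ?_ hV
      rw [hsdef]
      exact_mod_cast card_le_card hAV
    set u : ℝ := 2 / (n : ℝ) ^ 2 with hu
    have hn2 : (4 : ℝ) ≤ (n : ℝ) ^ 2 := by nlinarith
    have hu0 : 0 < u := by positivity
    have hu1 : u ≤ 1 := by
      rw [hu, div_le_one (by positivity)]
      linarith
    have f1 : Real.exp (-(β * κ / s)) ≤ 1 - u / 2 := by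
      have e1 : u ≤ β * κ / s := by
        rw [hu, div_le_div_iff₀ (by positivity) hs0]
        nlinarith
      have e2 : Real.exp (-(β * κ / s)) ≤ Real.exp (-u) := Real.exp_le_exp.2 (by linarith)
      have e3 : Real.exp (-u) ≤ 1 / (1 + u) := by
        rw [Real.exp_neg, ← one_div]
        apply one_div_le_one_div_of_le (by linarith)
        have := Real.add_one_le_exp u
        linarith
      have e4 : 1 / (1 + u) ≤ 1 - u / 2 := by
        rw [div_le_iff₀ (by linarith)]
        nlinarith
      linarith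
    have f2 : ((N : ℝ) + 1) ^ Δ * Real.exp (-β) ≤ u / 2 := by
      rw [Real.exp_neg, ← div_eq_mul_inv, div_le_iff₀ (Real.exp_pos β), hu]
      have e1 : 2 / (n : ℝ) ^ 2 / 2 * Real.exp β = Real.exp β / (n : ℝ) ^ 2 := by
        field_simp
      rw [e1, le_div_iff₀ (by positivity)]
      exact hξ
    -- conclusion
    have g1 : Zn lam Δ (A.erase v) ≤
        Real.exp (2 * lam * y + β * κ * ℓ) * Real.exp (-(β * κ / s)) := by
      rw [← Real.exp_add]
      refine ih1.trans (Real.exp_le_exp.2 ?_)
      have := mul_le_mul_of_nonneg_left l1 hβκ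
      have e : β * κ * (ℓ - 1 / s) = β * κ * ℓ - β * κ / s := by ring
      linarith
    have g2 : Zn lam Δ (Rest A v) ≤
        Real.exp (2 * lam * y + β * κ * ℓ) * Real.exp (-β) := by
      rw [← Real.exp_add]
      refine ih2.trans (Real.exp_le_exp.2 ?_)
      have := mul_le_mul_of_nonneg_left l2 hβκ
      have e : β * κ * (ℓ - 1 / κ) = β * κ * ℓ - β := by
        field_simp
      linarith
    rw [hmax]
    set E := Real.exp (2 * lam * y + β * κ * ℓ) with hE
    have hE0 : 0 < E := Real.exp_pos _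
    have hξ0 : 0 ≤ ((N : ℝ) + 1) ^ Δ := by positivity
    calc Zn lam Δ A ≤ Zn lam Δ (A.erase v) + ((N : ℝ) + 1) ^ Δ * Zn lam Δ (Rest A v) := hrec
      _ ≤ E * Real.exp (-(β * κ / s)) + ((N : ℝ) + 1) ^ Δ * (E * Real.exp (-β)) :=
          add_le_add g1 (mul_le_mul_of_nonneg_left g2 hξ0)
      _ = E * (Real.exp (-(β * κ / s)) + ((N : ℝ) + 1) ^ Δ * Real.exp (-β)) := by ring
      _ ≤ E * 1 := by
          apply mul_le_mul_of_nonneg_left _ hE0.le
          linarith
      _ = E := mul_one _

/-- In a large family of `k`-sets some member has many neighbours. -/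
lemma exists_deg (k : ℕ) (W A : Finset (Finset (Fin n))) (hA : ∀ v ∈ A, v.card = k)
    (hWk : ∀ T ∈ W, T.card + 1 = k) (hW : ∀ v ∈ A, ∀ x ∈ v, v.erase x ∈ W) (hne : A.Nonempty) :
    ∃ v ∈ A, k ^ 2 * A.card ≤ W.card * (k + (Ngb A v).card) := by
  classical
  by_contra hcon
  push Not at hcon
  set d : Finset (Fin n) → ℕ := fun T => (A.filter (fun u => T ⊆ u)).card with hd
  -- the sum of the degrees of the shadow
  have h1 : k * A.card ≤ ∑ T ∈ W, d T := by
    have e1 : ∑ T ∈ W, d T = ∑ u ∈ A, (W.filter (fun T => T ⊆ u)).card := by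
      rw [hd]
      simp_rw [card_filter]
      rw [sum_comm]
    rw [e1, mul_comm, ← smul_eq_mul]
    apply card_nsmul_le_sum
    intro u hu
    rw [← hA u hu]
    apply card_le_card_of_injOn (fun x => u.erase x)
    · intro x hx
      rw [mem_coe] at hx
      rw [mem_coe, mem_filter]
      exact ⟨hW u hu x hx, erase_subset _ _⟩
    · intro x hx y hy h
      exact erase_injOn u hx hy h
  -- the sum of the squares
  have h2 : ∑ T ∈ W, d T ^ 2 ≤ ∑ u ∈ A, (k + (Ngb A u).card) := by
    have e1 : ∑ T ∈ W, d T ^ 2 =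
        ∑ u ∈ A, ∑ v ∈ A, (W.filter (fun T => T ⊆ u ∧ T ⊆ v)).card := by
      have e2 : ∀ T, d T ^ 2 = ∑ u ∈ A, ∑ v ∈ A, if T ⊆ u ∧ T ⊆ v then 1 else 0 := by
        intro T
        rw [hd, sq]
        simp only
        rw [card_filter, sum_mul_sum]
        refine sum_congr rfl (fun u _ => sum_congr rfl (fun v _ => ?_))
        by_cases g1 : T ⊆ u <;> by_cases g2 : T ⊆ v <;> simp [g1, g2]
      simp_rw [e2]
      rw [sum_comm]
      refine sum_congr rfl (fun u _ => ?_)
      rw [sum_comm]
      refine sum_congr rfl (fun v _ => ?_)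
      rw [card_filter]
    rw [e1]
    apply sum_le_sum
    intro u hu
    have e3 : ∀ v ∈ A, (W.filter (fun T => T ⊆ u ∧ T ⊆ v)).card ≤
        (if v = u then k else 0) + (if Adj u v then 1 else 0) := by
      intro v hv
      by_cases hvu : v = u
      · subst hvu
        rw [if_pos rfl]
        refine le_trans ?_ (Nat.le_add_right _ _)
        have e4 : W.filter (fun T => T ⊆ v ∧ T ⊆ v) ⊆ powersetCard (k - 1) v := by
          intro T hT
          rw [mem_filter] at hT
          have := hWk T hT.1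
          exact mem_powersetCard.2 ⟨hT.2.1, by omega⟩
        refine (card_le_card e4).trans ?_
        rw [card_powersetCard, hA v hv]
        rcases Nat.eq_zero_or_pos k with h0 | h0
        · have hW0 : W = ∅ := by
            rw [eq_empty_iff_forall_notMem]
            intro T hT
            have := hWk T hT
            omega
          exfalso
          have := hcon v hv
          rw [hW0, card_empty, zero_mul, h0] at this
          simp at this
        · obtain ⟨j, rfl⟩ : ∃ j, k = j + 1 := ⟨k - 1, by omega⟩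
          rw [Nat.add_sub_cancel, Nat.choose_succ_self_right]
      · rw [if_neg hvu, zero_add]
        by_cases hem : (W.filter (fun T => T ⊆ u ∧ T ⊆ v)).card = 0
        · rw [hem]
          exact Nat.zero_le _
        · obtain ⟨T, hT⟩ := card_pos.1 (Nat.pos_of_ne_zero hem)
          rw [mem_filter] at hT
          have g1 := hWk T hT.1
          have g2 : T ⊆ u ∩ v := subset_inter hT.2.1 hT.2.2
          have g3 := card_le_card g2
          have g4 := card_sdiff_add_card_inter u v
          have g5 := hA u hu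
          have g6 := hA v hv
          have g7 : (u \ v).card ≠ 0 := by
            intro h
            rw [card_eq_zero, sdiff_eq_empty_iff_subset] at h
            exact hvu (eq_of_subset_of_card_le h (by omega)).symm
          have hadj : Adj u v := ⟨by omega, by omega⟩
          rw [if_pos hadj, card_le_one]
          intro S hS S' hS'
          rw [mem_filter] at hS hS'
          have i1 : S = u ∩ v := eq_of_subset_of_card_le (subset_inter hS.2.1 hS.2.2) (by
            have := hWk S hS.1
            omega)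
          have i2 : S' = u ∩ v := eq_of_subset_of_card_le (subset_inter hS'.2.1 hS'.2.2) (by
            have := hWk S' hS'.1
            omega)
          rw [i1, i2]
    refine (sum_le_sum e3).trans ?_
    rw [sum_add_distrib, sum_ite_eq' A u (fun _ => k), if_pos hu]
    apply Nat.add_le_add_left
    rw [← card_filter]
    exact le_of_eq rfl
  -- Cauchy-Schwarz
  have h3 : (∑ T ∈ W, d T) ^ 2 ≤ W.card * ∑ T ∈ W, d T ^ 2 := by
    have := sq_sum_le_card_mul_sum_sq (s := W) (f := fun T => (d T : ℤ))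
    exact_mod_cast this
  have h4 : W.card * ∑ u ∈ A, (k + (Ngb A u).card) < A.card * (k ^ 2 * A.card) := by
    rw [mul_sum, ← smul_eq_mul, ← sum_const]
    exact sum_lt_sum_of_nonempty hne hcon
  have h5 : (k * A.card) ^ 2 ≤ (∑ T ∈ W, d T) ^ 2 := Nat.pow_le_pow_left h1 2
  have h6 : W.card * ∑ T ∈ W, d T ^ 2 ≤ W.card * ∑ u ∈ A, (k + (Ngb A u).card) :=
    Nat.mul_le_mul_left _ h2
  have h7 : (k * A.card) ^ 2 = A.card * (k ^ 2 * A.card) := by ring
  omega

lemma card_Ngb_le (A : Finset (Finset (Fin n))) (v : Finset (Fin n)) :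
    (Ngb A v).card ≤ n ^ 2 := by
  classical
  have h1 : Ngb A v ⊆ (univ : Finset (Fin n × Fin n)).image
      (fun p => insert p.2 (v.erase p.1)) := by
    intro u hu
    rw [mem_Ngb] at hu
    obtain ⟨_, h1, h2⟩ := hu
    have h3 : v ≠ u := by
      intro h
      rw [← h, sdiff_self, bot_eq_empty, card_empty] at h2
      exact absurd h2 (by norm_num)
    obtain ⟨x, _, y, _, rfl⟩ := exists_swap h1 h3 (by omega)
    rw [mem_image]
    exact ⟨(x, y), mem_univ _, rfl⟩
  refine (card_le_card h1).trans (card_image_le.trans ?_)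
  rw [card_univ, Fintype.card_prod, Fintype.card_fin, sq]

/-- Nearly stable families of `k`-sets. -/
theorem kw_level (k : ℕ) (V W : Finset (Finset (Fin n))) (hV : ∀ v ∈ V, v.card = k)
    (hWk : ∀ T ∈ W, T.card + 1 = k) (hW : ∀ v ∈ V, ∀ x ∈ v, v.erase x ∈ W) (hk : 1 ≤ k)
    (hkn : k ≤ n) (hn : 2 ≤ n) (U lam β : ℝ) (Δ : ℕ) (hU : (W.card : ℝ) ≤ U)
    (hU' : (V.card : ℝ) ≤ U) (hU2 : (k : ℝ) ^ 2 ≤ U) (h0 : 0 ≤ lam) (h1 : lam ≤ 1)
    (hβ : 1 ≤ β) (hξ : ((n : ℝ) ^ 2 + 1) ^ Δ * (n : ℝ) ^ 2 ≤ Real.exp β) :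
    Zn lam Δ V ≤ Real.exp (2 * lam * (U / k) + β * (2 * U / k ^ 2) * Real.log n) := by
  have hk0 : (1 : ℝ) ≤ k := by exact_mod_cast hk
  have hk1 : (0 : ℝ) < k := by linarith
  have hU0 : 0 < U := by nlinarith
  have hkn' : (k : ℝ) ≤ n := by exact_mod_cast hkn
  have hn' : (2 : ℝ) ≤ n := by exact_mod_cast hn
  set κ := 2 * U / (k : ℝ) ^ 2 with hκ
  have hκ2 : 2 ≤ κ := by
    rw [hκ, le_div_iff₀ (by positivity)]
    linarith
  have hy : 1 ≤ U / k := by
    rw [le_div_iff₀ hk1]
    nlinarith
  have hVn : (V.card : ℝ) ≤ κ * (n : ℝ) ^ 2 / 2 := by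
    have e1 : κ * (n : ℝ) ^ 2 / 2 = U * ((n : ℝ) ^ 2 / (k : ℝ) ^ 2) := by
      rw [hκ]
      field_simp
    rw [e1]
    have e2 : 1 ≤ (n : ℝ) ^ 2 / (k : ℝ) ^ 2 := by
      rw [le_div_iff₀ (by positivity), one_mul]
      exact pow_le_pow_left₀ hk1.le hkn' 2
    nlinarith
  have hmain := kw V lam κ (U / k) β Δ (n ^ 2) h0 h1 hκ2 hy hβ hn
    (fun v _ => card_Ngb_le V v) hVn (by push_cast; exact hξ) (by
      intro A hAV hA
      have hne : A.Nonempty := by
        rw [← card_pos]
        by_contra h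
        have h2 : A.card = 0 := by omega
        rw [h2] at hA
        push_cast at hA
        linarith
      obtain ⟨v, hv, hvd⟩ := exists_deg k W A (fun v hv => hV v (hAV hv)) hWk
        (fun v hv => hW v (hAV hv)) hne
      refine ⟨v, hv, ?_⟩
      have e1 : (k : ℝ) ^ 2 * A.card ≤ W.card * (k + (Ngb A v).card) := by exact_mod_cast hvd
      have e2 : (W.card : ℝ) * (k + (Ngb A v).card) ≤ U * (k + (Ngb A v).card) :=
        mul_le_mul_of_nonneg_right hU (by positivity)
      have e3 : 2 * (U * k) < (k : ℝ) ^ 2 * A.card := by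
        have h3 : 2 * (U / k) * (k : ℝ) ^ 2 < A.card * (k : ℝ) ^ 2 :=
          mul_lt_mul_of_pos_right hA (by positivity)
        have h4 : 2 * (U / k) * (k : ℝ) ^ 2 = 2 * (U * k) := by
          field_simp
        linarith
      rw [hκ, div_mul_eq_mul_div, le_div_iff₀ (by positivity)]
      nlinarith) V.card V Subset.rfl le_rfl
  refine hmain.trans (Real.exp_le_exp.2 ?_)
  have e5 : Real.log (max 1 (V.card / (U / k))) ≤ Real.log n := by
    apply Real.log_le_log (lt_of_lt_of_le one_pos (le_max_left _ _))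
    apply max_le (by linarith)
    rw [div_le_iff₀ (by positivity)]
    calc (V.card : ℝ) ≤ U := hU'
      _ = k * (U / k) := by field_simp
      _ ≤ n * (U / k) := mul_le_mul_of_nonneg_right hkn' (by positivity)
  have e6 : 0 ≤ β * κ := by positivity
  have := mul_le_mul_of_nonneg_left e5 e6
  linarith

end Pool.Agent.Matroid6d
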