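import Pool.Agent.Matroid6d.Replace

/-!
Many stable sets: grids of `r`-sets inside the family of all `r`-sets meeting a set `F` in more
than `ρ` elements.
-/

set_option autoImplicit false

namespace Pool.Agent.Matroid6d

open Finset

variable {n : ℕ}

/-- An `m × m` grid in the family `K`. -/
def IsGrid (m : ℕ) (K : Finset (Finset (Fin n))) (P : Fin m → Fin m → Finset (Fin n)) : Prop :=
  (∀ i j, P i j ∈ K) ∧ (∀ i j k l, i ≠ k → j ≠ l → 2 ≤ (P i j \ P k l).card) ∧
    (∀ i j k l, P i j = P k l → i = k ∧ j = l)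

lemma exists_stable_of_grid (m : ℕ) (K : Finset (Finset (Fin n)))
    (P : Fin m → Fin m → Finset (Fin n)) (hP : IsGrid m K P) :
    ∃ 𝒮 : Finset (Finset (Finset (Fin n))), (∀ S ∈ 𝒮, S ⊆ K ∧ Stable S) ∧
      m.factorial ≤ 𝒮.card := by
  classical
  obtain ⟨h1, h2, h3⟩ := hP
  refine ⟨univ.image (fun σ : Equiv.Perm (Fin m) => univ.image (fun i => P i (σ i))), ?_, ?_⟩
  · intro S hS
    rw [mem_image] at hS
    obtain ⟨σ, _, rfl⟩ := hS
    constructor
    · intro X hX
      rw [mem_image] at hX
      obtain ⟨i, _, rfl⟩ := hX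
      exact h1 _ _
    · intro X hX Y hY hne
      rw [mem_image] at hX hY
      obtain ⟨i, _, rfl⟩ := hX
      obtain ⟨k, _, rfl⟩ := hY
      have hik : i ≠ k := by
        rintro rfl
        exact hne rfl
      exact h2 _ _ _ _ hik (fun h => hik (σ.injective h))
  · rw [card_image_of_injective, card_univ, Fintype.card_perm, Fintype.card_fin]
    intro σ τ hστ
    apply Equiv.ext
    intro i
    have hmem : P i (σ i) ∈ univ.image (fun i => P i (τ i)) := by
      have : P i (σ i) ∈ univ.image (fun i => P i (σ i)) := mem_image_of_mem _ (mem_univ i)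
      simpa only [hστ] using this
    rw [mem_image] at hmem
    obtain ⟨k, _, hk⟩ := hmem
    obtain ⟨rfl, h⟩ := h3 _ _ _ _ hk
    exact h.symm

/-- Two disjoint injective lists of `m` elements each in a set with at least `2 m` elements. -/
lemma two_lists (m : ℕ) (W : Finset (Fin n)) (hW : 2 * m ≤ W.card) :
    ∃ a b : Fin m → Fin n, Function.Injective a ∧ Function.Injective b ∧
      (∀ i, a i ∈ W) ∧ (∀ i, b i ∈ W) ∧ ∀ i j, a i ≠ b j := by
  classical
  obtain ⟨W₁, hW₁, hc₁⟩ := exists_subset_card_eq (show m ≤ W.card by omega)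
  have hc : m ≤ (W \ W₁).card := by
    rw [card_sdiff_of_subset hW₁]; omega
  obtain ⟨W₂, hW₂, hc₂⟩ := exists_subset_card_eq hc
  refine ⟨W₁.orderEmbOfFin hc₁, W₂.orderEmbOfFin hc₂, (W₁.orderEmbOfFin hc₁).injective,
    (W₂.orderEmbOfFin hc₂).injective, fun i => hW₁ (orderEmbOfFin_mem _ _ _),
    fun i => (mem_sdiff.1 (hW₂ (orderEmbOfFin_mem _ _ _))).1, ?_⟩
  intro i j h
  have h1 := orderEmbOfFin_mem W₁ hc₁ i
  have h2 := (mem_sdiff.1 (hW₂ (orderEmbOfFin_mem W₂ hc₂ j))).2
  rw [← h] at h2
  exact h2 h1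

lemma one_list (m : ℕ) (W : Finset (Fin n)) (hW : m ≤ W.card) :
    ∃ a : Fin m → Fin n, Function.Injective a ∧ (∀ i, a i ∈ W) := by
  classical
  obtain ⟨W₁, hW₁, hc₁⟩ := exists_subset_card_eq hW
  exact ⟨W₁.orderEmbOfFin hc₁, (W₁.orderEmbOfFin hc₁).injective,
    fun i => hW₁ (orderEmbOfFin_mem _ _ _)⟩

lemma two_le_card_of_mem {A : Finset (Fin n)} {x y : Fin n} (hx : x ∈ A) (hy : y ∈ A)
    (hxy : x ≠ y) : 2 ≤ A.card := by
  rw [← card_pair hxy]
  exact card_le_card (insert_subset_iff.2 ⟨hx, singleton_subset_iff.2 hy⟩)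

/-- Grid of type I: remove two elements. -/
lemma grid_rr (m : ℕ) (K : Finset (Finset (Fin n))) (X₀ : Finset (Fin n)) (a b : Fin m → Fin n)
    (ha : Function.Injective a) (hb : Function.Injective b) (haX : ∀ i, a i ∈ X₀)
    (hbX : ∀ i, b i ∈ X₀) (hab : ∀ i j, a i ≠ b j)
    (hK : ∀ i j, (X₀.erase (a i)).erase (b j) ∈ K) :
    IsGrid m K (fun i j => (X₀.erase (a i)).erase (b j)) := by
  refine ⟨hK, ?_, ?_⟩
  · intro i j k l hik hjl
    refine two_le_card_of_mem (x := a k) (y := b l) ?_ ?_ (hab k l)
    · simp only [mem_sdiff, mem_erase]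
      refine ⟨⟨hab k j, fun h => hik (ha h).symm, haX k⟩, ?_⟩
      rintro ⟨_, h, _⟩
      exact h rfl
    · simp only [mem_sdiff, mem_erase]
      refine ⟨⟨fun h => hjl (hb h).symm, fun h => hab i l h.symm, hbX l⟩, ?_⟩
      rintro ⟨h, _⟩
      exact h rfl
  · intro i j k l h
    constructor
    · by_contra hik
      have h1 : a k ∈ (X₀.erase (a i)).erase (b j) := by
        simp only [mem_erase]
        exact ⟨hab k j, fun h => hik (ha h).symm, haX k⟩
      simp only at h
      rw [h] at h1
      simp at h1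
    · by_contra hjl
      have h1 : b l ∈ (X₀.erase (a i)).erase (b j) := by
        simp only [mem_erase]
        exact ⟨fun h => hjl (hb h).symm, fun h => hab i l h.symm, hbX l⟩
      simp only at h
      rw [h] at h1
      simp at h1

/-- Grid of type II: add two elements. -/
lemma grid_aa (m : ℕ) (K : Finset (Finset (Fin n))) (X₀ : Finset (Fin n)) (e f : Fin m → Fin n)
    (he : Function.Injective e) (hf : Function.Injective f) (heX : ∀ i, e i ∉ X₀)
    (hfX : ∀ i, f i ∉ X₀) (hef : ∀ i j, e i ≠ f j)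
    (hK : ∀ i j, insert (e i) (insert (f j) X₀) ∈ K) :
    IsGrid m K (fun i j => insert (e i) (insert (f j) X₀)) := by
  refine ⟨hK, ?_, ?_⟩
  · intro i j k l hik hjl
    refine two_le_card_of_mem (x := e i) (y := f j) ?_ ?_ (hef i j)
    · simp only [mem_sdiff, mem_insert]
      refine ⟨Or.inl trivial, ?_⟩
      rintro (h | h | h)
      · exact hik (he h)
      · exact hef i l h
      · exact heX i h
    · simp only [mem_sdiff, mem_insert]
      refine ⟨Or.inr (Or.inl trivial), ?_⟩
      rintro (h | h | h)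
      · exact hef k j h.symm
      · exact hjl (hf h)
      · exact hfX j h
  · intro i j k l h
    simp only at h
    constructor
    · have h1 : e i ∈ insert (e k) (insert (f l) X₀) := by
        rw [← h]; exact mem_insert_self _ _
      simp only [mem_insert] at h1
      rcases h1 with h1 | h1 | h1
      · exact he h1
      · exact absurd h1 (hef i l)
      · exact absurd h1 (heX i)
    · have h1 : f j ∈ insert (e k) (insert (f l) X₀) := by
        rw [← h]; exact mem_insert_of_mem (mem_insert_self _ _)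
      simp only [mem_insert] at h1
      rcases h1 with h1 | h1 | h1
      · exact absurd h1.symm (hef k j)
      · exact hf h1
      · exact absurd h1 (hfX j)

/-- Grid of type III: remove one element and add one. -/
lemma grid_ra (m : ℕ) (K : Finset (Finset (Fin n))) (X₀ : Finset (Fin n)) (a e : Fin m → Fin n)
    (ha : Function.Injective a) (he : Function.Injective e) (haX : ∀ i, a i ∈ X₀)
    (heX : ∀ i, e i ∉ X₀)
    (hK : ∀ i j, insert (e j) (X₀.erase (a i)) ∈ K) :
    IsGrid m K (fun i j => insert (e j) (X₀.erase (a i))) := by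
  have hae : ∀ i j, a i ≠ e j := fun i j h => heX j (h ▸ haX i)
  refine ⟨hK, ?_, ?_⟩
  · intro i j k l hik hjl
    refine two_le_card_of_mem (x := a k) (y := e j) ?_ ?_ (hae k j)
    · simp only [mem_sdiff, mem_insert, mem_erase]
      refine ⟨Or.inr ⟨fun h => hik (ha h).symm, haX k⟩, ?_⟩
      rintro (h | ⟨h, _⟩)
      · exact hae k l h
      · exact h rfl
    · simp only [mem_sdiff, mem_insert, mem_erase]
      refine ⟨Or.inl trivial, ?_⟩
      rintro (h | ⟨_, h⟩)
      · exact hjl (he h)
      · exact heX j h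
  · intro i j k l h
    simp only at h
    constructor
    · by_contra hik
      have h1 : a k ∈ insert (e j) (X₀.erase (a i)) := by
        simp only [mem_insert, mem_erase]
        exact Or.inr ⟨fun h => hik (ha h).symm, haX k⟩
      rw [h] at h1
      simp only [mem_insert, mem_erase] at h1
      rcases h1 with h1 | ⟨h1, _⟩
      · exact hae k l h1
      · exact h1 rfl
    · have h1 : e j ∈ insert (e l) (X₀.erase (a k)) := by
        rw [← h]; exact mem_insert_self _ _
      simp only [mem_insert, mem_erase] at h1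
      rcases h1 with h1 | ⟨_, h1⟩
      · exact he h1
      · exact absurd h1 (heX j)

end Pool.Agent.Matroid6d
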