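import Pool.Agent.Matroid6d.Grid

/-!
The grid in the family `KF r F ρ` of all `r`-sets meeting `F` in more than `ρ` elements.
-/

set_option autoImplicit false

namespace Pool.Agent.Matroid6d

open Finset

variable {n : ℕ}

/-- The `r`-sets with more than `ρ` elements in `F`. -/
def KF (r : ℕ) (F : Finset (Fin n)) (ρ : ℕ) : Finset (Finset (Fin n)) :=
  univ.filter (fun X => X.card = r ∧ ρ < (X ∩ F).card)

lemma mem_KF {r : ℕ} {F : Finset (Fin n)} {ρ : ℕ} {X : Finset (Fin n)} :
    X ∈ KF r F ρ ↔ X.card = r ∧ ρ < (X ∩ F).card := by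
  unfold KF
  rw [mem_filter]
  exact ⟨fun h => h.2, fun h => ⟨mem_univ _, h⟩⟩

/-- A set made of a part inside `F` and a part outside. -/
lemma card_parts {F W V : Finset (Fin n)} (hW : W ⊆ F) (hV : V ⊆ univ \ F) :
    (W ∪ V).card = W.card + V.card ∧ (W ∪ V) ∩ F = W := by
  have hd : Disjoint W V := by
    rw [disjoint_left]
    intro x hx hxV
    exact (mem_sdiff.1 (hV hxV)).2 (hW hx)
  refine ⟨card_union_of_disjoint hd, ?_⟩
  ext x
  simp only [mem_inter, mem_union]
  constructor
  · rintro ⟨h | h, hF⟩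
    · exact h
    · exact absurd hF (mem_sdiff.1 (hV h)).2
  · intro h
    exact ⟨Or.inl h, hW h⟩

theorem grid_KF (r ρ m : ℕ) (F : Finset (Fin n)) (hm : 1 ≤ m) (h1 : ρ < F.card) (h2 : ρ < r)
    (h3 : 2 * ρ + 4 ≤ F.card + r) (h4 : F.card + r ≤ n + ρ) (h5 : 4 * m + 2 ≤ r)
    (h6 : r + 4 * m + 2 ≤ n) :
    ∃ P : Fin m → Fin m → Finset (Fin n), IsGrid m (KF r F ρ) P := by
  classical
  have hFn : F.card ≤ n := by simpa using card_le_univ F
  have hFc : (univ \ F).card = n - F.card := by
    rw [card_sdiff_of_subset (subset_univ F), card_univ, Fintype.card_fin]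
  -- the four cases
  by_cases c1 : ρ + 3 ≤ F.card ∧ 2 * m ≤ ρ + 3
  · -- type I: remove two elements of `W ⊆ F`, `|W| = ρ + 3`
    obtain ⟨W, hWF, hWc⟩ := exists_subset_card_eq c1.1
    obtain ⟨V, hVF, hVc⟩ := exists_subset_card_eq (show r - ρ - 1 ≤ (univ \ F).card by omega)
    obtain ⟨a, b, ha, hb, haW, hbW, hab⟩ := two_lists m W (by omega)
    obtain ⟨hc, hi⟩ := card_parts hWF hVF
    refine ⟨_, grid_rr m _ (W ∪ V) a b ha hb (fun i => mem_union_left _ (haW i))
      (fun i => mem_union_left _ (hbW i)) hab ?_⟩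
    intro i j
    rw [mem_KF]
    constructor
    · rw [card_erase_of_mem, card_erase_of_mem (mem_union_left _ (haW i)), hc, hWc, hVc]
      · omega
      · rw [mem_erase]
        exact ⟨fun h => hab i j h.symm, mem_union_left _ (hbW j)⟩
    · rw [erase_inter, erase_inter, hi, card_erase_of_mem, card_erase_of_mem (haW i), hWc]
      · omega
      · rw [mem_erase]
        exact ⟨fun h => hab i j h.symm, hbW j⟩
  by_cases c2 : ρ + 3 ≤ r ∧ 2 * m + F.card + r ≤ n + ρ + 3
  · -- type II: add two elements outside `F`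
    obtain ⟨W, hWF, hWc⟩ := exists_subset_card_eq (show ρ + 1 ≤ F.card by omega)
    obtain ⟨V, hVF, hVc⟩ := exists_subset_card_eq (show r - ρ - 3 ≤ (univ \ F).card by omega)
    obtain ⟨e, f, he, hf, heW, hfW, hef⟩ := two_lists m ((univ \ F) \ V) (by
      rw [card_sdiff_of_subset hVF, hFc, hVc]; omega)
    obtain ⟨hc, hi⟩ := card_parts hWF hVF
    have hnot : ∀ x, x ∈ (univ \ F) \ V → x ∉ W ∪ V := by
      intro x hx
      rw [mem_sdiff, mem_sdiff] at hx
      rw [mem_union]
      rintro (h | h)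
      · exact hx.1.2 (hWF h)
      · exact hx.2 h
    refine ⟨_, grid_aa m _ (W ∪ V) e f he hf (fun i => hnot _ (heW i))
      (fun i => hnot _ (hfW i)) hef ?_⟩
    intro i j
    rw [mem_KF]
    constructor
    · rw [card_insert_of_notMem, card_insert_of_notMem (hnot _ (hfW j)), hc, hWc, hVc]
      · omega
      · rw [mem_insert]
        rintro (h | h)
        · exact hef i j h
        · exact hnot _ (heW i) h
    · have hsub : W ⊆ insert (e i) (insert (f j) (W ∪ V)) ∩ F := by
        intro x hx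
        rw [mem_inter]
        exact ⟨mem_insert_of_mem (mem_insert_of_mem (mem_union_left _ hx)), hWF hx⟩
      have := card_le_card hsub
      omega
  by_cases c3 : ρ + 2 ≤ F.card ∧ ρ + 2 ≤ r ∧ m ≤ ρ + 2 ∧ m + F.card + r ≤ n + ρ + 2
  · -- type III: remove one element of `W ⊆ F`, add one outside
    obtain ⟨W, hWF, hWc⟩ := exists_subset_card_eq c3.1
    obtain ⟨V, hVF, hVc⟩ := exists_subset_card_eq (show r - ρ - 2 ≤ (univ \ F).card by omega)
    obtain ⟨a, ha, haW⟩ := one_list m W (by omega)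
    obtain ⟨e, he, heW⟩ := one_list m ((univ \ F) \ V) (by
      rw [card_sdiff_of_subset hVF, hFc, hVc]; omega)
    obtain ⟨hc, hi⟩ := card_parts hWF hVF
    have hnot : ∀ x, x ∈ (univ \ F) \ V → x ∉ W ∪ V := by
      intro x hx
      rw [mem_sdiff, mem_sdiff] at hx
      rw [mem_union]
      rintro (h | h)
      · exact hx.1.2 (hWF h)
      · exact hx.2 h
    refine ⟨_, grid_ra m _ (W ∪ V) a e ha he (fun i => mem_union_left _ (haW i))
      (fun i => hnot _ (heW i)) ?_⟩
    intro i j
    rw [mem_KF]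
    constructor
    · rw [card_swap (mem_union_left _ (haW i)) (hnot _ (heW j)), hc, hWc, hVc]
      omega
    · have hsub : W.erase (a i) ⊆ insert (e j) ((W ∪ V).erase (a i)) ∩ F := by
        intro x hx
        rw [mem_erase] at hx
        rw [mem_inter]
        exact ⟨mem_insert_of_mem (mem_erase.2 ⟨hx.1, mem_union_left _ hx.2⟩), hWF hx.2⟩
      have := card_le_card hsub
      rw [card_erase_of_mem (haW i)] at this
      omega
  · -- the fourth case
    have c4 : ρ + 1 + m ≤ F.card ∧ ρ + 1 + m ≤ r := by omega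
    obtain ⟨W, hWF, hWc⟩ := exists_subset_card_eq (show ρ + 1 ≤ F.card by omega)
    obtain ⟨V, hVF, hVc⟩ := exists_subset_card_eq (show r - ρ - 1 ≤ (univ \ F).card by omega)
    obtain ⟨a, ha, haV⟩ := one_list m V (by omega)
    obtain ⟨e, he, heF⟩ := one_list m (F \ W) (by
      rw [card_sdiff_of_subset hWF, hWc]; omega)
    obtain ⟨hc, hi⟩ := card_parts hWF hVF
    have hnot : ∀ x, x ∈ F \ W → x ∉ W ∪ V := by
      intro x hx
      rw [mem_sdiff] at hx
      rw [mem_union]
      rintro (h | h)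
      · exact hx.2 h
      · exact (mem_sdiff.1 (hVF h)).2 hx.1
    refine ⟨_, grid_ra m _ (W ∪ V) a e ha he (fun i => mem_union_right _ (haV i))
      (fun i => hnot _ (heF i)) ?_⟩
    intro i j
    rw [mem_KF]
    constructor
    · rw [card_swap (mem_union_right _ (haV i)) (hnot _ (heF j)), hc, hWc, hVc]
      omega
    · have hsub : W ⊆ insert (e j) ((W ∪ V).erase (a i)) ∩ F := by
        intro x hx
        rw [mem_inter]
        refine ⟨mem_insert_of_mem (mem_erase.2 ⟨?_, mem_union_left _ hx⟩), hWF hx⟩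
        rintro rfl
        exact (mem_sdiff.1 (hVF (haV i))).2 (hWF hx)
      have := card_le_card hsub
      omega

end Pool.Agent.Matroid6d
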