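import Pool.Agent.Matroid6d.KW

/-!
Sets that miss a member of a family of small sets, and the weight of the nearly stable families of
such sets.
-/

set_option autoImplicit false

namespace Pool.Agent.Matroid6d

open Finset

variable {n : ℕ}

open Classical in
/-- The `k`-sets that are disjoint from a member of `𝒟`. -/
noncomputable def miss (k : ℕ) (𝒟 : Finset (Finset (Fin n))) : Finset (Finset (Fin n)) :=
  (powersetCard k univ).filter (fun Z => ∃ D ∈ 𝒟, Disjoint Z D)

lemma mem_miss {k : ℕ} {𝒟 : Finset (Finset (Fin n))} {Z : Finset (Fin n)} :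
    Z ∈ miss k 𝒟 ↔ Z.card = k ∧ ∃ D ∈ 𝒟, Disjoint Z D := by
  classical
  simp only [miss, mem_filter, mem_powersetCard, subset_univ, true_and]

lemma card_miss_succ (k q : ℕ) (𝒟 : Finset (Finset (Fin n))) (hq : ∀ D ∈ 𝒟, D.card ≤ q) :
    (miss k 𝒟).card * (n - k - q) ≤ (miss (k + 1) 𝒟).card * (k + 1) := by
  classical
  apply card_mul_le_card_mul (fun Z Z' : Finset (Fin n) => Z ⊆ Z')
  · intro Z hZ
    rw [mem_miss] at hZ
    obtain ⟨hZk, D, hD, hdis⟩ := hZ
    have h1 : n - k - q ≤ (univ \ (Z ∪ D)).card := by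
      rw [card_sdiff_of_subset (subset_univ _), card_univ, Fintype.card_fin]
      have := card_union_le Z D
      have := hq D hD
      omega
    refine h1.trans ?_
    apply card_le_card_of_injOn (fun x => insert x Z)
    · intro x hx
      rw [mem_coe, mem_sdiff, mem_union, not_or] at hx
      rw [mem_coe, mem_bipartiteAbove, mem_miss]
      refine ⟨⟨by rw [card_insert_of_notMem hx.2.1, hZk], D, hD, ?_⟩, subset_insert _ _⟩
      rw [disjoint_left] at hdis ⊢
      intro a ha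
      rw [mem_insert] at ha
      rcases ha with rfl | ha
      · exact hx.2.2
      · exact hdis ha
    · intro x hx y hy h
      rw [mem_coe, mem_sdiff, mem_union, not_or] at hx hy
      simp only at h
      have : x ∈ insert y Z := h ▸ mem_insert_self _ _
      rw [mem_insert] at this
      rcases this with h | h
      · exact h
      · exact absurd h hx.2.1
  · intro Z' hZ'
    rw [mem_miss] at hZ'
    calc (bipartiteBelow (fun Z Z' : Finset (Fin n) => Z ⊆ Z') (miss k 𝒟) Z').card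
        ≤ (powersetCard k Z').card := by
          apply card_le_card
          intro Z hZ
          rw [mem_bipartiteBelow, mem_miss] at hZ
          exact mem_powersetCard.2 ⟨hZ.2, hZ.1.1⟩
      _ = k + 1 := by rw [card_powersetCard, hZ'.1, Nat.choose_succ_self_right]

lemma card_miss_le (m q : ℕ) (𝒟 : Finset (Finset (Fin n))) (hq : ∀ D ∈ 𝒟, D.card ≤ q)
    (h1 : 8 * m ≤ 7 * n) (h2 : 64 * q ≤ n) :
    ∀ j, j ≤ m → (miss (m - j) 𝒟).card ≤ 8 ^ j * (miss m 𝒟).card := by
  intro j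
  induction j with
  | zero =>
    intro _
    simp
  | succ j ih =>
    intro hj
    have h3 := ih (by omega)
    have h4 := card_miss_succ (m - (j + 1)) q 𝒟 hq
    have h5 : m - (j + 1) + 1 = m - j := by omega
    rw [h5] at h4
    have h6 : m - j ≤ 8 * (n - (m - (j + 1)) - q) := by omega
    have h7 : 0 < n - (m - (j + 1)) - q := by omega
    have h8 : (miss (m - (j + 1)) 𝒟).card * (n - (m - (j + 1)) - q) ≤
        8 * (miss (m - j) 𝒟).card * (n - (m - (j + 1)) - q) := by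
      calc (miss (m - (j + 1)) 𝒟).card * (n - (m - (j + 1)) - q)
          ≤ (miss (m - j) 𝒟).card * (m - j) := h4
        _ ≤ (miss (m - j) 𝒟).card * (8 * (n - (m - (j + 1)) - q)) := Nat.mul_le_mul_left _ h6
        _ = _ := by ring
    have h9 := Nat.le_of_mul_le_mul_right h8 h7
    calc (miss (m - (j + 1)) 𝒟).card ≤ 8 * (miss (m - j) 𝒟).card := h9
      _ ≤ 8 * (8 ^ j * (miss m 𝒟).card) := Nat.mul_le_mul_left _ h3
      _ = 8 ^ (j + 1) * (miss m 𝒟).card := by ring

/-- The weighted number of nearly stable subfamilies, for a general weight. -/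
noncomputable def Zw (w : Finset (Fin n) → ℝ) (Δ : ℕ) (A : Finset (Finset (Fin n))) : ℝ :=
  ∑ X ∈ nsSub Δ A, ∏ v ∈ X, w v

lemma Zw_nonneg (w : Finset (Fin n) → ℝ) (hw : ∀ v, 0 ≤ w v) (Δ : ℕ)
    (A : Finset (Finset (Fin n))) : 0 ≤ Zw w Δ A :=
  sum_nonneg (fun _ _ => prod_nonneg (fun _ _ => hw _))

lemma Zw_union (w : Finset (Fin n) → ℝ) (hw : ∀ v, 0 ≤ w v) (Δ : ℕ)
    (A B : Finset (Finset (Fin n))) (hAB : Disjoint A B) :
    Zw w Δ (A ∪ B) ≤ Zw w Δ A * Zw w Δ B := by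
  classical
  unfold Zw
  set φ : Finset (Finset (Fin n)) → Finset (Finset (Fin n)) × Finset (Finset (Fin n)) :=
    fun X => (X ∩ A, X ∩ B) with hφ
  have hun : ∀ X ∈ nsSub Δ (A ∪ B), X = (X ∩ A) ∪ (X ∩ B) := by
    intro X hX
    rw [← inter_union_distrib_left]
    exact (inter_eq_left.2 (mem_nsSub.1 hX).1).symm
  have hinj : Set.InjOn φ (nsSub Δ (A ∪ B) : Set (Finset (Finset (Fin n)))) := by
    intro X hX Y hY h
    rw [hφ, Prod.mk.injEq] at h
    rw [hun X hX, hun Y hY, h.1, h.2]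
  calc ∑ X ∈ nsSub Δ (A ∪ B), ∏ v ∈ X, w v
      = ∑ X ∈ nsSub Δ (A ∪ B), (∏ v ∈ (φ X).1, w v) * ∏ v ∈ (φ X).2, w v := by
        refine sum_congr rfl (fun X hX => ?_)
        have h1 : Disjoint (X ∩ A) (X ∩ B) :=
          disjoint_of_subset_left inter_subset_right
            (disjoint_of_subset_right inter_subset_right hAB)
        rw [hφ]
        simp only
        rw [← prod_union h1, ← hun X hX]
    _ = ∑ p ∈ (nsSub Δ (A ∪ B)).image φ, (∏ v ∈ p.1, w v) * ∏ v ∈ p.2, w v :=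
        (sum_image (f := fun p : Finset (Finset (Fin n)) × Finset (Finset (Fin n)) =>
          (∏ v ∈ p.1, w v) * ∏ v ∈ p.2, w v) hinj).symm
    _ ≤ ∑ p ∈ nsSub Δ A ×ˢ nsSub Δ B, (∏ v ∈ p.1, w v) * ∏ v ∈ p.2, w v := by
        apply sum_le_sum_of_subset_of_nonneg
        · intro p hp
          rw [mem_image] at hp
          obtain ⟨X, hX, rfl⟩ := hp
          rw [mem_nsSub] at hX
          rw [mem_product, mem_nsSub, mem_nsSub]
          exact ⟨⟨inter_subset_right, NS_mono hX.2 inter_subset_left⟩,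
            inter_subset_right, NS_mono hX.2 inter_subset_left⟩
        · intro p _ _
          exact mul_nonneg (prod_nonneg (fun _ _ => hw _)) (prod_nonneg (fun _ _ => hw _))
    _ = _ := by rw [sum_mul_sum, sum_product]

lemma nsSub_empty (Δ : ℕ) : nsSub Δ (∅ : Finset (Finset (Fin n))) = {∅} := by
  ext X
  rw [mem_nsSub, mem_singleton, subset_empty]
  constructor
  · exact fun h => h.1
  · rintro rfl
    exact ⟨rfl, fun v hv => absurd hv (notMem_empty v)⟩

lemma Zw_biUnion {ι : Type} [DecidableEq ι] (w : Finset (Fin n) → ℝ) (hw : ∀ v, 0 ≤ w v)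
    (Δ : ℕ) (V : ι → Finset (Finset (Fin n))) (T : Finset ι)
    (hdis : ∀ i ∈ T, ∀ j ∈ T, i ≠ j → Disjoint (V i) (V j)) :
    Zw w Δ (T.biUnion V) ≤ ∏ i ∈ T, Zw w Δ (V i) := by
  classical
  induction T using Finset.induction_on with
  | empty =>
    rw [biUnion_empty, prod_empty]
    unfold Zw
    rw [nsSub_empty, sum_singleton, prod_empty]
  | insert i T hi ih =>
    rw [biUnion_insert, prod_insert hi]
    refine (Zw_union w hw Δ _ _ ?_).trans ?_
    · rw [disjoint_biUnion_right]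
      intro j hj
      exact hdis i (mem_insert_self _ _) j (mem_insert_of_mem hj) (fun h => hi (h ▸ hj))
    · apply mul_le_mul_of_nonneg_left _ (Zw_nonneg w hw Δ _)
      exact ih (fun a ha b hb => hdis a (mem_insert_of_mem ha) b (mem_insert_of_mem hb))

/-- The region of the sets of size between `m - A` and `m - 2` that miss a small set. -/
noncomputable def region (m A : ℕ) (𝒟 : Finset (Finset (Fin n))) : Finset (Finset (Fin n)) :=
  (Icc 2 A).biUnion (fun a => miss (m - a) 𝒟)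

/-- The weight of a family. -/
noncomputable def wX (m : ℕ) (X : Finset (Finset (Fin n))) : ℝ :=
  ∏ v ∈ X, ((1 : ℝ) / 2) ^ (64 * (m - v.card))

/-- The weight of the nearly stable families of sets that miss a small set. -/
theorem region_sum (m A q Δ : ℕ) (𝒟 : Finset (Finset (Fin n))) (hq : ∀ D ∈ 𝒟, D.card ≤ q)
    (h1 : n ≤ 8 * m) (h2 : 8 * m ≤ 7 * n) (h3 : 64 * q ≤ n) (h4 : 32 * A ≤ n) (hn : 64 ≤ n)
    (U : ℝ) (hU : ((miss m 𝒟).card : ℝ) ≤ U) (hU2 : (n : ℝ) ^ 2 ≤ U) (β : ℝ) (hβ : 1 ≤ β)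
    (hξ : ((n : ℝ) ^ 2 + 1) ^ Δ * (n : ℝ) ^ 2 ≤ Real.exp β)
    (hnum : 512 * β * 8 ^ (A + 1) * Real.log n * A ≤ n / 1000) :
    ∑ X ∈ nsSub Δ (region m A 𝒟), wX m X ≤ Real.exp (U / (500 * n)) := by
  classical
  have hn0 : (64 : ℝ) ≤ n := by exact_mod_cast hn
  have hnpos : (0 : ℝ) < n := by linarith
  have hU0 : 0 ≤ U := by nlinarith
  set w : Finset (Fin n) → ℝ := fun v => ((1 : ℝ) / 2) ^ (64 * (m - v.card)) with hw
  have hw0 : ∀ v, 0 ≤ w v := fun v => by rw [hw]; positivity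
  have hstart : ∑ X ∈ nsSub Δ (region m A 𝒟), wX m X = Zw w Δ (region m A 𝒟) := rfl
  rw [hstart]
  unfold region
  refine (Zw_biUnion w hw0 Δ (fun a => miss (m - a) 𝒟) (Icc 2 A) ?_).trans ?_
  · intro a ha b hb hab
    rw [mem_Icc] at ha hb
    rw [disjoint_left]
    intro Z hZ hZ'
    rw [mem_miss] at hZ hZ'
    have := hZ.1
    have := hZ'.1
    omega
  have key : ∀ a ∈ Icc 2 A, Zw w Δ (miss (m - a) 𝒟) ≤
      Real.exp (U / n * ((1 / 2) ^ a / 500 + 512 * β * 8 ^ (A + 1) * Real.log n / n)) := by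
    intro a ha
    rw [mem_Icc] at ha
    have hk1 : 1 ≤ m - a := by omega
    have hconst : Zw w Δ (miss (m - a) 𝒟) = Zn (((1 : ℝ) / 2) ^ (64 * a)) Δ (miss (m - a) 𝒟) := by
      unfold Zw Zn
      refine sum_congr rfl (fun X hX => ?_)
      rw [← prod_const]
      refine prod_congr rfl (fun v hv => ?_)
      have := (mem_miss.1 ((mem_nsSub.1 hX).1 hv)).1
      rw [hw]
      simp only
      congr 2
      omega
    rw [hconst]
    have hm1 := card_miss_le m q 𝒟 hq h2 h3 (a + 1) (by omega)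
    have hm2 := card_miss_le m q 𝒟 hq h2 h3 a (by omega)
    have g0 : (1 : ℝ) ≤ 8 ^ (a + 1) := one_le_pow₀ (by norm_num)
    have g1 : ((miss (m - (a + 1)) 𝒟).card : ℝ) ≤ 8 ^ (a + 1) * U := by
      calc ((miss (m - (a + 1)) 𝒟).card : ℝ) ≤ 8 ^ (a + 1) * (miss m 𝒟).card := by
            exact_mod_cast hm1
        _ ≤ 8 ^ (a + 1) * U := mul_le_mul_of_nonneg_left hU (by positivity)
    have g2 : ((miss (m - a) 𝒟).card : ℝ) ≤ 8 ^ (a + 1) * U := by
      calc ((miss (m - a) 𝒟).card : ℝ) ≤ 8 ^ a * (miss m 𝒟).card := by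
            exact_mod_cast hm2
        _ ≤ 8 ^ a * U := mul_le_mul_of_nonneg_left hU (by positivity)
        _ ≤ 8 ^ (a + 1) * U := by
            apply mul_le_mul_of_nonneg_right _ hU0
            exact pow_le_pow_right₀ (by norm_num) (by omega)
    have hkn : ((m - a : ℕ) : ℝ) ≤ n := by
      have : m - a ≤ n := by omega
      exact_mod_cast this
    have hk16 : (n : ℝ) ≤ 16 * ((m - a : ℕ) : ℝ) := by
      have : n ≤ 16 * (m - a) := by omega
      exact_mod_cast this
    have hkpos : (0 : ℝ) < ((m - a : ℕ) : ℝ) := by linarith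
    have g3 : (((m - a : ℕ) : ℝ)) ^ 2 ≤ 8 ^ (a + 1) * U := by
      calc (((m - a : ℕ) : ℝ)) ^ 2 ≤ (n : ℝ) ^ 2 := pow_le_pow_left₀ hkpos.le hkn 2
        _ ≤ U := hU2
        _ ≤ 8 ^ (a + 1) * U := by nlinarith
    have hlev := kw_level (m - a) (miss (m - a) 𝒟) (miss (m - (a + 1)) 𝒟)
      (fun v hv => (mem_miss.1 hv).1) (fun T hT => by have := (mem_miss.1 hT).1; omega)
      (fun v hv x hx => by
        rw [mem_miss] at hv ⊢
        obtain ⟨e1, D, hD, e2⟩ := hv
        refine ⟨by rw [card_erase_of_mem hx]; omega, D, hD,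
          disjoint_of_subset_left (erase_subset _ _) e2⟩)
      hk1 (by omega) (by omega) (8 ^ (a + 1) * U) (((1 : ℝ) / 2) ^ (64 * a)) β Δ g1 g2 g3
      (by positivity) (pow_le_one₀ (by norm_num) (by norm_num)) hβ hξ
    refine hlev.trans (Real.exp_le_exp.2 ?_)
    have hlogn : 0 ≤ Real.log n := Real.log_nonneg (by linarith)
    have i1 : U / ((m - a : ℕ) : ℝ) ≤ 16 * (U / n) := by
      rw [div_le_iff₀ hkpos]
      have : 16 * (U / n) * ((m - a : ℕ) : ℝ) = U * (16 * ((m - a : ℕ) : ℝ) / n) := by ring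
      rw [this]
      have h5 : 1 ≤ 16 * ((m - a : ℕ) : ℝ) / n := by
        rw [le_div_iff₀ hnpos]
        linarith
      nlinarith
    have i2 : U / ((m - a : ℕ) : ℝ) ^ 2 ≤ 256 * (U / n ^ 2) := by
      rw [div_le_iff₀ (by positivity)]
      have : 256 * (U / (n : ℝ) ^ 2) * ((m - a : ℕ) : ℝ) ^ 2 =
          U * ((16 * ((m - a : ℕ) : ℝ)) ^ 2 / (n : ℝ) ^ 2) := by ring
      rw [this]
      have h5 : 1 ≤ (16 * ((m - a : ℕ) : ℝ)) ^ 2 / (n : ℝ) ^ 2 := by
        rw [le_div_iff₀ (by positivity), one_mul]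
        exact pow_le_pow_left₀ hnpos.le hk16 2
      nlinarith
    have i3 : 32 * (((1 : ℝ) / 2) ^ (64 * a) * 8 ^ (a + 1)) ≤ (1 / 2) ^ a / 500 := by
      have e1 : (8 : ℝ) ^ (a + 1) = 2 ^ (3 * (a + 1)) := by
        rw [pow_mul]
        norm_num
      have e2 : ((1 : ℝ) / 2) ^ (64 * a) * 2 ^ (3 * (a + 1)) ≤ (1 / 2) ^ a * (1 / 2) ^ 20 := by
        have e3 : 64 * a = 3 * (a + 1) + (61 * a - 3) := by omega
        rw [e3, pow_add, mul_right_comm, ← mul_pow, show (1 : ℝ) / 2 * 2 = 1 by norm_num,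
          one_pow, one_mul, ← pow_add]
        apply pow_le_pow_of_le_one (by norm_num) (by norm_num)
        omega
      rw [e1]
      have e4 : (0 : ℝ) ≤ (1 / 2) ^ a := by positivity
      calc 32 * (((1 : ℝ) / 2) ^ (64 * a) * 2 ^ (3 * (a + 1))) ≤
            32 * ((1 / 2) ^ a * (1 / 2) ^ 20) := mul_le_mul_of_nonneg_left e2 (by norm_num)
        _ = (1 / 2) ^ a * (32 * (1 / 2) ^ 20) := by ring
        _ ≤ (1 / 2) ^ a * (1 / 500) := by
            apply mul_le_mul_of_nonneg_left _ e4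
            norm_num
        _ = (1 / 2) ^ a / 500 := by ring
    have i4 : (8 : ℝ) ^ (a + 1) ≤ 8 ^ (A + 1) := pow_le_pow_right₀ (by norm_num) (by omega)
    have hUn : 0 ≤ U / n := by positivity
    have j1 : 2 * ((1 : ℝ) / 2) ^ (64 * a) * (8 ^ (a + 1) * U / ((m - a : ℕ) : ℝ)) ≤
        U / n * ((1 / 2) ^ a / 500) := by
      calc 2 * ((1 : ℝ) / 2) ^ (64 * a) * (8 ^ (a + 1) * U / ((m - a : ℕ) : ℝ))
          = 2 * (((1 : ℝ) / 2) ^ (64 * a) * 8 ^ (a + 1)) * (U / ((m - a : ℕ) : ℝ)) := by ring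
        _ ≤ 2 * (((1 : ℝ) / 2) ^ (64 * a) * 8 ^ (a + 1)) * (16 * (U / n)) :=
            mul_le_mul_of_nonneg_left i1 (by positivity)
        _ = U / n * (32 * (((1 : ℝ) / 2) ^ (64 * a) * 8 ^ (a + 1))) := by ring
        _ ≤ _ := mul_le_mul_of_nonneg_left i3 hUn
    have j2 : β * (2 * (8 ^ (a + 1) * U) / ((m - a : ℕ) : ℝ) ^ 2) * Real.log n ≤
        U / n * (512 * β * 8 ^ (A + 1) * Real.log n / n) := by
      calc β * (2 * (8 ^ (a + 1) * U) / ((m - a : ℕ) : ℝ) ^ 2) * Real.log n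
          = 2 * β * 8 ^ (a + 1) * Real.log n * (U / ((m - a : ℕ) : ℝ) ^ 2) := by ring
        _ ≤ 2 * β * 8 ^ (A + 1) * Real.log n * (256 * (U / n ^ 2)) := by
            apply mul_le_mul _ i2 (by positivity) (by positivity)
            apply mul_le_mul_of_nonneg_right _ hlogn
            apply mul_le_mul_of_nonneg_left i4 (by positivity)
        _ = _ := by ring
    calc 2 * ((1 : ℝ) / 2) ^ (64 * a) * (8 ^ (a + 1) * U / ((m - a : ℕ) : ℝ)) +
          β * (2 * (8 ^ (a + 1) * U) / ((m - a : ℕ) : ℝ) ^ 2) * Real.log n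
        ≤ U / n * ((1 / 2) ^ a / 500) + U / n * (512 * β * 8 ^ (A + 1) * Real.log n / n) :=
          add_le_add j1 j2
      _ = _ := by ring
  refine (prod_le_prod (fun a _ => Zw_nonneg w hw0 Δ _) key).trans ?_
  rw [← Real.exp_sum]
  apply Real.exp_le_exp.2
  rw [← mul_sum, sum_add_distrib, sum_const, nsmul_eq_mul]
  have hgeo : ∑ a ∈ Icc 2 A, ((1 : ℝ) / 2) ^ a / 500 ≤ 1 / 1000 := by
    have h5 : ∀ k : ℕ, ∑ a ∈ Icc 2 (k + 1), ((1 : ℝ) / 2) ^ a / 500 ≤
        (1 / 2 - (1 / 2) ^ (k + 1)) / 500 := by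
      intro k
      induction k with
      | zero => simp
      | succ k ih =>
        rw [sum_Icc_succ_top (by omega)]
        have : ((1 : ℝ) / 2) ^ (k + 1 + 1) = 1 / 2 * (1 / 2) ^ (k + 1) := by rw [pow_succ]; ring
        rw [this] at *
        linarith
    rcases Nat.eq_zero_or_pos A with h0 | h0
    · subst h0
      norm_num
    · obtain ⟨k, rfl⟩ : ∃ k, A = k + 1 := ⟨A - 1, by omega⟩
      refine (h5 k).trans ?_
      have : (0 : ℝ) ≤ (1 / 2) ^ (k + 1) := by positivity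
      linarith
  have hlogn : 0 ≤ Real.log n := Real.log_nonneg (by linarith)
  have hcnt : ((Icc 2 A).card : ℝ) * (512 * β * 8 ^ (A + 1) * Real.log n / n) ≤ 1 / 1000 := by
    have h5 : ((Icc 2 A).card : ℝ) ≤ A := by
      rw [Nat.card_Icc]
      have : A + 1 - 2 ≤ A := by omega
      exact_mod_cast this
    calc ((Icc 2 A).card : ℝ) * (512 * β * 8 ^ (A + 1) * Real.log n / n)
        ≤ A * (512 * β * 8 ^ (A + 1) * Real.log n / n) :=
          mul_le_mul_of_nonneg_right h5 (by positivity)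
      _ = 512 * β * 8 ^ (A + 1) * Real.log n * A / n := by ring
      _ ≤ n / 1000 / n := div_le_div_of_nonneg_right hnum hnpos.le
      _ = 1 / 1000 := by field_simp
  calc U / n * (∑ a ∈ Icc 2 A, ((1 : ℝ) / 2) ^ a / 500 +
        ((Icc 2 A).card : ℝ) * (512 * β * 8 ^ (A + 1) * Real.log n / n))
      ≤ U / n * (1 / 1000 + 1 / 1000) :=
        mul_le_mul_of_nonneg_left (add_le_add hgeo hcnt) (by positivity)
    _ = U / (500 * n) := by
        field_simp
        ring

end Pool.Agent.Matroid6d
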