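import Pool.Agent.Matroid6d.Replace

/-!
The local structure of a non-basis: the elements that can be removed, and the elements that can be
added, on the way to a neighbouring basis.
-/

set_option autoImplicit false

namespace Pool.Agent.Matroid6d

open Finset

variable {n : ℕ}

open Classical in
/-- The elements of `X` whose removal leads to a basis after adding a suitable element. -/
noncomputable def Cs (P : Finset (Fin n) → Prop) (X : Finset (Fin n)) : Finset (Fin n) :=
  X.filter (fun x => ∃ y, y ∉ X ∧ P (insert y (X.erase x)))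

open Classical in
/-- The elements outside `X` whose addition leads to a basis after removing a suitable element. -/
noncomputable def Ds (P : Finset (Fin n) → Prop) (X : Finset (Fin n)) : Finset (Fin n) :=
  univ.filter (fun y => y ∉ X ∧ ∃ x ∈ X, P (insert y (X.erase x)))

variable {P : Finset (Fin n) → Prop} {X : Finset (Fin n)} {x y : Fin n} {r : ℕ}

lemma mem_Cs : x ∈ Cs P X ↔ x ∈ X ∧ ∃ y, y ∉ X ∧ P (insert y (X.erase x)) := by
  classical
  unfold Cs
  simp only [mem_filter]

lemma mem_Ds : y ∈ Ds P X ↔ y ∉ X ∧ ∃ x ∈ X, P (insert y (X.erase x)) := by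
  classical
  unfold Ds
  simp only [mem_filter, mem_univ, true_and]

lemma Cs_subset : Cs P X ⊆ X := fun _ h => (mem_Cs.1 h).1

lemma disjoint_Ds : Disjoint X (Ds P X) := by
  rw [disjoint_left]
  intro a ha h
  exact (mem_Ds.1 h).1 ha

lemma Ds_nonempty_iff : (Ds P X).Nonempty ↔ (Cs P X).Nonempty := by
  constructor
  · rintro ⟨y, hy⟩
    obtain ⟨hyX, x, hx, h⟩ := mem_Ds.1 hy
    exact ⟨x, mem_Cs.2 ⟨hx, y, hyX, h⟩⟩
  · rintro ⟨x, hx⟩
    obtain ⟨hxX, y, hy, h⟩ := mem_Cs.1 hx
    exact ⟨y, mem_Ds.2 ⟨hy, x, hxX, h⟩⟩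

/-- Every removable element combines with every addable one. -/
lemma swap_basis (hP : Exch P) (hX : ¬ P X) (hx : x ∈ Cs P X) (hy : y ∈ Ds P X) :
    P (insert y (X.erase x)) := by
  obtain ⟨hxX, y₁, hy₁, hB₁⟩ := mem_Cs.1 hx
  obtain ⟨hyX, x₂, hx₂, hB₂⟩ := mem_Ds.1 hy
  by_cases h1 : x = x₂
  · rw [h1]; exact hB₂
  by_cases h2 : y₁ = y
  · rw [← h2]; exact hB₁
  obtain ⟨b, hb, hb', hPb⟩ := hP _ _ hB₁ hB₂ y₁ (mem_insert_self _ _) (by
    rw [mem_insert]
    rintro (h | h)
    · exact h2 h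
    · exact hy₁ (mem_of_mem_erase h))
  rw [erase_insert (fun h => hy₁ (mem_of_mem_erase h))] at hPb
  rw [mem_insert] at hb
  rcases hb with rfl | hb
  · exact hPb
  · have hbX : b ∈ X := mem_of_mem_erase hb
    have hbx : b = x := by
      by_contra hne
      exact hb' (mem_insert_of_mem (mem_erase.2 ⟨hne, hbX⟩))
    rw [hbx, insert_erase hxX] at hPb
    exact absurd hPb hX

/-- Sets avoiding the addable elements are not bases. -/
lemma not_of_disjoint_Ds (hP : Exch P) (hX : ¬ P X) (hne : (Cs P X).Nonempty)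
    {Z : Finset (Fin n)} (hZ : Disjoint Z (Ds P X)) : ¬ P Z := by
  intro hPZ
  obtain ⟨x, hx⟩ := hne
  obtain ⟨y, hy⟩ := Ds_nonempty_iff.2 ⟨x, hx⟩
  have hB := swap_basis hP hX hx hy
  have hxX := (mem_Cs.1 hx).1
  have hyX := (mem_Ds.1 hy).1
  have hyZ : y ∉ Z := fun h => disjoint_left.1 hZ h hy
  obtain ⟨b, hb, hb', hPb⟩ := hP _ _ hB hPZ y (mem_insert_self _ _) hyZ
  rw [erase_insert (fun h => hyX (mem_of_mem_erase h))] at hPb
  by_cases hbx : b = x
  · rw [hbx, insert_erase hxX] at hPb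
    exact hX hPb
  · have hbX : b ∉ X := fun h => hb' (mem_insert_of_mem (mem_erase.2 ⟨hbx, h⟩))
    exact disjoint_left.1 hZ hb (mem_Ds.2 ⟨hbX, x, hxX, hPb⟩)

/-- Sets containing all removable elements are not bases. -/
lemma not_of_Cs_subset (hP : Exch P) (hr : ∀ X, P X → X.card = r) (hXr : X.card = r)
    (hX : ¬ P X) (hne : (Cs P X).Nonempty) {Z : Finset (Fin n)} (hZ : Cs P X ⊆ Z) : ¬ P Z := by
  obtain ⟨x, hx⟩ := hne
  obtain ⟨y, hy⟩ := Ds_nonempty_iff.2 ⟨x, hx⟩
  have hB := swap_basis hP hX hx hy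
  have hyX := (mem_Ds.1 hy).1
  have key : ∀ (k : ℕ) (Z : Finset (Fin n)), Cs P X ⊆ Z → P Z → (Z \ insert y X).card = k →
      False := by
    intro k
    induction k with
    | zero =>
      intro Z hZ hPZ hk
      rw [card_eq_zero, sdiff_eq_empty_iff_subset] at hk
      have hZr := hr Z hPZ
      have hnot : ¬ X ⊆ Z := by
        intro h
        have := eq_of_subset_of_card_le h (by omega)
        exact hX (this ▸ hPZ)
      obtain ⟨z, hz, hzZ⟩ := not_subset.1 hnot
      have hZeq : Z = insert y (X.erase z) := by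
        apply eq_of_subset_of_card_le
        · intro w hw
          have := hk hw
          rw [mem_insert] at this ⊢
          rcases this with h | h
          · exact Or.inl h
          · exact Or.inr (mem_erase.2 ⟨fun h' => hzZ (h' ▸ hw), h⟩)
        · rw [card_swap hz hyX]; omega
      exact hzZ (hZ (mem_Cs.2 ⟨hz, y, hyX, hZeq ▸ hPZ⟩))
    | succ k ih =>
      intro Z hZ hPZ hk
      obtain ⟨z, hz⟩ : (Z \ insert y X).Nonempty := by rw [← card_pos]; omega
      have hz' := mem_sdiff.1 hz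
      rw [mem_insert, not_or] at hz'
      obtain ⟨b, hb, hb', hPb⟩ := hP Z _ hPZ hB z hz'.1 (by
        rw [mem_insert]
        rintro (h | h)
        · exact hz'.2.1 h
        · exact hz'.2.2 (mem_of_mem_erase h))
      have hbU : b ∈ insert y X := by
        rw [mem_insert] at hb ⊢
        rcases hb with h | h
        · exact Or.inl h
        · exact Or.inr (mem_of_mem_erase h)
      apply ih (insert b (Z.erase z)) ?_ hPb ?_
      · intro w hw
        refine mem_insert_of_mem (mem_erase.2 ⟨?_, hZ hw⟩)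
        rintro rfl
        exact hz'.2.2 (Cs_subset hw)
      · have heq : insert b (Z.erase z) \ insert y X = (Z \ insert y X).erase z := by
          ext w
          rw [mem_sdiff, mem_insert, mem_erase, mem_erase, mem_sdiff]
          constructor
          · rintro ⟨h | h, h'⟩
            · exact absurd (h ▸ hbU) h'
            · exact ⟨h.1, h.2, h'⟩
          · rintro ⟨h, h', h''⟩
            exact ⟨Or.inr ⟨h, h'⟩, h''⟩
        rw [heq, card_erase_of_mem hz, hk]
        rfl
  exact fun h => key _ Z hZ h rfl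

lemma swap_back (hx : x ∈ X) (hy : y ∉ X) : insert x ((insert y (X.erase x)).erase y) = X := by
  rw [erase_insert (fun h => hy (mem_of_mem_erase h)), insert_erase hx]

lemma notMem_swap (hx : x ∈ X) (hy : y ∉ X) : x ∉ insert y (X.erase x) := by
  rw [mem_insert]
  rintro (h | h)
  · exact hy (h ▸ hx)
  · exact (mem_erase.1 h).1 rfl

/-- Half of the invariance of the addable elements. -/
lemma Ds_swap_aux (hP : Exch P) (hX : ¬ P X) (hx : x ∈ Cs P X) (hy : y ∉ X) (hyD : y ∉ Ds P X) :
    Ds P X ⊆ Ds P (insert y (X.erase x)) ∧ y ∈ Cs P (insert y (X.erase x)) := by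
  have hxX := (mem_Cs.1 hx).1
  have key : ∀ z ∈ Ds P X, z ∉ insert y (X.erase x) ∧
      P (insert z ((insert y (X.erase x)).erase y)) := by
    intro z hz
    have hzX := (mem_Ds.1 hz).1
    refine ⟨?_, ?_⟩
    · rw [mem_insert]
      rintro (h | h)
      · exact hyD (h ▸ hz)
      · exact hzX (mem_of_mem_erase h)
    · rw [erase_insert (fun h => hy (mem_of_mem_erase h))]
      exact swap_basis hP hX hx hz
  constructor
  · intro z hz
    exact mem_Ds.2 ⟨(key z hz).1, y, mem_insert_self _ _, (key z hz).2⟩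
  · obtain ⟨z, hz⟩ := Ds_nonempty_iff.2 ⟨x, hx⟩
    exact mem_Cs.2 ⟨mem_insert_self _ _, z, (key z hz).1, (key z hz).2⟩

/-- Moving inside the hyperplane preserves the addable elements. -/
lemma Ds_swap (hP : Exch P) (hX : ¬ P X) (hx : x ∈ Cs P X) (hy : y ∉ X) (hyD : y ∉ Ds P X) :
    ¬ P (insert y (X.erase x)) ∧ Ds P (insert y (X.erase x)) = Ds P X := by
  have hxX := (mem_Cs.1 hx).1
  have h1 := Ds_swap_aux hP hX hx hy hyD
  have hnP : ¬ P (insert y (X.erase x)) := fun h => hyD (mem_Ds.2 ⟨hy, x, hxX, h⟩)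
  refine ⟨hnP, ?_⟩
  apply Subset.antisymm ?_ h1.1
  have hxD : x ∉ Ds P (insert y (X.erase x)) := by
    intro h
    have := swap_basis hP hnP h1.2 h
    rw [swap_back hxX hy] at this
    exact hX this
  have h2 := (Ds_swap_aux hP hnP h1.2 (notMem_swap hxX hy) hxD).1
  rwa [swap_back hxX hy] at h2

/-- Half of the invariance of the removable elements. -/
lemma Cs_swap_aux (hP : Exch P) (hX : ¬ P X) (hx : x ∈ X) (hxC : x ∉ Cs P X) (hy : y ∈ Ds P X) :
    Cs P X ⊆ Cs P (insert y (X.erase x)) ∧ x ∈ Ds P (insert y (X.erase x)) := by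
  have hyX := (mem_Ds.1 hy).1
  have key : ∀ z ∈ Cs P X, z ∈ insert y (X.erase x) ∧
      P (insert x ((insert y (X.erase x)).erase z)) := by
    intro z hz
    have hzX := (mem_Cs.1 hz).1
    have hzx : z ≠ x := fun h => hxC (h ▸ hz)
    have hzy : z ≠ y := fun h => hyX (h ▸ hzX)
    refine ⟨mem_insert_of_mem (mem_erase.2 ⟨hzx, hzX⟩), ?_⟩
    have heq : insert x ((insert y (X.erase x)).erase z) = insert y (X.erase z) := by
      ext w
      simp only [mem_insert, mem_erase]
      constructor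
      · rintro (h | ⟨h1, h2 | h2⟩)
        · exact Or.inr ⟨fun h' => hzx (h'.symm.trans h), h ▸ hx⟩
        · exact Or.inl h2
        · exact Or.inr ⟨h1, h2.2⟩
      · rintro (h | ⟨h1, h2⟩)
        · exact Or.inr ⟨fun h' => hzy (h'.symm.trans h), Or.inl h⟩
        · by_cases hwx : w = x
          · exact Or.inl hwx
          · exact Or.inr ⟨h1, Or.inr ⟨hwx, h2⟩⟩
    rw [heq]
    exact swap_basis hP hX hz hy
  constructor
  · intro z hz
    exact mem_Cs.2 ⟨(key z hz).1, x, notMem_swap hx hyX, (key z hz).2⟩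
  · obtain ⟨z, hz⟩ := Ds_nonempty_iff.1 ⟨y, hy⟩
    exact mem_Ds.2 ⟨notMem_swap hx hyX, z, (key z hz).1, (key z hz).2⟩

/-- Moving above the circuit preserves the removable elements. -/
lemma Cs_swap (hP : Exch P) (hX : ¬ P X) (hx : x ∈ X) (hxC : x ∉ Cs P X) (hy : y ∈ Ds P X) :
    ¬ P (insert y (X.erase x)) ∧ Cs P (insert y (X.erase x)) = Cs P X := by
  have hyX := (mem_Ds.1 hy).1
  have h1 := Cs_swap_aux hP hX hx hxC hy
  have hnP : ¬ P (insert y (X.erase x)) := fun h => hxC (mem_Cs.2 ⟨hx, y, hyX, h⟩)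
  refine ⟨hnP, ?_⟩
  apply Subset.antisymm ?_ h1.1
  have hyC : y ∉ Cs P (insert y (X.erase x)) := by
    intro h
    have := swap_basis hP hnP h h1.2
    rw [swap_back hx hyX] at this
    exact hX this
  have h2 := (Cs_swap_aux hP hnP (mem_insert_self _ _) hyC h1.2).1
  rwa [swap_back hx hyX] at h2

/-- A non-basis without neighbouring bases lies between the circuit and the hyperplane of another
non-basis. -/
lemma deep (hP : Exch P) (hr : ∀ X, P X → X.card = r) (hne : ∃ B, P B) (hXr : X.card = r)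
    (hX : ¬ P X) (hC : Cs P X = ∅) :
    ∃ Y, Y.card = r ∧ ¬ P Y ∧ (Cs P Y).Nonempty ∧ Cs P Y ⊆ X ∧ Disjoint X (Ds P Y) ∧
      (Cs P Y).card < r := by
  classical
  obtain ⟨B, hB, hmax⟩ := exists_max_image (univ.filter P) (fun B => (B ∩ X).card)
    (by obtain ⟨B, hB⟩ := hne; exact ⟨B, mem_filter.2 ⟨mem_univ _, hB⟩⟩)
  rw [mem_filter] at hB
  have hPB := hB.2
  have hBr := hr B hPB
  have hmax' : ∀ B', P B' → (B' ∩ X).card ≤ (B ∩ X).card := fun B' h =>
    hmax B' (mem_filter.2 ⟨mem_univ _, h⟩)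
  have hcc : (X \ B).card = (B \ X).card := card_sdiff_comm' (by omega)
  have hXB : ¬ X ⊆ B := by
    intro h
    have := eq_of_subset_of_card_le h (by omega)
    exact hX (this ▸ hPB)
  obtain ⟨c, hcX, hcB⟩ := not_subset.1 hXB
  have hpos : 0 < (X \ B).card := card_pos.2 ⟨c, mem_sdiff.2 ⟨hcX, hcB⟩⟩
  obtain ⟨b, hb⟩ : (B \ X).Nonempty := by rw [← card_pos]; omega
  rw [mem_sdiff] at hb
  -- a basis obtained from `B` by replacing an element outside `X` by one of `X` is impossible
  have himp : ∀ u ∈ B, u ∉ X → ∀ v ∈ X, v ∉ B → ¬ P (insert v (B.erase u)) := by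
    intro u hu huX v hv hvB h
    have h1 := hmax' _ h
    have h2 : insert v (B ∩ X) ⊆ insert v (B.erase u) ∩ X := by
      intro w hw
      rw [mem_insert, mem_inter] at hw
      rw [mem_inter, mem_insert, mem_erase]
      rcases hw with rfl | ⟨h3, h4⟩
      · exact ⟨Or.inl rfl, hv⟩
      · exact ⟨Or.inr ⟨fun h5 => huX (h5 ▸ h4), h3⟩, h4⟩
    have h3 := card_le_card h2
    rw [card_insert_of_notMem (fun h4 => hvB (mem_inter.1 h4).1)] at h3
    omega
  set Y := insert c (B.erase b) with hY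
  have hYr : Y.card = r := by rw [hY, card_swap hb.1 hcB, hBr]
  have hYn : ¬ P Y := himp b hb.1 hb.2 c hcX hcB
  have hbY : b ∉ Y := notMem_swap hb.1 hcB
  have hback : insert b (Y.erase c) = B := swap_back hb.1 hcB
  have hcC : c ∈ Cs P Y := mem_Cs.2 ⟨mem_insert_self _ _, b, hbY, by rw [hback]; exact hPB⟩
  have hbD : b ∈ Ds P Y := mem_Ds.2 ⟨hbY, c, mem_insert_self _ _, by rw [hback]; exact hPB⟩
  have hsub : Cs P Y ⊆ X := by
    intro z hz
    by_contra hzX
    have h1 := swap_basis hP hYn hz hbD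
    have hzY := Cs_subset hz
    have hzc : z ≠ c := fun h => hzX (h ▸ hcX)
    have hzB : z ∈ B := by
      rw [hY, mem_insert] at hzY
      rcases hzY with h | h
      · exact absurd h hzc
      · exact mem_of_mem_erase h
    have hzb : z ≠ b := fun h => hbY (h ▸ hzY)
    have heq : insert b (Y.erase z) = insert c (B.erase z) := by
      rw [hY]
      ext w
      simp only [mem_insert, mem_erase]
      constructor
      · rintro (h | ⟨h1, h2 | h2⟩)
        · exact Or.inr ⟨fun h' => hzb (h'.symm.trans h), h ▸ hb.1⟩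
        · exact Or.inl h2
        · exact Or.inr ⟨h1, h2.2⟩
      · rintro (h | ⟨h1, h2⟩)
        · exact Or.inr ⟨fun h' => hzc (h'.symm.trans h), Or.inl h⟩
        · by_cases hwb : w = b
          · exact Or.inl hwb
          · exact Or.inr ⟨h1, Or.inr ⟨hwb, h2⟩⟩
    rw [heq] at h1
    exact himp z hzB hzX c hcX hcB h1
  have hYX : Y ≠ X := by
    intro h
    rw [h, hC] at hcC
    exact absurd hcC (notMem_empty _)
  refine ⟨Y, hYr, hYn, ⟨c, hcC⟩, hsub, ?_, ?_⟩
  · rw [disjoint_left]
    intro z hzX hz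
    have h1 := swap_basis hP hYn hcC hz
    have hzY := (mem_Ds.1 hz).1
    have hzb : z ≠ b := fun h => hb.2 (h ▸ hzX)
    have hzB : z ∉ B := by
      intro h
      exact hzY (by rw [hY]; exact mem_insert_of_mem (mem_erase.2 ⟨hzb, h⟩))
    have heq : insert z (Y.erase c) = insert z (B.erase b) := by
      rw [hY, erase_insert (fun h => hcB (mem_of_mem_erase h))]
    rw [heq] at h1
    exact himp b hb.1 hb.2 z hzX hzB h1
  · by_contra hlt
    push Not at hlt
    have h1 : Cs P Y = Y := eq_of_subset_of_card_le Cs_subset (by omega)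
    have h2 : Cs P Y = X := eq_of_subset_of_card_le hsub (by omega)
    exact hYX (h1.symm.trans h2)

end Pool.Agent.Matroid6d
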