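import Mathlib

/-!
Asymptotic estimates for the weighted count.
-/

set_option autoImplicit false

namespace Pool.Agent.Matroid6d

open Filter Topology

/-- A polynomial times a decaying exponential is eventually small. -/
lemma ev_small (k : ℕ) (q C ε : ℝ) (h0 : 0 < q) (h1 : q < 1) (hC : 0 ≤ C) (hε : 0 < ε) :
    ∃ n₀ : ℕ, ∀ n : ℕ, n₀ ≤ n → C * (((n : ℝ) + 1) ^ k * q ^ n) ≤ ε := by
  have h2 : Tendsto (fun n : ℕ => (n : ℝ) ^ k * q ^ n) atTop (𝓝 0) :=
    tendsto_pow_const_mul_const_pow_of_abs_lt_one k (by rw [abs_of_pos h0]; exact h1)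
  have h3 : Tendsto (fun n : ℕ => C * 2 ^ k * ((n : ℝ) ^ k * q ^ n)) atTop (𝓝 0) := by
    have := h2.const_mul (C * 2 ^ k)
    rwa [mul_zero] at this
  have h4 := (h3.eventually (gt_mem_nhds hε)).and (eventually_ge_atTop 1)
  obtain ⟨n₀, hn₀⟩ := eventually_atTop.1 h4
  refine ⟨n₀, fun n hn => ?_⟩
  obtain ⟨h5, h6⟩ := hn₀ n hn
  have h7 : (1 : ℝ) ≤ n := by exact_mod_cast h6
  calc C * (((n : ℝ) + 1) ^ k * q ^ n) ≤ C * ((2 * (n : ℝ)) ^ k * q ^ n) := by
        apply mul_le_mul_of_nonneg_left _ hC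
        apply mul_le_mul_of_nonneg_right _ (by positivity)
        exact pow_le_pow_left₀ (by positivity) (by linarith) _
    _ = C * 2 ^ k * ((n : ℝ) ^ k * q ^ n) := by rw [mul_pow]; ring
    _ ≤ ε := h5.le

/-- The exponent in the weighted count. -/
noncomputable def FF (l δ : ℝ) (K n m : ℕ) : ℝ :=
  2 ^ (n + 1) * (Real.exp (-(l * (1 - δ) * (m - 2 * K))) *
    Real.exp ((n + 1) ^ (4 * K) * Real.exp (-(l * δ / 6 * (m - 2 * K)))) +
    Real.exp (-(l * δ / 6 * (K * m)))) + (n + 1) ^ (2 * K) * Real.exp (-(l * δ / 12 * m))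

lemma exists_delta (l ρ : ℝ) (h : 2 * Real.exp (-(l / 2)) < ρ) :
    ∃ δ : ℝ, 0 < δ ∧ δ ≤ 1 / 2 ∧ 2 * Real.exp (-(l * (1 - δ) ^ 2 / 2)) < ρ := by
  have h1 : Continuous (fun δ : ℝ => 2 * Real.exp (-(l * (1 - δ) ^ 2 / 2))) := by fun_prop
  have h2 : Tendsto (fun δ : ℝ => 2 * Real.exp (-(l * (1 - δ) ^ 2 / 2))) (𝓝[>] 0)
      (𝓝 (2 * Real.exp (-(l / 2)))) := by
    have := (h1.tendsto 0).mono_left (nhdsWithin_le_nhds (s := Set.Ioi (0 : ℝ)))
    simpa using this
  have h3 : ∀ᶠ δ : ℝ in 𝓝[>] 0, 2 * Real.exp (-(l * (1 - δ) ^ 2 / 2)) < ρ :=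
    h2.eventually (gt_mem_nhds h)
  have h4 : ∀ᶠ δ : ℝ in 𝓝[>] 0, δ ∈ Set.Ioc (0 : ℝ) (1 / 2) :=
    Ioc_mem_nhdsGT (by norm_num)
  obtain ⟨δ, h5, h6⟩ := (h3.and h4).exists
  exact ⟨δ, h6.1, h6.2, h5⟩

/-- The numerical lemma for the middle ranks. -/
theorem mid_num (l σ ρ : ℝ) (hl : 0 < l) (hσ : 0 < σ)
    (h : 2 * Real.exp (-(l / 2)) < ρ) :
    ∃ (δ : ℝ) (K : ℕ), 0 < δ ∧ δ ≤ 1 / 2 ∧ 1 ≤ K ∧ ∃ n₀ : ℕ, ∀ n m : ℕ, n₀ ≤ n →
      (1 - δ) * n ≤ 2 * m → 4 * K ≤ m ∧
      Real.exp (-(σ * (ρ ^ n / 2 + m / 4))) * Real.exp (FF l δ K n m) ≤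
        3 * Real.exp (-(σ / 16)) ^ n := by
  obtain ⟨δ, hδ0, hδ1, hδ⟩ := exists_delta l ρ h
  set a₁ := 2 * Real.exp (-(l * (1 - δ) ^ 2 / 2)) with ha₁
  have ha₁0 : 0 < a₁ := by positivity
  set ρ₁ := (a₁ + ρ) / 2 with hρ₁
  have h1 : a₁ < ρ₁ := by rw [hρ₁]; linarith
  have h2 : ρ₁ < ρ := by rw [hρ₁]; linarith
  have hρ₁0 : 0 < ρ₁ := by linarith
  have hρ0 : 0 < ρ := by linarith
  obtain ⟨K, hK⟩ : ∃ K : ℕ, 48 / (l * δ) ≤ K := exists_nat_ge _
  have hlδ : 0 < l * δ := by positivity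
  have hK48 : 48 ≤ l * δ * K := by
    rw [div_le_iff₀ hlδ] at hK
    linarith
  have hK1 : 1 ≤ K := by
    by_contra hcon
    have : K = 0 := by omega
    rw [this] at hK48
    norm_num at hK48
  refine ⟨δ, K, hδ0, hδ1, hK1, ?_⟩
  -- the eventual estimates
  have hq1 : Real.exp (-(l * δ / 24)) < 1 := Real.exp_lt_one_iff.2 (by linarith [hlδ])
  have hq2 : Real.exp (-(l * δ / 48)) < 1 := Real.exp_lt_one_iff.2 (by linarith [hlδ])
  obtain ⟨n₁, hn₁⟩ := ev_small (4 * K) (Real.exp (-(l * δ / 24))) (Real.exp (K * l * δ / 3)) 1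
    (Real.exp_pos _) hq1 (Real.exp_pos _).le one_pos
  obtain ⟨n₂, hn₂⟩ := ev_small (2 * K) (Real.exp (-(l * δ / 48))) 1 (1 / 2)
    (Real.exp_pos _) hq2 zero_le_one (by norm_num)
  obtain ⟨n₃, hn₃⟩ := ev_small 0 (a₁ / ρ₁) (6 * Real.exp (2 * K * l)) 1
    (by positivity) (by rw [div_lt_one hρ₁0]; exact h1) (by positivity) one_pos
  obtain ⟨n₄, hn₄⟩ := ev_small 0 (ρ₁ / ρ) 1 (σ / 2)
    (by positivity) (by rw [div_lt_one hρ0]; exact h2) zero_le_one (by positivity)
  refine ⟨max (max n₁ n₂) (max (max n₃ n₄) (16 * K + 2)), ?_⟩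
  intro n m hn hm
  have g1 : n₁ ≤ n := by omega
  have g2 : n₂ ≤ n := by omega
  have g3 : n₃ ≤ n := by omega
  have g4 : n₄ ≤ n := by omega
  have g5 : 16 * K + 2 ≤ n := by omega
  have hnm : (n : ℝ) ≤ 4 * m := by
    have : (1 / 2 : ℝ) * n ≤ (1 - δ) * n :=
      mul_le_mul_of_nonneg_right (by linarith) (by positivity)
    linarith
  have hnm' : n ≤ 4 * m := by exact_mod_cast hnm
  refine ⟨by omega, ?_⟩
  have e1 := hn₁ n g1
  have e2 := hn₂ n g2
  have e3 := hn₃ n g3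
  have e4 := hn₄ n g4
  simp only [pow_zero, one_mul] at e2 e3 e4
  -- first term
  have t1a : Real.exp (-(l * (1 - δ) * (m - 2 * K))) ≤
      Real.exp (2 * K * l) * (a₁ / 2) ^ n := by
    have hh : (a₁ / 2) ^ n = Real.exp (n * (-(l * (1 - δ) ^ 2 / 2))) := by
      rw [Real.exp_nat_mul, ha₁]
      congr 1
      ring
    rw [hh, ← Real.exp_add]
    apply Real.exp_le_exp.2
    have w1 : l * (1 - δ) * ((1 - δ) * n) ≤ l * (1 - δ) * (2 * m) :=
      mul_le_mul_of_nonneg_left hm (mul_nonneg hl.le (by linarith))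
    have w2 : l * (1 - δ) * (2 * K) ≤ l * (2 * K) := by
      apply mul_le_mul_of_nonneg_right _ (by positivity)
      nlinarith
    nlinarith [w1, w2]
  have t1b : (n + 1) ^ (4 * K) * Real.exp (-(l * δ / 6 * (m - 2 * K))) ≤ 1 := by
    refine le_trans ?_ e1
    have hh : Real.exp (-(l * δ / 24)) ^ n = Real.exp (n * (-(l * δ / 24))) :=
      (Real.exp_nat_mul _ _).symm
    rw [hh]
    have : Real.exp (-(l * δ / 6 * (m - 2 * K))) ≤
        Real.exp (K * l * δ / 3) * Real.exp (n * (-(l * δ / 24))) := by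
      rw [← Real.exp_add]
      apply Real.exp_le_exp.2
      have w1 : l * δ * n ≤ l * δ * (4 * m) := mul_le_mul_of_nonneg_left hnm hlδ.le
      nlinarith [w1]
    calc ((n : ℝ) + 1) ^ (4 * K) * Real.exp (-(l * δ / 6 * (m - 2 * K)))
        ≤ ((n : ℝ) + 1) ^ (4 * K) *
          (Real.exp (K * l * δ / 3) * Real.exp (n * (-(l * δ / 24)))) :=
          mul_le_mul_of_nonneg_left this (by positivity)
      _ = _ := by ring
  have t1c : Real.exp ((n + 1) ^ (4 * K) * Real.exp (-(l * δ / 6 * (m - 2 * K)))) ≤ 3 := by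
    refine (Real.exp_le_exp.2 t1b).trans ?_
    have := Real.exp_one_lt_d9
    linarith
  have t1 : 2 ^ (n + 1) * (Real.exp (-(l * (1 - δ) * (m - 2 * K))) *
      Real.exp ((n + 1) ^ (4 * K) * Real.exp (-(l * δ / 6 * (m - 2 * K))))) ≤ ρ₁ ^ n := by
    calc 2 ^ (n + 1) * (Real.exp (-(l * (1 - δ) * (m - 2 * K))) *
          Real.exp ((n + 1) ^ (4 * K) * Real.exp (-(l * δ / 6 * (m - 2 * K)))))
        ≤ 2 ^ (n + 1) * (Real.exp (2 * K * l) * (a₁ / 2) ^ n * 3) := by
          apply mul_le_mul_of_nonneg_left _ (by positivity)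
          exact mul_le_mul t1a t1c (Real.exp_pos _).le (by positivity)
      _ = (6 * Real.exp (2 * K * l) * (a₁ / ρ₁) ^ n) * ρ₁ ^ n := by
          have w1 : (a₁ / 2) ^ n * 2 ^ n = a₁ ^ n := by
            rw [← mul_pow]; congr 1; ring
          have w2 : (a₁ / ρ₁) ^ n * ρ₁ ^ n = a₁ ^ n := by
            rw [← mul_pow, div_mul_cancel₀ _ hρ₁0.ne']
          calc (2 : ℝ) ^ (n + 1) * (Real.exp (2 * K * l) * (a₁ / 2) ^ n * 3)
              = 6 * Real.exp (2 * K * l) * ((a₁ / 2) ^ n * 2 ^ n) := by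
                rw [pow_succ]; ring
            _ = 6 * Real.exp (2 * K * l) * ((a₁ / ρ₁) ^ n * ρ₁ ^ n) := by rw [w1, w2]
            _ = _ := by ring
      _ ≤ 1 * ρ₁ ^ n := mul_le_mul_of_nonneg_right e3 (by positivity)
      _ = ρ₁ ^ n := one_mul _
  -- second term
  have t2 : 2 ^ (n + 1) * Real.exp (-(l * δ / 6 * (K * m))) ≤ 1 / 2 := by
    have w1 : Real.exp (-(l * δ / 6 * (K * m))) ≤ (1 / 4) ^ n := by
      have w2 : Real.exp (-2) ≤ 1 / 4 := by
        rw [Real.exp_neg, inv_le_comm₀ (Real.exp_pos _) (by norm_num)]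
        have := Real.add_one_le_exp (2 : ℝ)
        have w3 : Real.exp 2 = Real.exp 1 ^ 2 := by
          rw [← Real.exp_nat_mul]; norm_num
        rw [w3]
        have := Real.exp_one_gt_d9
        nlinarith
      refine le_trans ?_ (pow_le_pow_left₀ (Real.exp_pos _).le w2 n)
      rw [← Real.exp_nat_mul]
      apply Real.exp_le_exp.2
      have w4 : (l * δ * K) * n ≤ (l * δ * K) * (4 * m) :=
        mul_le_mul_of_nonneg_left hnm (by positivity)
      have w5 : 48 * (n : ℝ) ≤ l * δ * K * n := mul_le_mul_of_nonneg_right hK48 (by positivity)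
      nlinarith [w4, w5]
    calc 2 ^ (n + 1) * Real.exp (-(l * δ / 6 * (K * m))) ≤ 2 ^ (n + 1) * (1 / 4) ^ n :=
          mul_le_mul_of_nonneg_left w1 (by positivity)
      _ = 2 * (1 / 2) ^ n := by
          rw [pow_succ, mul_comm ((2 : ℝ) ^ n) 2, mul_assoc, ← mul_pow]
          norm_num
      _ ≤ 2 * (1 / 2) ^ 2 := by
          apply mul_le_mul_of_nonneg_left _ (by norm_num)
          exact pow_le_pow_of_le_one (by norm_num) (by norm_num) (by omega)
      _ = 1 / 2 := by norm_num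
  -- third term
  have t3 : (n + 1) ^ (2 * K) * Real.exp (-(l * δ / 12 * m)) ≤ 1 / 2 := by
    refine le_trans ?_ e2
    apply mul_le_mul_of_nonneg_left _ (by positivity)
    rw [← Real.exp_nat_mul]
    apply Real.exp_le_exp.2
    have w1 : l * δ * n ≤ l * δ * (4 * m) := mul_le_mul_of_nonneg_left hnm hlδ.le
    nlinarith [w1]
  have hF : FF l δ K n m ≤ ρ₁ ^ n + 1 := by
    unfold FF
    rw [mul_add]
    linarith
  have e4' : ρ₁ ^ n ≤ σ / 2 * ρ ^ n := by
    rw [div_pow, div_le_iff₀ (by positivity)] at e4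
    exact e4
  calc Real.exp (-(σ * (ρ ^ n / 2 + m / 4))) * Real.exp (FF l δ K n m)
      = Real.exp (-(σ * (ρ ^ n / 2 + m / 4)) + FF l δ K n m) := (Real.exp_add _ _).symm
    _ ≤ Real.exp (1 + n * (-(σ / 16))) := by
        apply Real.exp_le_exp.2
        have w1 : σ * n ≤ σ * (4 * m) := mul_le_mul_of_nonneg_left hnm hσ.le
        nlinarith [w1, hF, e4']
    _ = Real.exp 1 * Real.exp (-(σ / 16)) ^ n := by rw [Real.exp_add, Real.exp_nat_mul]
    _ ≤ 3 * Real.exp (-(σ / 16)) ^ n := by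
        apply mul_le_mul_of_nonneg_right _ (by positivity)
        have := Real.exp_one_lt_d9
        linarith

/-- Binomial coefficients away from the middle (Hoeffding). -/
lemma choose_le_hoeff (n r : ℕ) (δ : ℝ) (h : 2 * (r : ℝ) ≤ (1 - δ) * n) (hδ : 0 ≤ δ) :
    (n.choose r : ℝ) ≤ (2 * Real.exp (-(δ ^ 2 / 2))) ^ n := by
  rcases Nat.lt_or_ge n r with hlt | hle
  · rw [Nat.choose_eq_zero_of_lt hlt]
    push_cast
    positivity
  · set t := Real.exp (-(2 * δ)) with ht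
    have h1 : t ^ r * (n.choose r : ℝ) ≤ (t + 1) ^ n := by
      rw [add_pow]
      have := Finset.single_le_sum (f := fun m => t ^ m * 1 ^ (n - m) * (n.choose m : ℝ))
        (s := Finset.range (n + 1)) (fun m _ => by positivity) (Finset.mem_range.2 (by omega : r < n + 1))
      simpa using this
    have h2 : (n.choose r : ℝ) ≤ (t + 1) ^ n * Real.exp (r * (2 * δ)) := by
      have h3 : t ^ r = (Real.exp (r * (2 * δ)))⁻¹ := by
        rw [ht, ← Real.exp_nat_mul, ← Real.exp_neg]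
        congr 1
        ring
      rw [h3, inv_mul_le_iff₀ (Real.exp_pos _)] at h1
      linarith
    refine h2.trans ?_
    have h4 : Real.exp (r * (2 * δ)) ≤ Real.exp (δ * (1 - δ)) ^ n := by
      rw [← Real.exp_nat_mul]
      apply Real.exp_le_exp.2
      nlinarith [mul_le_mul_of_nonneg_right h hδ]
    refine (mul_le_mul_of_nonneg_left h4 (by positivity)).trans ?_
    rw [← mul_pow]
    apply pow_le_pow_left₀ (by positivity)
    have h5 : (t + 1) * Real.exp (δ * (1 - δ)) = 2 * Real.cosh δ * Real.exp (-(δ ^ 2)) := by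
      rw [Real.cosh_eq, ht]
      have h6 : Real.exp (δ * (1 - δ)) = Real.exp δ * Real.exp (-(δ ^ 2)) := by
        rw [← Real.exp_add]; congr 1; ring
      have h7 : Real.exp (-(2 * δ)) * Real.exp δ = Real.exp (-δ) := by
        rw [← Real.exp_add]; congr 1; ring
      rw [h6]
      calc (Real.exp (-(2 * δ)) + 1) * (Real.exp δ * Real.exp (-(δ ^ 2)))
          = (Real.exp (-(2 * δ)) * Real.exp δ + Real.exp δ) * Real.exp (-(δ ^ 2)) := by ring
        _ = _ := by rw [h7]; ring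
    rw [h5]
    calc 2 * Real.cosh δ * Real.exp (-(δ ^ 2)) ≤
          2 * Real.exp (δ ^ 2 / 2) * Real.exp (-(δ ^ 2)) := by
          apply mul_le_mul_of_nonneg_right _ (Real.exp_pos _).le
          apply mul_le_mul_of_nonneg_left (Real.cosh_le_exp_half_sq δ) (by norm_num)
      _ = 2 * Real.exp (-(δ ^ 2 / 2)) := by
          rw [mul_assoc, ← Real.exp_add]
          congr 2
          ring

lemma two_pow_le_succ_mul_middle (n : ℕ) : 2 ^ n ≤ (n + 1) * n.choose (n / 2) := by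
  calc 2 ^ n = ∑ r ∈ Finset.range (n + 1), n.choose r := (Nat.sum_range_choose n).symm
    _ ≤ ∑ _r ∈ Finset.range (n + 1), n.choose (n / 2) :=
        Finset.sum_le_sum (fun r _ => Nat.choose_le_middle r n)
    _ = _ := by rw [Finset.sum_const, Finset.card_range, smul_eq_mul]

/-- The numerical lemma for the extreme ranks. -/
theorem ext_num (δ κ₀ : ℝ) (hδ0 : 0 < δ) (hκ₀ : 0 < κ₀) :
    ∃ n₀ : ℕ, ∀ n r : ℕ, n₀ ≤ n → r ≤ n → 2 * ((min r (n - r) : ℕ) : ℝ) < (1 - δ) * n →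
      ∀ κ : ℝ, κ₀ ≤ κ →
      (n + 1) * (2 * max 1 κ) ^ (n.choose r) ≤
        (1 / 2) ^ n * (1 + κ) ^ (n.choose (n / 2) / n) := by
  obtain ⟨c, hc⟩ : ∃ c : ℕ, 1 / κ₀ ≤ c := exists_nat_ge _
  have hc1 : 1 ≤ (c : ℝ) * κ₀ := by
    rw [div_le_iff₀ hκ₀] at hc
    exact hc
  have hq0 : 0 < Real.exp (-(δ ^ 2 / 2)) := Real.exp_pos _
  have hq1 : Real.exp (-(δ ^ 2 / 2)) < 1 := Real.exp_lt_one_iff.2 (by
    have : 0 < δ ^ 2 := by positivity
    linarith)
  obtain ⟨n₁, hn₁⟩ := ev_small 3 (1 / 2) (2 * c) (1 / 2) (by norm_num) (by norm_num)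
    (by positivity) (by norm_num)
  obtain ⟨n₂, hn₂⟩ := ev_small 2 (Real.exp (-(δ ^ 2 / 2))) (c + 1) (1 / 2) hq0 hq1
    (by positivity) (by norm_num)
  refine ⟨max (max n₁ n₂) 1, ?_⟩
  intro n r hn hrn hr κ hκ
  have g1 : n₁ ≤ n := by omega
  have g2 : n₂ ≤ n := by omega
  have g3 : 1 ≤ n := by omega
  have e1 := hn₁ n g1
  have e2 := hn₂ n g2
  have hch : (n.choose r : ℝ) ≤ (2 * Real.exp (-(δ ^ 2 / 2))) ^ n := by
    rcases le_total r (n - r) with h | h
    · rw [min_eq_left h] at hr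
      exact choose_le_hoeff n r δ hr.le hδ0.le
    · rw [min_eq_right h] at hr
      have := choose_le_hoeff n (n - r) δ hr.le hδ0.le
      rwa [Nat.choose_symm hrn] at this
  -- the inequality between exponents
  have hexp : 2 * n * c + (c + 1) * n.choose r ≤ n.choose (n / 2) / n := by
    rw [Nat.le_div_iff_mul_le (by omega)]
    have h1 : ((2 : ℝ) ^ n) ≤ (n + 1) * n.choose (n / 2) := by
      exact_mod_cast two_pow_le_succ_mul_middle n
    have h2 : ((2 * n * c + (c + 1) * n.choose r : ℕ) : ℝ) * n * (n + 1) ≤ 2 ^ n := by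
      have h3 : ((2 * n * c + (c + 1) * n.choose r : ℕ) : ℝ) ≤
          2 * n * c + (c + 1) * (2 ^ n * Real.exp (-(δ ^ 2 / 2)) ^ n) := by
        push_cast
        rw [← mul_pow]
        have := mul_le_mul_of_nonneg_left hch (by positivity : (0 : ℝ) ≤ c + 1)
        linarith
      have hn1 : (n : ℝ) ≤ n + 1 := by linarith
      have h4 : (n : ℝ) * (n + 1) ≤ (n + 1) ^ 2 := by nlinarith
      have h5 : (n : ℝ) * n * (n + 1) ≤ (n + 1) ^ 3 := by
        have : (0 : ℝ) ≤ n := by positivity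
        nlinarith [mul_nonneg this this]
      calc ((2 * n * c + (c + 1) * n.choose r : ℕ) : ℝ) * n * (n + 1)
          ≤ (2 * n * c + (c + 1) * (2 ^ n * Real.exp (-(δ ^ 2 / 2)) ^ n)) * n * (n + 1) := by
            apply mul_le_mul_of_nonneg_right _ (by positivity)
            exact mul_le_mul_of_nonneg_right h3 (by positivity)
        _ = 2 * c * (n * n * (n + 1)) +
            (c + 1) * (2 ^ n * Real.exp (-(δ ^ 2 / 2)) ^ n) * (n * (n + 1)) := by ring
        _ ≤ 2 * c * (n + 1) ^ 3 +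
            (c + 1) * (2 ^ n * Real.exp (-(δ ^ 2 / 2)) ^ n) * (n + 1) ^ 2 := by
            apply add_le_add
            · exact mul_le_mul_of_nonneg_left h5 (by positivity)
            · exact mul_le_mul_of_nonneg_left h4 (by positivity)
        _ = 2 ^ n * (2 * c * ((n + 1) ^ 3 * (1 / 2) ^ n)) +
            2 ^ n * ((c + 1) * ((n + 1) ^ 2 * Real.exp (-(δ ^ 2 / 2)) ^ n)) := by
            have h6 : (2 : ℝ) ^ n * (1 / 2) ^ n = 1 := by
              rw [← mul_pow]; norm_num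
            calc 2 * (c : ℝ) * (n + 1) ^ 3 +
                (c + 1) * (2 ^ n * Real.exp (-(δ ^ 2 / 2)) ^ n) * (n + 1) ^ 2
                = 2 * (c : ℝ) * (n + 1) ^ 3 * ((2 : ℝ) ^ n * (1 / 2) ^ n) +
                (c + 1) * (2 ^ n * Real.exp (-(δ ^ 2 / 2)) ^ n) * (n + 1) ^ 2 := by
                  rw [h6, mul_one]
              _ = _ := by ring
        _ ≤ 2 ^ n * (1 / 2) + 2 ^ n * (1 / 2) := by
            apply add_le_add
            · exact mul_le_mul_of_nonneg_left e1 (by positivity)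
            · exact mul_le_mul_of_nonneg_left e2 (by positivity)
        _ = 2 ^ n := by ring
    have h7 : ((2 * n * c + (c + 1) * n.choose r : ℕ) : ℝ) * n ≤ n.choose (n / 2) := by
      have h8 : (0 : ℝ) < n + 1 := by positivity
      have h9 := h2.trans h1
      rw [mul_comm ((n : ℝ) + 1)] at h9
      exact le_of_mul_le_mul_right h9 h8
    exact_mod_cast h7
  have hκ0 : 0 < κ := by linarith
  have h2c : (2 : ℝ) ≤ (1 + κ) ^ c := by
    have h1 : 1 + (c : ℝ) * κ ≤ (1 + κ) ^ c := one_add_mul_le_pow (by linarith) c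
    have h2 : (c : ℝ) * κ₀ ≤ c * κ := mul_le_mul_of_nonneg_left hκ (by positivity)
    linarith
  have hmax : 2 * max 1 κ ≤ (1 + κ) ^ (c + 1) := by
    rw [pow_succ]
    apply mul_le_mul h2c _ (by positivity) (by positivity)
    exact max_le (by linarith) (by linarith)
  have hn2 : ((n : ℝ) + 1) ≤ 2 ^ n := by
    have : n + 1 ≤ 2 ^ n := Nat.lt_two_pow_self
    exact_mod_cast this
  have hfin : 2 ^ n * ((n + 1) * (2 * max 1 κ) ^ (n.choose r)) ≤
      (1 + κ) ^ (n.choose (n / 2) / n) := by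
    calc (2 : ℝ) ^ n * ((n + 1) * (2 * max 1 κ) ^ (n.choose r))
        ≤ 2 ^ n * (2 ^ n * ((1 + κ) ^ (c + 1)) ^ (n.choose r)) := by
          apply mul_le_mul_of_nonneg_left _ (by positivity)
          apply mul_le_mul hn2 _ (by positivity) (by positivity)
          exact pow_le_pow_left₀ (by positivity) hmax _
      _ = 2 ^ (2 * n) * (1 + κ) ^ ((c + 1) * n.choose r) := by
          rw [← pow_mul, two_mul n, pow_add]; ring
      _ ≤ ((1 + κ) ^ c) ^ (2 * n) * (1 + κ) ^ ((c + 1) * n.choose r) := by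
          apply mul_le_mul_of_nonneg_right _ (by positivity)
          exact pow_le_pow_left₀ (by norm_num) h2c _
      _ = (1 + κ) ^ (2 * n * c + (c + 1) * n.choose r) := by
          rw [← pow_mul, pow_add]
          congr 2
          ring
      _ ≤ _ := pow_le_pow_right₀ (by linarith) hexp
  calc ((n : ℝ) + 1) * (2 * max 1 κ) ^ (n.choose r)
      = (1 / 2) ^ n * (2 ^ n * ((n + 1) * (2 * max 1 κ) ^ (n.choose r))) := by
        have h6 : (1 / 2 : ℝ) ^ n * 2 ^ n = 1 := by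
          rw [← mul_pow]; norm_num
        rw [← mul_assoc, h6, one_mul]
    _ ≤ _ := mul_le_mul_of_nonneg_left hfin (by positivity)

end Pool.Agent.Matroid6d
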