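import Pool.Agent.Matroid6d.Sum2
import Pool.Agent.Matroid6d.WNum

/-!
The choice of the parameters.
-/

set_option autoImplicit false

namespace Pool.Agent.Matroid6d

open Filter Topology

lemma fact_large : ∃ n₀ : ℕ, ∀ n : ℕ, n₀ ≤ n → 2 ^ (8 * n) ≤ (n / 32).factorial := by
  have h1 := FloorSemiring.tendsto_pow_div_factorial_atTop ((2 : ℝ) ^ 512)
  have h2 := h1.eventually (gt_mem_nhds (show (0 : ℝ) < 1 by norm_num))
  obtain ⟨m₀, hm₀⟩ := eventually_atTop.1 h2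
  refine ⟨32 * (m₀ + 1), fun n hn => ?_⟩
  obtain ⟨m, hm⟩ : ∃ m, m = n / 32 := ⟨_, rfl⟩
  rw [← hm]
  have h3 := hm₀ m (by omega)
  rw [div_lt_one (by exact_mod_cast m.factorial_pos)] at h3
  have h4 : ((2 : ℕ) ^ 512) ^ m ≤ m.factorial := by exact_mod_cast h3.le
  refine le_trans ?_ h4
  rw [← pow_mul]
  apply Nat.pow_le_pow_right (by norm_num)
  omega

lemma key_large : ∃ n₀ : ℕ, ∀ n : ℕ, n₀ ≤ n → ∃ L : ℕ, 4 ≤ L ∧ n + 1 ≤ 2 ^ L ∧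
    2 ^ (L - 1) ≤ n ∧ 2 ^ 42 * L ^ 6 ≤ 2 ^ (L / 2) := by
  obtain ⟨j₀, hj₀⟩ := ev_small 6 (1 / 2) (2 ^ 48) 1 (by norm_num) (by norm_num) (by positivity)
    one_pos
  refine ⟨2 ^ (2 * j₀ + 4), fun n hn => ?_⟩
  have hn0 : n ≠ 0 := by
    have : 0 < 2 ^ (2 * j₀ + 4) := by positivity
    omega
  obtain ⟨L, hL⟩ : ∃ L, L = Nat.log 2 n + 1 := ⟨_, rfl⟩
  have h1 : n < 2 ^ L := by rw [hL]; exact Nat.lt_pow_succ_log_self (by norm_num) n
  have h2 : 2 ^ (L - 1) ≤ n := by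
    rw [hL, Nat.add_sub_cancel]
    exact Nat.pow_log_le_self 2 hn0
  have h3 : 2 * j₀ + 4 < L := by
    have : 2 ^ (2 * j₀ + 4) < 2 ^ L := lt_of_le_of_lt hn h1
    exact (Nat.pow_lt_pow_iff_right (by norm_num)).1 this
  refine ⟨L, by omega, h1, h2, ?_⟩
  obtain ⟨j, hj⟩ : ∃ j, j = L / 2 := ⟨_, rfl⟩
  rw [← hj]
  have h4 := hj₀ j (by omega)
  rw [one_div, inv_pow] at h4
  have h5 : (2 : ℝ) ^ 48 * ((j : ℝ) + 1) ^ 6 ≤ 2 ^ j := by
    have h6 : (2 : ℝ) ^ 48 * (((j : ℝ) + 1) ^ 6 * (2 ^ j)⁻¹) =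
        2 ^ 48 * ((j : ℝ) + 1) ^ 6 / 2 ^ j := by ring
    rw [h6, div_le_iff₀ (by positivity), one_mul] at h4
    exact h4
  have h7 : 2 ^ 48 * (j + 1) ^ 6 ≤ 2 ^ j := by exact_mod_cast h5
  calc 2 ^ 42 * L ^ 6 ≤ 2 ^ 42 * (2 * (j + 1)) ^ 6 :=
        Nat.mul_le_mul_left _ (Nat.pow_le_pow_left (by omega) 6)
    _ = 2 ^ 48 * (j + 1) ^ 6 := by ring
    _ ≤ 2 ^ j := h7

/-- The parameters. -/
theorem num3 : ∃ n₀ : ℕ, ∀ n : ℕ, n₀ ≤ n → ∃ (L m : ℕ) (β : ℝ), 64 ≤ n ∧ 64 * ql L ≤ n ∧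
    32 * (L / 16 + 1) ≤ n ∧ 16 * m ≤ n ∧ 2 ^ (8 * n) ≤ m.factorial ∧ 1 ≤ L ∧
    n + 1 ≤ 2 ^ L ∧ 1 ≤ β ∧ ((n : ℝ) ^ 2 + 1) ^ (dl L) * (n : ℝ) ^ 2 ≤ Real.exp β ∧
    512 * β * 8 ^ (L / 16 + 1 + 1) * Real.log n * ((L / 16 + 1 : ℕ) : ℝ) ≤ n / 1000 := by
  obtain ⟨n₁, hn₁⟩ := fact_large
  obtain ⟨n₂, hn₂⟩ := key_large
  refine ⟨n₁ + n₂ + 64, fun n hn => ?_⟩
  obtain ⟨L, hL4, hL1, hL2, hL3⟩ := hn₂ n (by omega)
  have hn64 : 64 ≤ n := by omega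
  have hn64' : (64 : ℝ) ≤ n := by exact_mod_cast hn64
  obtain ⟨A, hA⟩ : ∃ A, A = L / 16 + 1 := ⟨_, rfl⟩
  have hpow : 2 ^ (L / 2) ≤ n := (Nat.pow_le_pow_right (by norm_num) (by omega)).trans hL2
  have hbig : 2 ^ 42 * L ^ 6 ≤ n := hL3.trans hpow
  have hL6 : L ≤ L ^ 6 := Nat.le_self_pow (by norm_num) L
  have hql : 64 * ql L ≤ n := by
    unfold ql
    omega
  have hA32 : 32 * (L / 16 + 1) ≤ n := by omega
  have hD : 0 ≤ Real.log ((n : ℝ) ^ 2 + 1) := Real.log_nonneg (by nlinarith)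
  refine ⟨L, n / 32, ((dl L + 1 : ℕ) : ℝ) * Real.log ((n : ℝ) ^ 2 + 1), hn64, hql, hA32,
    by omega, hn₁ n (by omega), by omega, hL1, ?_, ?_, ?_⟩
  · have h1 : (1 : ℝ) ≤ Real.log ((n : ℝ) ^ 2 + 1) := by
      rw [Real.le_log_iff_exp_le (by positivity)]
      have := Real.exp_one_lt_d9
      nlinarith
    have h2 : (1 : ℝ) ≤ ((dl L + 1 : ℕ) : ℝ) := by
      have : 1 ≤ dl L + 1 := by omega
      exact_mod_cast this
    nlinarith
  · rw [Real.exp_nat_mul, Real.exp_log (by positivity), pow_succ]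
    apply mul_le_mul_of_nonneg_left _ (by positivity)
    linarith
  · rw [← hA]
    have hL0 : (4 : ℝ) ≤ L := by exact_mod_cast hL4
    have hlog2 : Real.log 2 ≤ 1 := by
      have := Real.log_two_lt_d9
      linarith
    have hlog20 : 0 ≤ Real.log 2 := Real.log_nonneg (by norm_num)
    have hn1 : (n : ℝ) + 1 ≤ 2 ^ L := by exact_mod_cast hL1
    have hlogL : Real.log (2 ^ L) ≤ L := by
      rw [Real.log_pow]
      nlinarith
    have l1 : Real.log n ≤ L := by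
      refine le_trans (Real.log_le_log (by linarith) ?_) hlogL
      linarith
    have l2 : Real.log ((n : ℝ) ^ 2 + 1) ≤ 2 * L := by
      have h3 : (n : ℝ) ^ 2 + 1 ≤ (2 ^ L) ^ 2 := by nlinarith
      have h4 : Real.log ((n : ℝ) ^ 2 + 1) ≤ Real.log ((2 ^ L) ^ 2) :=
        Real.log_le_log (by positivity) h3
      rw [Real.log_pow] at h4
      push_cast at h4
      linarith
    have hlogn0 : 0 ≤ Real.log n := Real.log_nonneg (by linarith)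
    have hAL : (A : ℝ) ≤ L := by
      have : A ≤ L := by omega
      exact_mod_cast this
    have hA0 : (0 : ℝ) ≤ A := by positivity
    have l3 : ((dl L + 1 : ℕ) : ℝ) ≤ 2 ^ 15 * (L : ℝ) ^ 3 := by
      unfold dl
      rw [← hA]
      push_cast
      have h5 : (A : ℝ) ^ 2 * L ≤ (L : ℝ) ^ 2 * L :=
        mul_le_mul_of_nonneg_right (pow_le_pow_left₀ hA0 hAL 2) (by linarith)
      have h6 : (1 : ℝ) ≤ (L : ℝ) ^ 3 := one_le_pow₀ (by linarith)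
      nlinarith
    have hβ : ((dl L + 1 : ℕ) : ℝ) * Real.log ((n : ℝ) ^ 2 + 1) ≤ 2 ^ 16 * (L : ℝ) ^ 4 := by
      calc ((dl L + 1 : ℕ) : ℝ) * Real.log ((n : ℝ) ^ 2 + 1)
          ≤ (2 ^ 15 * (L : ℝ) ^ 3) * (2 * L) := mul_le_mul l3 l2 hD (by positivity)
        _ = 2 ^ 16 * (L : ℝ) ^ 4 := by ring
    have h8 : (8 : ℝ) ^ (A + 1) = 2 ^ (3 * (L / 16) + 6) := by
      rw [hA, show 3 * (L / 16) + 6 = 3 * (L / 16 + 1 + 1) by ring, pow_mul]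
      norm_num
    have hfin : 2 ^ 41 * L ^ 6 * 2 ^ (3 * (L / 16)) ≤ n := by
      calc 2 ^ 41 * L ^ 6 * 2 ^ (3 * (L / 16)) ≤ 2 ^ (L / 2) * 2 ^ (3 * (L / 16)) := by
            apply Nat.mul_le_mul_right
            omega
        _ = 2 ^ (L / 2 + 3 * (L / 16)) := by rw [pow_add]
        _ ≤ 2 ^ (L - 1) := Nat.pow_le_pow_right (by norm_num) (by omega)
        _ ≤ n := hL2
    have hfin' : (2 : ℝ) ^ 41 * (L : ℝ) ^ 6 * 2 ^ (3 * (L / 16)) ≤ n := by exact_mod_cast hfin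
    rw [h8]
    calc 512 * (((dl L + 1 : ℕ) : ℝ) * Real.log ((n : ℝ) ^ 2 + 1)) *
          2 ^ (3 * (L / 16) + 6) * Real.log n * A
        ≤ 512 * (2 ^ 16 * (L : ℝ) ^ 4) * 2 ^ (3 * (L / 16) + 6) * L * L := by
          apply mul_le_mul _ hAL hA0 (by positivity)
          apply mul_le_mul _ l1 hlogn0 (by positivity)
          apply mul_le_mul_of_nonneg_right _ (by positivity)
          exact mul_le_mul_of_nonneg_left hβ (by norm_num)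
      _ = 2 ^ 41 * (L : ℝ) ^ 6 * 2 ^ (3 * (L / 16)) / 1024 := by
          rw [pow_add]
          ring
      _ ≤ n / 1024 := div_le_div_of_nonneg_right hfin' (by norm_num)
      _ ≤ n / 1000 := by
          apply div_le_div_of_nonneg_left (by linarith) (by norm_num) (by norm_num)

end Pool.Agent.Matroid6d
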