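import Mathlib

/-!
Numerical inequalities for general nullity plus corank.
-/

set_option autoImplicit false

namespace Pool.Agent.Matroid6d

open Finset

/-- The basic estimates for `m = n / (24 d)` and `k = m ^ (d - 1) / (2 d)`, with `d = e + 1`. -/
lemma basic_est (e : ℕ) (he : 1 ≤ e) : ∃ C₁ n₁ : ℕ, 1 ≤ C₁ ∧ ∀ n, n₁ ≤ n →
    n ^ e ≤ C₁ * ((n / (24 * (e + 1))) ^ e / (2 * (e + 1))) ∧
    2 ^ (Nat.log 2 n - 5) ≤ (e + 1) * (n / (24 * (e + 1))) ∧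
    3 * (e + 1 + 1) ≤ n := by
  refine ⟨(48 * (e + 1)) ^ e * (4 * (e + 1)), 48 * (e + 1) ^ 2 + 96 * (e + 1) + 32, ?_, ?_⟩
  · exact Nat.mul_pos (by positivity) (by omega)
  intro n hn
  obtain ⟨d, hd⟩ : ∃ d, d = e + 1 := ⟨_, rfl⟩
  rw [← hd] at hn ⊢
  obtain ⟨m, hm⟩ : ∃ m, m = n / (24 * d) := ⟨_, rfl⟩
  have hd2 : 2 ≤ d := by omega
  have hdd : d ≤ d ^ 2 := Nat.le_self_pow (by norm_num) d
  have h1 : n < 24 * d * m + 24 * d := by
    rw [hm]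
    exact Nat.lt_mul_div_succ n (by omega)
  have hm2 : 2 * d ≤ m := by
    rw [hm, Nat.le_div_iff_mul_le (by omega)]
    nlinarith
  rw [← hm]
  refine ⟨?_, ?_, by omega⟩
  · have h2 : n ≤ 48 * d * m := by nlinarith
    have h3 : n ^ e ≤ (48 * d) ^ e * m ^ e := by
      rw [← mul_pow]
      exact Nat.pow_le_pow_left h2 e
    obtain ⟨k, hk⟩ : ∃ k, k = m ^ e / (2 * d) := ⟨_, rfl⟩
    rw [← hk]
    have h4 : m ^ e < 2 * d * k + 2 * d := by
      rw [hk]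
      exact Nat.lt_mul_div_succ _ (by omega)
    have h5 : 1 ≤ k := by
      rw [hk, Nat.le_div_iff_mul_le (by omega), one_mul]
      calc 2 * d ≤ m := hm2
        _ ≤ m ^ e := Nat.le_self_pow (by omega) m
    have h6 : m ^ e ≤ 4 * d * k := by nlinarith
    calc n ^ e ≤ (48 * d) ^ e * m ^ e := h3
      _ ≤ (48 * d) ^ e * (4 * d * k) := Nat.mul_le_mul_left _ h6
      _ = (48 * d) ^ e * (4 * d) * k := by ring
  · have hn0 : n ≠ 0 := by
      have : 0 < 48 * d ^ 2 := by positivity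
      omega
    have h2 : 2 ^ Nat.log 2 n ≤ n := Nat.pow_log_le_self 2 hn0
    have h3 : n ≤ 32 * (d * m) := by nlinarith
    have h4 : 5 ≤ Nat.log 2 n := by
      rw [Nat.le_log_iff_pow_le (by norm_num) hn0]
      omega
    have h5 : 2 ^ (Nat.log 2 n - 5) * 2 ^ 5 = 2 ^ Nat.log 2 n := by
      rw [← pow_add]; congr 1; omega
    norm_num at h5
    omega

/-- The inequality for the connected families. -/
lemma numA (e : ℕ) (he : 1 ≤ e) (a : ℕ) : ∃ C n₀ : ℕ, 1 ≤ C ∧ ∀ n, n₀ ≤ n → ∀ T : ℕ,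
    C * T ≤ n ^ e →
    2 ^ (n + 2) * ((n + 1) * (2 ^ n * (n + 1) * ((T + 1) * (n + 1) ^ a) ^ T)) ≤
      ((e + 1) * (n / (24 * (e + 1)))) ^ ((n / (24 * (e + 1))) ^ e / (2 * (e + 1))) := by
  obtain ⟨C₁, n₁, hC₁, hest⟩ := basic_est e he
  refine ⟨8 * (a + e) * C₁, n₁ + 2 ^ (5 * C₁ + 6), ?_, ?_⟩
  · exact Nat.mul_pos (by omega) hC₁
  intro n hn T hT
  obtain ⟨h1, h2, h3⟩ := hest n ((Nat.le_add_right _ _).trans hn)
  obtain ⟨k, hk⟩ : ∃ k, k = (n / (24 * (e + 1))) ^ e / (2 * (e + 1)) := ⟨_, rfl⟩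
  obtain ⟨L, hL⟩ : ∃ L, L = Nat.log 2 n := ⟨_, rfl⟩
  rw [← hk] at h1 ⊢
  rw [← hL] at h2
  have hn0 : n ≠ 0 := by omega
  have hL1 : 2 ^ L ≤ n := hL ▸ Nat.pow_log_le_self 2 hn0
  have hL2 : n < 2 ^ (L + 1) := hL ▸ Nat.lt_pow_succ_log_self (by norm_num) n
  have hL3 : 5 * C₁ + 6 ≤ L := by
    rw [hL]
    exact (Nat.le_log_iff_pow_le (by norm_num) hn0).2 ((Nat.le_add_left _ _).trans hn)
  have hLn : L + 2 ≤ n := by
    have h6 : L + 2 ≤ 2 ^ L := by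
      have : ∀ j : ℕ, j + 4 ≤ 2 ^ (j + 2) := by
        intro j
        induction j with
        | zero => norm_num
        | succ j ih => rw [show j + 1 + 2 = (j + 2) + 1 by ring, pow_succ]; omega
      have := this (L - 2)
      rw [show L - 2 + 2 = L by omega] at this
      omega
    omega
  have hn1 : n + 1 ≤ 2 ^ (L + 1) := hL2
  have hTn : T + 1 ≤ (n + 1) ^ e := by
    have : T ≤ n ^ e := le_trans (Nat.le_mul_of_pos_left T (Nat.mul_pos (by omega) hC₁)) hT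
    have h7 : n ^ e < (n + 1) ^ e := Nat.pow_lt_pow_left (by omega) (by omega)
    omega
  have hlhs : 2 ^ (n + 2) * ((n + 1) * (2 ^ n * (n + 1) * ((T + 1) * (n + 1) ^ a) ^ T)) ≤
      2 ^ (n + 2 + ((L + 1) + (n + (L + 1) + (L + 1) * (a + e) * T))) := by
    have h8 : ((T + 1) * (n + 1) ^ a) ^ T ≤ 2 ^ ((L + 1) * (a + e) * T) := by
      rw [pow_mul]
      apply Nat.pow_le_pow_left
      calc (T + 1) * (n + 1) ^ a ≤ (n + 1) ^ e * (n + 1) ^ a := Nat.mul_le_mul_right _ hTn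
        _ = (n + 1) ^ (a + e) := by rw [← pow_add, add_comm e a]
        _ ≤ (2 ^ (L + 1)) ^ (a + e) := Nat.pow_le_pow_left hn1 _
        _ = 2 ^ ((L + 1) * (a + e)) := by rw [← pow_mul]
    calc 2 ^ (n + 2) * ((n + 1) * (2 ^ n * (n + 1) * ((T + 1) * (n + 1) ^ a) ^ T))
        ≤ 2 ^ (n + 2) * (2 ^ (L + 1) * (2 ^ n * 2 ^ (L + 1) * 2 ^ ((L + 1) * (a + e) * T))) :=
          Nat.mul_le_mul_left _ (Nat.mul_le_mul hn1
            (Nat.mul_le_mul (Nat.mul_le_mul_left _ hn1) h8))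
      _ = 2 ^ (n + 2 + ((L + 1) + (n + (L + 1) + (L + 1) * (a + e) * T))) := by
          rw [← pow_add, ← pow_add, ← pow_add, ← pow_add]
  have hrhs : 2 ^ ((L - 5) * k) ≤ ((e + 1) * (n / (24 * (e + 1)))) ^ k := by
    rw [pow_mul]
    exact Nat.pow_le_pow_left h2 k
  refine hlhs.trans (le_trans (Nat.pow_le_pow_right (by norm_num) ?_) hrhs)
  have h9 : 8 * (a + e) * T ≤ k := by
    have : C₁ * (8 * (a + e) * T) ≤ C₁ * k := by
      calc C₁ * (8 * (a + e) * T) = 8 * (a + e) * C₁ * T := by ring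
        _ ≤ n ^ e := hT
        _ ≤ C₁ * k := h1
    exact Nat.le_of_mul_le_mul_left this hC₁
  have h10 : n ≤ C₁ * k := (Nat.le_self_pow (by omega) n).trans h1
  have h11 : 8 * ((L + 1) * (a + e) * T) ≤ (L + 1) * k := by
    calc 8 * ((L + 1) * (a + e) * T) = (L + 1) * (8 * (a + e) * T) := by ring
      _ ≤ (L + 1) * k := Nat.mul_le_mul_left _ h9
  obtain ⟨L', hL'⟩ : ∃ L', L = L' + 5 := ⟨L - 5, by omega⟩
  rw [show L - 5 = L' by omega]
  have h12 : 32 * (C₁ * k) + (L + 1) * k ≤ 8 * (L' * k) := by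
    have : 32 * C₁ + (L + 1) ≤ 8 * L' := by omega
    calc 32 * (C₁ * k) + (L + 1) * k = (32 * C₁ + (L + 1)) * k := by ring
      _ ≤ 8 * L' * k := Nat.mul_le_mul_right _ this
      _ = 8 * (L' * k) := by ring
  omega

/-- The inequality for arbitrary families. -/
lemma numB (e : ℕ) : ∃ C n₀ : ℕ, 1 ≤ C ∧ ∀ n, n₀ ≤ n → ∀ T : ℕ, C * T ≤ n ^ e →
    2 ^ (n + 2) * ((n + 1) * (2 ^ n * (n + 1)) ^ (T + 1)) ≤
      ((e + 1 + 1) * (n / (24 * (e + 1 + 1)))) ^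
        ((n / (24 * (e + 1 + 1))) ^ (e + 1) / (2 * (e + 1 + 1))) := by
  obtain ⟨C₁, n₁, hC₁, hest⟩ := basic_est (e + 1) (by omega)
  refine ⟨4 * C₁, n₁ + 2 ^ (5 * C₁ + 6), by omega, ?_⟩
  intro n hn T hT
  obtain ⟨h1, h2, h3⟩ := hest n ((Nat.le_add_right _ _).trans hn)
  obtain ⟨k, hk⟩ : ∃ k, k = (n / (24 * (e + 1 + 1))) ^ (e + 1) / (2 * (e + 1 + 1)) := ⟨_, rfl⟩
  obtain ⟨L, hL⟩ : ∃ L, L = Nat.log 2 n := ⟨_, rfl⟩
  rw [← hk] at h1 ⊢
  rw [← hL] at h2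
  have hn0 : n ≠ 0 := by omega
  have hL1 : 2 ^ L ≤ n := hL ▸ Nat.pow_log_le_self 2 hn0
  have hL2 : n < 2 ^ (L + 1) := hL ▸ Nat.lt_pow_succ_log_self (by norm_num) n
  have hL3 : 5 * C₁ + 6 ≤ L := by
    rw [hL]
    exact (Nat.le_log_iff_pow_le (by norm_num) hn0).2 ((Nat.le_add_left _ _).trans hn)
  have hLn : L + 2 ≤ n := by
    have h6 : L + 2 ≤ 2 ^ L := by
      have : ∀ j : ℕ, j + 4 ≤ 2 ^ (j + 2) := by
        intro j
        induction j with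
        | zero => norm_num
        | succ j ih => rw [show j + 1 + 2 = (j + 2) + 1 by ring, pow_succ]; omega
      have := this (L - 2)
      rw [show L - 2 + 2 = L by omega] at this
      omega
    omega
  have hn1 : n + 1 ≤ 2 ^ (L + 1) := hL2
  have hlhs : 2 ^ (n + 2) * ((n + 1) * (2 ^ n * (n + 1)) ^ (T + 1)) ≤
      2 ^ (n + 2 + ((L + 1) + (n + (L + 1)) * (T + 1))) := by
    have h8 : (2 ^ n * (n + 1)) ^ (T + 1) ≤ 2 ^ ((n + (L + 1)) * (T + 1)) := by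
      rw [pow_mul]
      apply Nat.pow_le_pow_left
      rw [pow_add]
      exact Nat.mul_le_mul_left _ hn1
    calc 2 ^ (n + 2) * ((n + 1) * (2 ^ n * (n + 1)) ^ (T + 1))
        ≤ 2 ^ (n + 2) * (2 ^ (L + 1) * 2 ^ ((n + (L + 1)) * (T + 1))) :=
          Nat.mul_le_mul_left _ (Nat.mul_le_mul hn1 h8)
      _ = 2 ^ (n + 2 + ((L + 1) + (n + (L + 1)) * (T + 1))) := by
          rw [← pow_add, ← pow_add]
  have hrhs : 2 ^ ((L - 5) * k) ≤ ((e + 1 + 1) * (n / (24 * (e + 1 + 1)))) ^ k := by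
    rw [pow_mul]
    exact Nat.pow_le_pow_left h2 k
  refine hlhs.trans (le_trans (Nat.pow_le_pow_right (by norm_num) ?_) hrhs)
  have h9 : 4 * (n * T) ≤ k := by
    have : C₁ * (4 * (n * T)) ≤ C₁ * k := by
      calc C₁ * (4 * (n * T)) = n * (4 * C₁ * T) := by ring
        _ ≤ n * n ^ e := Nat.mul_le_mul_left _ hT
        _ = n ^ (e + 1) := by rw [pow_succ, mul_comm]
        _ ≤ C₁ * k := h1
    exact Nat.le_of_mul_le_mul_left this hC₁
  have h10 : n ≤ C₁ * k := (Nat.le_self_pow (by omega) n).trans h1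
  have h11 : (n + (L + 1)) * (T + 1) ≤ 2 * (n * T) + 2 * n := by
    calc (n + (L + 1)) * (T + 1) ≤ (n + n) * (T + 1) := Nat.mul_le_mul_right _ (by omega)
      _ = 2 * (n * T) + 2 * n := by ring
  obtain ⟨L', hL'⟩ : ∃ L', L = L' + 5 := ⟨L - 5, by omega⟩
  rw [show L - 5 = L' by omega]
  have h12 : 5 * (C₁ * k) + k ≤ L' * k := by
    have : 5 * C₁ + 1 ≤ L' := by omega
    calc 5 * (C₁ * k) + k = (5 * C₁ + 1) * k := by ring
      _ ≤ L' * k := Nat.mul_le_mul_right _ this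
  omega

end Pool.Agent.Matroid6d
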