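import Mathlib

/-!
Exchange axiom for families of finite sets, and the replacement lemma: a union of connected
components of the graph on the non-bases may be replaced by any stable subset of it.
-/

set_option autoImplicit false

namespace Pool.Agent.Matroid6d

open Finset

variable {n : ℕ}

/-- The exchange property for a predicate on finite subsets of `Fin n`. -/
def Exch (P : Finset (Fin n) → Prop) : Prop :=
  ∀ X Y, P X → P Y → ∀ a ∈ X, a ∉ Y → ∃ b ∈ Y, b ∉ X ∧ P (insert b (X.erase a))

/-- Stable families in the Johnson graph: two distinct members differ in at least two elements. -/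
def Stable (S : Finset (Finset (Fin n))) : Prop :=
  ∀ X ∈ S, ∀ Y ∈ S, X ≠ Y → 2 ≤ (X \ Y).card

/-- `K` is a union of components of the graph on the non-members (of size `r`) of `P`. -/
def Closed (P : Finset (Fin n) → Prop) (K : Finset (Finset (Fin n))) : Prop :=
  (∀ X ∈ K, ¬ P X) ∧
    ∀ X ∈ K, ∀ a ∈ X, ∀ b, b ∉ X → ¬ P (insert b (X.erase a)) → insert b (X.erase a) ∈ K

lemma card_swap {X : Finset (Fin n)} {a b : Fin n} (ha : a ∈ X) (hb : b ∉ X) :
    (insert b (X.erase a)).card = X.card := by
  rw [card_insert_of_notMem (fun h => hb (mem_of_mem_erase h)), card_erase_add_one ha]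

lemma card_sdiff_comm' {X Y : Finset (Fin n)} (h : X.card = Y.card) :
    (X \ Y).card = (Y \ X).card := by
  have h1 := card_sdiff_add_card_inter X Y
  have h2 := card_sdiff_add_card_inter Y X
  rw [inter_comm] at h2
  omega

/-- Walk from `X` to `Y` inside a ground set all of whose `r`-subsets are non-bases. -/
lemma walk (P : Finset (Fin n) → Prop) (K : Finset (Finset (Fin n))) (hK : Closed P K)
    (U : Finset (Fin n)) (r : ℕ) (hU : ∀ X, X ⊆ U → X.card = r → ¬ P X)
    (Y : Finset (Fin n)) (hYU : Y ⊆ U) (hYr : Y.card = r) :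
    ∀ (k : ℕ) (X : Finset (Fin n)), X ⊆ U → X.card = r → X ∈ K → (X \ Y).card = k → Y ∈ K := by
  intro k
  induction k with
  | zero =>
    intro X _ hXr hXK h0
    have h1 : X ⊆ Y := by
      rw [card_eq_zero, sdiff_eq_empty_iff_subset] at h0
      exact h0
    have : X = Y := eq_of_subset_of_card_le h1 (by omega)
    rw [← this]; exact hXK
  | succ k ih =>
    intro X hXU hXr hXK hk
    have hne : (X \ Y).Nonempty := by rw [← card_pos]; omega
    obtain ⟨a, ha⟩ := hne
    have hne2 : (Y \ X).Nonempty := by
      rw [← card_pos, ← card_sdiff_comm' (X := X) (Y := Y) (by omega)]; omega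
    obtain ⟨b, hb⟩ := hne2
    rw [mem_sdiff] at ha hb
    have hsub : insert b (X.erase a) ⊆ U := by
      intro z hz
      rw [mem_insert] at hz
      rcases hz with rfl | hz
      · exact hYU hb.1
      · exact hXU (mem_of_mem_erase hz)
    have hcard : (insert b (X.erase a)).card = r := by rw [card_swap ha.1 hb.2, hXr]
    have hmem : insert b (X.erase a) ∈ K := hK.2 X hXK a ha.1 b hb.2 (hU _ hsub hcard)
    refine ih (insert b (X.erase a)) hsub hcard hmem ?_
    have heq : insert b (X.erase a) \ Y = (X \ Y).erase a := by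
      ext z
      simp only [mem_sdiff, mem_insert, mem_erase]
      constructor
      · rintro ⟨rfl | ⟨h1, h2⟩, h3⟩
        · exact absurd hb.1 h3
        · exact ⟨h1, h2, h3⟩
      · rintro ⟨h1, h2, h3⟩
        exact ⟨Or.inr ⟨h1, h2⟩, h3⟩
    rw [heq, card_erase_of_mem (mem_sdiff.2 ha), hk]
    rfl

/-- The replacement lemma. -/
theorem replace (P : Finset (Fin n) → Prop) (hP : Exch P) (r : ℕ) (hr : ∀ X, P X → X.card = r)
    (K S : Finset (Finset (Fin n))) (hK : Closed P K) (hKr : ∀ X ∈ K, X.card = r)
    (hSK : S ⊆ K) (hS : Stable S) :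
    Exch (fun X => P X ∨ (X ∈ K ∧ X ∉ S)) := by
  classical
  intro B₁ B₂ h₁ h₂ x hx₁ hx₂
  have hc₁ : B₁.card = r := h₁.elim (hr _) (fun h => hKr _ h.1)
  have hc₂ : B₂.card = r := h₂.elim (hr _) (fun h => hKr _ h.1)
  by_contra hcon
  push Not at hcon
  -- there is an element of `B₂ \ B₁`
  have hcc : (B₁ \ B₂).card = (B₂ \ B₁).card := card_sdiff_comm' (by omega)
  have hpos : 0 < (B₁ \ B₂).card := card_pos.2 ⟨x, mem_sdiff.2 ⟨hx₁, hx₂⟩⟩
  obtain ⟨y₀, hy₀⟩ : (B₂ \ B₁).Nonempty := by rw [← card_pos]; omega
  rw [mem_sdiff] at hy₀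
  by_cases hA : ∃ y ∈ B₂, y ∉ B₁ ∧ insert y (B₁.erase x) ∈ S
  · obtain ⟨y, hy2, hy1, hyS⟩ := hA
    have huniq : ∀ y' ∈ B₂, y' ∉ B₁ → y' = y := by
      intro y' hy'2 hy'1
      by_contra hne
      have hyx : y ∉ B₁.erase x := fun h => hy1 (mem_of_mem_erase h)
      have hy'x : y' ∉ B₁.erase x := fun h => hy'1 (mem_of_mem_erase h)
      have heq : insert y' ((insert y (B₁.erase x)).erase y) = insert y' (B₁.erase x) := by
        rw [erase_insert hyx]
      have hnot := hcon y' hy'2 hy'1
      have hnP : ¬ P (insert y' ((insert y (B₁.erase x)).erase y)) := by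
        rw [heq]; exact hnot.1
      have hmem := hK.2 _ (hSK hyS) y (mem_insert_self _ _) y'
        (by rw [mem_insert]; rintro (h | h); exact hne h; exact hy'x h) hnP
      rw [heq] at hmem
      have hmemS := hnot.2 hmem
      have hne' : insert y (B₁.erase x) ≠ insert y' (B₁.erase x) := by
        intro h
        have : y ∈ insert y' (B₁.erase x) := h ▸ mem_insert_self _ _
        rw [mem_insert] at this
        rcases this with h | h
        · exact hne h.symm
        · exact hyx h
      have h2 := hS _ hyS _ hmemS hne'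
      have hsub : insert y (B₁.erase x) \ insert y' (B₁.erase x) ⊆ {y} := by
        intro z hz
        simp only [mem_sdiff, mem_insert, mem_singleton] at hz ⊢
        rcases hz with ⟨h | h, h'⟩
        · exact h
        · exact absurd (Or.inr h) h'
      have := card_le_card hsub
      rw [card_singleton] at this
      omega
    have hone : B₂ \ B₁ ⊆ {y} := by
      intro z hz
      rw [mem_sdiff] at hz
      rw [mem_singleton]
      exact huniq z hz.1 hz.2
    have hle1 : (B₂ \ B₁).card ≤ 1 := by
      have := card_le_card hone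
      rwa [card_singleton] at this
    have hB12 : B₁ \ B₂ = {x} := by
      symm
      apply eq_of_subset_of_card_le
      · rw [singleton_subset_iff, mem_sdiff]; exact ⟨hx₁, hx₂⟩
      · rw [card_singleton]; omega
    have hB₂ : B₂ = insert y (B₁.erase x) := by
      symm
      apply eq_of_subset_of_card_le
      · intro z hz
        rw [mem_insert] at hz
        rcases hz with rfl | hz
        · exact hy2
        · rw [mem_erase] at hz
          by_contra hzB
          have : z ∈ B₁ \ B₂ := mem_sdiff.2 ⟨hz.2, hzB⟩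
          rw [hB12, mem_singleton] at this
          exact hz.1 this
      · rw [card_swap hx₁ hy1]; omega
    rw [← hB₂] at hyS
    rcases h₂ with h | h
    · exact hK.1 _ (hSK hyS) h
    · exact h.2 hyS
  · push Not at hA
    have hnK : ∀ y ∈ B₂, y ∉ B₁ → insert y (B₁.erase x) ∉ K := by
      intro y hy2 hy1 hmem
      exact hA y hy2 hy1 ((hcon y hy2 hy1).2 hmem)
    have hB₁ : P B₁ := by
      rcases h₁ with h | h
      · exact h
      · exfalso
        exact hnK y₀ hy₀.1 hy₀.2 (hK.2 B₁ h.1 x hx₁ y₀ hy₀.2 (hcon y₀ hy₀.1 hy₀.2).1)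
    rcases h₂ with h₂ | h₂
    · obtain ⟨b, hb2, hb1, hb⟩ := hP B₁ B₂ hB₁ h₂ x hx₁ hx₂
      exact (hcon b hb2 hb1).1 hb
    · -- all `r`-subsets of `(B₁ - x) ∪ B₂` are non-bases
      have hU : ∀ X, X ⊆ B₁.erase x ∪ B₂ → X.card = r → ¬ P X := by
        intro X hX _ hPX
        have hxX : x ∉ X := by
          intro h
          have := hX h
          rw [mem_union, mem_erase] at this
          rcases this with h | h
          · exact h.1 rfl
          · exact hx₂ h
        obtain ⟨b, hbX, hb1, hb⟩ := hP B₁ X hB₁ hPX x hx₁ hxX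
        have hb2 : b ∈ B₂ := by
          have := hX hbX
          rw [mem_union] at this
          rcases this with h | h
          · exact absurd (mem_of_mem_erase h) hb1
          · exact h
        exact (hcon b hb2 hb1).1 hb
      apply hnK y₀ hy₀.1 hy₀.2
      refine walk P K hK (B₁.erase x ∪ B₂) r hU (insert y₀ (B₁.erase x)) ?_ ?_ _ B₂
        subset_union_right hc₂ h₂.1 rfl
      · intro z hz
        rw [mem_insert] at hz
        rw [mem_union]
        rcases hz with rfl | hz
        · exact Or.inr hy₀.1
        · exact Or.inl hz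
      · rw [card_swap hx₁ hy₀.2, hc₁]

end Pool.Agent.Matroid6d
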