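import Pool.Agent.Matroid6d.Types
import Pool.Agent.Matroid6d.Grid

/-!
Well separated descriptors, and the stable families near them.
-/

set_option autoImplicit false

namespace Pool.Agent.Matroid6d

open Finset

variable {n : ℕ}

lemma card_sd (X Y : Finset (Fin n)) :
    (symmDiff X Y).card = (X \ Y).card + (Y \ X).card := by
  unfold symmDiff
  rw [sup_eq_union, card_union_of_disjoint]
  rw [disjoint_left]
  intro a ha hb
  rw [mem_sdiff] at ha hb
  exact ha.2 hb.1

lemma card_sd_tri (X Y Z : Finset (Fin n)) :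
    (symmDiff X Z).card ≤ (symmDiff X Y).card + (symmDiff Y Z).card := by
  have h : symmDiff X Z ⊆ symmDiff X Y ∪ symmDiff Y Z := by
    intro x hx
    rw [mem_union, mem_symmDiff, mem_symmDiff]
    rw [mem_symmDiff] at hx
    tauto
  exact (card_le_card h).trans (card_union_le _ _)

/-- A sum over a union of sets. -/
lemma sum_biUnion_le' {α β : Type} [DecidableEq α] [DecidableEq β] (w : β → ℝ)
    (hw : ∀ b, 0 ≤ w b) (f : α → Finset β) (R : Finset α) :
    ∑ s ∈ R.biUnion f, w s ≤ ∑ t ∈ R, ∑ s ∈ f t, w s := by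
  induction R using Finset.induction_on with
  | empty => simp
  | insert a R ha ih =>
    rw [biUnion_insert, sum_insert ha]
    have h1 := sum_union_inter (s₁ := f a) (s₂ := R.biUnion f) (f := w)
    have h2 : 0 ≤ ∑ s ∈ f a ∩ R.biUnion f, w s := sum_nonneg (fun b _ => hw b)
    linarith

/-- The centre of a descriptor. -/
def cen : Desc n → Finset (Fin n)
  | Sum.inl C => C
  | Sum.inr D => Dᶜ

/-- The conflict relation. -/
def Conf (r : ℕ) (s t : Desc n) : Prop := (symmDiff (cen s) (cen t)).card < 2 * (df r s + df r t)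

lemma conf_symm {r : ℕ} {s t : Desc n} (h : Conf r s t) : Conf r t s := by
  unfold Conf at h ⊢
  rw [symmDiff_comm, add_comm]
  exact h

/-- The sets covered by a descriptor are at distance equal to its defect from its centre. -/
lemma dist_cen {r : ℕ} {X : Finset (Fin n)} {s : Desc n} (hX : X.card = r) (h : covers X s) :
    (symmDiff X (cen s)).card = df r s := by
  rw [card_sd]
  rcases s with C | D
  · change C ⊆ X at h
    show (X \ C).card + (C \ X).card = r - C.card
    rw [card_sdiff_of_subset h, hX, sdiff_eq_empty_iff_subset.2 h, card_empty, add_zero]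
  · change Disjoint X D at h
    have h1 : X ⊆ Dᶜ := fun a ha => mem_compl.2 (disjoint_left.1 h ha)
    show (X \ Dᶜ).card + (Dᶜ \ X).card = n - r - D.card
    rw [card_sdiff_of_subset h1, sdiff_eq_empty_iff_subset.2 h1, card_empty, zero_add, hX,
      card_compl']
    omega

/-- Sets covered by non-conflicting descriptors are far apart. -/
lemma far {r : ℕ} {s t : Desc n} (hs : 2 ≤ df r s) (ht : 2 ≤ df r t) (hst : ¬ Conf r s t)
    {X Y : Finset (Fin n)} (hX : X.card = r) (hY : Y.card = r) (hXs : covers X s)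
    (hYt : covers Y t) : 2 ≤ (X \ Y).card := by
  have h1 := dist_cen hX hXs
  have h2 := dist_cen hY hYt
  unfold Conf at hst
  have h3 := card_sd_tri (cen s) X (cen t)
  have h4 := card_sd_tri X Y (cen t)
  have h5 := card_sd X Y
  have h6 := card_sdiff_comm' (X := X) (Y := Y) (by rw [hX, hY])
  rw [symmDiff_comm (cen s) X] at h3
  omega

/-- Many stable families of sets covered by a descriptor of defect at least two. -/
lemma root_family {r : ℕ} (m : ℕ) (h1 : 2 * m ≤ r) (h2 : 2 * m + r ≤ n) {s : Desc n}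
    (hs : 2 ≤ df r s) :
    ∃ 𝒮 : Finset (Finset (Finset (Fin n))), (∀ S ∈ 𝒮, S ⊆ decode r {s} ∧ Stable S) ∧
      m.factorial ≤ 𝒮.card := by
  classical
  rcases s with C | D
  · change 2 ≤ r - C.card at hs
    obtain ⟨B, hCB, _, hB⟩ := exists_subsuperset_card_eq (s := C) (t := univ) (n := r - 2)
      (subset_univ _) (by omega) (by rw [card_univ, Fintype.card_fin]; omega)
    obtain ⟨a, b, ha, hb, haW, hbW, hab⟩ := two_lists m (univ \ B) (by
      rw [card_sdiff_of_subset (subset_univ _), card_univ, Fintype.card_fin, hB]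
      omega)
    refine exists_stable_of_grid m _ _ (grid_aa m (decode r {Sum.inl C}) B a b ha hb
      (fun i => (mem_sdiff.1 (haW i)).2) (fun i => (mem_sdiff.1 (hbW i)).2) hab ?_)
    intro i j
    rw [mem_decode]
    refine ⟨?_, Sum.inl C, mem_singleton_self _, ?_⟩
    · rw [card_insert_of_notMem, card_insert_of_notMem (mem_sdiff.1 (hbW j)).2, hB]
      · omega
      · rw [mem_insert, not_or]
        exact ⟨hab i j, (mem_sdiff.1 (haW i)).2⟩
    · show C ⊆ _
      intro w hw
      exact mem_insert_of_mem (mem_insert_of_mem (hCB hw))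
  · change 2 ≤ n - r - D.card at hs
    obtain ⟨H, hH1, hH⟩ := exists_subset_card_eq (s := univ \ D) (n := r + 2) (by
      rw [card_sdiff_of_subset (subset_univ _), card_univ, Fintype.card_fin]
      omega)
    obtain ⟨a, b, ha, hb, haW, hbW, hab⟩ := two_lists m H (by omega)
    refine exists_stable_of_grid m _ _ (grid_rr m (decode r {Sum.inr D}) H a b ha hb
      haW hbW hab ?_)
    intro i j
    rw [mem_decode]
    refine ⟨?_, Sum.inr D, mem_singleton_self _, ?_⟩
    · rw [card_erase_of_mem (mem_erase.2 ⟨fun h => hab i j h.symm, hbW j⟩),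
        card_erase_of_mem (haW i), hH]
      omega
    · show Disjoint _ D
      rw [disjoint_left]
      intro w hw
      exact (mem_sdiff.1 (hH1 (mem_of_mem_erase (mem_of_mem_erase hw)))).2

lemma decode_mono {r : ℕ} {S T : Finset (Desc n)} (h : S ⊆ T) : decode r S ⊆ decode r T := by
  intro X hX
  rw [mem_decode] at hX ⊢
  obtain ⟨h1, d, hd, h2⟩ := hX
  exact ⟨h1, d, h hd, h2⟩

/-- The product of the stable families near well separated descriptors. -/
lemma roots_family {r : ℕ} (m : ℕ) (h1 : 2 * m ≤ r) (h2 : 2 * m + r ≤ n) (R : Finset (Desc n))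
    (hR2 : ∀ s ∈ R, 2 ≤ df r s) (hR : ∀ s ∈ R, ∀ t ∈ R, s ≠ t → ¬ Conf r s t) :
    ∃ 𝒮 : Finset (Finset (Finset (Fin n))), (∀ S ∈ 𝒮, S ⊆ decode r R ∧ Stable S) ∧
      m.factorial ^ R.card ≤ 𝒮.card := by
  classical
  induction R using Finset.induction_on with
  | empty =>
    refine ⟨{∅}, ?_, by simp⟩
    intro S hS
    rw [mem_singleton] at hS
    subst hS
    exact ⟨empty_subset _, fun X hX => absurd hX (notMem_empty X)⟩
  | insert s R hs ih =>
    obtain ⟨𝒮₁, g1, g2⟩ := ih (fun t ht => hR2 t (mem_insert_of_mem ht))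
      (fun t ht u hu => hR t (mem_insert_of_mem ht) u (mem_insert_of_mem hu))
    obtain ⟨𝒮₂, g3, g4⟩ := root_family m h1 h2 (hR2 s (mem_insert_self _ _))
    have hfar : ∀ X ∈ decode r {s}, ∀ Y ∈ decode r R, 2 ≤ (X \ Y).card := by
      intro X hX Y hY
      rw [mem_decode] at hX hY
      obtain ⟨hXr, s', hs', hXs⟩ := hX
      obtain ⟨hYr, t, ht, hYt⟩ := hY
      rw [mem_singleton] at hs'
      subst hs'
      have hne : s' ≠ t := fun h => hs (h ▸ ht)
      exact far (hR2 _ (mem_insert_self _ _)) (hR2 t (mem_insert_of_mem ht))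
        (hR _ (mem_insert_self _ _) t (mem_insert_of_mem ht) hne) hXr hYr hXs hYt
    have hdisj : ∀ X ∈ decode r {s}, X ∉ decode r R := by
      intro X hX hX'
      have := hfar X hX X hX'
      rw [sdiff_self, bot_eq_empty, card_empty] at this
      omega
    refine ⟨(𝒮₂ ×ˢ 𝒮₁).image (fun p => p.1 ∪ p.2), ?_, ?_⟩
    · intro S hS
      rw [mem_image] at hS
      obtain ⟨⟨S₂, S₁⟩, hp, rfl⟩ := hS
      rw [mem_product] at hp
      obtain ⟨k1, k2⟩ := g3 S₂ hp.1
      obtain ⟨k3, k4⟩ := g1 S₁ hp.2
      constructor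
      · apply union_subset
        · exact k1.trans (decode_mono (singleton_subset_iff.2 (mem_insert_self _ _)))
        · exact k3.trans (decode_mono (subset_insert _ _))
      · intro X hX Y hY hne
        rw [mem_union] at hX hY
        rcases hX with hX | hX <;> rcases hY with hY | hY
        · exact k2 X hX Y hY hne
        · exact hfar X (k1 hX) Y (k3 hY)
        · rw [card_sdiff_comm' (by rw [(mem_decode.1 (k3 hX)).1, (mem_decode.1 (k1 hY)).1])]
          exact hfar Y (k1 hY) X (k3 hX)
        · exact k4 X hX Y hY hne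
    · rw [card_image_of_injOn, card_product, card_insert_of_notMem hs, pow_succ, mul_comm]
      · exact Nat.mul_le_mul g4 g2
      · rintro ⟨S₂, S₁⟩ hp ⟨T₂, T₁⟩ hq h
        rw [mem_coe, mem_product] at hp hq
        simp only at h
        have e1 := (g3 S₂ hp.1).1
        have e2 := (g1 S₁ hp.2).1
        have e3 := (g3 T₂ hq.1).1
        have e4 := (g1 T₁ hq.2).1
        have e5 : S₂ = T₂ := by
          ext X
          constructor
          · intro hX
            have : X ∈ T₂ ∪ T₁ := h ▸ mem_union_left _ hX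
            rw [mem_union] at this
            rcases this with h' | h'
            · exact h'
            · exact absurd (e4 h') (hdisj X (e1 hX))
          · intro hX
            have : X ∈ S₂ ∪ S₁ := h ▸ mem_union_left _ hX
            rw [mem_union] at this
            rcases this with h' | h'
            · exact h'
            · exact absurd (e2 h') (hdisj X (e3 hX))
        have e6 : S₁ = T₁ := by
          ext X
          constructor
          · intro hX
            have : X ∈ T₂ ∪ T₁ := h ▸ mem_union_right _ hX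
            rw [mem_union] at this
            rcases this with h' | h'
            · exact absurd (e2 hX) (hdisj X (e3 h'))
            · exact h'
          · intro hX
            have : X ∈ S₂ ∪ S₁ := h ▸ mem_union_right _ hX
            rw [mem_union] at this
            rcases this with h' | h'
            · exact absurd (e4 hX) (hdisj X (e1 h'))
            · exact h'
        rw [e5, e6]

/-- Greedy choice of a conflict-free set, in the order of a weight. -/
lemma exists_roots {α : Type} [DecidableEq α] (w : α → ℕ) (ρ : α → α → Prop)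
    (hsymm : ∀ a b, ρ a b → ρ b a) (A : Finset α) :
    ∃ R ⊆ A, (∀ a ∈ R, ∀ b ∈ R, a ≠ b → ¬ ρ a b) ∧
      ∀ s ∈ A, s ∉ R → ∃ t ∈ R, ρ s t ∧ w t ≤ w s := by
  classical
  induction A using Finset.induction_on_max_value w with
  | empty => exact ⟨∅, Subset.rfl, fun a ha => absurd ha (notMem_empty a),
      fun a ha => absurd ha (notMem_empty a)⟩
  | insert s A hs hmax ih =>
    obtain ⟨R, hRA, hR, hcov⟩ := ih
    by_cases h : ∃ t ∈ R, ρ s t
    · refine ⟨R, hRA.trans (subset_insert _ _), hR, ?_⟩
      intro u hu huR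
      rw [mem_insert] at hu
      rcases hu with rfl | hu
      · obtain ⟨t, ht, h1⟩ := h
        exact ⟨t, ht, h1, hmax t (hRA ht)⟩
      · exact hcov u hu huR
    · push Not at h
      refine ⟨insert s R, insert_subset_insert _ hRA, ?_, ?_⟩
      · intro a ha b hb hab
        rw [mem_insert] at ha hb
        rcases ha with rfl | ha <;> rcases hb with rfl | hb
        · exact absurd rfl hab
        · exact h b hb
        · exact fun h' => h a ha (hsymm _ _ h')
        · exact hR a ha b hb hab
      · intro u hu huR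
        rw [mem_insert] at hu
        rcases hu with rfl | hu
        · exact absurd (mem_insert_self _ _) huR
        · obtain ⟨t, ht, h1⟩ := hcov u hu (fun h' => huR (mem_insert_of_mem h'))
          exact ⟨t, mem_insert_of_mem ht, h1⟩

open Classical in
/-- The descriptors close to a member of `R`. -/
noncomputable def nb4 (r : ℕ) (R : Finset (Desc n)) : Finset (Desc n) :=
  univ.filter (fun s => 2 ≤ df r s ∧ ∃ t ∈ R, (symmDiff (cen s) (cen t)).card ≤ 4 * df r s)

lemma mem_nb4 {r : ℕ} {R : Finset (Desc n)} {s : Desc n} :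
    s ∈ nb4 r R ↔ 2 ≤ df r s ∧ ∃ t ∈ R, (symmDiff (cen s) (cen t)).card ≤ 4 * df r s := by
  classical
  simp only [nb4, mem_filter, mem_univ, true_and]

lemma df_le (r : ℕ) (s : Desc n) (hrn : r ≤ n) : df r s ≤ n := by
  rcases s with C | D
  · show r - C.card ≤ n
    omega
  · show n - r - D.card ≤ n
    omega

/-- The number of descriptors of defect `a` close to a given one. -/
lemma card_near (r a : ℕ) (t : Desc n) (T : Finset (Desc n))
    (hT : ∀ s ∈ T, df r s = a ∧ (symmDiff (cen s) (cen t)).card ≤ 4 * df r s) :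
    T.card ≤ 2 * (n + 1) ^ (4 * a) := by
  classical
  have h1 : (univ : Finset Bool).card * ((univ : Finset (Finset (Fin n))).filter
      (fun F => F.card ≤ 4 * a)).card ≤ 2 * (n + 1) ^ (4 * a) := by
    rw [card_univ, Fintype.card_bool]
    exact Nat.mul_le_mul_left _ (card_small_sets n (4 * a))
  refine le_trans ?_ h1
  rw [← card_product]
  apply card_le_card_of_injOn (fun s : Desc n => (s.isLeft, symmDiff (cen s) (cen t)))
  · intro s hs
    obtain ⟨h1, h2⟩ := hT s hs
    rw [mem_coe, mem_product, mem_filter]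
    exact ⟨mem_univ _, mem_univ _, by rw [← h1]; exact h2⟩
  · intro s _ s' _ h
    simp only [Prod.mk.injEq] at h
    obtain ⟨h3, h4⟩ := h
    have h5 : cen s = cen s' := symmDiff_left_injective _ h4
    rcases s with C | D <;> rcases s' with C' | D'
    · rw [show C = C' from h5]
    · simp at h3
    · simp at h3
    · have : D = D' := by
        have h6 : Dᶜ = D'ᶜ := h5
        rw [← compl_compl D, h6, compl_compl]
      rw [this]

/-- The weight of the descriptors close to a given one. -/
lemma weight_near (r L : ℕ) (hrn : r ≤ n) (hL : 1 ≤ L) (hnL : n + 1 ≤ 2 ^ L) (t : Desc n) :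
    ∑ s ∈ nb4 r {t}, ((1 : ℝ) / 2) ^ (8 * (df r s * L)) ≤ 1 := by
  classical
  have hmaps : ∀ s ∈ nb4 r {t}, df r s ∈ range (n + 1) := fun s _ =>
    mem_range.2 (by have := df_le r s hrn; omega)
  rw [← sum_fiberwise_of_maps_to hmaps]
  have key : ∀ a ∈ range (n + 1), ∑ s ∈ nb4 r {t} with df r s = a,
      ((1 : ℝ) / 2) ^ (8 * (df r s * L)) ≤ ((1 : ℝ) / 2) ^ (a + 1) := by
    intro a _
    have h0 : ∑ s ∈ nb4 r {t} with df r s = a, ((1 : ℝ) / 2) ^ (8 * (df r s * L)) =
        ((nb4 r {t}).filter (fun s => df r s = a)).card * ((1 : ℝ) / 2) ^ (8 * (a * L)) := by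
      rw [← nsmul_eq_mul, ← sum_const]
      exact sum_congr rfl (fun s hs => by rw [(mem_filter.1 hs).2])
    rw [h0]
    by_cases ha : a < 2
    · have : (nb4 r {t}).filter (fun s => df r s = a) = ∅ := by
        rw [eq_empty_iff_forall_notMem]
        intro s hs
        rw [mem_filter, mem_nb4] at hs
        omega
      rw [this, card_empty, Nat.cast_zero, zero_mul]
      positivity
    · have h1 : ((nb4 r {t}).filter (fun s => df r s = a)).card ≤ 2 * (n + 1) ^ (4 * a) := by
        apply card_near r a t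
        intro s hs
        rw [mem_filter, mem_nb4] at hs
        obtain ⟨⟨_, t', ht', h2⟩, h3⟩ := hs
        rw [mem_singleton] at ht'
        subst ht'
        exact ⟨h3, h2⟩
      have h2 : 2 * (n + 1) ^ (4 * a) ≤ 2 ^ (1 + 4 * (a * L)) := by
        rw [pow_add, pow_one]
        apply Nat.mul_le_mul_left
        calc (n + 1) ^ (4 * a) ≤ (2 ^ L) ^ (4 * a) := Nat.pow_le_pow_left hnL _
          _ = 2 ^ (4 * (a * L)) := by rw [← pow_mul]; congr 1; ring
      have h3 : (((nb4 r {t}).filter (fun s => df r s = a)).card : ℝ) ≤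
          2 ^ (1 + 4 * (a * L)) := by exact_mod_cast h1.trans h2
      calc (((nb4 r {t}).filter (fun s => df r s = a)).card : ℝ) * ((1 : ℝ) / 2) ^ (8 * (a * L))
          ≤ 2 ^ (1 + 4 * (a * L)) * ((1 : ℝ) / 2) ^ (8 * (a * L)) :=
            mul_le_mul_of_nonneg_right h3 (by positivity)
        _ = 2 ^ (1 + 4 * (a * L)) * (((1 : ℝ) / 2) ^ (1 + 4 * (a * L)) *
              ((1 : ℝ) / 2) ^ (4 * (a * L) - 1)) := by
            rw [← pow_add]
            congr 2
            have : 1 ≤ a * L := Nat.mul_pos (by omega) hL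
            omega
        _ = ((1 : ℝ) / 2) ^ (4 * (a * L) - 1) := by
            rw [← mul_assoc, ← mul_pow]
            norm_num
        _ ≤ ((1 : ℝ) / 2) ^ (a + 1) := by
            apply pow_le_pow_of_le_one (by norm_num) (by norm_num)
            have : a * 1 ≤ a * L := Nat.mul_le_mul_left _ hL
            omega
  refine (sum_le_sum key).trans ?_
  have h2 : ∀ k : ℕ, ∑ a ∈ range k, ((1 : ℝ) / 2) ^ (a + 1) ≤ 1 - (1 / 2) ^ k := by
    intro k
    induction k with
    | zero => simp
    | succ k ih =>
      rw [sum_range_succ]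
      have : ((1 : ℝ) / 2) ^ (k + 1) = 1 / 2 * (1 / 2) ^ k := by rw [pow_succ]; ring
      linarith
  refine (h2 _).trans ?_
  have : (0 : ℝ) ≤ (1 / 2) ^ (n + 1) := by positivity
  linarith

/-- The product over the descriptors close to a member of `R`. -/
lemma prod_near (r L : ℕ) (hrn : r ≤ n) (hL : 1 ≤ L) (hnL : n + 1 ≤ 2 ^ L)
    (R : Finset (Desc n)) :
    ∏ s ∈ nb4 r R, (1 + ((1 : ℝ) / 2) ^ (8 * (df r s * L))) ≤ Real.exp R.card := by
  classical
  have h1 : ∏ s ∈ nb4 r R, (1 + ((1 : ℝ) / 2) ^ (8 * (df r s * L))) ≤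
      Real.exp (∑ s ∈ nb4 r R, ((1 : ℝ) / 2) ^ (8 * (df r s * L))) := by
    rw [Real.exp_sum]
    apply prod_le_prod
    · intro s _
      positivity
    · intro s _
      have := Real.add_one_le_exp (((1 : ℝ) / 2) ^ (8 * (df r s * L)))
      linarith
  refine h1.trans (Real.exp_le_exp.2 ?_)
  have h2 : nb4 r R ⊆ R.biUnion (fun t => nb4 r {t}) := by
    intro s hs
    rw [mem_nb4] at hs
    obtain ⟨h3, t, ht, h4⟩ := hs
    rw [mem_biUnion]
    exact ⟨t, ht, mem_nb4.2 ⟨h3, t, mem_singleton_self _, h4⟩⟩
  calc ∑ s ∈ nb4 r R, ((1 : ℝ) / 2) ^ (8 * (df r s * L))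
      ≤ ∑ s ∈ R.biUnion (fun t => nb4 r {t}), ((1 : ℝ) / 2) ^ (8 * (df r s * L)) :=
        sum_le_sum_of_subset_of_nonneg h2 (fun _ _ _ => by positivity)
    _ ≤ ∑ t ∈ R, ∑ s ∈ nb4 r {t}, ((1 : ℝ) / 2) ^ (8 * (df r s * L)) :=
        sum_biUnion_le' _ (fun _ => by positivity) _ R
    _ ≤ ∑ _t ∈ R, (1 : ℝ) := sum_le_sum (fun t _ => weight_near r L hrn hL hnL t)
    _ = R.card := by rw [sum_const, nsmul_eq_mul, mul_one]

end Pool.Agent.Matroid6d
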