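import Pool.Agent.Matroid6d.Code2

/-!
The sum of the reciprocals of the numbers of stable subfamilies.
-/

set_option autoImplicit false

namespace Pool.Agent.Matroid6d

open Finset

variable {n : ℕ}

open Classical in
/-- The unions of components to be excluded. -/
noncomputable def KK (n r g : ℕ) : Finset (Finset (Finset (Fin n))) :=
  univ.filter (fun K => ∃ P : Finset (Fin n) → Prop, Ctx n r g P K ∧
    32 * n ^ 2 * (Lset P r K).card < K.card)

lemma mem_KK {r g : ℕ} {K : Finset (Finset (Fin n))} :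
    K ∈ KK n r g ↔ ∃ P : Finset (Fin n) → Prop, Ctx n r g P K ∧
      32 * n ^ 2 * (Lset P r K).card < K.card := by
  classical
  simp only [KK, mem_filter, mem_univ, true_and]

lemma sum_prod_mul {α β : Type} (A : Finset α) (B : Finset β) (F : α → ℝ) (G : β → ℝ) :
    ∑ p ∈ A ×ˢ B, F p.1 * G p.2 = (∑ a ∈ A, F a) * ∑ b ∈ B, G b := by
  rw [sum_product, sum_mul_sum]

lemma sum_univ_pow (y : ℝ) : ∑ R : Finset (Desc n), y ^ R.card = (1 + y) ^ (2 ^ (n + 1)) := by
  rw [← card_desc n, ← sum_powerset_pow, powerset_univ]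

lemma le_two_of (hn : 64 ≤ n) (z : ℝ) (hz : 0 ≤ z)
    (hz1 : z ≤ (1 / 4) ^ n * Real.exp 1) : (1 + z) ^ (2 ^ (n + 1)) ≤ 2 := by
  have h1 := one_add_pow_le_exp hz (2 ^ (n + 1))
  have h2 : Real.exp 1 ≤ 3 := by
    have := Real.exp_one_lt_d9
    linarith
  have h3 : ((2 ^ (n + 1) : ℕ) : ℝ) * z ≤ Real.log 2 := by
    have e0 : (0.6 : ℝ) ≤ Real.log 2 := by
      have := Real.log_two_gt_d9
      linarith
    refine le_trans ?_ e0
    calc ((2 ^ (n + 1) : ℕ) : ℝ) * z ≤ ((2 ^ (n + 1) : ℕ) : ℝ) * ((1 / 4) ^ n * 3) := by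
          apply mul_le_mul_of_nonneg_left _ (by positivity)
          exact hz1.trans (mul_le_mul_of_nonneg_left h2 (by positivity))
      _ = 6 * (1 / 2) ^ n := by
          push_cast
          rw [pow_succ]
          have : (2 : ℝ) ^ n * (1 / 4) ^ n = (1 / 2) ^ n := by
            rw [← mul_pow]
            norm_num
          linear_combination 6 * this
      _ ≤ 6 * (1 / 2) ^ 64 := by
          apply mul_le_mul_of_nonneg_left _ (by norm_num)
          exact pow_le_pow_of_le_one (by norm_num) (by norm_num) hn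
      _ ≤ 0.6 := by norm_num
  calc (1 + z) ^ (2 ^ (n + 1)) ≤ Real.exp (((2 ^ (n + 1) : ℕ) : ℝ) * z) := h1
    _ ≤ Real.exp (Real.log 2) := Real.exp_le_exp.2 h3
    _ = 2 := Real.exp_log (by norm_num)

/-- The sum over all codes. -/
theorem ksum (r g L m : ℕ) (β : ℝ) (hg : 2 ^ 18 + 1 ≤ g) (hn : 64 ≤ n) (hq : 64 * ql L ≤ n)
    (hA : 32 * (L / 16 + 1) ≤ n) (hm1 : 2 * m ≤ r) (hm2 : 2 * m + r ≤ n)
    (hm : 2 ^ (8 * n) ≤ m.factorial) (h1 : n ≤ 8 * r) (h2 : 8 * r ≤ 7 * n) (hL : 1 ≤ L)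
    (hnL : n + 1 ≤ 2 ^ L) (hβ : 1 ≤ β)
    (hξ : ((n : ℝ) ^ 2 + 1) ^ (dl L) * (n : ℝ) ^ 2 ≤ Real.exp β)
    (hnum : 512 * β * 8 ^ (L / 16 + 1 + 1) * Real.log n * ((L / 16 + 1 : ℕ) : ℝ) ≤ n / 1000) :
    ∑ K ∈ KK n r g, ((Nst K : ℝ))⁻¹ ≤ 8 * (1 / 4) ^ n := by
  classical
  have hrn : r ≤ n := by omega
  have hn0 : (0 : ℝ) < n := by
    have : 0 < n := by omega
    exact_mod_cast this
  set θ := Real.log 2 with hθ
  have hθ0 : 0 < θ := Real.log_pos (by norm_num)
  set y : ℝ := (1 / 4) ^ n with hy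
  have hy0 : 0 < y := by positivity
  have hyexp : y = Real.exp (-(θ * (2 * n))) := by
    rw [hy, Real.exp_neg, show θ * (2 * n) = ((2 * n : ℕ) : ℝ) * θ by push_cast; ring,
      Real.exp_nat_mul, hθ, Real.exp_log (by norm_num), pow_mul, one_div, inv_pow]
    norm_num
  -- the three factors
  set F1 : (Σ _ : Finset (Desc n), Finset (Desc n)) → ℝ :=
    fun q => y ^ q.1.card * ∏ s ∈ q.2, ((1 : ℝ) / 2) ^ (8 * (df r s * L)) with hF1
  set F2 : Finset (Desc n) → ℝ := fun Λ => y ^ Λ.card with hF2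
  set F3 : (Σ _ : Finset (Desc n), Finset (Finset (Fin n)) × Finset (Finset (Fin n))) → ℝ :=
    fun q => y ^ q.1.card * (Real.exp (-(θ * ((decode r q.1).card / (16 * n)))) *
      (wX r q.2.1 * wX (n - r) q.2.2)) with hF3
  set I1 := (univ : Finset (Finset (Desc n))).sigma (fun R => (nb4 r R).powerset) with hI1
  set G := (univ : Finset (Finset (Desc n))).filter
    (fun T => T = ∅ ∨ n ^ 2 ≤ (decode r T).card) with hG
  set I3 := G.sigma (fun T => nsSub (dl L) (region r (L / 16 + 1) (smallR (ql L) T)) ×ˢ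
    nsSub (dl L) (region (n - r) (L / 16 + 1) (smallL (ql L) T))) with hI3
  set I := I1 ×ˢ ((univ : Finset (Finset (Desc n))) ×ˢ I3) with hI
  set f : (Σ _ : Finset (Desc n), Finset (Desc n)) × (Finset (Desc n) ×
      (Σ _ : Finset (Desc n), Finset (Finset (Fin n)) × Finset (Finset (Fin n)))) → ℝ :=
    fun q => F1 q.1 * (F2 q.2.1 * F3 q.2.2) with hf
  have hwX0 : ∀ k (X : Finset (Finset (Fin n))), 0 ≤ wX k X := fun k X => by
    unfold wX
    positivity
  have hf0 : ∀ q, 0 ≤ f q := by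
    intro q
    have a1 : 0 ≤ F1 q.1 := by rw [hF1]; positivity
    have a2 : 0 ≤ F2 q.2.1 := by rw [hF2]; positivity
    have a3 : 0 ≤ F3 q.2.2 := by
      rw [hF3]
      have := hwX0 r q.2.2.2.1
      have := hwX0 (n - r) q.2.2.2.2
      positivity
    exact mul_nonneg a1 (mul_nonneg a2 a3)
  -- the codes
  have key : ∀ K ∈ KK n r g, ∃ q : (Σ _ : Finset (Desc n), Finset (Desc n)) ×
      (Finset (Desc n) ×
      (Σ _ : Finset (Desc n), Finset (Finset (Fin n)) × Finset (Finset (Fin n)))),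
      K = decode r (q.1.1 ∪ q.1.2 ∪ q.2.2.1 ∪ q.2.1 ∪ q.2.2.2.1.image Sum.inl ∪
        q.2.2.2.2.image Sum.inr) ∧ q ∈ I ∧ ((Nst K : ℝ))⁻¹ ≤ y * f q := by
    intro K hK
    obtain ⟨P, hctx, hbad⟩ := mem_KK.1 hK
    obtain ⟨R, S, Λ, T, XL, XR, e1, e2, e3, e4, e5, e6, e7⟩ := encode2 L m hctx hg hn
      (by omega) hm1 hm2 hm hbad
    refine ⟨⟨⟨R, S⟩, Λ, ⟨T, XL, XR⟩⟩, e1, ?_, ?_⟩
    · rw [hI, mem_product, mem_product, hI1, mem_sigma, hI3, mem_sigma, mem_product, hG,
        mem_filter, mem_powerset]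
      exact ⟨⟨mem_univ _, e2⟩, mem_univ _, ⟨mem_univ _, e5⟩, e3, e4⟩
    · refine e7.trans ?_
      have e8 : Real.exp (-(θ * (4 * n * ((R.card : ℝ) + Λ.card + T.card)))) ≤
          y * (y ^ R.card * (y ^ Λ.card * y ^ T.card)) := by
        rw [← pow_add, ← pow_add, ← pow_succ', hyexp, ← Real.exp_nat_mul]
        apply Real.exp_le_exp.2
        have e9 : (1 : ℝ) ≤ (R.card : ℝ) + Λ.card + T.card := by exact_mod_cast e6
        push_cast
        have e10 : 0 ≤ θ * (2 * n) * ((R.card : ℝ) + Λ.card + T.card - 1) := by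
          apply mul_nonneg (by positivity)
          linarith
        nlinarith
      have p1 : 0 ≤ ∏ s ∈ S, ((1 : ℝ) / 2) ^ (8 * (df r s * L)) := by positivity
      have p2 : 0 ≤ Real.exp (-(θ * ((decode r T).card / (16 * n)))) *
          (wX r XL * wX (n - r) XR) := by
        have := hwX0 r XL
        have := hwX0 (n - r) XR
        positivity
      calc Real.exp (-(θ * (4 * n * ((R.card : ℝ) + Λ.card + T.card)))) *
            (∏ s ∈ S, ((1 : ℝ) / 2) ^ (8 * (df r s * L))) *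
            (Real.exp (-(θ * ((decode r T).card / (16 * n)))) * (wX r XL * wX (n - r) XR))
          ≤ (y * (y ^ R.card * (y ^ Λ.card * y ^ T.card))) *
            (∏ s ∈ S, ((1 : ℝ) / 2) ^ (8 * (df r s * L))) *
            (Real.exp (-(θ * ((decode r T).card / (16 * n)))) * (wX r XL * wX (n - r) XR)) :=
            mul_le_mul_of_nonneg_right (mul_le_mul_of_nonneg_right e8 p1) p2
        _ = _ := by
            rw [hf, hF1, hF2, hF3]
            simp only
            ring
  choose! φ hφ1 hφ2 hφ3 using key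
  have hinj : Set.InjOn φ (KK n r g : Set (Finset (Finset (Fin n)))) := by
    intro K hK K' hK' h'
    rw [hφ1 K hK, hφ1 K' hK', h']
  -- the factor of the remaining descriptors
  have inner : ∀ T ∈ G, ∑ p ∈ nsSub (dl L) (region r (L / 16 + 1) (smallR (ql L) T)) ×ˢ
      nsSub (dl L) (region (n - r) (L / 16 + 1) (smallL (ql L) T)),
      F3 ⟨T, p⟩ ≤ y ^ T.card := by
    intro T hT
    rw [hG, mem_filter] at hT
    have e0 : ∑ p ∈ nsSub (dl L) (region r (L / 16 + 1) (smallR (ql L) T)) ×ˢ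
        nsSub (dl L) (region (n - r) (L / 16 + 1) (smallL (ql L) T)), F3 ⟨T, p⟩ =
        y ^ T.card * (Real.exp (-(θ * ((decode r T).card / (16 * n)))) *
          ((∑ X ∈ nsSub (dl L) (region r (L / 16 + 1) (smallR (ql L) T)), wX r X) *
          ∑ X ∈ nsSub (dl L) (region (n - r) (L / 16 + 1) (smallL (ql L) T)),
            wX (n - r) X)) := by
      rw [← sum_prod_mul, mul_sum, mul_sum]
    rw [e0]
    have hyT : 0 ≤ y ^ T.card := by positivity
    refine le_trans (mul_le_mul_of_nonneg_left ?_ hyT) (le_of_eq (mul_one _))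
    rcases hT.2 with h0 | h0
    · subst h0
      rw [smallR_empty, smallL_empty, sum_region_empty, sum_region_empty]
      have : decode r (∅ : Finset (Desc n)) = ∅ := by
        rw [eq_empty_iff_forall_notMem]
        intro X hX
        rw [mem_decode] at hX
        obtain ⟨_, d, hd, _⟩ := hX
        exact absurd hd (notMem_empty d)
      rw [this, card_empty]
      simp
    · set U : ℝ := ((decode r T).card : ℝ) with hU
      have u2 : (n : ℝ) ^ 2 ≤ U := by rw [hU]; exact_mod_cast h0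
      have hU0 : 0 ≤ U := by positivity
      have q1 := region_sum r (L / 16 + 1) (ql L) (dl L) (smallR (ql L) T)
        (fun D hD => (mem_smallR.1 hD).2) h1 h2 hq hA hn U
        (by rw [hU]; exact_mod_cast miss_smallR r (ql L) T) u2 β hβ hξ hnum
      have q2 := region_sum (n - r) (L / 16 + 1) (ql L) (dl L) (smallL (ql L) T)
        (fun D hD => (mem_smallL.1 hD).2) (by omega) (by omega) hq hA hn U
        (by rw [hU]; exact_mod_cast miss_smallL r (ql L) hrn T) u2 β hβ hξ hnum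
      have e2 : 0 ≤ ∑ X ∈ nsSub (dl L) (region (n - r) (L / 16 + 1) (smallL (ql L) T)),
          wX (n - r) X := sum_nonneg (fun X _ => hwX0 _ X)
      calc Real.exp (-(θ * (U / (16 * n)))) *
            ((∑ X ∈ nsSub (dl L) (region r (L / 16 + 1) (smallR (ql L) T)), wX r X) *
            ∑ X ∈ nsSub (dl L) (region (n - r) (L / 16 + 1) (smallL (ql L) T)), wX (n - r) X)
          ≤ Real.exp (-(θ * (U / (16 * n)))) *
            (Real.exp (U / (500 * n)) * Real.exp (U / (500 * n))) := by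
            apply mul_le_mul_of_nonneg_left _ (Real.exp_pos _).le
            exact mul_le_mul q1 q2 e2 (Real.exp_pos _).le
        _ = Real.exp (U / n * (1 / 250 - θ / 16)) := by
            rw [← Real.exp_add, ← Real.exp_add]
            congr 1
            field_simp
            ring
        _ ≤ 1 := by
            apply Real.exp_le_one_iff.2
            apply mul_nonpos_of_nonneg_of_nonpos (by positivity)
            have := Real.log_two_gt_d9
            rw [hθ]
            linarith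
  -- the three sums
  have s1 : ∑ q ∈ I1, F1 q ≤ 2 := by
    rw [hI1, sum_sigma]
    calc ∑ R : Finset (Desc n), ∑ S ∈ (nb4 r R).powerset, F1 ⟨R, S⟩
        = ∑ R : Finset (Desc n), y ^ R.card *
            ∏ s ∈ nb4 r R, (1 + ((1 : ℝ) / 2) ^ (8 * (df r s * L))) := by
          refine sum_congr rfl (fun R _ => ?_)
          rw [prod_one_add, mul_sum]
      _ ≤ ∑ R : Finset (Desc n), (y * Real.exp 1) ^ R.card := by
          refine sum_le_sum (fun R _ => ?_)
          rw [mul_pow, ← Real.exp_nat_mul, mul_one]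
          exact mul_le_mul_of_nonneg_left (prod_near r L hrn hL hnL R) (by positivity)
      _ = (1 + y * Real.exp 1) ^ (2 ^ (n + 1)) := sum_univ_pow _
      _ ≤ 2 := le_two_of hn _ (by positivity) le_rfl
  have hy1 : y ≤ (1 / 4) ^ n * Real.exp 1 := by
    have := Real.add_one_le_exp (1 : ℝ)
    rw [← hy]
    nlinarith
  have s2 : ∑ Λ : Finset (Desc n), F2 Λ ≤ 2 := by
    rw [hF2, sum_univ_pow]
    exact le_two_of hn _ hy0.le hy1
  have s3 : ∑ q ∈ I3, F3 q ≤ 2 := by
    rw [hI3, sum_sigma]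
    calc ∑ T ∈ G, ∑ p ∈ nsSub (dl L) (region r (L / 16 + 1) (smallR (ql L) T)) ×ˢ
          nsSub (dl L) (region (n - r) (L / 16 + 1) (smallL (ql L) T)), F3 ⟨T, p⟩
        ≤ ∑ T ∈ G, y ^ T.card := sum_le_sum inner
      _ ≤ ∑ T : Finset (Desc n), y ^ T.card :=
          sum_le_sum_of_subset_of_nonneg (subset_univ _) (fun _ _ _ => by positivity)
      _ = (1 + y) ^ (2 ^ (n + 1)) := sum_univ_pow _
      _ ≤ 2 := le_two_of hn _ hy0.le hy1
  have s2' : 0 ≤ ∑ Λ : Finset (Desc n), F2 Λ := sum_nonneg (fun _ _ => by rw [hF2]; positivity)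
  have s3' : 0 ≤ ∑ q ∈ I3, F3 q := by
    refine sum_nonneg (fun q _ => ?_)
    rw [hF3]
    have := hwX0 r q.2.1
    have := hwX0 (n - r) q.2.2
    positivity
  calc ∑ K ∈ KK n r g, ((Nst K : ℝ))⁻¹ ≤ ∑ K ∈ KK n r g, y * f (φ K) :=
        sum_le_sum (fun K hK => hφ3 K hK)
    _ = y * ∑ q ∈ (KK n r g).image φ, f q := by rw [← mul_sum, sum_image hinj]
    _ ≤ y * ∑ q ∈ I, f q := by
        apply mul_le_mul_of_nonneg_left _ hy0.le
        apply sum_le_sum_of_subset_of_nonneg
        · intro q hq'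
          rw [mem_image] at hq'
          obtain ⟨K, hK, rfl⟩ := hq'
          exact hφ2 K hK
        · intro q _ _
          exact hf0 q
    _ = y * ((∑ q ∈ I1, F1 q) * ((∑ Λ : Finset (Desc n), F2 Λ) * ∑ q ∈ I3, F3 q)) := by
        rw [hI, hf, sum_prod_mul I1 (univ ×ˢ I3) F1 (fun p => F2 p.1 * F3 p.2), sum_prod_mul]
    _ ≤ y * (2 * (2 * 2)) := by
        apply mul_le_mul_of_nonneg_left _ hy0.le
        exact mul_le_mul s1 (mul_le_mul s2 s3 s3' (by norm_num)) (mul_nonneg s2' s3')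
          (by norm_num)
    _ = 8 * (1 / 4) ^ n := by
        rw [hy]
        ring

end Pool.Agent.Matroid6d
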