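import Pool.Agent.Matroid6d.Deg2

/-!
The classification of the descriptors of a union of components without circuit-hyperplanes.
-/

set_option autoImplicit false

namespace Pool.Agent.Matroid6d

open Finset

variable {n : ℕ}

/-- The standing assumptions. -/
structure Ctx (n r g : ℕ) (P : Finset (Fin n) → Prop) (K : Finset (Finset (Fin n))) : Prop where
  hP : Exch P
  hr : ∀ X, P X → X.card = r
  hne : ∃ B, P B
  hK : Closed P K
  hKr : ∀ X ∈ K, X.card = r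
  hU : K ⊆ Us P r
  hg : ∀ Y ∈ K, (Cs P Y).Nonempty → g ≤ (Cs P Y).card ∧ g ≤ (Ds P Y).card
  h1 : n ≤ 8 * r
  h2 : 8 * r ≤ 7 * n

variable {P : Finset (Fin n) → Prop} {K : Finset (Finset (Fin n))} {X Y : Finset (Fin n)}
  {r g L : ℕ}

lemma Ctx.dual (h : Ctx n r g P K) : Ctx n (n - r) g (Pd P) (Kc K) := by
  have h1 := h.h1
  have h2 := h.h2
  refine ⟨exch_Pd h.hP h.hne, rank_Pd h.hr, ne_Pd h.hne, closed_Pd h.hK, ?_, ?_, ?_, by omega,
    by omega⟩
  · intro X hX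
    have := h.hKr _ (mem_Kc.1 hX)
    rw [card_compl'] at this
    have := card_le_n X
    omega
  · intro X hX
    have := Us_Pd (h.hU (mem_Kc.1 hX))
    rwa [compl_compl] at this
  · intro Y hY hne
    rw [Cs_Pd'] at hne
    have := h.hg _ (mem_Kc.1 hY) (Ds_nonempty_iff.1 hne)
    rw [Cs_Pd', Ds_Pd']
    exact ⟨this.2, this.1⟩

/-- The descriptors of the same kind and size that differ in one element. -/
noncomputable def dnbrs (P : Finset (Fin n) → Prop) (r : ℕ) : Desc n → Finset (Finset (Fin n))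
  | Sum.inl C => nbrs P r C
  | Sum.inr D => nbrs (Pd P) (n - r) D

/-- The descriptor occurs together with a small one. -/
def Partner (P : Finset (Fin n) → Prop) (K : Finset (Finset (Fin n))) (q : ℕ) : Desc n → Prop
  | Sum.inl C => ∃ Y ∈ K, (Cs P Y).Nonempty ∧ Cs P Y = C ∧ (Ds P Y).card ≤ q
  | Sum.inr D => ∃ Y ∈ K, (Cs P Y).Nonempty ∧ Ds P Y = D ∧ (Cs P Y).card ≤ q

/-- Descriptors with large cells. -/
def IsT (P : Finset (Fin n) → Prop) (r : ℕ) (K : Finset (Finset (Fin n))) (d : Desc n) : Prop :=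
  Present P K d ∧ 64 * n ^ 2 ≤ (cell P r d).card

/-- Descriptors of defect one. -/
def IsL (P : Finset (Fin n) → Prop) (r : ℕ) (K : Finset (Finset (Fin n))) (d : Desc n) : Prop :=
  Present P K d ∧ df r d = 1

/-- Descriptors with cells of medium size. -/
def IsH (P : Finset (Fin n) → Prop) (r : ℕ) (K : Finset (Finset (Fin n))) (L : ℕ) (d : Desc n) :
    Prop :=
  Present P K d ∧ 2 ≤ df r d ∧ 128 * (df r d * (n * L)) ≤ (cell P r d).card

/-- The remaining descriptors. -/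
def IsX (P : Finset (Fin n) → Prop) (r : ℕ) (K : Finset (Finset (Fin n))) (L : ℕ) (d : Desc n) :
    Prop :=
  Present P K d ∧ 2 ≤ df r d ∧ df r d ≤ L / 16 + 1 ∧ 2048 * (n * df r d) ≤ (cell P r d).card ∧
    (dnbrs P r d).card ≤ 16384 * ((L / 16 + 1) ^ 2 * L) ∧ Partner P K (16384 * L + 2) d

lemma dnbrs_swap (hrn : r ≤ n) (d : Desc n) : dnbrs (Pd P) (n - r) d.swap = dnbrs P r d := by
  have hnr : n - (n - r) = r := by omega
  rcases d with C | D
  · show nbrs (Pd (Pd P)) (n - (n - r)) C = nbrs P r C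
    rw [Pd_Pd, hnr]
  · rfl

lemma partner_swap (q : ℕ) (d : Desc n) : Partner (Pd P) (Kc K) q d.swap ↔ Partner P K q d := by
  rcases d with C | D
  · constructor
    · rintro ⟨Y, hY, h1, h2, h3⟩
      rw [Cs_Pd'] at h1 h3
      rw [Ds_Pd'] at h2
      exact ⟨Yᶜ, mem_Kc.1 hY, Ds_nonempty_iff.1 h1, h2, h3⟩
    · rintro ⟨Y, hY, h1, h2, h3⟩
      refine ⟨Yᶜ, mem_Kc.2 (by rwa [compl_compl]), ?_, ?_, ?_⟩
      · rw [Cs_Pd]
        exact Ds_nonempty_iff.2 h1
      · rw [Ds_Pd]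
        exact h2
      · rw [Cs_Pd]
        exact h3
  · constructor
    · rintro ⟨Y, hY, h1, h2, h3⟩
      rw [Cs_Pd'] at h1 h2
      rw [Ds_Pd'] at h3
      exact ⟨Yᶜ, mem_Kc.1 hY, Ds_nonempty_iff.1 h1, h2, h3⟩
    · rintro ⟨Y, hY, h1, h2, h3⟩
      refine ⟨Yᶜ, mem_Kc.2 (by rwa [compl_compl]), ?_, ?_, ?_⟩
      · rw [Cs_Pd]
        exact Ds_nonempty_iff.2 h1
      · rw [Cs_Pd]
        exact h2
      · rw [Ds_Pd]
        exact h3

lemma isT_swap (hrn : r ≤ n) (d : Desc n) : IsT (Pd P) (n - r) (Kc K) d.swap ↔ IsT P r K d := by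
  unfold IsT
  rw [present_swap, card_cell_swap hrn]

lemma isX_swap (hrn : r ≤ n) (d : Desc n) :
    IsX (Pd P) (n - r) (Kc K) L d.swap ↔ IsX P r K L d := by
  unfold IsX
  rw [present_swap, card_cell_swap hrn, dnbrs_swap hrn, partner_swap, df_swap hrn]

namespace Ctx

/-- The second-order bound with the girth assumption. -/
lemma deg (h : Ctx n r g P K) (hY : Y ∈ K) (hne : (Cs P Y).Nonempty) :
    (r - (Cs P Y).card) * (r - (Cs P Y).card - 1) * (Ds P Y).card * (g - 1) ≤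
      4 * (cell P r (Sum.inl (Cs P Y))).card := by
  apply deg2 h.hP (h.hKr Y hY) (h.hK.1 Y hY)
  intro x hx hxC y hy
  have s := Cs_swap h.hP (h.hK.1 Y hY) hx hxC hy
  have hm := h.hK.2 Y hY x hx y (mem_Ds.1 hy).1 s.1
  exact (h.hg _ hm (by rw [s.2]; exact hne)).2

/-- A small circuit has a large cell. -/
lemma small (h : Ctx n r g P K) (hg : 2 ^ 18 + 1 ≤ g) (hn : 64 ≤ n) (hY : Y ∈ K)
    (hne : (Cs P Y).Nonempty) (hs : 32 * (Cs P Y).card < n) :
    64 * n ^ 2 ≤ (cell P r (Sum.inl (Cs P Y))).card := by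
  have h1 := h.deg hY hne
  have h2 := (h.hg Y hY hne).2
  have h3 := h.h1
  obtain ⟨a, ha⟩ : ∃ a, a = r - (Cs P Y).card := ⟨_, rfl⟩
  rw [← ha] at h1
  have h4 : 3 * n ≤ 32 * a := by omega
  obtain ⟨b, hb⟩ : ∃ b, a = b + 1 := ⟨a - 1, by omega⟩
  have h5 : 3 * n ≤ 64 * b := by omega
  subst hb
  rw [Nat.add_sub_cancel] at h1
  have h6 : 3 * n * (3 * n) ≤ (64 * b) * (32 * (b + 1)) := Nat.mul_le_mul h5 h4
  have h7 : (b + 1) * b * 2 ^ 18 * 2 ^ 18 ≤ (b + 1) * b * (Ds P Y).card * (g - 1) :=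
    Nat.mul_le_mul (Nat.mul_le_mul_left _ (by omega)) (by omega)
  nlinarith

/-- Few possible defects. -/
lemma bound_a (h : Ctx n r g P K) (hg : 2 ^ 18 + 1 ≤ g) (hY : Y ∈ K)
    (hne : (Cs P Y).Nonempty) (hD : n ≤ 32 * (Ds P Y).card)
    (ha2 : 2 ≤ r - (Cs P Y).card)
    (hH : (cell P r (Sum.inl (Cs P Y))).card < 128 * ((r - (Cs P Y).card) * (n * L))) :
    r - (Cs P Y).card ≤ L / 16 + 1 := by
  have h1 := h.deg hY hne
  obtain ⟨b, hb⟩ : ∃ b, r - (Cs P Y).card = b + 1 := ⟨r - (Cs P Y).card - 1, by omega⟩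
  rw [hb] at h1 hH ⊢
  rw [Nat.add_sub_cancel] at h1
  have h2 : (b + 1) * (b * n * 2 ^ 18) ≤ (b + 1) * (2 ^ 14 * (n * L)) := by
    calc (b + 1) * (b * n * 2 ^ 18) ≤ (b + 1) * (b * (32 * (Ds P Y).card) * (g - 1)) := by
          apply Nat.mul_le_mul_left
          exact Nat.mul_le_mul (Nat.mul_le_mul_left _ hD) (by omega)
      _ = 32 * ((b + 1) * b * (Ds P Y).card * (g - 1)) := by ring
      _ ≤ 32 * (4 * (128 * ((b + 1) * (n * L)))) :=
          Nat.mul_le_mul_left _ (h1.trans (Nat.mul_le_mul_left _ hH.le))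
      _ = (b + 1) * (2 ^ 14 * (n * L)) := by ring
  have h3 := Nat.le_of_mul_le_mul_left h2 (by omega)
  have hn : 0 < n := by
    rcases Nat.eq_zero_or_pos n with h0 | h0
    · subst h0
      simp at hH
    · exact h0
  have h4 : n * (b * 16 * 2 ^ 14) ≤ n * (L * 2 ^ 14) := by
    calc n * (b * 16 * 2 ^ 14) = b * n * 2 ^ 18 := by ring
      _ ≤ 2 ^ 14 * (n * L) := h3
      _ = n * (L * 2 ^ 14) := by ring
  have h5 := Nat.le_of_mul_le_mul_left h4 hn
  have h6 := Nat.le_of_mul_le_mul_right h5 (by norm_num)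
  omega

/-- The remaining circuits. -/
lemma isX_inl (h : Ctx n r g P K) (hg : 2 ^ 18 + 1 ≤ g) (hn : 64 ≤ n) (hY : Y ∈ K)
    (hne : (Cs P Y).Nonempty) (hC : n ≤ 32 * (Cs P Y).card) (hD : n ≤ 32 * (Ds P Y).card)
    (ha2 : 2 ≤ r - (Cs P Y).card) (hb1 : n - r - (Ds P Y).card ≠ 1)
    (hH : (cell P r (Sum.inl (Cs P Y))).card < 128 * ((r - (Cs P Y).card) * (n * L)))
    (hH' : 2 ≤ n - r - (Ds P Y).card → (cell P r (Sum.inr (Ds P Y))).card <
      128 * ((n - r - (Ds P Y).card) * (n * L))) :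
    IsX P r K L (Sum.inl (Cs P Y)) := by
  have hrn : r ≤ n := by
    have := h.h2
    omega
  have hdeg := h.deg hY hne
  have hba := h.bound_a hg hY hne hD ha2 hH
  refine ⟨⟨Y, hY, hne, rfl⟩, ha2, hba, ?_, ?_, ?_⟩
  · -- the size of the cell
    show 2048 * (n * (r - (Cs P Y).card)) ≤ _
    obtain ⟨b, hb⟩ : ∃ b, r - (Cs P Y).card = b + 1 := ⟨r - (Cs P Y).card - 1, by omega⟩
    rw [hb] at hdeg ⊢
    rw [Nat.add_sub_cancel] at hdeg
    have h2 : 2 ^ 7 * (2048 * (n * (b + 1))) ≤ 2 ^ 7 * (cell P r (Sum.inl (Cs P Y))).card := by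
      calc 2 ^ 7 * (2048 * (n * (b + 1))) = (b + 1) * (1 * n * 2 ^ 18) := by ring
        _ ≤ (b + 1) * (b * (32 * (Ds P Y).card) * (g - 1)) := by
            apply Nat.mul_le_mul_left
            exact Nat.mul_le_mul (Nat.mul_le_mul (by omega) hD) (by omega)
        _ = 32 * ((b + 1) * b * (Ds P Y).card * (g - 1)) := by ring
        _ ≤ 32 * (4 * (cell P r (Sum.inl (Cs P Y))).card) := Nat.mul_le_mul_left _ hdeg
        _ = 2 ^ 7 * (cell P r (Sum.inl (Cs P Y))).card := by ring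
    exact Nat.le_of_mul_le_mul_left h2 (by norm_num)
  · -- the number of neighbours
    show (nbrs P r (Cs P Y)).card ≤ _
    have hcnt := nbr_count h.hP h.hr (h.hKr Y hY) (h.hK.1 Y hY) hne (by omega) hb1
    have hc1 : n ≤ 64 * ((Cs P Y).card - 1) := by omega
    by_cases hb0 : n - r - (Ds P Y).card = 0
    · rw [hb0] at hcnt
      have h0 : (nbrs P r (Cs P Y)).card * ((Cs P Y).card - 1) = 0 := by omega
      rcases Nat.mul_eq_zero.1 h0 with h3 | h3
      · rw [h3]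
        exact Nat.zero_le _
      · omega
    · have hb2 : 2 ≤ n - r - (Ds P Y).card := by omega
      have hHb := hH' hb2
      have hbb : n - r - (Ds P Y).card ≤ L / 16 + 1 := by
        have hd := h.dual
        have hY' : Yᶜ ∈ Kc K := mem_Kc.2 (by rwa [compl_compl])
        have h3 := hd.bound_a (L := L) hg hY' (by rw [Cs_Pd]; exact Ds_nonempty_iff.2 hne)
          (by rw [Ds_Pd]; exact hC) (by rw [Cs_Pd]; exact hb2)
          (by
            have h4 := card_cell_swap (P := P) hrn (Sum.inr (Ds P Y))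
            rw [Sum.swap_inr] at h4
            rw [Cs_Pd, h4]
            exact hHb)
        rwa [Cs_Pd] at h3
      obtain ⟨b, hb⟩ : ∃ b, b = n - r - (Ds P Y).card := ⟨_, rfl⟩
      obtain ⟨N, hN⟩ : ∃ N, N = (nbrs P r (Cs P Y)).card := ⟨_, rfl⟩
      obtain ⟨A, hA⟩ : ∃ A, A = L / 16 + 1 := ⟨_, rfl⟩
      rw [← hb] at hcnt hHb hbb
      rw [← hN] at hcnt ⊢
      rw [← hA] at hbb ⊢
      have h5 : n * N ≤ n * (16384 * (A ^ 2 * L)) := by
        calc n * N ≤ 64 * ((Cs P Y).card - 1) * N := Nat.mul_le_mul_right _ hc1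
          _ = 64 * (N * ((Cs P Y).card - 1)) := by ring
          _ ≤ 64 * (2 * b * (128 * (b * (n * L)))) :=
              Nat.mul_le_mul_left _ (hcnt.trans (Nat.mul_le_mul_left _ hHb.le))
          _ = 16384 * (b * b * (n * L)) := by ring
          _ ≤ 16384 * (A * A * (n * L)) :=
              Nat.mul_le_mul_left _ (Nat.mul_le_mul_right _ (Nat.mul_le_mul hbb hbb))
          _ = n * (16384 * (A ^ 2 * L)) := by ring
      exact Nat.le_of_mul_le_mul_left h5 (by omega)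
  · -- the small partner
    by_contra hcon
    have hq : ∀ x ∈ Y, x ∉ Cs P Y → ∀ y ∈ Ds P Y,
        16384 * L + 3 ≤ (Ds P (insert y (Y.erase x))).card := by
      intro x hx hxC y hy
      by_contra hlt
      apply hcon
      have s := Cs_swap h.hP (h.hK.1 Y hY) hx hxC hy
      have hm := h.hK.2 Y hY x hx y (mem_Ds.1 hy).1 s.1
      exact ⟨_, hm, by rw [s.2]; exact hne, s.2, by omega⟩
    have h2 := deg2 h.hP (h.hKr Y hY) (h.hK.1 Y hY) _ hq
    obtain ⟨b, hb⟩ : ∃ b, r - (Cs P Y).card = b + 1 := ⟨r - (Cs P Y).card - 1, by omega⟩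
    rw [hb] at h2 hH
    rw [Nat.add_sub_cancel] at h2
    have h3 : (b + 1) * (n * (16384 * L + 2)) < (b + 1) * (n * (16384 * L)) := by
      calc (b + 1) * (n * (16384 * L + 2)) = (b + 1) * (1 * n * (16384 * L + 2)) := by ring
        _ ≤ (b + 1) * (b * (32 * (Ds P Y).card) * (16384 * L + 3 - 1)) := by
            apply Nat.mul_le_mul_left
            exact Nat.mul_le_mul (Nat.mul_le_mul (by omega) hD) (by omega)
        _ = 32 * ((b + 1) * b * (Ds P Y).card * (16384 * L + 3 - 1)) := by ring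
        _ ≤ 32 * (4 * (cell P r (Sum.inl (Cs P Y))).card) := Nat.mul_le_mul_left _ h2
        _ < 32 * (4 * (128 * ((b + 1) * (n * L)))) := by omega
        _ = (b + 1) * (n * (16384 * L)) := by ring
    have h4 := Nat.lt_of_mul_lt_mul_left h3
    have h5 := Nat.lt_of_mul_lt_mul_left h4
    omega

/-- The classification. -/
theorem classify (h : Ctx n r g P K) (hg : 2 ^ 18 + 1 ≤ g) (hn : 64 ≤ n) (hY : Y ∈ K)
    (hne : (Cs P Y).Nonempty) (hor : (Cs P Y).card < r ∨ (Ds P Y).card + r < n) :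
    ∃ d : Desc n, (d = Sum.inl (Cs P Y) ∨ d = Sum.inr (Ds P Y)) ∧
      (IsT P r K d ∨ IsL P r K d ∨ IsH P r K L d ∨ IsX P r K L d) := by
  have hrn : r ≤ n := by
    have := h.h2
    omega
  have hd := h.dual
  have hY' : Yᶜ ∈ Kc K := mem_Kc.2 (by rwa [compl_compl])
  have hne' : (Cs (Pd P) Yᶜ).Nonempty := by
    rw [Cs_Pd]
    exact Ds_nonempty_iff.2 hne
  have hcell := card_cell_swap (P := P) hrn (Sum.inr (Ds P Y))
  rw [Sum.swap_inr] at hcell
  have hcell' := card_cell_swap (P := P) hrn (Sum.inl (Cs P Y))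
  rw [Sum.swap_inl] at hcell'
  have pC : Present P K (Sum.inl (Cs P Y)) := ⟨Y, hY, hne, rfl⟩
  have pD : Present P K (Sum.inr (Ds P Y)) := ⟨Y, hY, hne, rfl⟩
  by_cases c1 : 32 * (Ds P Y).card < n
  · refine ⟨_, Or.inr rfl, Or.inl ⟨pD, ?_⟩⟩
    have := hd.small hg hn hY' hne' (by rw [Cs_Pd]; exact c1)
    rw [Cs_Pd, hcell] at this
    exact this
  by_cases c2 : 32 * (Cs P Y).card < n
  · exact ⟨_, Or.inl rfl, Or.inl ⟨pC, h.small hg hn hY hne c2⟩⟩
  push Not at c1 c2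
  by_cases c3 : r - (Cs P Y).card = 1
  · exact ⟨_, Or.inl rfl, Or.inr (Or.inl ⟨pC, c3⟩)⟩
  by_cases c4 : n - r - (Ds P Y).card = 1
  · exact ⟨_, Or.inr rfl, Or.inr (Or.inl ⟨pD, c4⟩)⟩
  by_cases c5 : 2 ≤ r - (Cs P Y).card ∧
      128 * ((r - (Cs P Y).card) * (n * L)) ≤ (cell P r (Sum.inl (Cs P Y))).card
  · exact ⟨_, Or.inl rfl, Or.inr (Or.inr (Or.inl ⟨pC, c5.1, c5.2⟩))⟩
  by_cases c6 : 2 ≤ n - r - (Ds P Y).card ∧
      128 * ((n - r - (Ds P Y).card) * (n * L)) ≤ (cell P r (Sum.inr (Ds P Y))).card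
  · exact ⟨_, Or.inr rfl, Or.inr (Or.inr (Or.inl ⟨pD, c6.1, c6.2⟩))⟩
  by_cases c7 : 2 ≤ r - (Cs P Y).card
  · exact ⟨_, Or.inl rfl, Or.inr (Or.inr (Or.inr (h.isX_inl hg hn hY hne c2 c1 c7 c4
      (by by_contra hh; exact c5 ⟨c7, by omega⟩)
      (fun h2 => by by_contra hh; exact c6 ⟨h2, by omega⟩))))⟩
  · have c8 : 2 ≤ n - r - (Ds P Y).card := by omega
    refine ⟨_, Or.inr rfl, Or.inr (Or.inr (Or.inr ?_))⟩
    rw [← isX_swap hrn, Sum.swap_inr]
    have := hd.isX_inl (L := L) hg hn hY' hne' (by rw [Cs_Pd]; exact c1) (by rw [Ds_Pd]; exact c2)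
      (by rw [Cs_Pd]; exact c8) (by rw [Ds_Pd]; omega)
      (by rw [Cs_Pd, hcell]; by_contra hh; exact c6 ⟨c8, by omega⟩)
      (by rw [Ds_Pd]; intro h9; exfalso; omega)
    rwa [Cs_Pd] at this

/-- The small partner of a remaining descriptor has a large cell. -/
lemma partner_isT (h : Ctx n r g P K) (hg : 2 ^ 18 + 1 ≤ g) (hn : 64 ≤ n) (q : ℕ)
    (hq : 32 * q < n) {d : Desc n} (hd : Partner P K q d) :
    (∃ C, d = Sum.inl C ∧ ∃ D, D.card ≤ q ∧ Disjoint C D ∧ IsT P r K (Sum.inr D)) ∨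
      (∃ D, d = Sum.inr D ∧ ∃ C, C.card ≤ q ∧ Disjoint D C ∧ IsT P r K (Sum.inl C)) := by
  have hrn : r ≤ n := by
    have := h.h2
    omega
  rcases d with C | D
  · left
    obtain ⟨Y, hY, hne, rfl, h1⟩ := hd
    refine ⟨_, rfl, Ds P Y, h1, disjoint_of_subset_left Cs_subset disjoint_Ds,
      ⟨Y, hY, hne, rfl⟩, ?_⟩
    have hY' : Yᶜ ∈ Kc K := mem_Kc.2 (by rwa [compl_compl])
    have h2 := h.dual.small hg hn hY' (by rw [Cs_Pd]; exact Ds_nonempty_iff.2 hne)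
      (by rw [Cs_Pd]; omega)
    have hcell := card_cell_swap (P := P) hrn (Sum.inr (Ds P Y))
    rw [Sum.swap_inr] at hcell
    rw [Cs_Pd, hcell] at h2
    exact h2
  · right
    obtain ⟨Y, hY, hne, rfl, h1⟩ := hd
    exact ⟨_, rfl, Cs P Y, h1, (disjoint_of_subset_left Cs_subset disjoint_Ds).symm,
      ⟨Y, hY, hne, rfl⟩, h.small hg hn hY hne (by omega)⟩

end Ctx

end Pool.Agent.Matroid6d
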