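import Pool.Agent.Matroid6d.WMat

/-!
Weighted sums over the matroids of a given rank that are not sparse paving.
-/

set_option autoImplicit false

namespace Pool.Agent.Matroid6d

open Finset

variable {n : ℕ}

open Classical in
/-- The weighted sum for a fixed set of non-isolated non-bases. -/
lemma perU (hn : 0 < n) (r : ℕ) (U : Finset (Finset (Fin n))) (hU : ∀ X ∈ U, X.card = r)
    (κ x lam : ℝ) (hκ : 0 ≤ κ) (hx : 0 ≤ x) (hlam : 0 ≤ lam)
    (hxl : x ^ n ≤ lam ^ n * max 1 κ) :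
    x ^ U.card * ∑ M ∈ (allMat n).filter (fun M => rk M = r ∧ Us (Bs M) r = U), κ ^ numCH M ≤
      lam ^ U.card * Zs n r κ := by
  have hn0 : n ≠ 0 := by omega
  rcases le_total κ 1 with h1 | h1
  · rw [max_eq_left h1, mul_one, pow_le_pow_iff_left₀ hx hlam hn0] at hxl
    have h2 := fixedU r U κ hκ ∅ (empty_subset _) (fun X hX => absurd hX (notMem_empty X))
    rw [card_empty, pow_zero, mul_one] at h2
    apply mul_le_mul (pow_le_pow_left₀ hx hxl _) h2 _ (by positivity)
    exact sum_nonneg (fun _ _ => by positivity)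
  · rw [max_eq_right h1] at hxl
    obtain ⟨S₀, hS₀, hst, hc⟩ := exists_stable_sub hn r U hU
    have h2 := fixedU r U κ hκ S₀ hS₀ hst
    have h3 : x ^ U.card ≤ lam ^ U.card * κ ^ S₀.card := by
      rw [← pow_le_pow_iff_left₀ (by positivity) (by positivity) hn0]
      calc (x ^ U.card) ^ n = (x ^ n) ^ U.card := by rw [← pow_mul, ← pow_mul, mul_comm]
        _ ≤ (lam ^ n * κ) ^ U.card := pow_le_pow_left₀ (by positivity) hxl _
        _ = (lam ^ U.card) ^ n * κ ^ U.card := by
            rw [mul_pow, ← pow_mul, ← pow_mul, mul_comm n]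
        _ ≤ (lam ^ U.card) ^ n * κ ^ (n * S₀.card) :=
            mul_le_mul_of_nonneg_left (pow_le_pow_right₀ h1 hc) (by positivity)
        _ = (lam ^ U.card * κ ^ S₀.card) ^ n := by
            rw [mul_pow, ← pow_mul κ, mul_comm S₀.card]
    calc x ^ U.card * ∑ M ∈ (allMat n).filter (fun M => rk M = r ∧ Us (Bs M) r = U), κ ^ numCH M
        ≤ (lam ^ U.card * κ ^ S₀.card) *
          ∑ M ∈ (allMat n).filter (fun M => rk M = r ∧ Us (Bs M) r = U), κ ^ numCH M :=
          mul_le_mul_of_nonneg_right h3 (sum_nonneg (fun _ _ => by positivity))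
      _ = lam ^ U.card * ((∑ M ∈ (allMat n).filter (fun M => rk M = r ∧ Us (Bs M) r = U),
            κ ^ numCH M) * κ ^ S₀.card) := by ring
      _ ≤ lam ^ U.card * Zs n r κ := mul_le_mul_of_nonneg_left h2 (by positivity)

open Classical in
/-- The weighted sum over the matroids of rank `r` that are not sparse paving. -/
lemma mid_sum (hn : 0 < n) (r : ℕ) (κ x lam : ℝ) (hκ : 0 ≤ κ) (hx : 0 ≤ x) (hlam : 0 ≤ lam)
    (hxl : x ^ n ≤ lam ^ n * max 1 κ) (Q : ℕ → Prop) :
    ∑ M ∈ (allMat n).filter (fun M => rk M = r ∧ ¬ SparsePaving M ∧ Q (numOther M)),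
      x ^ numOther M * κ ^ numCH M ≤
    (∑ U ∈ (UU n r).filter (fun U => U.Nonempty ∧ Q U.card), lam ^ U.card) * Zs n r κ := by
  set A := (allMat n).filter (fun M => rk M = r ∧ ¬ SparsePaving M ∧ Q (numOther M)) with hA
  set B := (UU n r).filter (fun U => U.Nonempty ∧ Q U.card) with hB
  have hmem : ∀ M ∈ A, M.E = Set.univ ∧ rk M = r ∧ ¬ SparsePaving M ∧ Q (numOther M) := by
    intro M hM
    rw [hA, mem_filter, mem_allMat] at hM
    exact hM
  have hmaps : ∀ M ∈ A, Us (Bs M) r ∈ B := by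
    intro M hM
    obtain ⟨hE, hr, hsp, hQ⟩ := hmem M hM
    rw [hB, mem_filter, mem_UU]
    refine ⟨⟨Bs M, exch_bs M, fun X hX => (card_of_bs hX).trans hr, exists_bs M, rfl⟩, ?_, ?_⟩
    · rw [← hr]; exact nonempty_of_not_sparse hE hsp
    · rw [← hr, ← numOther_eq hE]; exact hQ
  rw [← sum_fiberwise_of_maps_to hmaps, sum_mul]
  refine sum_le_sum (fun U hU => ?_)
  have hUr : ∀ X ∈ U, X.card = r := by
    intro X hX
    rw [hB, mem_filter, mem_UU] at hU
    obtain ⟨⟨P, _, _, _, rfl⟩, _⟩ := hU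
    exact (mem_Us.1 hX).1.1
  refine le_trans ?_ (perU hn r U hUr κ x lam hκ hx hlam hxl)
  rw [mul_sum]
  calc ∑ M ∈ A with Us (Bs M) r = U, x ^ numOther M * κ ^ numCH M
      = ∑ M ∈ A with Us (Bs M) r = U, x ^ U.card * κ ^ numCH M := by
        refine sum_congr rfl (fun M hM => ?_)
        rw [mem_filter] at hM
        obtain ⟨hE, hr, _, _⟩ := hmem M hM.1
        rw [numOther_eq hE, hr, hM.2]
    _ ≤ _ := by
        apply sum_le_sum_of_subset_of_nonneg
        · intro M hM
          rw [mem_filter] at hM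
          obtain ⟨hE, hr, _, _⟩ := hmem M hM.1
          exact mem_filter.2 ⟨mem_allMat.2 hE, hr, hM.2⟩
        · intro _ _ _
          positivity

open Classical in
/-- The tail of the weighted sum over the possible sets of non-isolated non-bases. -/
lemma tail_sum (r K m : ℕ) (hK : 1 ≤ K) (hm : 4 * K ≤ m) (hmr : m ≤ r) (hmr' : m + r ≤ n)
    (l σ δ ρ lam : ℝ) (hl : 0 ≤ l) (hσ : 0 ≤ σ) (hδ : 0 ≤ δ) (hδ1 : δ ≤ 1)
    (hlam0 : 0 ≤ lam) (hlam : lam ≤ Real.exp (-(l + σ))) :
    ∑ U ∈ (UU n r).filter (fun U => U.Nonempty ∧ ρ ^ n ≤ (U.card : ℝ)), lam ^ U.card ≤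
      Real.exp (-(σ * (ρ ^ n / 2 + m / 4))) *
      Real.exp (2 ^ (n + 1) * (Real.exp (-(l * (1 - δ) * (m - 2 * K))) *
        Real.exp ((n + 1) ^ (4 * K) * Real.exp (-(l * δ / 6 * (m - 2 * K)))) +
        Real.exp (-(l * δ / 6 * (K * m)))) + (n + 1) ^ (2 * K) * Real.exp (-(l * δ / 12 * m))) := by
  refine le_trans ?_ (mul_le_mul_of_nonneg_left
    (wsum r K m hK hm hmr hmr' l δ hl hδ hδ1) (Real.exp_pos _).le)
  rw [mul_sum]
  refine le_trans ?_ (sum_le_sum_of_subset_of_nonneg (filter_subset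
    (fun U : Finset (Finset (Fin n)) => U.Nonempty ∧ ρ ^ n ≤ (U.card : ℝ)) (UU n r)) (by
      intro U _ _
      positivity))
  refine sum_le_sum (fun U hU => ?_)
  rw [mem_filter, mem_UU] at hU
  obtain ⟨⟨P, hP, hr, hne, rfl⟩, hUne, hρ⟩ := hU
  obtain ⟨_, _, _, _, _, _, _, _, _, _, _, h8⟩ := encode hP hr hne K m hK hm hmr hmr'
  have h9 : (m : ℝ) ≤ 2 * (Us P r).card := by exact_mod_cast h8 hUne
  calc lam ^ (Us P r).card ≤ (Real.exp (-(l + σ))) ^ (Us P r).card :=
        pow_le_pow_left₀ hlam0 hlam _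
    _ = Real.exp ((Us P r).card * (-(l + σ))) := by rw [Real.exp_nat_mul]
    _ ≤ Real.exp (-(σ * (ρ ^ n / 2 + m / 4)) + -(l * (Us P r).card)) := by
        apply Real.exp_le_exp.2
        have h10 : σ * (ρ ^ n / 2 + m / 4) ≤ σ * (Us P r).card :=
          mul_le_mul_of_nonneg_left (by linarith) hσ
        nlinarith [h10]
    _ = _ := Real.exp_add _ _

lemma card_Us_add_Ws (P : Finset (Fin n) → Prop) (r : ℕ) :
    (Us P r).card + (Ws P r).card ≤ n.choose r := by
  classical
  rw [← card_union_of_disjoint disjoint_Ws_Us.symm]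
  have h1 : (powersetCard r (univ : Finset (Fin n))).card = n.choose r := by
    rw [card_powersetCard, card_univ, Fintype.card_fin]
  rw [← h1]
  apply card_le_card
  intro X hX
  rw [mem_powersetCard]
  refine ⟨subset_univ _, ?_⟩
  rw [mem_union] at hX
  rcases hX with h | h
  · exact (mem_Us.1 h).1.1
  · exact (mem_Ws.1 h).1.1

open Classical in
/-- The trivial bound for the matroids of rank `r`. -/
lemma ext_sum (r : ℕ) (κ x : ℝ) (hκ : 0 ≤ κ) (hx : 0 ≤ x) (hxκ : x ≤ max 1 κ)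
    (Q : Matroid (Fin n) → Prop) :
    ∑ M ∈ (allMat n).filter (fun M => rk M = r ∧ Q M), x ^ numOther M * κ ^ numCH M ≤
      (2 * max 1 κ) ^ (n.choose r) := by
  set A := (allMat n).filter (fun M => rk M = r ∧ Q M) with hA
  have h1 : ∀ M ∈ A, x ^ numOther M * κ ^ numCH M ≤ (max 1 κ) ^ (n.choose r) := by
    intro M hM
    rw [hA, mem_filter, mem_allMat] at hM
    obtain ⟨hE, hr, _⟩ := hM
    calc x ^ numOther M * κ ^ numCH M ≤ (max 1 κ) ^ numOther M * (max 1 κ) ^ numCH M := by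
          apply mul_le_mul (pow_le_pow_left₀ hx hxκ _)
            (pow_le_pow_left₀ hκ (le_max_right _ _) _) (by positivity) (by positivity)
      _ = (max 1 κ) ^ (numOther M + numCH M) := (pow_add _ _ _).symm
      _ ≤ (max 1 κ) ^ (n.choose r) := by
          apply pow_le_pow_right₀ (le_max_left _ _)
          rw [numOther_eq hE, numCH_eq hE, hr]
          exact card_Us_add_Ws _ _
  have h2 : A.card ≤ 2 ^ (n.choose r) := by
    have h3 := card_rank_le {M : Matroid (Fin n) | M.E = Set.univ} (fun _ h => h) r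
    refine le_trans ?_ h3
    rw [← Set.ncard_coe_finset]
    apply Set.ncard_le_ncard
    · intro M hM
      rw [mem_coe, hA, mem_filter, mem_allMat] at hM
      exact ⟨hM.1, fun X hX => (card_of_bs hX).trans hM.2.1⟩
    · exact (finite_mats {M : Matroid (Fin n) | M.E = Set.univ} (fun _ h => h)).subset
        (fun M hM => hM.1)
  calc ∑ M ∈ A, x ^ numOther M * κ ^ numCH M ≤ A.card • (max 1 κ) ^ (n.choose r) :=
        sum_le_card_nsmul _ _ _ h1
    _ = (A.card : ℝ) * (max 1 κ) ^ (n.choose r) := by rw [nsmul_eq_mul]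
    _ ≤ (2 : ℝ) ^ (n.choose r) * (max 1 κ) ^ (n.choose r) := by
        apply mul_le_mul_of_nonneg_right _ (by positivity)
        exact_mod_cast h2
    _ = _ := (mul_pow _ _ _).symm

end Pool.Agent.Matroid6d
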