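import Pool.Agent.Matroid6d.Encode

/-!
The weighted sum over the possible sets of non-isolated non-bases.
-/

set_option autoImplicit false

namespace Pool.Agent.Matroid6d

open Finset

variable {n : ℕ}

open Classical in
/-- The possible sets of non-isolated non-bases in rank `r`. -/
noncomputable def UU (n r : ℕ) : Finset (Finset (Finset (Fin n))) :=
  univ.filter (fun U => ∃ P : Finset (Fin n) → Prop, Exch P ∧ (∀ X, P X → X.card = r) ∧
    (∃ B, P B) ∧ U = Us P r)

lemma mem_UU {r : ℕ} {U : Finset (Finset (Fin n))} :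
    U ∈ UU n r ↔ ∃ P : Finset (Fin n) → Prop, Exch P ∧ (∀ X, P X → X.card = r) ∧
    (∃ B, P B) ∧ U = Us P r := by
  classical
  simp only [UU, mem_filter, mem_univ, true_and]

lemma sum_powerset_pow {α : Type} (s : Finset α) (a : ℝ) :
    ∑ t ∈ s.powerset, a ^ t.card = (1 + a) ^ s.card := by
  have := Finset.sum_pow_mul_eq_add_pow a 1 s
  simp only [one_pow, mul_one] at this
  rw [this, add_comm]

lemma one_add_pow_le_exp {a : ℝ} (ha : 0 ≤ a) (k : ℕ) : (1 + a) ^ k ≤ Real.exp (k * a) := by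
  rw [Real.exp_nat_mul]
  apply pow_le_pow_left₀ (by linarith)
  have := Real.add_one_le_exp a
  linarith

lemma card_desc (n : ℕ) : (univ : Finset (Desc n)).card = 2 ^ (n + 1) := by
  rw [card_univ, Fintype.card_sum, Fintype.card_finset, Fintype.card_fin, pow_succ]
  ring

/-- The sum over all codes. -/
lemma code_sum (K : ℕ) (a b c d : ℝ) (ha : 0 ≤ a) (hb : 0 ≤ b) (hc : 0 ≤ c) (hd : 0 ≤ d) :
    ∑ R : Finset (Desc n), ∑ S ∈ (nbh K R).powerset, ∑ T₁ : Finset (Desc n),
      ∑ T₂ ∈ (tinies n K).powerset, a ^ R.card * b ^ S.card * (c ^ T₁.card * d ^ T₂.card) ≤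
    Real.exp (2 ^ (n + 1) * (a * Real.exp ((n + 1) ^ (4 * K) * b) + c) +
      (n + 1) ^ (2 * K) * d) := by
  have h1 : ∀ (R S : Finset (Desc n)), ∑ T₁ : Finset (Desc n), ∑ T₂ ∈ (tinies n K).powerset,
      a ^ R.card * b ^ S.card * (c ^ T₁.card * d ^ T₂.card) =
      a ^ R.card * b ^ S.card * ((1 + c) ^ (2 ^ (n + 1)) * (1 + d) ^ (tinies n K).card) := by
    intro R S
    rw [← sum_powerset_pow (tinies n K) d, ← card_desc n, ← sum_powerset_pow univ c,
      powerset_univ, sum_mul_sum, mul_sum]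
    refine sum_congr rfl (fun T₁ _ => ?_)
    rw [mul_sum]
  simp_rw [h1]
  have h2 : ∀ R : Finset (Desc n), ∑ S ∈ (nbh K R).powerset,
      a ^ R.card * b ^ S.card * ((1 + c) ^ (2 ^ (n + 1)) * (1 + d) ^ (tinies n K).card) =
      a ^ R.card * (1 + b) ^ (nbh K R).card *
        ((1 + c) ^ (2 ^ (n + 1)) * (1 + d) ^ (tinies n K).card) := by
    intro R
    rw [← sum_mul, ← mul_sum, sum_powerset_pow]
  simp_rw [h2]
  rw [← sum_mul]
  have h3 : ∑ R : Finset (Desc n), a ^ R.card * (1 + b) ^ (nbh K R).card ≤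
      Real.exp (2 ^ (n + 1) * (a * Real.exp ((n + 1) ^ (4 * K) * b))) := by
    have h4 : ∀ R : Finset (Desc n), a ^ R.card * (1 + b) ^ (nbh K R).card ≤
        (a * Real.exp ((n + 1) ^ (4 * K) * b)) ^ R.card := by
      intro R
      rw [mul_pow]
      apply mul_le_mul_of_nonneg_left _ (by positivity)
      calc (1 + b) ^ (nbh K R).card ≤ (1 + b) ^ (R.card * (n + 1) ^ (4 * K)) :=
            pow_le_pow_right₀ (by linarith) (card_nbh K R)
        _ = ((1 + b) ^ ((n + 1) ^ (4 * K))) ^ R.card := by rw [mul_comm, pow_mul]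
        _ ≤ (Real.exp ((n + 1) ^ (4 * K) * b)) ^ R.card := by
            apply pow_le_pow_left₀ (by positivity)
            have := one_add_pow_le_exp hb ((n + 1) ^ (4 * K))
            push_cast at this
            exact this
    calc ∑ R : Finset (Desc n), a ^ R.card * (1 + b) ^ (nbh K R).card
        ≤ ∑ R : Finset (Desc n), (a * Real.exp ((n + 1) ^ (4 * K) * b)) ^ R.card :=
          sum_le_sum (fun R _ => h4 R)
      _ = (1 + a * Real.exp ((n + 1) ^ (4 * K) * b)) ^ (2 ^ (n + 1)) := by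
          rw [← card_desc n, ← sum_powerset_pow, powerset_univ]
      _ ≤ _ := by
          have := one_add_pow_le_exp (a := a * Real.exp ((n + 1) ^ (4 * K) * b)) (by positivity)
            (2 ^ (n + 1))
          push_cast at this
          exact this
  have h5 : (1 + c) ^ (2 ^ (n + 1)) ≤ Real.exp (2 ^ (n + 1) * c) := by
    have := one_add_pow_le_exp hc (2 ^ (n + 1))
    push_cast at this
    exact this
  have h6 : (1 + d) ^ (tinies n K).card ≤ Real.exp ((n + 1) ^ (2 * K) * d) := by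
    calc (1 + d) ^ (tinies n K).card ≤ (1 + d) ^ ((n + 1) ^ (2 * K)) :=
          pow_le_pow_right₀ (by linarith) (card_tinies n K)
      _ ≤ _ := by
          have := one_add_pow_le_exp hd ((n + 1) ^ (2 * K))
          push_cast at this
          exact this
  calc (∑ R : Finset (Desc n), a ^ R.card * (1 + b) ^ (nbh K R).card) *
        ((1 + c) ^ (2 ^ (n + 1)) * (1 + d) ^ (tinies n K).card)
      ≤ Real.exp (2 ^ (n + 1) * (a * Real.exp ((n + 1) ^ (4 * K) * b))) *
        (Real.exp (2 ^ (n + 1) * c) * Real.exp ((n + 1) ^ (2 * K) * d)) := by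
        apply mul_le_mul h3 _ (by positivity) (by positivity)
        exact mul_le_mul h5 h6 (by positivity) (by positivity)
    _ = _ := by
        rw [← Real.exp_add, ← Real.exp_add]
        congr 1
        ring

/-- The weighted sum over the possible sets of non-isolated non-bases. -/
theorem wsum (r K m : ℕ) (hK : 1 ≤ K) (hm : 4 * K ≤ m) (hmr : m ≤ r) (hmr' : m + r ≤ n)
    (l δ : ℝ) (hl : 0 ≤ l) (hδ : 0 ≤ δ) (hδ1 : δ ≤ 1) :
    ∑ U ∈ UU n r, Real.exp (-(l * U.card)) ≤
      Real.exp (2 ^ (n + 1) * (Real.exp (-(l * (1 - δ) * (m - 2 * K))) *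
        Real.exp ((n + 1) ^ (4 * K) * Real.exp (-(l * δ / 6 * (m - 2 * K)))) +
        Real.exp (-(l * δ / 6 * (K * m)))) + (n + 1) ^ (2 * K) * Real.exp (-(l * δ / 12 * m))) := by
  classical
  set a := Real.exp (-(l * (1 - δ) * (m - 2 * K))) with ha
  set b := Real.exp (-(l * δ / 6 * (m - 2 * K))) with hb
  set c := Real.exp (-(l * δ / 6 * (K * m))) with hc
  set d := Real.exp (-(l * δ / 12 * m)) with hd
  refine le_trans ?_ (code_sum (n := n) K a b c d (Real.exp_pos _).le (Real.exp_pos _).le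
    (Real.exp_pos _).le (Real.exp_pos _).le)
  -- the code of a member
  have key : ∀ U ∈ UU n r, ∃ q : (Σ _ : Finset (Desc n), Finset (Desc n)) ×
      (Finset (Desc n) × Finset (Desc n)),
      U = decode r (q.1.1 ∪ q.1.2 ∪ q.2.1 ∪ q.2.2) ∧ q.1.2 ⊆ nbh K q.1.1 ∧
      q.2.2 ⊆ tinies n K ∧ Real.exp (-(l * U.card)) ≤
        a ^ q.1.1.card * b ^ q.1.2.card * (c ^ q.2.1.card * d ^ q.2.2.card) := by
    intro U hU
    obtain ⟨P, hP, hr, hne, rfl⟩ := mem_UU.1 hU
    obtain ⟨R, S, T₁, T₂, h1, h2, h3, h4, h5, h6, h7, _⟩ := encode hP hr hne K m hK hm hmr hmr'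
    refine ⟨⟨⟨R, S⟩, T₁, T₂⟩, h1, h2, h3, ?_⟩
    simp only
    rw [ha, hb, hc, hd, ← Real.exp_nat_mul, ← Real.exp_nat_mul, ← Real.exp_nat_mul,
      ← Real.exp_nat_mul, ← Real.exp_add, ← Real.exp_add, ← Real.exp_add]
    apply Real.exp_le_exp.2
    have e1 : ((m - 2 * K : ℕ) : ℝ) = (m : ℝ) - 2 * K := by
      rw [Nat.cast_sub (by omega)]
      push_cast
      ring
    have g4 : (R.card : ℝ) * ((m : ℝ) - 2 * K) ≤ (Us P r).card := by
      rw [← e1]; exact_mod_cast h4
    have g5 : (S.card : ℝ) * ((m : ℝ) - 2 * K) ≤ 2 * (Us P r).card := by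
      rw [← e1]; exact_mod_cast h5
    have g6 : (T₁.card : ℝ) * ((K : ℝ) * m) ≤ 2 * (Us P r).card := by exact_mod_cast h6
    have g7 : (T₂.card : ℝ) * (m : ℝ) ≤ 4 * (Us P r).card := by exact_mod_cast h7
    have w1 : 0 ≤ l * (1 - δ) := mul_nonneg hl (by linarith)
    have w2 : 0 ≤ l * δ / 6 := by positivity
    have w3 : 0 ≤ l * δ / 12 := by positivity
    have k1 := mul_le_mul_of_nonneg_left g4 w1
    have k2 := mul_le_mul_of_nonneg_left g5 w2
    have k3 := mul_le_mul_of_nonneg_left g6 w2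
    have k4 := mul_le_mul_of_nonneg_left g7 w3
    nlinarith [k1, k2, k3, k4]
  choose! φ hφ1 hφ2 hφ3 hφ4 using key
  set f : (Σ _ : Finset (Desc n), Finset (Desc n)) × (Finset (Desc n) × Finset (Desc n)) → ℝ :=
    fun q => a ^ q.1.1.card * b ^ q.1.2.card * (c ^ q.2.1.card * d ^ q.2.2.card) with hf
  set I := ((univ : Finset (Finset (Desc n))).sigma (fun R => (nbh K R).powerset)) ×ˢ
    ((univ : Finset (Finset (Desc n))) ×ˢ (tinies n K).powerset) with hI
  have hinj : Set.InjOn φ (UU n r : Set (Finset (Finset (Fin n)))) := by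
    intro U hU V hV h
    rw [hφ1 U hU, hφ1 V hV, h]
  calc ∑ U ∈ UU n r, Real.exp (-(l * U.card)) ≤ ∑ U ∈ UU n r, f (φ U) :=
        sum_le_sum (fun U hU => hφ4 U hU)
    _ = ∑ q ∈ (UU n r).image φ, f q := (sum_image hinj).symm
    _ ≤ ∑ q ∈ I, f q := by
        apply sum_le_sum_of_subset_of_nonneg
        · intro q hq
          rw [mem_image] at hq
          obtain ⟨U, hU, rfl⟩ := hq
          rw [hI, mem_product, mem_sigma, mem_product, mem_powerset, mem_powerset]
          exact ⟨⟨mem_univ _, hφ2 U hU⟩, mem_univ _, hφ3 U hU⟩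
        · intro q _ _
          have := Real.exp_pos
          positivity
    _ = _ := by
        rw [hI, sum_product, sum_sigma]
        refine sum_congr rfl (fun R _ => sum_congr rfl (fun S _ => ?_))
        rw [sum_product]

end Pool.Agent.Matroid6d
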